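import Mathlib

/-!
Polygons that fold into boxes.
-/

namespace Pool.Agent.Helper697.Box

/-- The Euclidean plane. -/
abbrev Plane : Type := EuclideanSpace ℝ (Fin 2)

/-- Euclidean 3-space. -/
abbrev Space : Type := EuclideanSpace ℝ (Fin 3)

/-- `P` is a polygon: a closed planar region bounded by a simple closed polygonal curve.
The curve has the corners `v 0, …, v (n - 1)`, in this cyclic order; it is simple, i.e. two of its
edges have no point in common, except that consecutive edges share their common corner. The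
region is compact, its interior is nonempty and connected, and its boundary is the curve. -/
def IsPolygon (P : Set Plane) : Prop :=
  ∃ (n : ℕ) (v : ℕ → Plane), 3 ≤ n ∧ (∀ i, v (i + n) = v i) ∧ (∀ i, v i ≠ v (i + 1)) ∧
    (∀ i j, i < j → j < n → ∀ x ∈ segment ℝ (v i) (v (i + 1)), x ∈ segment ℝ (v j) (v (j + 1)) →
      (j = i + 1 ∧ x = v j) ∨ (i = 0 ∧ j + 1 = n ∧ x = v 0)) ∧
    IsCompact P ∧ IsConnected (interior P) ∧
    frontier P = ⋃ i < n, segment ℝ (v i) (v (i + 1))

/-- The surface of the box `[0, a] × [0, b] × [0, c]`, a box with edge lengths `a`, `b`, `c`. -/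
def boxSurface (a b c : ℝ) : Set Space :=
  {z | (0 ≤ z 0 ∧ z 0 ≤ a) ∧ (0 ≤ z 1 ∧ z 1 ≤ b) ∧ (0 ≤ z 2 ∧ z 2 ≤ c) ∧
    (z 0 = 0 ∨ z 0 = a ∨ z 1 = 0 ∨ z 1 = b ∨ z 2 = 0 ∨ z 2 = c)}

/-- `P` folds onto the surface `S`: there is a continuous map `f` from `P` onto `S` that preserves
the lengths of all curves in `P`, such that every point of `S` that is the image of an interior
point of `P` has exactly one preimage. -/
def FoldsOnto (P : Set Plane) (S : Set Space) : Prop :=
  ∃ f : Plane → Space, ContinuousOn f P ∧ f '' P = S ∧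
    (∀ (γ : ℝ → Plane) (s t : ℝ), ContinuousOn γ (Set.Icc s t) → (∀ r ∈ Set.Icc s t, γ r ∈ P) →
      eVariationOn (f ∘ γ) (Set.Icc s t) = eVariationOn γ (Set.Icc s t)) ∧
    (∀ x ∈ interior P, ∀ y ∈ P, f x = f y → x = y)

/-- `P` folds into the box with edge lengths `a`, `b`, `c`. -/
def FoldsIntoBox (P : Set Plane) (a b c : ℝ) : Prop :=
  FoldsOnto P (boxSurface a b c)

/-- Two boxes, given by their edge lengths, are different: the multisets of edge lengths
differ. -/
def DifferentBoxes (B B' : ℝ × ℝ × ℝ) : Prop :=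
  ({B.1, B.2.1, B.2.2} : Multiset ℝ) ≠ {B'.1, B'.2.1, B'.2.2}

end Pool.Agent.Helper697.Box
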