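import Mathlib

/-!
Polyominoes folding to cubes, and rep-cubes.
-/

namespace Pool.Agent.Helper697.Rep

/-- The Euclidean plane. -/
abbrev Plane : Type := EuclideanSpace ℝ (Fin 2)

/-- Euclidean 3-space. -/
abbrev Space : Type := EuclideanSpace ℝ (Fin 3)

/-- The closed unit square of the integer grid whose lower left corner is `c`. -/
def square (c : ℤ × ℤ) : Set Plane :=
  {p | ((c.1 : ℝ) ≤ p 0 ∧ p 0 ≤ (c.1 : ℝ) + 1) ∧ ((c.2 : ℝ) ≤ p 1 ∧ p 1 ≤ (c.2 : ℝ) + 1)}

/-- The plane region formed by a finite set of unit squares of the grid. -/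
def region (P : Finset (ℤ × ℤ)) : Set Plane := ⋃ c ∈ P, square c

/-- Two unit squares of the grid share an edge. -/
def EdgeAdj (c d : ℤ × ℤ) : Prop := |c.1 - d.1| + |c.2 - d.2| = 1

/-- A polyomino: a nonempty finite set of unit squares connected through shared edges. -/
def IsPolyomino (P : Finset (ℤ × ℤ)) : Prop :=
  P.Nonempty ∧ ∀ c ∈ P, ∀ d ∈ P,
    Relation.ReflTransGen (fun a b => a ∈ P ∧ b ∈ P ∧ EdgeAdj a b) c d

/-- The surface of the cube `[0, l]^3`. -/
def cubeSurface (l : ℝ) : Set Space :=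
  {z | (∀ i, 0 ≤ z i ∧ z i ≤ l) ∧ ∃ i, z i = 0 ∨ z i = l}

/-- The map `f` creases the plane region `R` along finitely many segments: `R` is a finite union
of closed convex sets on each of which `f` is distance preserving. -/
def CreasedOn (f : Plane → Space) (R : Set Plane) : Prop :=
  ∃ C : Set (Set Plane), C.Finite ∧ ⋃₀ C = R ∧
    ∀ S ∈ C, Convex ℝ S ∧ IsClosed S ∧ ∀ x ∈ S, ∀ y ∈ S, dist (f x) (f y) = dist x y

/-- The polyomino `P` folds to a cube: for some `l > 0` there is a continuous map of its region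
onto the surface of a cube of edge `l`, piecewise isometric with finitely many pieces, which is
one-to-one apart from identifications of boundary points. -/
def FoldsToCube (P : Finset (ℤ × ℤ)) : Prop :=
  ∃ l : ℝ, 0 < l ∧ ∃ f : Plane → Space, ContinuousOn f (region P) ∧
    f '' region P = cubeSurface l ∧
    (∀ x ∈ interior (region P), ∀ y ∈ region P, f x = f y → x = y) ∧
    CreasedOn f (region P)

/-- `P` is a rep-cube of order `k`: a polyomino that folds to a cube and that can be cut along
grid edges into `k` polyominoes, each of which folds to a cube. -/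
def IsRepCube (k : ℕ) (P : Finset (ℤ × ℤ)) : Prop :=
  IsPolyomino P ∧ FoldsToCube P ∧
    ∃ Q : Finset (Finset (ℤ × ℤ)), Q.card = k ∧ (∀ A ∈ Q, IsPolyomino A ∧ FoldsToCube A) ∧
      (∀ A ∈ Q, ∀ B ∈ Q, A ≠ B → Disjoint A B) ∧ Q.biUnion id = P

end Pool.Agent.Helper697.Rep
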