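import Mathlib
import Pool.Agent.Helper697.RepDefs

open Set

namespace Pool.Agent.Helper697.Rep

/-! ### Integer data of a folding along grid lines -/

/-- the images of the four corners of a cell form a unit square of the surface -/
def GoodSq (l : ℤ) (A B C D : ℤ × ℤ × ℤ) : Prop :=
  D.1 = B.1 + C.1 - A.1 ∧ D.2.1 = B.2.1 + C.2.1 - A.2.1 ∧ D.2.2 = B.2.2 + C.2.2 - A.2.2 ∧
  (B.1 - A.1) * (B.1 - A.1) + (B.2.1 - A.2.1) * (B.2.1 - A.2.1) +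
    (B.2.2 - A.2.2) * (B.2.2 - A.2.2) = 1 ∧
  (C.1 - A.1) * (C.1 - A.1) + (C.2.1 - A.2.1) * (C.2.1 - A.2.1) +
    (C.2.2 - A.2.2) * (C.2.2 - A.2.2) = 1 ∧
  (B.1 - A.1) * (C.1 - A.1) + (B.2.1 - A.2.1) * (C.2.1 - A.2.1) +
    (B.2.2 - A.2.2) * (C.2.2 - A.2.2) = 0 ∧
  (0 ≤ A.1 ∧ A.1 ≤ l ∧ 0 ≤ A.2.1 ∧ A.2.1 ≤ l ∧ 0 ≤ A.2.2 ∧ A.2.2 ≤ l) ∧
  (0 ≤ B.1 ∧ B.1 ≤ l ∧ 0 ≤ B.2.1 ∧ B.2.1 ≤ l ∧ 0 ≤ B.2.2 ∧ B.2.2 ≤ l) ∧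
  (0 ≤ C.1 ∧ C.1 ≤ l ∧ 0 ≤ C.2.1 ∧ C.2.1 ≤ l ∧ 0 ≤ C.2.2 ∧ C.2.2 ≤ l) ∧
  (0 ≤ D.1 ∧ D.1 ≤ l ∧ 0 ≤ D.2.1 ∧ D.2.1 ≤ l ∧ 0 ≤ D.2.2 ∧ D.2.2 ≤ l) ∧
  ((A.1 = B.1 ∧ A.1 = C.1 ∧ (A.1 = 0 ∨ A.1 = l)) ∨
   (A.2.1 = B.2.1 ∧ A.2.1 = C.2.1 ∧ (A.2.1 = 0 ∨ A.2.1 = l)) ∨
   (A.2.2 = B.2.2 ∧ A.2.2 = C.2.2 ∧ (A.2.2 = 0 ∨ A.2.2 = l)))

instance (l : ℤ) (A B C D : ℤ × ℤ × ℤ) : Decidable (GoodSq l A B C D) := by
  unfold GoodSq; infer_instance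

/-- twice the centre of the image of the cell `c` -/
def ctr (F : ℤ × ℤ → ℤ × ℤ × ℤ) (c : ℤ × ℤ) : ℤ × ℤ × ℤ :=
  F c + F (c.1 + 1, c.2 + 1)

/-- `m` is twice the centre of a unit square of the surface of `[0,l]^3` -/
def IsCtr (l : ℤ) (m : ℤ × ℤ × ℤ) : Prop :=
  (0 ≤ m.1 ∧ m.1 ≤ 2 * l ∧ 0 ≤ m.2.1 ∧ m.2.1 ≤ 2 * l ∧ 0 ≤ m.2.2 ∧ m.2.2 ≤ 2 * l) ∧
  (((m.1 = 0 ∨ m.1 = 2 * l) ∧ m.2.1 % 2 = 1 ∧ m.2.2 % 2 = 1) ∨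
   (m.1 % 2 = 1 ∧ (m.2.1 = 0 ∨ m.2.1 = 2 * l) ∧ m.2.2 % 2 = 1) ∨
   (m.1 % 2 = 1 ∧ m.2.1 % 2 = 1 ∧ (m.2.2 = 0 ∨ m.2.2 = 2 * l)))

instance (l : ℤ) (m : ℤ × ℤ × ℤ) : Decidable (IsCtr l m) := by
  unfold IsCtr; infer_instance

/-- a folding along grid lines, on the level of lattice points -/
structure GridFold (P : Finset (ℤ × ℤ)) (l : ℤ) (F : ℤ × ℤ → ℤ × ℤ × ℤ) : Prop where
  pos : 0 < l
  good : ∀ c ∈ P, GoodSq l (F c) (F (c.1 + 1, c.2)) (F (c.1, c.2 + 1)) (F (c.1 + 1, c.2 + 1))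
  inj : ∀ c ∈ P, ∀ d ∈ P, ctr F c = ctr F d → c = d
  surj : ∀ m, IsCtr l m → ∃ c ∈ P, ctr F c = m

/-- integer unit vectors -/
lemma unit_cases {a b c : ℤ} (h : a * a + b * b + c * c = 1) :
    (a = 1 ∧ b = 0 ∧ c = 0) ∨ (a = -1 ∧ b = 0 ∧ c = 0) ∨ (a = 0 ∧ b = 1 ∧ c = 0) ∨
    (a = 0 ∧ b = -1 ∧ c = 0) ∨ (a = 0 ∧ b = 0 ∧ c = 1) ∨ (a = 0 ∧ b = 0 ∧ c = -1) := by
  have ha : a * a ≤ 1 := by nlinarith [mul_self_nonneg b, mul_self_nonneg c]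
  have hb : b * b ≤ 1 := by nlinarith [mul_self_nonneg a, mul_self_nonneg c]
  have hc : c * c ≤ 1 := by nlinarith [mul_self_nonneg b, mul_self_nonneg a]
  have ha1 : -1 ≤ a := by nlinarith
  have ha2 : a ≤ 1 := by nlinarith
  have hb1 : -1 ≤ b := by nlinarith
  have hb2 : b ≤ 1 := by nlinarith
  have hc1 : -1 ≤ c := by nlinarith
  have hc2 : c ≤ 1 := by nlinarith
  interval_cases a <;> interval_cases b <;> interval_cases c <;> simp_all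

/-- the pairs of orthogonal unit vectors, in a form usable by case distinction -/
lemma frame_cases {a b c a' b' c' : ℤ} (h : a * a + b * b + c * c = 1)
    (h' : a' * a' + b' * b' + c' * c' = 1) (hh : a * a' + b * b' + c * c' = 0) :
    (c = 0 ∧ c' = 0 ∧ ((a = 1 ∨ a = -1) ∧ b = 0 ∧ a' = 0 ∧ (b' = 1 ∨ b' = -1) ∨
      a = 0 ∧ (b = 1 ∨ b = -1) ∧ (a' = 1 ∨ a' = -1) ∧ b' = 0)) ∨
    (b = 0 ∧ b' = 0 ∧ ((a = 1 ∨ a = -1) ∧ c = 0 ∧ a' = 0 ∧ (c' = 1 ∨ c' = -1) ∨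
      a = 0 ∧ (c = 1 ∨ c = -1) ∧ (a' = 1 ∨ a' = -1) ∧ c' = 0)) ∨
    (a = 0 ∧ a' = 0 ∧ ((b = 1 ∨ b = -1) ∧ c = 0 ∧ b' = 0 ∧ (c' = 1 ∨ c' = -1) ∨
      b = 0 ∧ (c = 1 ∨ c = -1) ∧ (b' = 1 ∨ b' = -1) ∧ c' = 0)) := by
  rcases unit_cases h with ⟨rfl, rfl, rfl⟩ | ⟨rfl, rfl, rfl⟩ | ⟨rfl, rfl, rfl⟩ | ⟨rfl, rfl, rfl⟩ |
    ⟨rfl, rfl, rfl⟩ | ⟨rfl, rfl, rfl⟩ <;>
  rcases unit_cases h' with ⟨rfl, rfl, rfl⟩ | ⟨rfl, rfl, rfl⟩ | ⟨rfl, rfl, rfl⟩ |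
    ⟨rfl, rfl, rfl⟩ | ⟨rfl, rfl, rfl⟩ | ⟨rfl, rfl, rfl⟩ <;> simp_all

lemma GoodSq.isCtr {l : ℤ} {A B C D : ℤ × ℤ × ℤ} (h : GoodSq l A B C D) :
    IsCtr l (A + D) := by
  obtain ⟨h1, h2, h3, h4, h5, h6, hA, hB, hC, hD, hf⟩ := h
  have hfr := frame_cases h4 h5 h6
  unfold IsCtr
  simp only [Prod.fst_add, Prod.snd_add]
  omega

/-! ### The real map -/

/-- the tent function -/
noncomputable def tent (t : ℝ) : ℝ := max 0 (1 - |t|)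

noncomputable def hat (v : ℤ × ℤ) (x : Plane) : ℝ := tent (x 0 - v.1) * tent (x 1 - v.2)

noncomputable def toS (m : ℤ × ℤ × ℤ) : Space := !₂[(m.1 : ℝ), (m.2.1 : ℝ), (m.2.2 : ℝ)]

lemma toS_0 (m : ℤ × ℤ × ℤ) : toS m 0 = m.1 := rfl
lemma toS_1 (m : ℤ × ℤ × ℤ) : toS m 1 = m.2.1 := rfl
lemma toS_2 (m : ℤ × ℤ × ℤ) : toS m 2 = m.2.2 := rfl

def four (c : ℤ × ℤ) : Finset (ℤ × ℤ) :=
  {c, (c.1 + 1, c.2), (c.1, c.2 + 1), (c.1 + 1, c.2 + 1)}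

def corners (P : Finset (ℤ × ℤ)) : Finset (ℤ × ℤ) := P.biUnion four

noncomputable def fmap (P : Finset (ℤ × ℤ)) (F : ℤ × ℤ → ℤ × ℤ × ℤ) (x : Plane) : Space :=
  ∑ v ∈ corners P, hat v x • toS (F v)

lemma tent_zero {t : ℝ} (h : 1 ≤ |t|) : tent t = 0 := max_eq_left (by linarith)

lemma tent_pos {t : ℝ} (h0 : 0 ≤ t) (h : t ≤ 1) : tent t = 1 - t := by
  rw [tent, abs_of_nonneg h0, max_eq_right (by linarith)]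

lemma tent_neg {t : ℝ} (h0 : t ≤ 0) (h : -1 ≤ t) : tent t = 1 + t := by
  rw [tent, abs_of_nonpos h0, max_eq_right (by linarith)]
  ring

lemma tent_far {i v : ℤ} {t : ℝ} (h1 : (i : ℝ) ≤ t) (h2 : t ≤ (i : ℝ) + 1) (hv : v ≠ i)
    (hv' : v ≠ i + 1) : tent (t - v) = 0 := by
  apply tent_zero
  rcases lt_or_gt_of_ne hv with h | h
  · have : (v : ℝ) ≤ i - 1 := by exact_mod_cast (by omega : v ≤ i - 1)
    rw [abs_of_nonneg (by linarith)]; linarith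
  · have : (i : ℝ) + 2 ≤ v := by exact_mod_cast (by omega : i + 2 ≤ v)
    rw [abs_of_nonpos (by linarith)]; linarith

lemma hat_far {c v : ℤ × ℤ} {x : Plane} (hx : x ∈ square c) (hv : v ∉ four c) :
    hat v x = 0 := by
  obtain ⟨⟨h1, h2⟩, h3, h4⟩ := hx
  by_cases ha : v.1 = c.1 ∨ v.1 = c.1 + 1
  · by_cases hb : v.2 = c.2 ∨ v.2 = c.2 + 1
    · exfalso
      apply hv
      simp only [four, Finset.mem_insert, Finset.mem_singleton, Prod.ext_iff]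
      omega
    · push Not at hb
      rw [hat, tent_far h3 h4 hb.1 hb.2, mul_zero]
  · push Not at ha
    rw [hat, tent_far h1 h2 ha.1 ha.2, zero_mul]

lemma fmap_cell {P : Finset (ℤ × ℤ)} {F : ℤ × ℤ → ℤ × ℤ × ℤ} {c : ℤ × ℤ} (hc : c ∈ P)
    {x : Plane} (hx : x ∈ square c) :
    fmap P F x = ((1 - (x 0 - c.1)) * (1 - (x 1 - c.2))) • toS (F c) +
      ((x 0 - c.1) * (1 - (x 1 - c.2))) • toS (F (c.1 + 1, c.2)) +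
      ((1 - (x 0 - c.1)) * (x 1 - c.2)) • toS (F (c.1, c.2 + 1)) +
      ((x 0 - c.1) * (x 1 - c.2)) • toS (F (c.1 + 1, c.2 + 1)) := by
  have hsub : four c ⊆ corners P := Finset.subset_biUnion_of_mem four hc
  rw [fmap, ← Finset.sum_subset hsub (fun v _ hv => by rw [hat_far hx hv, zero_smul])]
  obtain ⟨⟨h1, h2⟩, h3, h4⟩ := hx
  have e1 : tent (x 0 - c.1) = 1 - (x 0 - c.1) := tent_pos (by linarith) (by linarith)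
  have e2 : tent (x 1 - c.2) = 1 - (x 1 - c.2) := tent_pos (by linarith) (by linarith)
  have e3 : tent (x 0 - ((c.1 + 1 : ℤ) : ℝ)) = x 0 - c.1 := by
    push_cast
    rw [tent_neg (by linarith) (by linarith)]; ring
  have e4 : tent (x 1 - ((c.2 + 1 : ℤ) : ℝ)) = x 1 - c.2 := by
    push_cast
    rw [tent_neg (by linarith) (by linarith)]; ring
  have n1 : c ∉ ({(c.1 + 1, c.2), (c.1, c.2 + 1), (c.1 + 1, c.2 + 1)} : Finset (ℤ × ℤ)) := by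
    simp only [Finset.mem_insert, Finset.mem_singleton, Prod.ext_iff]; omega
  have n2 : (c.1 + 1, c.2) ∉ ({(c.1, c.2 + 1), (c.1 + 1, c.2 + 1)} : Finset (ℤ × ℤ)) := by
    simp only [Finset.mem_insert, Finset.mem_singleton, Prod.ext_iff]; omega
  have n3 : (c.1, c.2 + 1) ∉ ({(c.1 + 1, c.2 + 1)} : Finset (ℤ × ℤ)) := by
    simp only [Finset.mem_singleton, Prod.ext_iff]; omega
  rw [four, Finset.sum_insert n1, Finset.sum_insert n2, Finset.sum_insert n3,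
    Finset.sum_singleton]
  simp only [hat, e1, e2, e3, e4]
  abel

/-- coordinates of the map on a good cell -/
lemma fmap_coord {P : Finset (ℤ × ℤ)} {F : ℤ × ℤ → ℤ × ℤ × ℤ} {l : ℤ} {c : ℤ × ℤ} (hc : c ∈ P)
    (hg : GoodSq l (F c) (F (c.1 + 1, c.2)) (F (c.1, c.2 + 1)) (F (c.1 + 1, c.2 + 1)))
    {x : Plane} (hx : x ∈ square c) :
    fmap P F x 0 = (F c).1 + (x 0 - c.1) * ((F (c.1 + 1, c.2)).1 - (F c).1) +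
      (x 1 - c.2) * ((F (c.1, c.2 + 1)).1 - (F c).1) ∧
    fmap P F x 1 = (F c).2.1 + (x 0 - c.1) * ((F (c.1 + 1, c.2)).2.1 - (F c).2.1) +
      (x 1 - c.2) * ((F (c.1, c.2 + 1)).2.1 - (F c).2.1) ∧
    fmap P F x 2 = (F c).2.2 + (x 0 - c.1) * ((F (c.1 + 1, c.2)).2.2 - (F c).2.2) +
      (x 1 - c.2) * ((F (c.1, c.2 + 1)).2.2 - (F c).2.2) := by
  have h1 : (((F (c.1 + 1, c.2 + 1)).1 : ℤ) : ℝ) = (F (c.1 + 1, c.2)).1 + (F (c.1, c.2 + 1)).1 -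
      (F c).1 := by exact_mod_cast hg.1
  have h2 : (((F (c.1 + 1, c.2 + 1)).2.1 : ℤ) : ℝ) = (F (c.1 + 1, c.2)).2.1 +
      (F (c.1, c.2 + 1)).2.1 - (F c).2.1 := by exact_mod_cast hg.2.1
  have h3 : (((F (c.1 + 1, c.2 + 1)).2.2 : ℤ) : ℝ) = (F (c.1 + 1, c.2)).2.2 +
      (F (c.1, c.2 + 1)).2.2 - (F c).2.2 := by exact_mod_cast hg.2.2.1
  rw [fmap_cell hc hx]
  simp only [PiLp.add_apply, PiLp.smul_apply, smul_eq_mul, toS_0, toS_1, toS_2, h1, h2, h3]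
  refine ⟨by ring, by ring, by ring⟩

lemma fmap_continuous (P : Finset (ℤ × ℤ)) (F : ℤ × ℤ → ℤ × ℤ × ℤ) : Continuous (fmap P F) := by
  unfold fmap hat tent
  fun_prop

end Pool.Agent.Helper697.Rep
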