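import Mathlib
import Pool.Agent.Helper697.RepCrit

open Set

namespace Pool.Agent.Helper697.Rep

/-! ### Integer lemmas on centres of surface squares near a lattice point -/

def Cand (l a b p r : ℤ) : Prop :=
  (p = 2 * a ∧ (a = 0 ∨ a = l) ∧ (r = 2 * b - 1 ∨ r = 2 * b + 1) ∧ 0 ≤ r ∧ r ≤ 2 * l) ∨
  (r = 2 * b ∧ (b = 0 ∨ b = l) ∧ (p = 2 * a - 1 ∨ p = 2 * a + 1) ∧ 0 ≤ p ∧ p ≤ 2 * l)

lemma two_ctr {l a b p1 r1 p2 r2 p' r' : ℤ} (hl : 0 < l) (h1 : Cand l a b p1 r1)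
    (h2 : Cand l a b p2 r2) (h' : Cand l a b p' r') (hne : ¬ (p1 = p2 ∧ r1 = r2)) :
    (p' = p1 ∧ r' = r1) ∨ (p' = p2 ∧ r' = r2) := by
  unfold Cand at h1 h2 h'
  by_cases ha0 : a = 0
  · subst ha0
    by_cases hb0 : b = 0
    · subst hb0; omega
    · by_cases hbl : b = l
      · subst hbl; omega
      · omega
  · by_cases hal : a = l
    · subst hal
      by_cases hb0 : b = 0
      · subst hb0; omega
      · by_cases hbl : b = a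
        · subst hbl; omega
        · omega
    · omega

def Near (A m : ℤ × ℤ × ℤ) : Prop :=
  (2 * A.1 - 1 ≤ m.1 ∧ m.1 ≤ 2 * A.1 + 1) ∧ (2 * A.2.1 - 1 ≤ m.2.1 ∧ m.2.1 ≤ 2 * A.2.1 + 1) ∧
  (2 * A.2.2 - 1 ≤ m.2.2 ∧ m.2.2 ≤ 2 * A.2.2 + 1)

lemma coord_even {l a m : ℤ} (h : m = 0 ∨ m = 2 * l) (h1 : 2 * a - 1 ≤ m) (h2 : m ≤ 2 * a + 1) :
    m = 2 * a ∧ (a = 0 ∨ a = l) := by omega

lemma coord_odd {l a m : ℤ} (h : m % 2 = 1) (h1 : 2 * a - 1 ≤ m) (h2 : m ≤ 2 * a + 1)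
    (h3 : 0 ≤ m) (h4 : m ≤ 2 * l) :
    (m = 2 * a + 1 ∧ a ≠ l) ∨ (m = 2 * a + -1 ∧ a ≠ 0) := by omega

lemma exists_sigma {l a : ℤ} (hl : 0 < l) (h : a = 0 ∨ a = l) :
    ∃ s : ℤ, (a = 0 ∧ a ≠ l ∧ s = 1) ∨ (a = l ∧ a ≠ 0 ∧ s = -1) := by
  rcases h with h | h
  · exact ⟨1, Or.inl ⟨h, by omega, rfl⟩⟩
  · exact ⟨-1, Or.inr ⟨h, by omega, rfl⟩⟩

lemma near_list {l : ℤ} (hl : 0 < l) (A : ℤ × ℤ × ℤ) :
    ∃ c1 c2 c3 c4 : ℤ × ℤ × ℤ, ∀ m, IsCtr l m → Near A m → m = c1 ∨ m = c2 ∨ m = c3 ∨ m = c4 := by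
  obtain ⟨a, b, c⟩ := A
  have key : ∀ m, IsCtr l m → Near (a, b, c) m →
      ((m = (2 * a, 2 * b + 1, 2 * c + 1) ∧ (a = 0 ∨ a = l) ∧ b ≠ l ∧ c ≠ l) ∨
       (m = (2 * a, 2 * b + 1, 2 * c + -1) ∧ (a = 0 ∨ a = l) ∧ b ≠ l ∧ c ≠ 0) ∨
       (m = (2 * a, 2 * b + -1, 2 * c + 1) ∧ (a = 0 ∨ a = l) ∧ b ≠ 0 ∧ c ≠ l) ∨
       (m = (2 * a, 2 * b + -1, 2 * c + -1) ∧ (a = 0 ∨ a = l) ∧ b ≠ 0 ∧ c ≠ 0)) ∨
      ((m = (2 * a + 1, 2 * b, 2 * c + 1) ∧ (b = 0 ∨ b = l) ∧ a ≠ l ∧ c ≠ l) ∨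
       (m = (2 * a + 1, 2 * b, 2 * c + -1) ∧ (b = 0 ∨ b = l) ∧ a ≠ l ∧ c ≠ 0) ∨
       (m = (2 * a + -1, 2 * b, 2 * c + 1) ∧ (b = 0 ∨ b = l) ∧ a ≠ 0 ∧ c ≠ l) ∨
       (m = (2 * a + -1, 2 * b, 2 * c + -1) ∧ (b = 0 ∨ b = l) ∧ a ≠ 0 ∧ c ≠ 0)) ∨
      ((m = (2 * a + 1, 2 * b + 1, 2 * c) ∧ (c = 0 ∨ c = l) ∧ a ≠ l ∧ b ≠ l) ∨
       (m = (2 * a + 1, 2 * b + -1, 2 * c) ∧ (c = 0 ∨ c = l) ∧ a ≠ l ∧ b ≠ 0) ∨
       (m = (2 * a + -1, 2 * b + 1, 2 * c) ∧ (c = 0 ∨ c = l) ∧ a ≠ 0 ∧ b ≠ l) ∨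
       (m = (2 * a + -1, 2 * b + -1, 2 * c) ∧ (c = 0 ∨ c = l) ∧ a ≠ 0 ∧ b ≠ 0)) := by
    rintro ⟨x, y, z⟩ ⟨⟨r1, r2, r3, r4, r5, r6⟩, h⟩ ⟨⟨n1, n2⟩, ⟨n3, n4⟩, n5, n6⟩
    simp only at r1 r2 r3 r4 r5 r6 h n1 n2 n3 n4 n5 n6
    rcases h with ⟨e, o, o'⟩ | ⟨o, e, o'⟩ | ⟨o, o', e⟩
    · obtain ⟨rfl, h1⟩ := coord_even e n1 n2
      rcases coord_odd o n3 n4 r3 r4 with ⟨rfl, h2⟩ | ⟨rfl, h2⟩ <;>
      rcases coord_odd o' n5 n6 r5 r6 with ⟨rfl, h3⟩ | ⟨rfl, h3⟩ <;> simp [h1, h2, h3]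
    · obtain ⟨rfl, h1⟩ := coord_even e n3 n4
      rcases coord_odd o n1 n2 r1 r2 with ⟨rfl, h2⟩ | ⟨rfl, h2⟩ <;>
      rcases coord_odd o' n5 n6 r5 r6 with ⟨rfl, h3⟩ | ⟨rfl, h3⟩ <;> simp [h1, h2, h3]
    · obtain ⟨rfl, h1⟩ := coord_even e n5 n6
      rcases coord_odd o n1 n2 r1 r2 with ⟨rfl, h2⟩ | ⟨rfl, h2⟩ <;>
      rcases coord_odd o' n3 n4 r3 r4 with ⟨rfl, h3⟩ | ⟨rfl, h3⟩ <;> simp [h1, h2, h3]
  by_cases ha : a = 0 ∨ a = l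
  · obtain ⟨s1, hs1⟩ := exists_sigma hl ha
    by_cases hb : b = 0 ∨ b = l
    · obtain ⟨s2, hs2⟩ := exists_sigma hl hb
      by_cases hc : c = 0 ∨ c = l
      · obtain ⟨s3, hs3⟩ := exists_sigma hl hc
        refine ⟨(2 * a, 2 * b + s2, 2 * c + s3), (2 * a + s1, 2 * b, 2 * c + s3),
          (2 * a + s1, 2 * b + s2, 2 * c), (2 * a + s1, 2 * b + s2, 2 * c), fun m h1 h2 => ?_⟩
        have := key m h1 h2
        clear key h1 h2 ha hb hc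
        rcases hs1 with ⟨p1, q1, rfl⟩ | ⟨p1, q1, rfl⟩ <;>
        rcases hs2 with ⟨p2, q2, rfl⟩ | ⟨p2, q2, rfl⟩ <;>
        rcases hs3 with ⟨p3, q3, rfl⟩ | ⟨p3, q3, rfl⟩ <;> tauto
      · refine ⟨(2 * a, 2 * b + s2, 2 * c + 1), (2 * a, 2 * b + s2, 2 * c + -1),
          (2 * a + s1, 2 * b, 2 * c + 1), (2 * a + s1, 2 * b, 2 * c + -1), fun m h1 h2 => ?_⟩
        have := key m h1 h2
        clear key h1 h2 ha hb
        rcases hs1 with ⟨p1, q1, rfl⟩ | ⟨p1, q1, rfl⟩ <;>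
        rcases hs2 with ⟨p2, q2, rfl⟩ | ⟨p2, q2, rfl⟩ <;> tauto
    · by_cases hc : c = 0 ∨ c = l
      · obtain ⟨s3, hs3⟩ := exists_sigma hl hc
        refine ⟨(2 * a, 2 * b + 1, 2 * c + s3), (2 * a, 2 * b + -1, 2 * c + s3),
          (2 * a + s1, 2 * b + 1, 2 * c), (2 * a + s1, 2 * b + -1, 2 * c), fun m h1 h2 => ?_⟩
        have := key m h1 h2
        clear key h1 h2 ha hc
        rcases hs1 with ⟨p1, q1, rfl⟩ | ⟨p1, q1, rfl⟩ <;>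
        rcases hs3 with ⟨p3, q3, rfl⟩ | ⟨p3, q3, rfl⟩ <;> tauto
      · refine ⟨(2 * a, 2 * b + 1, 2 * c + 1), (2 * a, 2 * b + -1, 2 * c + 1),
          (2 * a, 2 * b + 1, 2 * c + -1), (2 * a, 2 * b + -1, 2 * c + -1), fun m h1 h2 => ?_⟩
        have := key m h1 h2
        clear key h1 h2
        tauto
  · by_cases hb : b = 0 ∨ b = l
    · obtain ⟨s2, hs2⟩ := exists_sigma hl hb
      by_cases hc : c = 0 ∨ c = l
      · obtain ⟨s3, hs3⟩ := exists_sigma hl hc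
        refine ⟨(2 * a + 1, 2 * b, 2 * c + s3), (2 * a + -1, 2 * b, 2 * c + s3),
          (2 * a + 1, 2 * b + s2, 2 * c), (2 * a + -1, 2 * b + s2, 2 * c), fun m h1 h2 => ?_⟩
        have := key m h1 h2
        clear key h1 h2 hb hc
        rcases hs2 with ⟨p2, q2, rfl⟩ | ⟨p2, q2, rfl⟩ <;>
        rcases hs3 with ⟨p3, q3, rfl⟩ | ⟨p3, q3, rfl⟩ <;> tauto
      · refine ⟨(2 * a + 1, 2 * b, 2 * c + 1), (2 * a + -1, 2 * b, 2 * c + 1),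
          (2 * a + 1, 2 * b, 2 * c + -1), (2 * a + -1, 2 * b, 2 * c + -1), fun m h1 h2 => ?_⟩
        have := key m h1 h2
        clear key h1 h2
        tauto
    · refine ⟨(2 * a + 1, 2 * b + 1, 2 * c), (2 * a + -1, 2 * b + 1, 2 * c),
          (2 * a + 1, 2 * b + -1, 2 * c), (2 * a + -1, 2 * b + -1, 2 * c), fun m h1 h2 => ?_⟩
      have := key m h1 h2
      clear key h1 h2
      tauto

lemma four_ctr {l : ℤ} (hl : 0 < l) {A m1 m2 m3 m4 m' : ℤ × ℤ × ℤ}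
    (h1 : IsCtr l m1) (h2 : IsCtr l m2) (h3 : IsCtr l m3) (h4 : IsCtr l m4) (h' : IsCtr l m')
    (n1 : Near A m1) (n2 : Near A m2) (n3 : Near A m3) (n4 : Near A m4) (n' : Near A m')
    (d12 : m1 ≠ m2) (d13 : m1 ≠ m3) (d14 : m1 ≠ m4) (d23 : m2 ≠ m3) (d24 : m2 ≠ m4)
    (d34 : m3 ≠ m4) : m' = m1 ∨ m' = m2 ∨ m' = m3 ∨ m' = m4 := by
  obtain ⟨c1, c2, c3, c4, hc⟩ := near_list hl A
  have hsub : ({m1, m2, m3, m4} : Finset (ℤ × ℤ × ℤ)) ⊆ {c1, c2, c3, c4} := by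
    intro m hm
    simp only [Finset.mem_insert, Finset.mem_singleton] at hm ⊢
    rcases hm with rfl | rfl | rfl | rfl
    · exact hc _ h1 n1
    · exact hc _ h2 n2
    · exact hc _ h3 n3
    · exact hc _ h4 n4
  have hcard : ({m1, m2, m3, m4} : Finset (ℤ × ℤ × ℤ)).card = 4 := by
    rw [Finset.card_insert_of_notMem, Finset.card_insert_of_notMem,
      Finset.card_insert_of_notMem, Finset.card_singleton]
    · simpa using d34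
    · simp [d23, d24]
    · simp [d12, d13, d14]
  have heq := Finset.eq_of_subset_of_card_le hsub (by rw [hcard]; exact Finset.card_le_four)
  have hm' : m' ∈ ({c1, c2, c3, c4} : Finset (ℤ × ℤ × ℤ)) := by
    simp only [Finset.mem_insert, Finset.mem_singleton]
    exact hc _ h' n'
  rw [← heq] at hm'
  simpa using hm'

/-! ### Real points on surface squares -/

def OnSq1 (m : ℤ) (z : ℝ) : Prop := |2 * z - m| ≤ 1 ∧ (m % 2 = 0 → 2 * z = m)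

def OnSq (m : ℤ × ℤ × ℤ) (z : Space) : Prop :=
  OnSq1 m.1 (z 0) ∧ OnSq1 m.2.1 (z 1) ∧ OnSq1 m.2.2 (z 2)

lemma onSq1_int {m a : ℤ} {z : ℝ} (h : OnSq1 m z) (hz : z = a) :
    2 * a - 1 ≤ m ∧ m ≤ 2 * a + 1 := by
  have h1 := abs_le.mp h.1
  rw [hz] at h1
  constructor
  · have : ((2 * a - 1 : ℤ) : ℝ) ≤ m := by push_cast; linarith
    exact_mod_cast this
  · have : (m : ℝ) ≤ ((2 * a + 1 : ℤ) : ℝ) := by push_cast; linarith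
    exact_mod_cast this

lemma onSq1_pos {m a : ℤ} {z α : ℝ} (h : OnSq1 m z) (hz : z = a + α) (h0 : 0 < α)
    (h1 : α < 1) : m = 2 * a + 1 := by
  have h2 := abs_le.mp h.1
  have h3 : (2 * a - 1 : ℤ) < m := by
    have : ((2 * a - 1 : ℤ) : ℝ) < m := by push_cast; linarith
    exact_mod_cast this
  have h4 : m < (2 * a + 3 : ℤ) := by
    have : (m : ℝ) < ((2 * a + 3 : ℤ) : ℝ) := by push_cast; linarith
    exact_mod_cast this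
  by_contra hne
  have hev : m % 2 = 0 := by omega
  have h5 := h.2 hev
  have h6 : m = 2 * a ∨ m = 2 * a + 2 := by omega
  rcases h6 with h6 | h6
  · rw [h6] at h5; push_cast at h5; linarith
  · rw [h6] at h5; push_cast at h5; linarith

lemma onSq1_neg {m a : ℤ} {z α : ℝ} (h : OnSq1 m z) (hz : z = a - α) (h0 : 0 < α)
    (h1 : α < 1) : m = 2 * a - 1 := by
  have := onSq1_pos (a := a - 1) (α := 1 - α) h (by rw [hz]; push_cast; ring) (by linarith)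
    (by linarith)
  omega

variable {P : Finset (ℤ × ℤ)} {F : ℤ × ℤ → ℤ × ℤ × ℤ} {l : ℤ}

lemma GridFold.onSq (h : GridFold P l F) {c : ℤ × ℤ} (hc : c ∈ P) {x : Plane}
    (hx : x ∈ square c) : OnSq (ctr F c) (fmap P F x) := by
  obtain ⟨e0, e1, e2⟩ := fmap_coord hc (h.good c hc) hx
  obtain ⟨⟨a1, a2⟩, b1, b2⟩ := hx
  set A := F c
  set B := F (c.1 + 1, c.2)
  set C := F (c.1, c.2 + 1)
  set D := F (c.1 + 1, c.2 + 1) with hD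
  have hg := h.good c hc
  have hfr := frame_cases hg.2.2.2.1 hg.2.2.2.2.1 hg.2.2.2.2.2.1
  have hd1 : D.1 = B.1 + C.1 - A.1 := hg.1
  have hd2 : D.2.1 = B.2.1 + C.2.1 - A.2.1 := hg.2.1
  have hd3 : D.2.2 = B.2.2 + C.2.2 - A.2.2 := hg.2.2.1
  obtain ⟨u1, hu1⟩ : ∃ u, u = B.1 - A.1 := ⟨_, rfl⟩
  obtain ⟨u2, hu2⟩ : ∃ u, u = B.2.1 - A.2.1 := ⟨_, rfl⟩
  obtain ⟨u3, hu3⟩ : ∃ u, u = B.2.2 - A.2.2 := ⟨_, rfl⟩
  obtain ⟨v1, hv1⟩ : ∃ u, u = C.1 - A.1 := ⟨_, rfl⟩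
  obtain ⟨v2, hv2⟩ : ∃ u, u = C.2.1 - A.2.1 := ⟨_, rfl⟩
  obtain ⟨v3, hv3⟩ : ∃ u, u = C.2.2 - A.2.2 := ⟨_, rfl⟩
  have m1 : A.1 + D.1 = 2 * A.1 + u1 + v1 := by omega
  have m2 : A.2.1 + D.2.1 = 2 * A.2.1 + u2 + v2 := by omega
  have m3 : A.2.2 + D.2.2 = 2 * A.2.2 + u3 + v3 := by omega
  rw [← Int.cast_sub, ← Int.cast_sub, ← hu1, ← hv1] at e0
  rw [← Int.cast_sub, ← Int.cast_sub, ← hu2, ← hv2] at e1
  rw [← Int.cast_sub, ← Int.cast_sub, ← hu3, ← hv3] at e2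
  rw [← hu1, ← hu2, ← hu3, ← hv1, ← hv2, ← hv3] at hfr
  have key : ∀ (a u v : ℤ) (z : ℝ), z = a + (x 0 - c.1) * u + (x 1 - c.2) * v →
      ((u = 1 ∨ u = -1) ∧ v = 0 ∨ u = 0 ∧ (v = 1 ∨ v = -1) ∨ u = 0 ∧ v = 0) →
      OnSq1 (2 * a + u + v) z := by
    intro a u v z hz huv
    rcases huv with ⟨rfl | rfl, rfl⟩ | ⟨rfl, rfl | rfl⟩ | ⟨rfl, rfl⟩
    · refine ⟨?_, fun h => absurd h (by omega)⟩
      rw [hz, abs_le]; push_cast; constructor <;> linarith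
    · refine ⟨?_, fun h => absurd h (by omega)⟩
      rw [hz, abs_le]; push_cast; constructor <;> linarith
    · refine ⟨?_, fun h => absurd h (by omega)⟩
      rw [hz, abs_le]; push_cast; constructor <;> linarith
    · refine ⟨?_, fun h => absurd h (by omega)⟩
      rw [hz, abs_le]; push_cast; constructor <;> linarith
    · refine ⟨?_, fun _ => ?_⟩
      · rw [hz, abs_le]; push_cast; constructor <;> linarith
      · rw [hz]; push_cast; ring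
  refine ⟨?_, ?_, ?_⟩
  · change OnSq1 (A.1 + D.1) _
    rw [m1]; exact key _ _ _ _ e0 (by omega)
  · change OnSq1 (A.2.1 + D.2.1) _
    rw [m2]; exact key _ _ _ _ e1 (by omega)
  · change OnSq1 (A.2.2 + D.2.2) _
    rw [m3]; exact key _ _ _ _ e2 (by omega)

lemma GridFold.dist_eq (h : GridFold P l F) {c : ℤ × ℤ} (hc : c ∈ P) {x y : Plane}
    (hx : x ∈ square c) (hy : y ∈ square c) :
    dist (fmap P F x) (fmap P F y) = dist x y := by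
  obtain ⟨e0, e1, e2⟩ := fmap_coord hc (h.good c hc) hx
  obtain ⟨f0, f1, f2⟩ := fmap_coord hc (h.good c hc) hy
  have hg := h.good c hc
  have g1 := hg.2.2.2.1
  have g2 := hg.2.2.2.2.1
  have g3 := hg.2.2.2.2.2.1
  have g1' : (((F (c.1 + 1, c.2)).1 : ℝ) - (F c).1) * ((F (c.1 + 1, c.2)).1 - (F c).1) +
    ((F (c.1 + 1, c.2)).2.1 - (F c).2.1) * ((F (c.1 + 1, c.2)).2.1 - (F c).2.1) +
    ((F (c.1 + 1, c.2)).2.2 - (F c).2.2) * ((F (c.1 + 1, c.2)).2.2 - (F c).2.2) = 1 := by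
    exact_mod_cast g1
  have g2' : (((F (c.1, c.2 + 1)).1 : ℝ) - (F c).1) * ((F (c.1, c.2 + 1)).1 - (F c).1) +
    ((F (c.1, c.2 + 1)).2.1 - (F c).2.1) * ((F (c.1, c.2 + 1)).2.1 - (F c).2.1) +
    ((F (c.1, c.2 + 1)).2.2 - (F c).2.2) * ((F (c.1, c.2 + 1)).2.2 - (F c).2.2) = 1 := by
    exact_mod_cast g2
  have g3' : (((F (c.1 + 1, c.2)).1 : ℝ) - (F c).1) * ((F (c.1, c.2 + 1)).1 - (F c).1) +
    ((F (c.1 + 1, c.2)).2.1 - (F c).2.1) * ((F (c.1, c.2 + 1)).2.1 - (F c).2.1) +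
    ((F (c.1 + 1, c.2)).2.2 - (F c).2.2) * ((F (c.1, c.2 + 1)).2.2 - (F c).2.2) = 0 := by
    exact_mod_cast g3
  rw [EuclideanSpace.dist_eq, EuclideanSpace.dist_eq]
  congr 1
  rw [Fin.sum_univ_three, Fin.sum_univ_two]
  simp only [Real.dist_eq, sq_abs]
  rw [e0, e1, e2, f0, f1, f2]
  generalize ((F (c.1 + 1, c.2)).1 : ℝ) - (F c).1 = u1 at *
  generalize ((F (c.1 + 1, c.2)).2.1 : ℝ) - (F c).2.1 = u2 at *
  generalize ((F (c.1 + 1, c.2)).2.2 : ℝ) - (F c).2.2 = u3 at *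
  generalize ((F (c.1, c.2 + 1)).1 : ℝ) - (F c).1 = v1 at *
  generalize ((F (c.1, c.2 + 1)).2.1 : ℝ) - (F c).2.1 = v2 at *
  generalize ((F (c.1, c.2 + 1)).2.2 : ℝ) - (F c).2.2 = v3 at *
  linear_combination (x 0 - y 0) ^ 2 * g1' + (x 1 - y 1) ^ 2 * g2' +
    2 * (x 0 - y 0) * (x 1 - y 1) * g3'

end Pool.Agent.Helper697.Rep
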