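import Mathlib
import Pool.Agent.Helper697.RepCrit2

open Set

namespace Pool.Agent.Helper697.Rep

variable {P : Finset (ℤ × ℤ)} {F : ℤ × ℤ → ℤ × ℤ × ℤ} {l : ℤ}

/-! ### The surface is the union of its unit squares -/

lemma onSq1_bounds {m : ℤ} {z : ℝ} (h : OnSq1 m z) (h0 : 0 ≤ m) (h1 : m ≤ 2 * l) :
    0 ≤ z ∧ z ≤ l := by
  obtain ⟨h2, h3⟩ := h
  rw [abs_le] at h2
  rcases Int.emod_two_eq_zero_or_one m with h4 | h4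
  · have h5 := h3 h4
    have h6 : (0 : ℝ) ≤ m := by exact_mod_cast h0
    have h7 : (m : ℝ) ≤ 2 * l := by exact_mod_cast h1
    constructor <;> linarith
  · have h5 : (1 : ℝ) ≤ m := by exact_mod_cast (by omega : 1 ≤ m)
    have h6 : (m : ℝ) ≤ 2 * l - 1 := by exact_mod_cast (by omega : m ≤ 2 * l - 1)
    constructor <;> linarith

lemma onSq1_end {m : ℤ} {z : ℝ} (h : OnSq1 m z) (h0 : m = 0 ∨ m = 2 * l) :
    z = 0 ∨ z = l := by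
  have h1 := h.2 (by omega)
  rcases h0 with h0 | h0
  · left; rw [h0] at h1; push_cast at h1; linarith
  · right; rw [h0] at h1; push_cast at h1; linarith

lemma mem_surface {m : ℤ × ℤ × ℤ} (hm : IsCtr l m) {z : Space} (hz : OnSq m z) :
    z ∈ cubeSurface (l : ℝ) := by
  obtain ⟨⟨r1, r2, r3, r4, r5, r6⟩, h⟩ := hm
  obtain ⟨z0, z1, z2⟩ := hz
  refine ⟨?_, ?_⟩
  · intro i
    fin_cases i
    · exact onSq1_bounds z0 r1 r2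
    · exact onSq1_bounds z1 r3 r4
    · exact onSq1_bounds z2 r5 r6
  · rcases h with ⟨h, -, -⟩ | ⟨-, h, -⟩ | ⟨-, -, h⟩
    · exact ⟨0, onSq1_end z0 h⟩
    · exact ⟨1, onSq1_end z1 h⟩
    · exact ⟨2, onSq1_end z2 h⟩

lemma exists_odd (hl : 0 < l) {z : ℝ} (h0 : 0 ≤ z) (h1 : z ≤ l) :
    ∃ m : ℤ, m % 2 = 1 ∧ 0 ≤ m ∧ m ≤ 2 * l ∧ OnSq1 m z := by
  by_cases h : z = l
  · refine ⟨2 * l - 1, by omega, by omega, by omega, ?_, fun h => absurd h (by omega)⟩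
    rw [h, abs_le]; push_cast; constructor <;> linarith
  · have hlt : z < l := lt_of_le_of_ne h1 h
    have h2 : 0 ≤ ⌊z⌋ := Int.floor_nonneg.mpr h0
    have h3 : ⌊z⌋ < l := Int.floor_lt.mpr hlt
    have h4 := Int.floor_le z
    have h5 := Int.lt_floor_add_one z
    refine ⟨2 * ⌊z⌋ + 1, by omega, by omega, by omega, ?_, fun h => absurd h (by omega)⟩
    rw [abs_le]; push_cast; constructor <;> linarith

lemma exists_end {z : ℝ} (hl : 0 < l) (h : z = 0 ∨ z = l) :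
    ∃ m : ℤ, (m = 0 ∨ m = 2 * l) ∧ 0 ≤ m ∧ m ≤ 2 * l ∧ OnSq1 m z := by
  rcases h with rfl | rfl
  · exact ⟨0, Or.inl rfl, le_refl _, by omega, by simp, by simp⟩
  · refine ⟨2 * l, Or.inr rfl, by omega, le_refl _, ?_, ?_⟩
    · push_cast; simp
    · intro _; push_cast; ring

lemma exists_ctr (hl : 0 < l) {z : Space} (hz : z ∈ cubeSurface (l : ℝ)) :
    ∃ m, IsCtr l m ∧ OnSq m z := by
  obtain ⟨hb, i, hi⟩ := hz
  obtain ⟨m0, a0, b0, c0, d0⟩ := exists_odd hl (hb 0).1 (hb 0).2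
  obtain ⟨m1, a1, b1, c1, d1⟩ := exists_odd hl (hb 1).1 (hb 1).2
  obtain ⟨m2, a2, b2, c2, d2⟩ := exists_odd hl (hb 2).1 (hb 2).2
  obtain ⟨m, e, e0, e1, e2⟩ := exists_end hl hi
  fin_cases i
  · exact ⟨(m, m1, m2), ⟨⟨e0, e1, b1, c1, b2, c2⟩, Or.inl ⟨e, a1, a2⟩⟩, e2, d1, d2⟩
  · exact ⟨(m0, m, m2), ⟨⟨b0, c0, e0, e1, b2, c2⟩, Or.inr (Or.inl ⟨a0, e, a2⟩)⟩, d0, e2, d2⟩
  · exact ⟨(m0, m1, m), ⟨⟨b0, c0, b1, c1, e0, e1⟩, Or.inr (Or.inr ⟨a0, a1, e⟩)⟩, d0, d1, e2⟩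

lemma cell_onto (h : GridFold P l F) {c : ℤ × ℤ} (hc : c ∈ P) {z : Space}
    (hz : OnSq (ctr F c) z) : ∃ x ∈ square c, fmap P F x = z := by
  have hg := h.good c hc
  have hfr := frame_cases hg.2.2.2.1 hg.2.2.2.2.1 hg.2.2.2.2.2.1
  obtain ⟨A1, hA1⟩ : ∃ u, u = (F c).1 := ⟨_, rfl⟩
  obtain ⟨A2, hA2⟩ : ∃ u, u = (F c).2.1 := ⟨_, rfl⟩
  obtain ⟨A3, hA3⟩ : ∃ u, u = (F c).2.2 := ⟨_, rfl⟩
  obtain ⟨u1, hu1⟩ : ∃ u, u = (F (c.1 + 1, c.2)).1 - (F c).1 := ⟨_, rfl⟩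
  obtain ⟨u2, hu2⟩ : ∃ u, u = (F (c.1 + 1, c.2)).2.1 - (F c).2.1 := ⟨_, rfl⟩
  obtain ⟨u3, hu3⟩ : ∃ u, u = (F (c.1 + 1, c.2)).2.2 - (F c).2.2 := ⟨_, rfl⟩
  obtain ⟨v1, hv1⟩ : ∃ u, u = (F (c.1, c.2 + 1)).1 - (F c).1 := ⟨_, rfl⟩
  obtain ⟨v2, hv2⟩ : ∃ u, u = (F (c.1, c.2 + 1)).2.1 - (F c).2.1 := ⟨_, rfl⟩
  obtain ⟨v3, hv3⟩ : ∃ u, u = (F (c.1, c.2 + 1)).2.2 - (F c).2.2 := ⟨_, rfl⟩
  have hd1 : (F (c.1 + 1, c.2 + 1)).1 = (F (c.1 + 1, c.2)).1 + (F (c.1, c.2 + 1)).1 - (F c).1 :=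
    hg.1
  have hd2 : (F (c.1 + 1, c.2 + 1)).2.1 =
    (F (c.1 + 1, c.2)).2.1 + (F (c.1, c.2 + 1)).2.1 - (F c).2.1 := hg.2.1
  have hd3 : (F (c.1 + 1, c.2 + 1)).2.2 =
    (F (c.1 + 1, c.2)).2.2 + (F (c.1, c.2 + 1)).2.2 - (F c).2.2 := hg.2.2.1
  have m1 : (ctr F c).1 = 2 * A1 + u1 + v1 := by
    simp only [ctr, Prod.fst_add]; omega
  have m2 : (ctr F c).2.1 = 2 * A2 + u2 + v2 := by
    simp only [ctr, Prod.fst_add, Prod.snd_add]; omega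
  have m3 : (ctr F c).2.2 = 2 * A3 + u3 + v3 := by
    simp only [ctr, Prod.snd_add]; omega
  obtain ⟨z0, z1, z2⟩ := hz
  rw [m1] at z0
  rw [m2] at z1
  rw [m3] at z2
  rw [← hu1, ← hu2, ← hu3, ← hv1, ← hv2, ← hv3] at hfr
  have key : ∃ α β : ℝ, (0 ≤ α ∧ α ≤ 1) ∧ (0 ≤ β ∧ β ≤ 1) ∧ z 0 = A1 + α * u1 + β * v1 ∧
      z 1 = A2 + α * u2 + β * v2 ∧ z 2 = A3 + α * u3 + β * v3 := by
    clear m1 m2 m3 hd1 hd2 hd3 hg
    clear hu1 hu2 hu3 hv1 hv2 hv3 hA1 hA2 hA3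
    have bnd : ∀ (a u : ℤ) (t : ℝ), (u = 1 ∨ u = -1) → OnSq1 (2 * a + u) t →
        0 ≤ (t - a) * u ∧ (t - a) * u ≤ 1 ∧ t = a + ((t - a) * u) * u := by
      intro a u t hu ht
      have ht1 := abs_le.mp ht.1
      push_cast at ht1
      rcases hu with rfl | rfl
      · push_cast at ht1 ⊢
        refine ⟨by linarith, by linarith, by ring⟩
      · push_cast at ht1 ⊢
        refine ⟨by linarith, by linarith, by ring⟩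
    have eq0 : ∀ (a : ℤ) (t : ℝ), OnSq1 (2 * a) t → t = a := by
      intro a t ht
      have := ht.2 (by omega)
      push_cast at this
      linarith
    have a1 : ∀ a b : ℤ, a + b + 0 = a + b := fun a b => by ring
    have a2 : ∀ a b : ℤ, a + 0 + b = a + b := fun a b => by ring
    have a3 : ∀ a : ℤ, a + 0 + 0 = a := fun a => by ring
    rcases hfr with ⟨rfl, rfl, ⟨hu, rfl, rfl, hv⟩ | ⟨rfl, hu, hv, rfl⟩⟩ |
      ⟨rfl, rfl, ⟨hu, rfl, rfl, hv⟩ | ⟨rfl, hu, hv, rfl⟩⟩ |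
      ⟨rfl, rfl, ⟨hu, rfl, rfl, hv⟩ | ⟨rfl, hu, hv, rfl⟩⟩
    · rw [a1] at z0; rw [a2] at z1; rw [a3] at z2
      obtain ⟨p1, p2, p3⟩ := bnd _ _ _ hu z0
      obtain ⟨q1, q2, q3⟩ := bnd _ _ _ hv z1
      refine ⟨(z 0 - A1) * u1, (z 1 - A2) * v2, ⟨p1, p2⟩, ⟨q1, q2⟩, ?_, ?_, ?_⟩
      · rw [Int.cast_zero, mul_zero, add_zero]; exact p3
      · rw [Int.cast_zero, mul_zero, add_zero]; exact q3
      · rw [eq0 _ _ z2]; simp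
    · rw [a2] at z0; rw [a1] at z1; rw [a3] at z2
      obtain ⟨p1, p2, p3⟩ := bnd _ _ _ hv z0
      obtain ⟨q1, q2, q3⟩ := bnd _ _ _ hu z1
      refine ⟨(z 1 - A2) * u2, (z 0 - A1) * v1, ⟨q1, q2⟩, ⟨p1, p2⟩, ?_, ?_, ?_⟩
      · rw [Int.cast_zero, mul_zero, add_zero]; exact p3
      · rw [Int.cast_zero, mul_zero, add_zero]; exact q3
      · rw [eq0 _ _ z2]; simp
    · rw [a1] at z0; rw [a2] at z2; rw [a3] at z1
      obtain ⟨p1, p2, p3⟩ := bnd _ _ _ hu z0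
      obtain ⟨q1, q2, q3⟩ := bnd _ _ _ hv z2
      refine ⟨(z 0 - A1) * u1, (z 2 - A3) * v3, ⟨p1, p2⟩, ⟨q1, q2⟩, ?_, ?_, ?_⟩
      · rw [Int.cast_zero, mul_zero, add_zero]; exact p3
      · rw [eq0 _ _ z1]; simp
      · rw [Int.cast_zero, mul_zero, add_zero]; exact q3
    · rw [a2] at z0; rw [a1] at z2; rw [a3] at z1
      obtain ⟨p1, p2, p3⟩ := bnd _ _ _ hv z0
      obtain ⟨q1, q2, q3⟩ := bnd _ _ _ hu z2
      refine ⟨(z 2 - A3) * u3, (z 0 - A1) * v1, ⟨q1, q2⟩, ⟨p1, p2⟩, ?_, ?_, ?_⟩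
      · rw [Int.cast_zero, mul_zero, add_zero]; exact p3
      · rw [eq0 _ _ z1]; simp
      · rw [Int.cast_zero, mul_zero, add_zero]; exact q3
    · rw [a1] at z1; rw [a2] at z2; rw [a3] at z0
      obtain ⟨p1, p2, p3⟩ := bnd _ _ _ hu z1
      obtain ⟨q1, q2, q3⟩ := bnd _ _ _ hv z2
      refine ⟨(z 1 - A2) * u2, (z 2 - A3) * v3, ⟨p1, p2⟩, ⟨q1, q2⟩, ?_, ?_, ?_⟩
      · rw [eq0 _ _ z0]; simp
      · rw [Int.cast_zero, mul_zero, add_zero]; exact p3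
      · rw [Int.cast_zero, mul_zero, add_zero]; exact q3
    · rw [a2] at z1; rw [a1] at z2; rw [a3] at z0
      obtain ⟨p1, p2, p3⟩ := bnd _ _ _ hv z1
      obtain ⟨q1, q2, q3⟩ := bnd _ _ _ hu z2
      refine ⟨(z 2 - A3) * u3, (z 1 - A2) * v2, ⟨q1, q2⟩, ⟨p1, p2⟩, ?_, ?_, ?_⟩
      · rw [eq0 _ _ z0]; simp
      · rw [Int.cast_zero, mul_zero, add_zero]; exact p3
      · rw [Int.cast_zero, mul_zero, add_zero]; exact q3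
  obtain ⟨α, β, ⟨α0, α1⟩, ⟨β0, β1⟩, k0, k1, k2⟩ := key
  have hx : (!₂[(c.1 : ℝ) + α, (c.2 : ℝ) + β] : Plane) ∈ square c := by
    refine ⟨⟨?_, ?_⟩, ?_, ?_⟩
    · change (c.1 : ℝ) ≤ c.1 + α; linarith
    · change (c.1 : ℝ) + α ≤ c.1 + 1; linarith
    · change (c.2 : ℝ) ≤ c.2 + β; linarith
    · change (c.2 : ℝ) + β ≤ c.2 + 1; linarith
  refine ⟨_, hx, ?_⟩
  obtain ⟨e0, e1, e2⟩ := fmap_coord hc (h.good c hc) hx
  have x0 : (!₂[(c.1 : ℝ) + α, (c.2 : ℝ) + β] : Plane) 0 = c.1 + α := rfl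
  have x1 : (!₂[(c.1 : ℝ) + α, (c.2 : ℝ) + β] : Plane) 1 = c.2 + β := rfl
  rw [x0, x1, add_sub_cancel_left, add_sub_cancel_left] at e0 e1 e2
  rw [← Int.cast_sub, ← Int.cast_sub, ← hu1, ← hv1, ← hA1] at e0
  rw [← Int.cast_sub, ← Int.cast_sub, ← hu2, ← hv2, ← hA2] at e1
  rw [← Int.cast_sub, ← Int.cast_sub, ← hu3, ← hv3, ← hA3] at e2
  ext i
  fin_cases i
  · exact e0.trans k0.symm
  · exact e1.trans k1.symm
  · exact e2.trans k2.symm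

end Pool.Agent.Helper697.Rep
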