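import Mathlib
import Pool.Agent.Helper697.BoxCrit3

open Set

namespace Pool.Agent.Helper697.Box

open Pool.Agent.Helper697.Rep (square region tent hat toS four corners fmap
  fmap_cell fmap_continuous unit_cases frame_cases toS_0 toS_1 toS_2 ctr OnSq1 OnSq onSq1_int
  onSq1_pos onSq1_neg Near square_open mem_of_interior near_of_onSq onSq1_nonint square_convex
  square_closed)

variable {P : Finset (ℤ × ℤ)} {F : ℤ × ℤ → ℤ × ℤ × ℤ} {l : ℤ × ℤ × ℤ}

lemma ctr_isCtr (h : GridFold P l F) {c : ℤ × ℤ} (hc : c ∈ P) : IsCtr l (ctr F c) :=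
  (h.good c hc).isCtr

lemma edge_aux {z : Space} {A m1 m2 m' : ℤ × ℤ × ℤ} {u1 u2 u3 : ℤ} {α : ℝ}
    (hl : 0 < l.1 ∧ 0 < l.2.1 ∧ 0 < l.2.2) (hu : u1 * u1 + u2 * u2 + u3 * u3 = 1)
    (z0 : z 0 = A.1 + α * u1) (z1 : z 1 = A.2.1 + α * u2) (z2 : z 2 = A.2.2 + α * u3)
    (h0 : 0 < α) (h1 : α < 1) (c1 : IsCtr l m1) (c2 : IsCtr l m2) (c' : IsCtr l m')
    (s1 : OnSq m1 z) (s2 : OnSq m2 z) (s' : OnSq m' z) (hne : m1 ≠ m2) :
    m' = m1 ∨ m' = m2 := by
  obtain ⟨x1, y1, w1⟩ := m1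
  obtain ⟨x2, y2, w2⟩ := m2
  obtain ⟨x', y', w'⟩ := m'
  obtain ⟨s10, s11, s12⟩ := s1
  obtain ⟨s20, s21, s22⟩ := s2
  obtain ⟨s'0, s'1, s'2⟩ := s'
  obtain ⟨⟨b1, b2, b3, b4, b5, b6⟩, c1⟩ := c1
  obtain ⟨⟨d1, d2, d3, d4, d5, d6⟩, c2⟩ := c2
  obtain ⟨⟨f1, f2, f3, f4, f5, f6⟩, c'⟩ := c'
  simp only at *
  have hcases : ((u1 = 1 ∨ u1 = -1) ∧ u2 = 0 ∧ u3 = 0) ∨
      (u1 = 0 ∧ (u2 = 1 ∨ u2 = -1) ∧ u3 = 0) ∨ (u1 = 0 ∧ u2 = 0 ∧ (u3 = 1 ∨ u3 = -1)) := by
    rcases unit_cases hu with ⟨rfl, rfl, rfl⟩ | ⟨rfl, rfl, rfl⟩ | ⟨rfl, rfl, rfl⟩ |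
      ⟨rfl, rfl, rfl⟩ | ⟨rfl, rfl, rfl⟩ | ⟨rfl, rfl, rfl⟩ <;> simp
  rcases hcases with ⟨hu1, rfl, rfl⟩ | ⟨rfl, hu2, rfl⟩ | ⟨rfl, rfl, hu3⟩
  · rw [Int.cast_zero, mul_zero, add_zero] at z1 z2
    obtain ⟨e1, o1⟩ := onSq1_nonint hu1 z0 h0 h1 s10 s20
    obtain ⟨e2, -⟩ := onSq1_nonint hu1 z0 h0 h1 s10 s'0
    have n1 := onSq1_int s11 z1
    have n2 := onSq1_int s12 z2
    have n3 := onSq1_int s21 z1
    have n4 := onSq1_int s22 z2
    have n5 := onSq1_int s'1 z1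
    have n6 := onSq1_int s'2 z2
    subst e1 e2
    have k1 : Cand l.2.1 l.2.2 A.2.1 A.2.2 y1 w1 := by unfold Cand; omega
    have k2 : Cand l.2.1 l.2.2 A.2.1 A.2.2 y2 w2 := by unfold Cand; omega
    have k' : Cand l.2.1 l.2.2 A.2.1 A.2.2 y' w' := by unfold Cand; omega
    have hne' : ¬ (y1 = y2 ∧ w1 = w2) := by
      rintro ⟨rfl, rfl⟩; exact hne rfl
    rcases two_ctr hl.2.1 hl.2.2 k1 k2 k' hne' with ⟨rfl, rfl⟩ | ⟨rfl, rfl⟩
    · left; rfl
    · right; rfl
  · rw [Int.cast_zero, mul_zero, add_zero] at z0 z2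
    obtain ⟨e1, o1⟩ := onSq1_nonint hu2 z1 h0 h1 s11 s21
    obtain ⟨e2, -⟩ := onSq1_nonint hu2 z1 h0 h1 s11 s'1
    have n1 := onSq1_int s10 z0
    have n2 := onSq1_int s12 z2
    have n3 := onSq1_int s20 z0
    have n4 := onSq1_int s22 z2
    have n5 := onSq1_int s'0 z0
    have n6 := onSq1_int s'2 z2
    subst e1 e2
    have k1 : Cand l.1 l.2.2 A.1 A.2.2 x1 w1 := by unfold Cand; omega
    have k2 : Cand l.1 l.2.2 A.1 A.2.2 x2 w2 := by unfold Cand; omega
    have k' : Cand l.1 l.2.2 A.1 A.2.2 x' w' := by unfold Cand; omega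
    have hne' : ¬ (x1 = x2 ∧ w1 = w2) := by
      rintro ⟨rfl, rfl⟩; exact hne rfl
    rcases two_ctr hl.1 hl.2.2 k1 k2 k' hne' with ⟨rfl, rfl⟩ | ⟨rfl, rfl⟩
    · left; rfl
    · right; rfl
  · rw [Int.cast_zero, mul_zero, add_zero] at z0 z1
    obtain ⟨e1, o1⟩ := onSq1_nonint hu3 z2 h0 h1 s12 s22
    obtain ⟨e2, -⟩ := onSq1_nonint hu3 z2 h0 h1 s12 s'2
    have n1 := onSq1_int s10 z0
    have n2 := onSq1_int s11 z1
    have n3 := onSq1_int s20 z0
    have n4 := onSq1_int s21 z1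
    have n5 := onSq1_int s'0 z0
    have n6 := onSq1_int s'1 z1
    subst e1 e2
    have k1 : Cand l.1 l.2.1 A.1 A.2.1 x1 y1 := by unfold Cand; omega
    have k2 : Cand l.1 l.2.1 A.1 A.2.1 x2 y2 := by unfold Cand; omega
    have k' : Cand l.1 l.2.1 A.1 A.2.1 x' y' := by unfold Cand; omega
    have hne' : ¬ (x1 = x2 ∧ y1 = y2) := by
      rintro ⟨rfl, rfl⟩; exact hne rfl
    rcases two_ctr hl.1 hl.2.1 k1 k2 k' hne' with ⟨rfl, rfl⟩ | ⟨rfl, rfl⟩
    · left; rfl
    · right; rfl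

/-- a point in the open part of a surface square lies on no other surface square -/
lemma face_aux {z : Space} {A m1 m' : ℤ × ℤ × ℤ} {u1 u2 u3 v1 v2 v3 : ℤ} {α β : ℝ}
    (hu : u1 * u1 + u2 * u2 + u3 * u3 = 1) (hv : v1 * v1 + v2 * v2 + v3 * v3 = 1)
    (huv : u1 * v1 + u2 * v2 + u3 * v3 = 0)
    (z0 : z 0 = A.1 + α * u1 + β * v1) (z1 : z 1 = A.2.1 + α * u2 + β * v2)
    (z2 : z 2 = A.2.2 + α * u3 + β * v3)
    (h0 : 0 < α) (h1 : α < 1) (g0 : 0 < β) (g1 : β < 1) (c1 : IsCtr l m1) (c' : IsCtr l m')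
    (s1 : OnSq m1 z) (s' : OnSq m' z) : m' = m1 := by
  obtain ⟨x1, y1, w1⟩ := m1
  obtain ⟨x', y', w'⟩ := m'
  obtain ⟨s10, s11, s12⟩ := s1
  obtain ⟨s'0, s'1, s'2⟩ := s'
  obtain ⟨⟨b1, b2, b3, b4, b5, b6⟩, c1⟩ := c1
  obtain ⟨⟨f1, f2, f3, f4, f5, f6⟩, c'⟩ := c'
  simp only at *
  rcases frame_cases hu hv huv with ⟨rfl, rfl, ⟨ku, rfl, rfl, kv⟩ | ⟨rfl, ku, kv, rfl⟩⟩ |
      ⟨rfl, rfl, ⟨ku, rfl, rfl, kv⟩ | ⟨rfl, ku, kv, rfl⟩⟩ |
      ⟨rfl, rfl, ⟨ku, rfl, rfl, kv⟩ | ⟨rfl, ku, kv, rfl⟩⟩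
  · simp only [Int.cast_zero, mul_zero, add_zero] at z0 z1 z2
    have e1 := onSq1_nonint ku z0 h0 h1 s10 s'0
    have e2 := onSq1_nonint kv z1 g0 g1 s11 s'1
    have n1 := onSq1_int s12 z2
    have n2 := onSq1_int s'2 z2
    simp only [Prod.mk.injEq]; omega
  · simp only [Int.cast_zero, mul_zero, add_zero] at z0 z1 z2
    have e1 := onSq1_nonint kv z0 g0 g1 s10 s'0
    have e2 := onSq1_nonint ku z1 h0 h1 s11 s'1
    have n1 := onSq1_int s12 z2
    have n2 := onSq1_int s'2 z2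
    simp only [Prod.mk.injEq]; omega
  · simp only [Int.cast_zero, mul_zero, add_zero] at z0 z1 z2
    have e1 := onSq1_nonint ku z0 h0 h1 s10 s'0
    have e2 := onSq1_nonint kv z2 g0 g1 s12 s'2
    have n1 := onSq1_int s11 z1
    have n2 := onSq1_int s'1 z1
    simp only [Prod.mk.injEq]; omega
  · simp only [Int.cast_zero, mul_zero, add_zero] at z0 z1 z2
    have e1 := onSq1_nonint kv z0 g0 g1 s10 s'0
    have e2 := onSq1_nonint ku z2 h0 h1 s12 s'2
    have n1 := onSq1_int s11 z1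
    have n2 := onSq1_int s'1 z1
    simp only [Prod.mk.injEq]; omega
  · simp only [Int.cast_zero, mul_zero, add_zero] at z0 z1 z2
    have e1 := onSq1_nonint ku z1 h0 h1 s11 s'1
    have e2 := onSq1_nonint kv z2 g0 g1 s12 s'2
    have n1 := onSq1_int s10 z0
    have n2 := onSq1_int s'0 z0
    simp only [Prod.mk.injEq]; omega
  · simp only [Int.cast_zero, mul_zero, add_zero] at z0 z1 z2
    have e1 := onSq1_nonint kv z1 g0 g1 s11 s'1
    have e2 := onSq1_nonint ku z2 h0 h1 s12 s'2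
    have n1 := onSq1_int s10 z0
    have n2 := onSq1_int s'0 z0
    simp only [Prod.mk.injEq]; omega

lemma same_cell (h : GridFold P l F) {c d : ℤ × ℤ} (hc : c ∈ P) (hd : d ∈ P) {x y : Plane}
    (hx : x ∈ square c) (hy : y ∈ square d) (hxy : fmap P F x = fmap P F y)
    (hm : ctr F d = ctr F c) : x = y := by
  have e := h.inj d hd c hc hm
  subst e
  have := h.dist_eq hd hx hy
  rw [hxy, dist_self] at this
  exact dist_eq_zero.mp this.symm

lemma GridFold.interior_inj (h : GridFold P l F) {x y : Plane}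
    (hx : x ∈ interior (region P)) (hy : y ∈ region P) (hxy : fmap P F x = fmap P F y) :
    x = y := by
  simp only [region, Set.mem_iUnion] at hy
  obtain ⟨d, hd, hyd⟩ := hy
  obtain ⟨i, hi⟩ : ∃ i, i = ⌊x 0⌋ := ⟨_, rfl⟩
  obtain ⟨j, hj⟩ : ∃ j, j = ⌊x 1⌋ := ⟨_, rfl⟩
  have i1 : (i : ℝ) ≤ x 0 := by rw [hi]; exact Int.floor_le _
  have i2 : x 0 < (i : ℝ) + 1 := by rw [hi]; exact Int.lt_floor_add_one _
  have j1 : (j : ℝ) ≤ x 1 := by rw [hj]; exact Int.floor_le _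
  have j2 : x 1 < (j : ℝ) + 1 := by rw [hj]; exact Int.lt_floor_add_one _
  have hxc : x ∈ square (i, j) := ⟨⟨i1, i2.le⟩, j1, j2.le⟩
  have hcP : (i, j) ∈ P := mem_of_interior hx hxc
  have hgood := h.good _ hcP
  obtain ⟨e0, e1, e2⟩ := fmap_coord hcP hgood hxc
  have sc := h.onSq hcP hxc
  have sd := h.onSq hd hyd
  rw [← hxy] at sd
  have cd := ctr_isCtr h hd
  have cc := ctr_isCtr h hcP
  simp only at e0 e1 e2
  have f0 := e0
  have f1 := e1
  have f2 := e2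
  rw [← Int.cast_sub, ← Int.cast_sub] at f0 f1 f2
  rcases i1.eq_or_lt with hi' | hi'
  · have hx2 : x ∈ square (i - 1, j) := by
      refine ⟨⟨?_, ?_⟩, j1, j2.le⟩
      · push_cast; linarith
      · push_cast; linarith
    have hP2 := mem_of_interior hx hx2
    have sc2 := h.onSq hP2 hx2
    have cc2 := ctr_isCtr h hP2
    rw [← hi', sub_self, zero_mul, add_zero] at e0 e1 e2
    have d12 : ctr F (i, j) ≠ ctr F (i - 1, j) := by
      intro he
      have := h.inj _ hcP _ hP2 he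
      have := congrArg Prod.fst this
      simp only at this
      omega
    rcases j1.eq_or_lt with hj' | hj'
    · rw [← hj', sub_self, zero_mul, add_zero] at e0 e1 e2
      have hx3 : x ∈ square (i, j - 1) := by
        refine ⟨⟨i1, i2.le⟩, ?_, ?_⟩
        · push_cast; linarith
        · push_cast; linarith
      have hP3 := mem_of_interior hx hx3
      have sc3 := h.onSq hP3 hx3
      have cc3 := ctr_isCtr h hP3
      have hx4 : x ∈ square (i - 1, j - 1) := by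
        refine ⟨⟨?_, ?_⟩, ?_, ?_⟩ <;> push_cast <;> linarith
      have hP4 := mem_of_interior hx hx4
      have sc4 := h.onSq hP4 hx4
      have cc4 := ctr_isCtr h hP4
      have d13 : ctr F (i, j) ≠ ctr F (i, j - 1) := by
        intro he
        have := h.inj _ hcP _ hP3 he
        have := congrArg Prod.snd this
        simp only at this
        omega
      have d14 : ctr F (i, j) ≠ ctr F (i - 1, j - 1) := by
        intro he
        have := h.inj _ hcP _ hP4 he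
        have := congrArg Prod.snd this
        simp only at this
        omega
      have d23 : ctr F (i - 1, j) ≠ ctr F (i, j - 1) := by
        intro he
        have := h.inj _ hP2 _ hP3 he
        have := congrArg Prod.snd this
        simp only at this
        omega
      have d24 : ctr F (i - 1, j) ≠ ctr F (i - 1, j - 1) := by
        intro he
        have := h.inj _ hP2 _ hP4 he
        have := congrArg Prod.snd this
        simp only at this
        omega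
      have d34 : ctr F (i, j - 1) ≠ ctr F (i - 1, j - 1) := by
        intro he
        have := h.inj _ hP3 _ hP4 he
        have := congrArg Prod.fst this
        simp only at this
        omega
      rcases four_ctr h.pos cc cc2 cc3 cc4 cd (near_of_onSq sc e0 e1 e2)
        (near_of_onSq sc2 e0 e1 e2) (near_of_onSq sc3 e0 e1 e2) (near_of_onSq sc4 e0 e1 e2)
        (near_of_onSq sd e0 e1 e2) d12 d13 d14 d23 d24 d34 with hm | hm | hm | hm
      · exact same_cell h hcP hd hxc hyd hxy hm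
      · exact same_cell h hP2 hd hx2 hyd hxy hm
      · exact same_cell h hP3 hd hx3 hyd hxy hm
      · exact same_cell h hP4 hd hx4 hyd hxy hm
    · rw [← Int.cast_sub] at e0 e1 e2
      rcases edge_aux h.pos hgood.2.2.2.2.1 e0 e1 e2 (sub_pos.mpr hj') (by linarith) cc cc2 cd
        sc sc2 sd d12 with hm | hm
      · exact same_cell h hcP hd hxc hyd hxy hm
      · exact same_cell h hP2 hd hx2 hyd hxy hm
  · rcases j1.eq_or_lt with hj' | hj'
    · have hx3 : x ∈ square (i, j - 1) := by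
        refine ⟨⟨i1, i2.le⟩, ?_, ?_⟩
        · push_cast; linarith
        · push_cast; linarith
      have hP3 := mem_of_interior hx hx3
      have sc3 := h.onSq hP3 hx3
      have cc3 := ctr_isCtr h hP3
      have d13 : ctr F (i, j) ≠ ctr F (i, j - 1) := by
        intro he
        have := h.inj _ hcP _ hP3 he
        have := congrArg Prod.snd this
        simp only at this
        omega
      rw [← hj', sub_self, zero_mul, add_zero] at e0 e1 e2
      rw [← Int.cast_sub] at e0 e1 e2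
      rcases edge_aux h.pos hgood.2.2.2.1 e0 e1 e2 (sub_pos.mpr hi') (by linarith) cc cc3 cd
        sc sc3 sd d13 with hm | hm
      · exact same_cell h hcP hd hxc hyd hxy hm
      · exact same_cell h hP3 hd hx3 hyd hxy hm
    · have hm := face_aux hgood.2.2.2.1 hgood.2.2.2.2.1 hgood.2.2.2.2.2.1 f0 f1 f2
        (sub_pos.mpr hi') (by linarith) (sub_pos.mpr hj') (by linarith) cc cd sc sd
      exact same_cell h hcP hd hxc hyd hxy hm

end Pool.Agent.Helper697.Box
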