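import Mathlib

/-!
Piecewise isometric maps preserve the lengths of curves.
-/

open Set

namespace Pool.Agent.Helper697.Box

variable {E E' : Type*} [PseudoEMetricSpace E] [PseudoEMetricSpace E']

lemma edist_le_var {ι : Type*} [DecidableEq ι] {γ : ℝ → E} {γ' : ℝ → E'} {T : ι → Set ℝ}
    (hT : ∀ i, IsClosed (T i)) (hd : ∀ i, ∀ u ∈ T i, ∀ w ∈ T i, edist (γ' u) (γ' w) ≤
      edist (γ u) (γ w)) (n : ℕ) : ∀ (I : Finset ι), I.card = n → ∀ s t : ℝ, s ≤ t →
      (∀ r ∈ Icc s t, ∃ i ∈ I, r ∈ T i) →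
      edist (γ' s) (γ' t) ≤ eVariationOn γ (Icc s t) := by
  induction n with
  | zero =>
    intro I hI s t hst hcov
    obtain ⟨i, hi, -⟩ := hcov s ⟨le_refl _, hst⟩
    rw [Finset.card_eq_zero] at hI
    rw [hI] at hi
    simp at hi
  | succ n ih =>
    intro I hI s t hst hcov
    obtain ⟨i, hi, hsi⟩ := hcov s ⟨le_refl _, hst⟩
    set A : Set ℝ := T i ∩ Icc s t with hA
    have hAc : IsClosed A := (hT i).inter isClosed_Icc
    have hAn : A.Nonempty := ⟨s, hsi, le_refl _, hst⟩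
    have hAb : BddAbove A := ⟨t, fun x hx => hx.2.2⟩
    have hu := hAc.csSup_mem hAn hAb
    set u := sSup A with hudef
    obtain ⟨hu1, hu2, hu3⟩ := hu
    have h1 : edist (γ' s) (γ' u) ≤ eVariationOn γ (Icc s u) :=
      (hd i s hsi u hu1).trans (eVariationOn.edist_le γ ⟨le_refl _, hu2⟩ ⟨hu2, le_refl _⟩)
    rcases hu3.eq_or_lt with hut | hut
    · rw [← hut]; exact h1
    · have hcov' : ∀ r ∈ Ioc u t, ∃ j ∈ I.erase i, r ∈ T j := by
        intro r hr
        obtain ⟨j, hj, hrj⟩ := hcov r ⟨hu2.trans hr.1.le, hr.2⟩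
        refine ⟨j, Finset.mem_erase.mpr ⟨?_, hj⟩, hrj⟩
        rintro rfl
        have : r ≤ u := le_csSup hAb ⟨hrj, hu2.trans hr.1.le, hr.2⟩
        exact absurd this (not_le.mpr hr.1)
      have hclosed : IsClosed (⋃ j ∈ I.erase i, T j) :=
        (I.erase i).finite_toSet.isClosed_biUnion (fun j _ => hT j)
      have hsub : Ioc u t ⊆ ⋃ j ∈ I.erase i, T j := by
        intro r hr
        obtain ⟨j, hj, hrj⟩ := hcov' r hr
        exact mem_biUnion hj hrj
      have hcl : Icc u t ⊆ ⋃ j ∈ I.erase i, T j := by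
        rw [← closure_Ioc hut.ne]
        exact hclosed.closure_subset_iff.mpr hsub
      have h2 := ih (I.erase i) (by rw [Finset.card_erase_of_mem hi, hI]; rfl) u t hut.le (by
        intro r hr
        have := hcl hr
        simp only [mem_iUnion, exists_prop] at this
        exact this)
      have h3 := eVariationOn.Icc_add_Icc γ hu2 hut.le (mem_univ u)
      simp only [univ_inter] at h3
      calc edist (γ' s) (γ' t) ≤ edist (γ' s) (γ' u) + edist (γ' u) (γ' t) :=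
            edist_triangle _ _ _
        _ ≤ eVariationOn γ (Icc s u) + eVariationOn γ (Icc u t) := add_le_add h1 h2
        _ = eVariationOn γ (Icc s t) := h3

lemma var_le_var {ι : Type*} [DecidableEq ι] [Fintype ι] {γ : ℝ → E} {γ' : ℝ → E'}
    {T : ι → Set ℝ} {s t : ℝ}
    (hT : ∀ i, IsClosed (T i)) (hd : ∀ i, ∀ u ∈ T i, ∀ w ∈ T i, edist (γ' u) (γ' w) ≤
      edist (γ u) (γ w)) (hcov : ∀ r ∈ Icc s t, ∃ i, r ∈ T i) :
    eVariationOn γ' (Icc s t) ≤ eVariationOn γ (Icc s t) := by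
  rw [eVariationOn]
  refine iSup_le ?_
  rintro ⟨n, u, hu, hus⟩
  simp only
  have h1 : ∀ k, edist (γ' (u (k + 1))) (γ' (u k)) ≤ eVariationOn γ (Icc (u k) (u (k + 1))) := by
    intro k
    rw [edist_comm]
    refine edist_le_var hT hd _ Finset.univ rfl (u k) (u (k + 1)) (hu (Nat.le_succ k)) ?_
    intro r hr
    obtain ⟨i, hi⟩ := hcov r ⟨(hus k).1.trans hr.1, hr.2.trans (hus (k + 1)).2⟩
    exact ⟨i, Finset.mem_univ _, hi⟩
  calc ∑ k ∈ Finset.range n, edist (γ' (u (k + 1))) (γ' (u k))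
      ≤ ∑ k ∈ Finset.range n, eVariationOn γ (Icc (u k) (u (k + 1))) :=
        Finset.sum_le_sum fun k _ => h1 k
    _ = eVariationOn γ (Icc (u 0) (u n)) := eVariationOn.sum' γ hu
    _ ≤ eVariationOn γ (Icc s t) :=
        eVariationOn.mono γ (Icc_subset_Icc (hus 0).1 (hus n).2)

/-- a continuous map that is isometric on the sets of a finite closed cover preserves the
lengths of curves -/
theorem var_eq {X : Type*} {Y : Type*} [PseudoEMetricSpace X] [PseudoEMetricSpace Y] {f : X → Y}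
    {ι : Type*} [DecidableEq ι] [Fintype ι] {S : ι → Set X} (hS : ∀ i, IsClosed (S i))
    (hf : ∀ i, ∀ x ∈ S i, ∀ y ∈ S i, edist (f x) (f y) = edist x y) {γ : ℝ → X} {s t : ℝ}
    (hγ : ContinuousOn γ (Icc s t)) (hcov : ∀ r ∈ Icc s t, γ r ∈ ⋃ i, S i) :
    eVariationOn (f ∘ γ) (Icc s t) = eVariationOn γ (Icc s t) := by
  have hT : ∀ i, IsClosed (Icc s t ∩ γ ⁻¹' S i) := fun i =>
    hγ.preimage_isClosed_of_isClosed isClosed_Icc (hS i)
  have hc : ∀ r ∈ Icc s t, ∃ i, r ∈ Icc s t ∩ γ ⁻¹' S i := by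
    intro r hr
    obtain ⟨i, hi⟩ := mem_iUnion.mp (hcov r hr)
    exact ⟨i, hr, hi⟩
  apply le_antisymm
  · exact var_le_var hT (fun i u hu w hw => (hf i _ hu.2 _ hw.2).le) hc
  · exact var_le_var hT (fun i u hu w hw => (hf i _ hu.2 _ hw.2).ge) hc

end Pool.Agent.Helper697.Box
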