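import Mathlib
import Pool.Agent.Helper697.BoxCrit4
import Pool.Agent.Helper697.BoxLen

open Set

namespace Pool.Agent.Helper697.Box

open Pool.Agent.Helper697.Rep (square region fmap fmap_continuous ctr square_convex
  square_closed)

variable {P : Finset (ℤ × ℤ)} {F : ℤ × ℤ → ℤ × ℤ × ℤ} {l : ℤ × ℤ × ℤ}

theorem GridFold.folds (h : GridFold P l F) :
    FoldsOnto (region P) (boxSurface (l.1 : ℝ) (l.2.1 : ℝ) (l.2.2 : ℝ)) := by
  refine ⟨fmap P F, (fmap_continuous P F).continuousOn, ?_, ?_, ?_⟩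
  · apply Set.Subset.antisymm
    · rintro _ ⟨x, hx, rfl⟩
      simp only [region, Set.mem_iUnion] at hx
      obtain ⟨c, hc, hxc⟩ := hx
      exact mem_surface (ctr_isCtr h hc) (h.onSq hc hxc)
    · intro z hz
      obtain ⟨m, hm, hmz⟩ := exists_ctr h.pos hz
      obtain ⟨c, hc, rfl⟩ := h.surj m hm
      obtain ⟨x, hx, rfl⟩ := cell_onto h hc hmz
      exact ⟨x, Set.mem_biUnion hc hx, rfl⟩
  · intro γ s t hγ hP
    refine var_eq (f := fmap P F) (S := fun c : P => square c.1)
      (fun c => square_closed c.1) ?_ hγ ?_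
    · rintro ⟨c, hc⟩ x hx y hy
      rw [edist_dist, edist_dist, h.dist_eq hc hx hy]
    · intro r hr
      have := hP r hr
      simp only [region, Set.mem_iUnion] at this
      obtain ⟨c, hc, hxc⟩ := this
      exact mem_iUnion.mpr ⟨⟨c, hc⟩, hxc⟩
  · intro x hx y hy hxy
    exact h.interior_inj hx hy hxy

end Pool.Agent.Helper697.Box
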