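import Mathlib
import Pool.Agent.Helper697.BoxFold

/-!
The folding map of a plane with square holes onto the box `1 × (B - 1) × (C - 1)`.
-/

open Set

namespace Pool.Agent.Helper697.Box

open Pool.Agent.Helper697.Rep (square region ctr)

/-- zigzag of period `2 * B` between `0` and `B - 1` -/
def zz (B t : ℕ) : ℕ :=
  cond (Nat.beq (Nat.mod (Nat.div (Nat.sub t 1) B) 2) 0) (Nat.mod (Nat.sub t 1) B)
    (Nat.sub (Nat.sub B 1) (Nat.mod (Nat.sub t 1) B))

def fx (B C x y : ℕ) : ℕ :=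
  Nat.mod (Nat.add (Nat.div (Nat.sub x 1) B) (Nat.div (Nat.sub y 1) C)) 2

/-- the folding map on lattice points -/
def Fm (B C : ℕ) (v : ℤ × ℤ) : ℤ × ℤ × ℤ :=
  (((fx B C v.1.toNat v.2.toNat : ℕ) : ℤ), ((zz B v.1.toNat : ℕ) : ℤ), ((zz C v.2.toNat : ℕ) : ℤ))

lemma zz_eq (B t : ℕ) : zz B t =
    if (t - 1) / B % 2 = 0 then (t - 1) % B else (B - 1) - (t - 1) % B := by
  change cond (Nat.beq ((t - 1) / B % 2) 0) ((t - 1) % B) (B - 1 - (t - 1) % B) = _
  by_cases h : (t - 1) / B % 2 = 0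
  · rw [if_pos h, h]; rfl
  · rw [if_neg h]
    have h1 : (t - 1) / B % 2 = 1 := by omega
    rw [h1]; rfl

lemma fx_eq (B C x y : ℕ) : fx B C x y = ((x - 1) / B + (y - 1) / C) % 2 := rfl

lemma succ_div_mod {B s : ℕ} (hB : 2 ≤ B) :
    (s % B + 1 < B ∧ (s + 1) % B ≠ 0 ∧ (s + 1) / B = s / B ∧ (s + 1) % B = s % B + 1) ∨
    (s % B + 1 = B ∧ (s + 1) % B = 0 ∧ (s + 1) / B = s / B + 1) := by
  have h1 := Nat.div_add_mod s B
  have h2 := Nat.mod_lt s (by omega : 0 < B)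
  rcases Nat.lt_or_ge (s % B + 1) B with h | h
  · left
    have := (Nat.div_mod_unique (a := s + 1) (b := B) (c := s % B + 1) (d := s / B) (by omega)).mpr
      ⟨by omega, h⟩
    exact ⟨h, by omega, this.1, this.2⟩
  · right
    have h3 : s % B + 1 = B := by omega
    have := (Nat.div_mod_unique (a := s + 1) (b := B) (c := 0) (d := s / B + 1)
      (by omega)).mpr ⟨by rw [Nat.mul_add]; omega, by omega⟩
    exact ⟨h3, this.2, this.1⟩

lemma zz_le {B t : ℕ} (hB : 2 ≤ B) : zz B t ≤ B - 1 := by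
  have h2 := Nat.mod_lt (t - 1) (by omega : 0 < B)
  rw [zz_eq]
  split_ifs <;> omega

lemma zz_cases {B t : ℕ} (hB : 2 ≤ B) (ht : 1 ≤ t) :
    (t % B ≠ 0 ∧ t / B = (t - 1) / B ∧
      (((zz B (t + 1) : ℕ) : ℤ) = zz B t + 1 ∨ ((zz B (t + 1) : ℕ) : ℤ) = zz B t - 1)) ∨
    (t % B = 0 ∧ t / B = (t - 1) / B + 1 ∧ zz B (t + 1) = zz B t ∧
      (zz B t = 0 ∨ zz B t = B - 1)) := by
  obtain ⟨s, rfl⟩ : ∃ s, t = s + 1 := ⟨t - 1, by omega⟩
  have h0 := Nat.mod_lt s (by omega : 0 < B)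
  rw [zz_eq, zz_eq]
  simp only [Nat.add_sub_cancel]
  rcases succ_div_mod (s := s) hB with ⟨h1, h2, h3, h4⟩ | ⟨h1, h2, h3⟩
  · left
    refine ⟨h2, h3, ?_⟩
    rw [h3, h4]
    split_ifs
    · left; push_cast; ring
    · right; omega
  · right
    refine ⟨h2, h3, ?_⟩
    rw [h2, h3]
    rcases Nat.mod_two_eq_zero_or_one (s / B) with h | h
    · have h' : (s / B + 1) % 2 ≠ 0 := by omega
      rw [if_neg h', if_pos h]
      omega
    · have h' : (s / B + 1) % 2 = 0 := by omega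
      rw [if_pos h', if_neg (by omega)]
      omega

lemma fx_cases (B C x y : ℕ) : fx B C x y = 0 ∨ fx B C x y = 1 := Nat.mod_two_eq_zero_or_one _

lemma Fm_apply (B C x y : ℕ) : Fm B C ((x : ℤ), (y : ℤ)) =
    (((fx B C x y : ℕ) : ℤ), ((zz B x : ℕ) : ℤ), ((zz C y : ℕ) : ℤ)) := by
  simp [Fm]

lemma Fm_apply' (B C x y : ℕ) :
    Fm B C ((x : ℤ) + 1, (y : ℤ)) = Fm B C (((x + 1 : ℕ) : ℤ), (y : ℤ)) ∧
    Fm B C ((x : ℤ), (y : ℤ) + 1) = Fm B C ((x : ℤ), ((y + 1 : ℕ) : ℤ)) ∧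
    Fm B C ((x : ℤ) + 1, (y : ℤ) + 1) = Fm B C (((x + 1 : ℕ) : ℤ), ((y + 1 : ℕ) : ℤ)) := by
  push_cast
  exact ⟨rfl, rfl, rfl⟩

lemma good_cell {B C x y : ℕ} (hB : 2 ≤ B) (hC : 2 ≤ C) (hx : 1 ≤ x) (hy : 1 ≤ y)
    (hh : ¬ (x % B = 0 ∧ y % C = 0)) :
    GoodSq (1, (B : ℤ) - 1, (C : ℤ) - 1) (Fm B C ((x : ℤ), (y : ℤ)))
      (Fm B C ((x : ℤ) + 1, (y : ℤ))) (Fm B C ((x : ℤ), (y : ℤ) + 1))
      (Fm B C ((x : ℤ) + 1, (y : ℤ) + 1)) := by
  obtain ⟨a1, a2, a3⟩ := Fm_apply' B C x y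
  rw [a1, a2, a3, Fm_apply, Fm_apply, Fm_apply, Fm_apply]
  have x0 := zz_le (t := x) hB
  have x1 := zz_le (t := x + 1) hB
  have y0 := zz_le (t := y) hC
  have y1 := zz_le (t := y + 1) hC
  have x0' : (zz B x : ℤ) ≤ B - 1 := by omega
  have x1' : (zz B (x + 1) : ℤ) ≤ B - 1 := by omega
  have y0' : (zz C y : ℤ) ≤ C - 1 := by omega
  have y1' : (zz C (y + 1) : ℤ) ≤ C - 1 := by omega
  have f00 : fx B C x y = ((x - 1) / B + (y - 1) / C) % 2 := rfl
  have f10 : fx B C (x + 1) y = (x / B + (y - 1) / C) % 2 := rfl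
  have f01 : fx B C x (y + 1) = ((x - 1) / B + y / C) % 2 := rfl
  have f11 : fx B C (x + 1) (y + 1) = (x / B + y / C) % 2 := rfl
  have n1 : (0 : ℤ) ≤ zz B x := by positivity
  have n2 : (0 : ℤ) ≤ zz B (x + 1) := by positivity
  have n3 : (0 : ℤ) ≤ zz C y := by positivity
  have n4 : (0 : ℤ) ≤ zz C (y + 1) := by positivity
  have hX := fx_cases B C x y
  rcases zz_cases (B := B) hB hx with ⟨p1, p2, p3⟩ | ⟨p1, p2, p3, p4⟩ <;>
  rcases zz_cases (B := C) hC hy with ⟨q1, q2, q3⟩ | ⟨q1, q2, q3, q4⟩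
  · have e10 : (fx B C (x + 1) y : ℤ) = fx B C x y := by omega
    have e01 : (fx B C x (y + 1) : ℤ) = fx B C x y := by omega
    have e11 : (fx B C (x + 1) (y + 1) : ℤ) = fx B C x y := by omega
    rw [e10, e01, e11]
    have hX' : (fx B C x y : ℤ) = 0 ∨ (fx B C x y : ℤ) = 1 := by omega
    clear f00 f10 f01 f11 e10 e01 e11 hX x0 x1 y0 y1
    generalize (fx B C x y : ℤ) = X at *
    generalize (zz B x : ℤ) = Y at *
    generalize (zz C y : ℤ) = Z at *
    generalize (zz B (x + 1) : ℤ) = Y' at *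
    generalize (zz C (y + 1) : ℤ) = Z' at *
    rcases p3 with rfl | rfl <;> rcases q3 with rfl | rfl <;> unfold GoodSq <;>
    refine ⟨by ring, by ring, by ring, by ring, by ring, by ring, by simp only; omega,
      by simp only; omega, by simp only; omega, by simp only; omega,
      Or.inl ⟨rfl, rfl, hX'⟩⟩
  · have e10 : (fx B C (x + 1) y : ℤ) = fx B C x y := by omega
    have e01 : (fx B C x (y + 1) : ℤ) = 1 - fx B C x y := by omega
    have e11 : (fx B C (x + 1) (y + 1) : ℤ) = 1 - fx B C x y := by omega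
    have hZ : (zz C y : ℤ) = 0 ∨ (zz C y : ℤ) = C - 1 := by omega
    have hX' : (fx B C x y : ℤ) = 0 ∨ (fx B C x y : ℤ) = 1 := by omega
    rw [e10, e01, e11, q3]
    clear f00 f10 f01 f11 e10 e01 e11 hX x0 x1 y0 y1 q3 q4
    generalize (fx B C x y : ℤ) = X at *
    generalize (zz B x : ℤ) = Y at *
    generalize (zz C y : ℤ) = Z at *
    generalize (zz B (x + 1) : ℤ) = Y' at *
    rcases p3 with rfl | rfl <;> rcases hX' with rfl | rfl <;> unfold GoodSq <;>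
    refine ⟨by ring, by ring, by ring, by ring, by ring, by ring, by simp only; omega,
      by simp only; omega, by simp only; omega, by simp only; omega,
      Or.inr (Or.inr ⟨rfl, rfl, hZ⟩)⟩
  · have e10 : (fx B C (x + 1) y : ℤ) = 1 - fx B C x y := by omega
    have e01 : (fx B C x (y + 1) : ℤ) = fx B C x y := by omega
    have e11 : (fx B C (x + 1) (y + 1) : ℤ) = 1 - fx B C x y := by omega
    have hY : (zz B x : ℤ) = 0 ∨ (zz B x : ℤ) = B - 1 := by omega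
    have hX' : (fx B C x y : ℤ) = 0 ∨ (fx B C x y : ℤ) = 1 := by omega
    rw [e10, e01, e11, p3]
    clear f00 f10 f01 f11 e10 e01 e11 hX x0 x1 y0 y1 p3 p4
    generalize (fx B C x y : ℤ) = X at *
    generalize (zz B x : ℤ) = Y at *
    generalize (zz C y : ℤ) = Z at *
    generalize (zz C (y + 1) : ℤ) = Z' at *
    rcases q3 with rfl | rfl <;> rcases hX' with rfl | rfl <;> unfold GoodSq <;>
    refine ⟨by ring, by ring, by ring, by ring, by ring, by ring, by simp only; omega,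
      by simp only; omega, by simp only; omega, by simp only; omega,
      Or.inr (Or.inl ⟨rfl, rfl, hY⟩)⟩
  · exact absurd ⟨p1, q1⟩ hh

/-! ### Surjectivity by counting -/

/-- the doubled centres of the unit squares of the surface of an `a × b × c` box -/
def ctrs (a b c : ℕ) : Finset (ℤ × ℤ × ℤ) :=
  ((Finset.range 2 ×ˢ (Finset.range b ×ˢ Finset.range c)).image fun t =>
    (2 * (a : ℤ) * t.1, 2 * (t.2.1 : ℤ) + 1, 2 * (t.2.2 : ℤ) + 1)) ∪
  (((Finset.range a ×ˢ (Finset.range 2 ×ˢ Finset.range c)).image fun t =>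
    (2 * (t.1 : ℤ) + 1, 2 * (b : ℤ) * t.2.1, 2 * (t.2.2 : ℤ) + 1)) ∪
  ((Finset.range a ×ˢ (Finset.range b ×ˢ Finset.range 2)).image fun t =>
    (2 * (t.1 : ℤ) + 1, 2 * (t.2.1 : ℤ) + 1, 2 * (c : ℤ) * t.2.2)))

lemma card_ctrs (a b c : ℕ) : (ctrs a b c).card ≤ 2 * (b * c) + (2 * (a * c) + 2 * (a * b)) := by
  unfold ctrs
  refine (Finset.card_union_le _ _).trans (add_le_add ?_ ((Finset.card_union_le _ _).trans
    (add_le_add ?_ ?_)))
  · refine Finset.card_image_le.trans ?_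
    simp only [Finset.card_product, Finset.card_range]; exact le_refl _
  · refine Finset.card_image_le.trans ?_
    simp only [Finset.card_product, Finset.card_range]
    exact le_of_eq (by ring)
  · refine Finset.card_image_le.trans ?_
    simp only [Finset.card_product, Finset.card_range]
    exact le_of_eq (by ring)

lemma mem_ctrs {a b c : ℕ} {m : ℤ × ℤ × ℤ} (h : IsCtr ((a : ℤ), (b : ℤ), (c : ℤ)) m) :
    m ∈ ctrs a b c := by
  obtain ⟨m1, m2, m3⟩ := m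
  obtain ⟨⟨r1, r2, r3, r4, r5, r6⟩, h⟩ := h
  simp only at r1 r2 r3 r4 r5 r6 h
  unfold ctrs
  simp only [Finset.mem_union, Finset.mem_image, Finset.mem_product, Finset.mem_range,
    Prod.exists, Prod.mk.injEq]
  rcases h with ⟨h1, h2, h3⟩ | ⟨h1, h2, h3⟩ | ⟨h1, h2, h3⟩
  · left
    rcases h1 with h1 | h1
    · exact ⟨0, (m2 / 2).toNat, (m3 / 2).toNat, by omega, by push_cast; omega⟩
    · exact ⟨1, (m2 / 2).toNat, (m3 / 2).toNat, by omega, by push_cast; omega⟩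
  · right; left
    rcases h2 with h2 | h2
    · exact ⟨(m1 / 2).toNat, 0, (m3 / 2).toNat, by omega, by push_cast; omega⟩
    · exact ⟨(m1 / 2).toNat, 1, (m3 / 2).toNat, by omega, by push_cast; omega⟩
  · right; right
    rcases h3 with h3 | h3
    · exact ⟨(m1 / 2).toNat, (m2 / 2).toNat, 0, by omega, by push_cast; omega⟩
    · exact ⟨(m1 / 2).toNat, (m2 / 2).toNat, 1, by omega, by push_cast; omega⟩

theorem GridFold.of_inj {P : Finset (ℤ × ℤ)} {F : ℤ × ℤ → ℤ × ℤ × ℤ} {a b c : ℕ}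
    (ha : 0 < a) (hb : 0 < b) (hc : 0 < c)
    (good : ∀ e ∈ P, GoodSq ((a : ℤ), (b : ℤ), (c : ℤ)) (F e) (F (e.1 + 1, e.2))
      (F (e.1, e.2 + 1)) (F (e.1 + 1, e.2 + 1)))
    (inj : ∀ e ∈ P, ∀ d ∈ P, ctr F e = ctr F d → e = d)
    (card : 2 * (b * c) + (2 * (a * c) + 2 * (a * b)) ≤ P.card) :
    GridFold P ((a : ℤ), (b : ℤ), (c : ℤ)) F := by
  refine ⟨⟨Int.natCast_pos.mpr ha, Int.natCast_pos.mpr hb, Int.natCast_pos.mpr hc⟩, good, inj, ?_⟩
  intro m hm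
  have h1 : ∀ e ∈ P, ctr F e ∈ ctrs a b c := fun e he => mem_ctrs (good e he).isCtr
  obtain ⟨e, he, hem⟩ := Finset.surj_on_of_inj_on_of_card_le (s := P) (t := ctrs a b c)
    (fun e _ => ctr F e) h1 (fun e d he hd h => inj e he d hd h)
    ((card_ctrs a b c).trans card) m (mem_ctrs hm)
  exact ⟨e, he, hem.symm⟩

end Pool.Agent.Helper697.Box
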