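import Mathlib
import Pool.Agent.Helper697.BoxMap
import Pool.Agent.Helper697.BoxData

/-!
Kernel checks of the tables.
-/

namespace Pool.Agent.Helper697.Box

/-- `p k` for all `k` in `[lo, lo + 2 ^ d)` -/
def allR (p : ℕ → Bool) (d : ℕ) : ℕ → Bool :=
  Nat.rec (fun lo => p lo)
    (fun d ih lo => cond (ih lo) (ih (Nat.add lo (Nat.pow 2 d))) false) d

/-- evaluates `n` first -/
def force (n : ℕ) (f : ℕ → Bool) : Bool := Nat.rec (f 0) (fun m _ => f (Nat.succ m)) n

lemma force_eq (n : ℕ) (f : ℕ → Bool) : force n f = f n := by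
  cases n <;> rfl

lemma allR_spec (p : ℕ → Bool) : ∀ (d lo : ℕ), allR p d lo = true →
    ∀ k, lo ≤ k → k < lo + 2 ^ d → p k = true
  | 0, lo, h, k, h1, h2 => by
    have : k = lo := by simp at h2; omega
    rw [this]; exact h
  | d + 1, lo, h, k, h1, h2 => by
    have h' : cond (allR p d lo) (allR p d (lo + 2 ^ d)) false = true := h
    have ha : allR p d lo = true := by
      by_contra hc
      rw [Bool.not_eq_true] at hc
      rw [hc] at h'; simp at h'
    rw [ha] at h'
    rcases Nat.lt_or_ge k (lo + 2 ^ d) with h3 | h3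
    · exact allR_spec p d lo ha k h1 h3
    · exact allR_spec p d (lo + 2 ^ d) h' k h3 (by rw [pow_succ] at h2; omega)

/-- bounded check: trivial from `n` on -/
def chk (n : ℕ) (p : ℕ → Bool) (k : ℕ) : Bool := force k fun k => cond (Nat.ble n k) true (p k)

lemma chk_spec {n : ℕ} {p : ℕ → Bool} {d : ℕ} (h : allR (chk n p) d 0 = true) (hn : n ≤ 2 ^ d) :
    ∀ k < n, p k = true := by
  intro k hk
  have h1 := allR_spec _ d 0 h k (Nat.zero_le _) (by omega)
  unfold chk at h1
  rw [force_eq] at h1
  have h2 : Nat.ble n k = false := by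
    rw [← Bool.not_eq_true, Nat.ble_eq]; omega
  rw [h2] at h1
  exact h1

/-- the key of a cell -/
def key (c : ℕ) : ℕ :=
  Nat.add (Nat.mul (Nat.mod (Nat.div c 2048) 9) 594) (Nat.mod (Nat.mod c 2048) 594)

/-- the hash of a corner -/
def hsh (c : ℕ) : ℕ :=
  Nat.add (Nat.mul (Nat.mod (Nat.div c 2048) 9) 1188) (Nat.mod (Nat.mod c 2048) 1188)

def memB (c : ℕ) : Bool := Nat.beq (T (key c)) c

def notHole (B C x y : ℕ) : Bool :=
  cond (Nat.beq (Nat.mod x B) 0) (cond (Nat.beq (Nat.mod y C) 0) false true) true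

/-- check of the cell with key `k` -/
def chkT (k : ℕ) : Bool :=
  cond (Nat.beq k 0) true (cond (Nat.beq k 297) true (force (T k) fun c =>
    cond (Nat.beq (key c) k) (
    cond (Nat.ble 2048 c) (
    cond (Nat.ble 1 (Nat.mod c 2048)) (
    cond (Nat.ble (Nat.mod c 2048) 2046) (
    force (Nat.div c 2048) fun x => force (Nat.mod c 2048) fun y =>
    cond (notHole 9 297 x y) (
    cond (notHole 27 99 x y) (
    cond (notHole 81 33 x y) (
    notHole 243 11 x y) false) false) false) false) false) false) false))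

/-- the code of the image of a cell -/
def codeF (B C X Y Z : ℕ) : ℕ :=
  Nat.add (Nat.mul (Nat.add (Nat.mul
    (Nat.add X (Nat.mul 2 (Nat.mul (Nat.mod X 2) (Nat.mod (Nat.succ Z) 2)))) B)
    (Nat.div Y 2)) C) (Nat.div Z 2)

def cX (B C c : ℕ) : ℕ :=
  Nat.add (fx B C (Nat.div c 2048) (Nat.mod c 2048))
    (fx B C (Nat.succ (Nat.div c 2048)) (Nat.succ (Nat.mod c 2048)))

def cY (B c : ℕ) : ℕ := Nat.add (zz B (Nat.div c 2048)) (zz B (Nat.succ (Nat.div c 2048)))

def cZ (C c : ℕ) : ℕ := Nat.add (zz C (Nat.mod c 2048)) (zz C (Nat.succ (Nat.mod c 2048)))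

def chkI (I : ℕ → ℕ) (B C k : ℕ) : Bool :=
  cond (Nat.beq k 0) true (cond (Nat.beq k 297) true (force (T k) fun c =>
    force (cX B C c) fun X => force (cY B c) fun Y => force (cZ C c) fun Z =>
      force (codeF B C X Y Z) fun s => Nat.beq (I s) k))

/-- the successor on the walk -/
def nxt (j : ℕ) : ℕ := cond (Nat.beq j 6081) 0 (Nat.succ j)

def sideB (c c' : ℕ) : Bool :=
  cond (Nat.beq c' (Nat.add c 2048)) (cond (memB c) (cond (memB (Nat.sub c 1)) false true) false) (
  cond (Nat.beq (Nat.add c' 2048) c)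
    (cond (memB (Nat.sub c 2049)) (cond (memB (Nat.sub c 2048)) false true) false) (
  cond (Nat.beq c' (Nat.add c 1)) (cond (memB (Nat.sub c 2048)) (cond (memB c) false true) false) (
  cond (Nat.beq (Nat.add c' 1) c)
    (cond (memB (Nat.sub c 1)) (cond (memB (Nat.sub c 2049)) false true) false) false)))

/-- check of the corner with index `j` -/
def chkV (j : ℕ) : Bool :=
  force (V j) fun c => force (V (nxt j)) fun c' =>
    cond (Nat.ble 2048 c) (cond (Nat.ble 1 (Nat.mod c 2048)) (cond (Nat.ble (Nat.mod c 2048) 2046)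
      (cond (Nat.beq (IV (hsh c)) j) (sideB c c') false) false) false) false

/-- the walk goes from `a` to `b` -/
def edgeB (a b : ℕ) : Bool :=
  force (IV (hsh a)) fun j => cond (Nat.ble 6082 j) false
    (cond (Nat.beq (V j) a) (Nat.beq (V (nxt j)) b) false)

def chkS (k : ℕ) : Bool :=
  cond (Nat.beq k 0) true (cond (Nat.beq k 297) true (force (T k) fun c =>
    cond (cond (memB (Nat.sub c 1)) true (edgeB c (Nat.add c 2048))) (
    cond (cond (memB (Nat.add c 1)) true (edgeB (Nat.add c 2049) (Nat.add c 1))) (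
    cond (cond (memB (Nat.add c 2048)) true (edgeB (Nat.add c 2048) (Nat.add c 2049))) (
    cond (memB (Nat.sub c 2048)) true (edgeB (Nat.add c 1) c)) false) false) false))

lemma chkT_all : allR (chk 5346 chkT) 13 0 = true := by decide +kernel

lemma chkA_all : allR (chk 5346 (chkI IA 9 297)) 13 0 = true := by decide +kernel

lemma chkB_all : allR (chk 5346 (chkI IB 27 99)) 13 0 = true := by decide +kernel

lemma chkC_all : allR (chk 5346 (chkI IC 81 33)) 13 0 = true := by decide +kernel

lemma chkD_all : allR (chk 5346 (chkI ID 243 11)) 13 0 = true := by decide +kernel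

lemma chkV_all : allR (chk 6082 chkV) 13 0 = true := by decide +kernel

lemma chkS_all : allR (chk 5346 chkS) 13 0 = true := by decide +kernel

end Pool.Agent.Helper697.Box
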