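import Mathlib
import Pool.Agent.Helper697.BoxDefs
import Pool.Agent.Helper697.RepCrit4

/-!
The region of a finite set of grid cells whose boundary is a single simple closed walk is a
polygon.
-/

open Set

namespace Pool.Agent.Helper697.Box

open Pool.Agent.Helper697.Rep (square region mem_of_interior square_convex square_closed
  square_open)

/-- a lattice point as a point of the plane -/
noncomputable def toP (p : ℤ × ℤ) : Plane := !₂[(p.1 : ℝ), (p.2 : ℝ)]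

lemma toP_0 (p : ℤ × ℤ) : toP p 0 = p.1 := rfl
lemma toP_1 (p : ℤ × ℤ) : toP p 1 = p.2 := rfl

lemma toP_inj {p q : ℤ × ℤ} (h : toP p = toP q) : p = q := by
  have h0 := congrArg (fun x : Plane => x 0) h
  have h1 := congrArg (fun x : Plane => x 1) h
  simp only [toP_0, toP_1] at h0 h1
  exact Prod.ext (by exact_mod_cast h0) (by exact_mod_cast h1)

/-- the directed unit edge from `p` to `q` has a cell of `P` on its left and a cell that is not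
in `P` on its right -/
def Side (P : Finset (ℤ × ℤ)) (p q : ℤ × ℤ) : Prop :=
  (q = (p.1 + 1, p.2) ∧ p ∈ P ∧ (p.1, p.2 - 1) ∉ P) ∨
  (q = (p.1 - 1, p.2) ∧ (p.1 - 1, p.2 - 1) ∈ P ∧ (p.1 - 1, p.2) ∉ P) ∨
  (q = (p.1, p.2 + 1) ∧ (p.1 - 1, p.2) ∈ P ∧ p ∉ P) ∨
  (q = (p.1, p.2 - 1) ∧ (p.1, p.2 - 1) ∈ P ∧ (p.1 - 1, p.2 - 1) ∉ P)

/-- the boundary of `P` is the simple closed walk `w` of length `n` -/
structure BdWalk (P : Finset (ℤ × ℤ)) (n : ℕ) (w : ℕ → ℤ × ℤ) : Prop where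
  three : 3 ≤ n
  per : ∀ i, w (i + n) = w i
  inj : ∀ i < n, ∀ j < n, w i = w j → i = j
  side : ∀ i, Side P (w i) (w (i + 1))
  cov : ∀ p q, Side P p q → ∃ i < n, w i = p ∧ w (i + 1) = q

lemma mem_seg_h {p : ℤ × ℤ} {x : Plane} :
    x ∈ segment ℝ (toP p) (toP (p.1 + 1, p.2)) ↔ x 1 = p.2 ∧ (p.1 : ℝ) ≤ x 0 ∧ x 0 ≤ p.1 + 1 := by
  rw [segment_eq_image]
  constructor
  · rintro ⟨θ, ⟨h0, h1⟩, rfl⟩
    simp only [PiLp.add_apply, PiLp.smul_apply, toP_0, toP_1, smul_eq_mul]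
    push_cast
    refine ⟨by ring, by nlinarith, by nlinarith⟩
  · rintro ⟨h1, h2, h3⟩
    refine ⟨x 0 - p.1, ⟨by linarith, by linarith⟩, ?_⟩
    ext i
    fin_cases i
    · simp only [PiLp.add_apply, PiLp.smul_apply, smul_eq_mul, Fin.zero_eta, toP_0]
      push_cast; ring
    · simp only [PiLp.add_apply, PiLp.smul_apply, smul_eq_mul, Fin.mk_one, toP_1]
      rw [h1]; ring

lemma mem_seg_v {p : ℤ × ℤ} {x : Plane} :
    x ∈ segment ℝ (toP p) (toP (p.1, p.2 + 1)) ↔ x 0 = p.1 ∧ (p.2 : ℝ) ≤ x 1 ∧ x 1 ≤ p.2 + 1 := by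
  rw [segment_eq_image]
  constructor
  · rintro ⟨θ, ⟨h0, h1⟩, rfl⟩
    simp only [PiLp.add_apply, PiLp.smul_apply, toP_0, toP_1, smul_eq_mul]
    push_cast
    refine ⟨by ring, by nlinarith, by nlinarith⟩
  · rintro ⟨h1, h2, h3⟩
    refine ⟨x 1 - p.2, ⟨by linarith, by linarith⟩, ?_⟩
    ext i
    fin_cases i
    · simp only [PiLp.add_apply, PiLp.smul_apply, smul_eq_mul, Fin.zero_eta, toP_0]
      rw [h1]; ring
    · simp only [PiLp.add_apply, PiLp.smul_apply, smul_eq_mul, Fin.mk_one, toP_1]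
      push_cast; ring

/-- undirected unit edges -/
def HEdge (a p q : ℤ × ℤ) : Prop := (p = a ∧ q = (a.1 + 1, a.2)) ∨ (q = a ∧ p = (a.1 + 1, a.2))
def VEdge (a p q : ℤ × ℤ) : Prop := (p = a ∧ q = (a.1, a.2 + 1)) ∨ (q = a ∧ p = (a.1, a.2 + 1))

lemma Side.norm {P : Finset (ℤ × ℤ)} {p q : ℤ × ℤ} (h : Side P p q) :
    (∃ a, HEdge a p q) ∨ (∃ a, VEdge a p q) := by
  rcases h with ⟨rfl, -, -⟩ | ⟨rfl, -, -⟩ | ⟨rfl, -, -⟩ | ⟨rfl, -, -⟩
  · exact Or.inl ⟨p, Or.inl ⟨rfl, rfl⟩⟩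
  · exact Or.inl ⟨(p.1 - 1, p.2), Or.inr ⟨rfl, by simp⟩⟩
  · exact Or.inr ⟨p, Or.inl ⟨rfl, rfl⟩⟩
  · exact Or.inr ⟨(p.1, p.2 - 1), Or.inr ⟨rfl, by simp⟩⟩

lemma HEdge.mem {a p q : ℤ × ℤ} (h : HEdge a p q) {x : Plane} :
    x ∈ segment ℝ (toP p) (toP q) ↔ x 1 = a.2 ∧ (a.1 : ℝ) ≤ x 0 ∧ x 0 ≤ a.1 + 1 := by
  rcases h with ⟨rfl, rfl⟩ | ⟨rfl, rfl⟩
  · exact mem_seg_h
  · rw [segment_symm]; exact mem_seg_h

lemma VEdge.mem {a p q : ℤ × ℤ} (h : VEdge a p q) {x : Plane} :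
    x ∈ segment ℝ (toP p) (toP q) ↔ x 0 = a.1 ∧ (a.2 : ℝ) ≤ x 1 ∧ x 1 ≤ a.2 + 1 := by
  rcases h with ⟨rfl, rfl⟩ | ⟨rfl, rfl⟩
  · exact mem_seg_v
  · rw [segment_symm]; exact mem_seg_v

lemma HEdge.ends {a p q r : ℤ × ℤ} (h : HEdge a p q) (hr : r = a ∨ r = (a.1 + 1, a.2)) :
    r = p ∨ r = q := by
  rcases h with ⟨rfl, rfl⟩ | ⟨rfl, rfl⟩
  · exact hr
  · exact hr.symm

lemma VEdge.ends {a p q r : ℤ × ℤ} (h : VEdge a p q) (hr : r = a ∨ r = (a.1, a.2 + 1)) :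
    r = p ∨ r = q := by
  rcases h with ⟨rfl, rfl⟩ | ⟨rfl, rfl⟩
  · exact hr
  · exact hr.symm

lemma eq_toP {x : Plane} {r : ℤ × ℤ} (h0 : x 0 = r.1) (h1 : x 1 = r.2) : x = toP r := by
  ext i
  fin_cases i
  · exact h0
  · exact h1

lemma hv_inter {a b p q p' q' : ℤ × ℤ} (h : HEdge a p q) (h' : VEdge b p' q') {x : Plane}
    (hx : x ∈ segment ℝ (toP p) (toP q)) (hx' : x ∈ segment ℝ (toP p') (toP q')) :
    ∃ r, (r = p ∨ r = q) ∧ (r = p' ∨ r = q') ∧ x = toP r := by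
  rw [h.mem] at hx
  rw [h'.mem] at hx'
  obtain ⟨h1, h2, h3⟩ := hx
  obtain ⟨k1, k2, k3⟩ := hx'
  rw [k1] at h2 h3
  rw [h1] at k2 k3
  have i2 : a.1 ≤ b.1 := by exact_mod_cast h2
  have i3 : b.1 ≤ a.1 + 1 := by
    have : (b.1 : ℝ) ≤ a.1 + 1 := h3
    exact_mod_cast this
  have i4 : b.2 ≤ a.2 := by exact_mod_cast k2
  have i5 : a.2 ≤ b.2 + 1 := by
    have : (a.2 : ℝ) ≤ b.2 + 1 := k3
    exact_mod_cast this
  have j1 : b.1 = a.1 ∨ b.1 = a.1 + 1 := by omega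
  have j2 : a.2 = b.2 ∨ a.2 = b.2 + 1 := by omega
  refine ⟨(b.1, a.2), h.ends ?_, h'.ends ?_, eq_toP k1 h1⟩
  · exact j1.imp (fun e => Prod.ext e rfl) (fun e => Prod.ext e rfl)
  · exact j2.imp (fun e => Prod.ext rfl e) (fun e => Prod.ext rfl e)

lemma seg_inter {p q p' q' : ℤ × ℤ} (h : (∃ a, HEdge a p q) ∨ (∃ a, VEdge a p q))
    (h' : (∃ a, HEdge a p' q') ∨ (∃ a, VEdge a p' q')) {x : Plane}
    (hx : x ∈ segment ℝ (toP p) (toP q)) (hx' : x ∈ segment ℝ (toP p') (toP q')) :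
    (p = p' ∧ q = q') ∨ (p = q' ∧ q = p') ∨
      ∃ r, (r = p ∨ r = q) ∧ (r = p' ∨ r = q') ∧ x = toP r := by
  rcases h with ⟨a, ha⟩ | ⟨a, ha⟩ <;> rcases h' with ⟨b, hb⟩ | ⟨b, hb⟩
  · have hx1 := ha.mem.mp hx
    have hx2 := hb.mem.mp hx'
    obtain ⟨h1, h2, h3⟩ := hx1
    obtain ⟨k1, k2, k3⟩ := hx2
    have e2 : a.2 = b.2 := by
      have : (a.2 : ℝ) = b.2 := by rw [← h1, ← k1]
      exact_mod_cast this
    have i1 : a.1 ≤ b.1 + 1 := by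
      have : (a.1 : ℝ) ≤ b.1 + 1 := by linarith
      exact_mod_cast this
    have i2 : b.1 ≤ a.1 + 1 := by
      have : (b.1 : ℝ) ≤ a.1 + 1 := by linarith
      exact_mod_cast this
    rcases lt_trichotomy a.1 b.1 with hlt | heq | hgt
    · right; right
      have e : b.1 = a.1 + 1 := by omega
      have e' : (b.1 : ℝ) = a.1 + 1 := by exact_mod_cast e
      refine ⟨b, ha.ends (Or.inr (Prod.ext e e2.symm)), hb.ends (Or.inl rfl),
        eq_toP (by linarith) k1⟩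
    · have hab : a = b := Prod.ext heq e2
      subst hab
      rcases ha with ⟨rfl, rfl⟩ | ⟨rfl, rfl⟩ <;> rcases hb with ⟨rfl, rfl⟩ | ⟨rfl, rfl⟩ <;> simp
    · right; right
      have e : a.1 = b.1 + 1 := by omega
      have e' : (a.1 : ℝ) = b.1 + 1 := by exact_mod_cast e
      refine ⟨a, ha.ends (Or.inl rfl), hb.ends (Or.inr (Prod.ext e e2)),
        eq_toP (by linarith) h1⟩
  · exact Or.inr (Or.inr (hv_inter ha hb hx hx'))
  · obtain ⟨r, h1, h2, h3⟩ := hv_inter hb ha hx' hx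
    exact Or.inr (Or.inr ⟨r, h2, h1, h3⟩)
  · have hx1 := ha.mem.mp hx
    have hx2 := hb.mem.mp hx'
    obtain ⟨h1, h2, h3⟩ := hx1
    obtain ⟨k1, k2, k3⟩ := hx2
    have e2 : a.1 = b.1 := by
      have : (a.1 : ℝ) = b.1 := by rw [← h1, ← k1]
      exact_mod_cast this
    have i1 : a.2 ≤ b.2 + 1 := by
      have : (a.2 : ℝ) ≤ b.2 + 1 := by linarith
      exact_mod_cast this
    have i2 : b.2 ≤ a.2 + 1 := by
      have : (b.2 : ℝ) ≤ a.2 + 1 := by linarith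
      exact_mod_cast this
    rcases lt_trichotomy a.2 b.2 with hlt | heq | hgt
    · right; right
      have e : b.2 = a.2 + 1 := by omega
      have e' : (b.2 : ℝ) = a.2 + 1 := by exact_mod_cast e
      refine ⟨b, ha.ends (Or.inr (Prod.ext e2.symm e)), hb.ends (Or.inl rfl),
        eq_toP k1 (by linarith)⟩
    · have hab : a = b := Prod.ext e2 heq
      subst hab
      rcases ha with ⟨rfl, rfl⟩ | ⟨rfl, rfl⟩ <;> rcases hb with ⟨rfl, rfl⟩ | ⟨rfl, rfl⟩ <;> simp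
    · right; right
      have e : a.2 = b.2 + 1 := by omega
      have e' : (a.2 : ℝ) = b.2 + 1 := by exact_mod_cast e
      refine ⟨a, ha.ends (Or.inl rfl), hb.ends (Or.inr (Prod.ext e2 e)),
        eq_toP h1 (by linarith)⟩

/-! ### Interior and frontier of a region -/

lemma floor_near (t : ℝ) : ∃ δ : ℝ, 0 < δ ∧ ∀ s : ℝ, |s - t| < δ →
    ((⌊s⌋ : ℤ) : ℝ) ≤ t ∧ t ≤ (⌊s⌋ : ℝ) + 1 := by
  by_cases h : t = ⌊t⌋
  · refine ⟨1, one_pos, fun s hs => ?_⟩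
    rw [abs_lt] at hs
    have h1 : ⌊s⌋ < ⌊t⌋ + 1 := Int.floor_lt.mpr (by push_cast; linarith)
    have h2 : ⌊t⌋ - 1 ≤ ⌊s⌋ := Int.le_floor.mpr (by push_cast; linarith)
    have h3 : (⌊s⌋ : ℝ) ≤ ⌊t⌋ := by exact_mod_cast (by omega : ⌊s⌋ ≤ ⌊t⌋)
    have h4 : ((⌊t⌋ : ℤ) : ℝ) - 1 ≤ ⌊s⌋ := by exact_mod_cast h2
    constructor <;> linarith
  · have h0 := Int.floor_le t
    have h1 := Int.lt_floor_add_one t
    have h2 : (⌊t⌋ : ℝ) < t := lt_of_le_of_ne h0 (Ne.symm h)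
    refine ⟨min (t - ⌊t⌋) (⌊t⌋ + 1 - t), by rw [lt_min_iff]; constructor <;> linarith,
      fun s hs => ?_⟩
    rw [lt_min_iff, abs_lt, abs_lt] at hs
    have h3 : ⌊s⌋ = ⌊t⌋ := by
      rw [Int.floor_eq_iff]
      constructor <;> linarith [hs.1.1, hs.2.2]
    rw [h3]
    exact ⟨h0, h1.le⟩

/-- a point all of whose cells belong to `P` is an interior point -/
lemma interior_of_cells {P : Finset (ℤ × ℤ)} {x : Plane} (h : ∀ c, x ∈ square c → c ∈ P) :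
    x ∈ interior (region P) := by
  obtain ⟨δ, hδ, h0⟩ := floor_near (x 0)
  obtain ⟨ε, hε, h1⟩ := floor_near (x 1)
  rw [mem_interior]
  refine ⟨{y | |y 0 - x 0| < δ ∧ |y 1 - x 1| < ε}, ?_, ?_, by simp [hδ, hε]⟩
  · rintro y ⟨hy0, hy1⟩
    have hc : x ∈ square (⌊y 0⌋, ⌊y 1⌋) := ⟨h0 _ hy0, h1 _ hy1⟩
    refine mem_biUnion (h _ hc) ?_
    exact ⟨⟨Int.floor_le _, (Int.lt_floor_add_one _).le⟩,
      Int.floor_le _, (Int.lt_floor_add_one _).le⟩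
  · apply IsOpen.and
    · exact isOpen_lt (by fun_prop) continuous_const
    · exact isOpen_lt (by fun_prop) continuous_const

lemma region_isCompact (P : Finset (ℤ × ℤ)) : IsCompact (region P) := by
  refine P.isCompact_biUnion fun c _ => ?_
  rw [Metric.isCompact_iff_isClosed_bounded]
  refine ⟨square_closed c, ?_⟩
  refine (Metric.isBounded_closedBall (x := toP c) (r := 2)).subset ?_
  rintro x ⟨⟨a1, a2⟩, a3, a4⟩
  rw [Metric.mem_closedBall, EuclideanSpace.dist_eq, Fin.sum_univ_two, toP_0, toP_1,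
    Real.dist_eq, Real.dist_eq, sq_abs, sq_abs]
  apply Real.sqrt_le_iff.mpr
  constructor
  · norm_num
  · nlinarith

lemma region_closed (P : Finset (ℤ × ℤ)) : IsClosed (region P) := (region_isCompact P).isClosed

lemma mem_frontier_iff {P : Finset (ℤ × ℤ)} {x : Plane} :
    x ∈ frontier (region P) ↔ (∃ c ∈ P, x ∈ square c) ∧ ∃ d, d ∉ P ∧ x ∈ square d := by
  rw [(region_closed P).frontier_eq, mem_sdiff]
  constructor
  · rintro ⟨h1, h2⟩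
    refine ⟨?_, ?_⟩
    · simpa [region] using h1
    · by_contra hc
      push Not at hc
      exact h2 (interior_of_cells fun c hx => by_contra fun hP => hc c hP hx)
  · rintro ⟨⟨c, hc, hxc⟩, d, hd, hxd⟩
    exact ⟨mem_biUnion hc hxc, fun h => hd (mem_of_interior h hxd)⟩

end Pool.Agent.Helper697.Box
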