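import Mathlib
import Pool.Agent.Helper697.BoxPoly

open Set

namespace Pool.Agent.Helper697.Box

open Pool.Agent.Helper697.Rep (square region mem_of_interior square_convex square_closed
  square_open)

variable {P : Finset (ℤ × ℤ)} {n : ℕ} {w : ℕ → ℤ × ℤ}

lemma Side.subset_frontier {p q : ℤ × ℤ} (h : Side P p q) :
    segment ℝ (toP p) (toP q) ⊆ frontier (region P) := by
  intro x hx
  rw [mem_frontier_iff]
  rcases h with ⟨rfl, h1, h2⟩ | ⟨rfl, h1, h2⟩ | ⟨rfl, h1, h2⟩ | ⟨rfl, h1, h2⟩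
  · obtain ⟨e1, e2, e3⟩ := mem_seg_h.mp hx
    refine ⟨⟨_, h1, ⟨e2, e3⟩, ?_, ?_⟩, _, h2, ⟨e2, e3⟩, ?_, ?_⟩ <;> push_cast <;> linarith
  · have hE : HEdge (p.1 - 1, p.2) p (p.1 - 1, p.2) := Or.inr ⟨rfl, by simp⟩
    obtain ⟨e1, e2, e3⟩ := hE.mem.mp hx
    simp only at e1 e2 e3
    refine ⟨⟨_, h1, ⟨e2, e3⟩, ?_, ?_⟩, _, h2, ⟨e2, e3⟩, ?_, ?_⟩ <;> push_cast <;> linarith
  · obtain ⟨e1, e2, e3⟩ := mem_seg_v.mp hx
    refine ⟨⟨_, h1, ⟨?_, ?_⟩, e2, e3⟩, _, h2, ⟨?_, ?_⟩, e2, e3⟩ <;> push_cast <;> linarith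
  · have hE : VEdge (p.1, p.2 - 1) p (p.1, p.2 - 1) := Or.inr ⟨rfl, by simp⟩
    obtain ⟨e1, e2, e3⟩ := hE.mem.mp hx
    simp only at e1 e2 e3
    refine ⟨⟨_, h1, ⟨?_, ?_⟩, e2, e3⟩, _, h2, ⟨?_, ?_⟩, e2, e3⟩ <;> push_cast <;> linarith

/-- cells sharing an edge -/
def Nb (c d : ℤ × ℤ) : Prop :=
  d = (c.1, c.2 - 1) ∨ d = (c.1, c.2 + 1) ∨ d = (c.1 + 1, c.2) ∨ d = (c.1 - 1, c.2)

lemma nb_side {c d : ℤ × ℤ} (hcd : Nb c d) (hc : c ∈ P) (hd : d ∉ P) {x : Plane}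
    (hxc : x ∈ square c) (hxd : x ∈ square d) :
    ∃ p q, Side P p q ∧ x ∈ segment ℝ (toP p) (toP q) := by
  obtain ⟨⟨a1, a2⟩, a3, a4⟩ := hxc
  obtain ⟨⟨b1, b2⟩, b3, b4⟩ := hxd
  rcases hcd with rfl | rfl | rfl | rfl
  · refine ⟨c, (c.1 + 1, c.2), Or.inl ⟨rfl, hc, hd⟩, mem_seg_h.mpr ⟨?_, a1, a2⟩⟩
    push_cast at b4
    linarith
  · refine ⟨(c.1 + 1, c.2 + 1), (c.1, c.2 + 1), Or.inr (Or.inl ⟨by simp, by simpa using hc,
      by simpa using hd⟩), ?_⟩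
    have hE : HEdge (c.1, c.2 + 1) (c.1 + 1, c.2 + 1) (c.1, c.2 + 1) := Or.inr ⟨rfl, rfl⟩
    rw [hE.mem]
    push_cast at b3 ⊢
    exact ⟨by linarith, a1, a2⟩
  · refine ⟨(c.1 + 1, c.2), (c.1 + 1, c.2 + 1), Or.inr (Or.inr (Or.inl ⟨rfl,
      by simpa using hc, hd⟩)), mem_seg_v.mpr ⟨?_, a3, a4⟩⟩
    push_cast at b1 ⊢
    linarith
  · refine ⟨(c.1, c.2 + 1), c, Or.inr (Or.inr (Or.inr ⟨by simp, by simpa using hc,
      by simpa using hd⟩)), ?_⟩
    have hE : VEdge c (c.1, c.2 + 1) c := Or.inr ⟨rfl, rfl⟩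
    rw [hE.mem]
    push_cast at b2 ⊢
    exact ⟨by linarith, a3, a4⟩

lemma frontier_side {x : Plane} (hx : x ∈ frontier (region P)) :
    ∃ p q, Side P p q ∧ x ∈ segment ℝ (toP p) (toP q) := by
  rw [mem_frontier_iff] at hx
  obtain ⟨⟨c, hc, hxc⟩, d, hd, hxd⟩ := hx
  obtain ⟨⟨a1, a2⟩, a3, a4⟩ := id hxc
  obtain ⟨⟨b1, b2⟩, b3, b4⟩ := id hxd
  have i1 : c.1 ≤ d.1 + 1 := by
    have : (c.1 : ℝ) ≤ d.1 + 1 := by linarith
    exact_mod_cast this
  have i2 : d.1 ≤ c.1 + 1 := by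
    have : (d.1 : ℝ) ≤ c.1 + 1 := by linarith
    exact_mod_cast this
  have i3 : c.2 ≤ d.2 + 1 := by
    have : (c.2 : ℝ) ≤ d.2 + 1 := by linarith
    exact_mod_cast this
  have i4 : d.2 ≤ c.2 + 1 := by
    have : (d.2 : ℝ) ≤ c.2 + 1 := by linarith
    exact_mod_cast this
  by_cases h1 : c.1 = d.1
  · by_cases h2 : c.2 = d.2
    · exact absurd (Prod.ext h1 h2 ▸ hc) hd
    · refine nb_side ?_ hc hd hxc hxd
      have : d.2 = c.2 - 1 ∨ d.2 = c.2 + 1 := by omega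
      rcases this with h | h
      · exact Or.inl (Prod.ext h1.symm h)
      · exact Or.inr (Or.inl (Prod.ext h1.symm h))
  · have h3 : d.1 = c.1 + 1 ∨ d.1 = c.1 - 1 := by omega
    by_cases h2 : c.2 = d.2
    · refine nb_side ?_ hc hd hxc hxd
      rcases h3 with h | h
      · exact Or.inr (Or.inr (Or.inl (Prod.ext h h2.symm)))
      · exact Or.inr (Or.inr (Or.inr (Prod.ext h h2.symm)))
    · have h4 : d.2 = c.2 - 1 ∨ d.2 = c.2 + 1 := by omega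
      have hxe : x ∈ square (c.1, d.2) := ⟨⟨a1, a2⟩, b3, b4⟩
      by_cases he : (c.1, d.2) ∈ P
      · refine nb_side ?_ he hd hxe hxd
        rcases h3 with h | h
        · exact Or.inr (Or.inr (Or.inl (Prod.ext h rfl)))
        · exact Or.inr (Or.inr (Or.inr (Prod.ext h rfl)))
      · refine nb_side ?_ hc he hxc hxe
        rcases h4 with h | h
        · exact Or.inl (Prod.ext rfl h)
        · exact Or.inr (Or.inl (Prod.ext rfl h))

theorem BdWalk.frontier_eq (hw : BdWalk P n w) :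
    frontier (region P) = ⋃ i < n, segment ℝ (toP (w i)) (toP (w (i + 1))) := by
  apply Subset.antisymm
  · intro x hx
    obtain ⟨p, q, hs, hx⟩ := frontier_side hx
    obtain ⟨i, hi, rfl, rfl⟩ := hw.cov p q hs
    exact mem_biUnion (show i ∈ {i | i < n} from hi) hx
  · refine iUnion₂_subset fun i _ => (hw.side i).subset_frontier

/-! ### Connectedness -/

def Adj (P : Finset (ℤ × ℤ)) (c d : ℤ × ℤ) : Prop := c ∈ P ∧ d ∈ P ∧ Nb c d

lemma Nb.symm {c d : ℤ × ℤ} (h : Nb c d) : Nb d c := by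
  unfold Nb at *
  simp only [Prod.ext_iff] at *
  omega

lemma Adj.symm {c d : ℤ × ℤ} (h : Adj P c d) : Adj P d c := ⟨h.2.1, h.1, h.2.2.symm⟩

lemma rtg_symm {c d : ℤ × ℤ} (h : Relation.ReflTransGen (Adj P) c d) :
    Relation.ReflTransGen (Adj P) d c := by
  induction h with
  | refl => exact Relation.ReflTransGen.refl
  | tail _ h2 ih => exact Relation.ReflTransGen.head h2.symm ih

/-- `c` is the cell to the left of the edge from `p` to `q` -/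
def LC (c p q : ℤ × ℤ) : Prop :=
  (q = (p.1 + 1, p.2) ∧ c = p) ∨ (q = (p.1 - 1, p.2) ∧ c = (p.1 - 1, p.2 - 1)) ∨
  (q = (p.1, p.2 + 1) ∧ c = (p.1 - 1, p.2)) ∨ (q = (p.1, p.2 - 1) ∧ c = (p.1, p.2 - 1))

lemma Side.lc {p q : ℤ × ℤ} (h : Side P p q) : ∃ c ∈ P, LC c p q := by
  rcases h with ⟨h, h1, h2⟩ | ⟨h, h1, h2⟩ | ⟨h, h1, h2⟩ | ⟨h, h1, h2⟩
  · exact ⟨_, h1, Or.inl ⟨h, rfl⟩⟩
  · exact ⟨_, h1, Or.inr (Or.inl ⟨h, rfl⟩)⟩
  · exact ⟨_, h1, Or.inr (Or.inr (Or.inl ⟨h, rfl⟩))⟩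
  · exact ⟨_, h1, Or.inr (Or.inr (Or.inr ⟨h, rfl⟩))⟩

lemma BdWalk.w_mod (hw : BdWalk P n w) (a : ℕ) : w a = w (a % n) := by
  have key : ∀ k r, w (r + k * n) = w r := by
    intro k
    induction k with
    | zero => intro r; simp
    | succ k ih =>
      intro r
      rw [show r + (k + 1) * n = (r + k * n) + n by ring, hw.per, ih]
  conv_lhs => rw [← Nat.mod_add_div a n, mul_comm n]
  exact key _ _

lemma BdWalk.succ_eq (hw : BdWalk P n w) {a b : ℕ} (h : w a = w b) : w (a + 1) = w (b + 1) := by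
  have hn : 0 < n := lt_of_lt_of_le (by norm_num) hw.three
  rw [hw.w_mod a, hw.w_mod b] at h
  have h1 := hw.inj _ (Nat.mod_lt a hn) _ (Nat.mod_lt b hn) h
  rw [hw.w_mod (a + 1), hw.w_mod (b + 1), Nat.add_mod a, Nat.add_mod b, h1]

lemma BdWalk.uniq (hw : BdWalk P n w) {i : ℕ} {q : ℤ × ℤ} (h : Side P (w i) q) :
    w (i + 1) = q := by
  obtain ⟨k, -, h1, h2⟩ := hw.cov _ _ h
  rw [← h2]
  exact hw.succ_eq h1.symm

lemma one_step {c d : ℤ × ℤ} (hc : c ∈ P) (hd : d ∈ P) (h : Nb c d) :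
    Relation.ReflTransGen (Adj P) c d := Relation.ReflTransGen.single ⟨hc, hd, h⟩

lemma BdWalk.step_conn (hw : BdWalk P n w) {i : ℕ} {c c' : ℤ × ℤ} (hc : c ∈ P) (hc' : c' ∈ P)
    (h : LC c (w i) (w (i + 1))) (h' : LC c' (w (i + 1)) (w (i + 1 + 1))) :
    Relation.ReflTransGen (Adj P) c c' := by
  have s1 := hw.side i
  have s2 := hw.side (i + 1)
  have hu := fun q => hw.uniq (i := i + 1) (q := q)
  generalize w (i + 1 + 1) = r at *
  generalize w (i + 1) = q at *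
  generalize w i = p at *
  obtain ⟨p1, p2⟩ := p
  obtain ⟨q1, q2⟩ := q
  obtain ⟨r1, r2⟩ := r
  unfold Side at s1 s2 hu
  simp only [Prod.mk.injEq] at s1 s2 hu
  unfold LC at h h'
  simp only [Prod.mk.injEq] at h h'
  rcases h with ⟨⟨e1, e2⟩, rfl⟩ | ⟨⟨e1, e2⟩, rfl⟩ | ⟨⟨e1, e2⟩, rfl⟩ | ⟨⟨e1, e2⟩, rfl⟩
  all_goals
    replace e1 := e1.symm
    replace e2 := e2.symm
    subst e1 e2
  -- arrival in direction +x
  · have n1 : (p1, p2 - 1) ∉ P := by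
      rcases s1 with ⟨-, -, h⟩ | ⟨⟨h, -⟩, -⟩ | ⟨⟨h, -⟩, -⟩ | ⟨⟨h, -⟩, -⟩
      · exact h
      all_goals omega
    rcases h' with ⟨⟨e1, e2⟩, rfl⟩ | ⟨⟨e1, e2⟩, rfl⟩ | ⟨⟨e1, e2⟩, rfl⟩ | ⟨⟨e1, e2⟩, rfl⟩
    all_goals
      replace e1 := e1.symm
      replace e2 := e2.symm
      subst e1 e2
    · exact one_step hc hc' (Or.inr (Or.inr (Or.inl rfl)))
    · exfalso; apply n1; simpa using hc'
    · have : (p1 + 1 - 1, p2) = (p1, p2) := by simp
      rw [this]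
    · by_cases he : (p1 + 1, p2) ∈ P
      · exact (one_step hc he (Or.inr (Or.inr (Or.inl rfl)))).trans
          (one_step he hc' (Or.inl rfl))
      · exfalso
        have := hu (p1 + 1, p2 + 1) (Or.inr (Or.inr (Or.inl ⟨rfl, by simpa using hc, he⟩)))
        simp only [Prod.mk.injEq] at this
        omega
  -- arrival in direction -x
  · have n1 : (p1 - 1, p2) ∉ P := by
      rcases s1 with ⟨⟨h, -⟩, -⟩ | ⟨-, -, h⟩ | ⟨⟨h, -⟩, -⟩ | ⟨⟨h, -⟩, -⟩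
      · omega
      · exact h
      all_goals omega
    rcases h' with ⟨⟨e1, e2⟩, rfl⟩ | ⟨⟨e1, e2⟩, rfl⟩ | ⟨⟨e1, e2⟩, rfl⟩ | ⟨⟨e1, e2⟩, rfl⟩
    all_goals
      replace e1 := e1.symm
      replace e2 := e2.symm
      subst e1 e2
    · exfalso; exact n1 hc'
    · exact one_step hc hc' (Or.inr (Or.inr (Or.inr rfl)))
    · by_cases he : (p1 - 1 - 1, p2 - 1) ∈ P
      · refine (one_step hc he (Or.inr (Or.inr (Or.inr rfl)))).trans
          (one_step he hc' (Or.inr (Or.inl ?_)))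
        simp
      · exfalso
        have := hu (p1 - 1, p2 - 1) (Or.inr (Or.inr (Or.inr ⟨rfl, hc, he⟩)))
        simp only [Prod.mk.injEq] at this
        omega
    · exact Relation.ReflTransGen.refl
  -- arrival in direction +y
  · have n1 : (p1, p2) ∉ P := by
      rcases s1 with ⟨⟨h, -⟩, -⟩ | ⟨⟨h, -⟩, -⟩ | ⟨-, -, h⟩ | ⟨⟨-, h⟩, -⟩
      · omega
      · omega
      · exact h
      · omega
    rcases h' with ⟨⟨e1, e2⟩, rfl⟩ | ⟨⟨e1, e2⟩, rfl⟩ | ⟨⟨e1, e2⟩, rfl⟩ | ⟨⟨e1, e2⟩, rfl⟩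
    all_goals
      replace e1 := e1.symm
      replace e2 := e2.symm
      subst e1 e2
    · by_cases he : (p1 - 1, p2 + 1) ∈ P
      · refine (one_step hc he (Or.inr (Or.inl rfl))).trans
          (one_step he hc' (Or.inr (Or.inr (Or.inl ?_))))
        simp
      · exfalso
        have := hu (p1 - 1, p2 + 1) (Or.inr (Or.inl ⟨rfl, by simpa using hc, he⟩))
        simp only [Prod.mk.injEq] at this
        omega
    · have : (p1 - 1, p2 + 1 - 1) = (p1 - 1, p2) := by simp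
      rw [this]
    · exact one_step hc hc' (Or.inr (Or.inl rfl))
    · exfalso; apply n1; simpa using hc'
  -- arrival in direction -y
  · have n1 : (p1 - 1, p2 - 1) ∉ P := by
      rcases s1 with ⟨⟨h, -⟩, -⟩ | ⟨⟨h, -⟩, -⟩ | ⟨⟨-, h⟩, -⟩ | ⟨-, -, h⟩
      · omega
      · omega
      · omega
      · exact h
    rcases h' with ⟨⟨e1, e2⟩, rfl⟩ | ⟨⟨e1, e2⟩, rfl⟩ | ⟨⟨e1, e2⟩, rfl⟩ | ⟨⟨e1, e2⟩, rfl⟩
    all_goals
      replace e1 := e1.symm
      replace e2 := e2.symm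
      subst e1 e2
    · exact Relation.ReflTransGen.refl
    · by_cases he : (p1, p2 - 1 - 1) ∈ P
      · exact (one_step hc he (Or.inl rfl)).trans
          (one_step he hc' (Or.inr (Or.inr (Or.inr rfl))))
      · exfalso
        have := hu (p1 + 1, p2 - 1) (Or.inl ⟨rfl, hc, he⟩)
        simp only [Prod.mk.injEq] at this
        omega
    · exfalso; exact n1 hc'
    · exact one_step hc hc' (Or.inl rfl)

lemma BdWalk.all_conn (hw : BdWalk P n w) {c0 : ℤ × ℤ} (h0 : LC c0 (w 0) (w 1))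
    (i : ℕ) : ∀ c ∈ P, LC c (w i) (w (i + 1)) → Relation.ReflTransGen (Adj P) c0 c := by
  induction i with
  | zero =>
    intro c hc h
    have : c = c0 := by
      unfold LC at h h0
      generalize w 0 = p at *
      generalize w (0 + 1) = q at *
      simp only [Prod.ext_iff] at h h0 ⊢
      omega
    rw [this]
  | succ i ih =>
    intro c hc h
    obtain ⟨d, hd, hdl⟩ := (hw.side i).lc
    exact (ih d hd hdl).trans (hw.step_conn hd hc hdl h)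

lemma BdWalk.conn (hw : BdWalk P n w) : ∀ c ∈ P, ∀ d ∈ P, Relation.ReflTransGen (Adj P) c d := by
  obtain ⟨c0, hc0, h0⟩ := (hw.side 0).lc
  have key : ∀ k : ℕ, ∀ c ∈ P, (∀ e ∈ P, c.2 - k ≤ e.2) →
      Relation.ReflTransGen (Adj P) c0 c := by
    intro k
    induction k with
    | zero =>
      intro c hc hb
      have h1 : (c.1, c.2 - 1) ∉ P := fun h => by
        have := hb _ h
        simp only at this
        omega
      obtain ⟨i, -, hi, hi'⟩ := hw.cov c (c.1 + 1, c.2) (Or.inl ⟨rfl, hc, h1⟩)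
      refine hw.all_conn h0 i c hc (Or.inl ⟨?_, hi.symm⟩)
      rw [hi', hi]
    | succ k ih =>
      intro c hc hb
      by_cases h1 : (c.1, c.2 - 1) ∈ P
      · refine (ih _ h1 ?_).trans (one_step h1 hc (Or.inr (Or.inl ?_)))
        · intro e he
          have := hb e he
          push_cast at this
          simp only
          omega
        · simp
      · obtain ⟨i, -, hi, hi'⟩ := hw.cov c (c.1 + 1, c.2) (Or.inl ⟨rfl, hc, h1⟩)
        refine hw.all_conn h0 i c hc (Or.inl ⟨?_, hi.symm⟩)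
        rw [hi', hi]
  obtain ⟨m, hm⟩ : ∃ m : ℤ, ∀ e ∈ P, m ≤ e.2 := by
    obtain ⟨m, hm⟩ := (P.image Prod.snd).bddBelow
    exact ⟨m, fun e he => hm (by simpa using ⟨e.1, he⟩)⟩
  have key2 : ∀ c ∈ P, Relation.ReflTransGen (Adj P) c0 c := by
    intro c hc
    refine key (c.2 - m).toNat c hc fun e he => ?_
    have h1 := hm c hc
    have h2 := hm e he
    omega
  intro c hc d hd
  exact (rtg_symm (key2 c hc)).trans (key2 d hd)

end Pool.Agent.Helper697.Box
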