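import Mathlib
import Pool.Agent.Helper697.BoxPoly2

open Set

namespace Pool.Agent.Helper697.Box

open Pool.Agent.Helper697.Rep (square region mem_of_interior square_convex square_closed
  square_open)

variable {P : Finset (ℤ × ℤ)} {n : ℕ} {w : ℕ → ℤ × ℤ}

lemma square_interior_nonempty (c : ℤ × ℤ) : (interior (square c)).Nonempty := by
  refine ⟨!₂[(c.1 : ℝ) + 1 / 2, (c.2 : ℝ) + 1 / 2], ?_⟩
  rw [mem_interior]
  refine ⟨{y | ((c.1 : ℝ) < y 0 ∧ y 0 < c.1 + 1) ∧ ((c.2 : ℝ) < y 1 ∧ y 1 < c.2 + 1)}, ?_, ?_, ?_⟩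
  · rintro y ⟨⟨h1, h2⟩, h3, h4⟩
    exact ⟨⟨h1.le, h2.le⟩, h3.le, h4.le⟩
  · have c0 : Continuous fun y : Plane => y 0 := by fun_prop
    have c1 : Continuous fun y : Plane => y 1 := by fun_prop
    exact ((isOpen_lt continuous_const c0).and (isOpen_lt c0 continuous_const)).and
      ((isOpen_lt continuous_const c1).and (isOpen_lt c1 continuous_const))
  · change ((c.1 : ℝ) < c.1 + 1 / 2 ∧ (c.1 : ℝ) + 1 / 2 < c.1 + 1) ∧
      ((c.2 : ℝ) < c.2 + 1 / 2 ∧ (c.2 : ℝ) + 1 / 2 < c.2 + 1)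
    refine ⟨⟨?_, ?_⟩, ?_, ?_⟩ <;> linarith

/-- the part of a square in the interior of the region -/
def pc (P : Finset (ℤ × ℤ)) (c : ℤ × ℤ) : Set Plane := square c ∩ interior (region P)

lemma int_sub {c : ℤ × ℤ} (hc : c ∈ P) : interior (square c) ⊆ interior (region P) :=
  interior_mono (subset_biUnion_of_mem (u := square) hc)

lemma pc_preconnected {c : ℤ × ℤ} (hc : c ∈ P) : IsPreconnected (pc P c) := by
  have h1 : IsPreconnected (interior (square c)) := (square_convex c).interior.isPreconnected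
  refine h1.subset_closure ?_ ?_
  · exact fun x hx => ⟨interior_subset hx, int_sub hc hx⟩
  · rw [(square_convex c).closure_interior_eq_closure_of_nonempty_interior
      (square_interior_nonempty c)]
    exact fun x hx => subset_closure hx.1

lemma pc_meet {c d : ℤ × ℤ} (hc : c ∈ P) (hd : d ∈ P) (h : Nb c d) :
    (pc P c ∩ pc P d).Nonempty := by
  have key : ∀ c d : ℤ × ℤ, c ∈ P → d ∈ P → (d = (c.1, c.2 + 1) ∨ d = (c.1 + 1, c.2)) →
      (pc P c ∩ pc P d).Nonempty := by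
    intro c d hc hd h
    rcases h with rfl | rfl
    · refine ⟨!₂[(c.1 : ℝ) + 1 / 2, (c.2 : ℝ) + 1], ?_⟩
      have h1 : (!₂[(c.1 : ℝ) + 1 / 2, (c.2 : ℝ) + 1] : Plane) ∈ square c := by
        change ((c.1 : ℝ) ≤ c.1 + 1 / 2 ∧ (c.1 : ℝ) + 1 / 2 ≤ c.1 + 1) ∧
          ((c.2 : ℝ) ≤ c.2 + 1 ∧ (c.2 : ℝ) + 1 ≤ c.2 + 1)
        refine ⟨⟨?_, ?_⟩, ?_, ?_⟩ <;> linarith
      have h2 : (!₂[(c.1 : ℝ) + 1 / 2, (c.2 : ℝ) + 1] : Plane) ∈ square (c.1, c.2 + 1) := by
        change ((c.1 : ℝ) ≤ c.1 + 1 / 2 ∧ (c.1 : ℝ) + 1 / 2 ≤ c.1 + 1) ∧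
          (((c.2 + 1 : ℤ) : ℝ) ≤ c.2 + 1 ∧ (c.2 : ℝ) + 1 ≤ ((c.2 + 1 : ℤ) : ℝ) + 1)
        push_cast
        refine ⟨⟨?_, ?_⟩, ?_, ?_⟩ <;> linarith
      have h3 : (!₂[(c.1 : ℝ) + 1 / 2, (c.2 : ℝ) + 1] : Plane) ∈ interior (region P) := by
        refine interior_of_cells fun e he => ?_
        obtain ⟨⟨a1, a2⟩, a3, a4⟩ := he
        change (e.1 : ℝ) ≤ c.1 + 1 / 2 at a1
        change (c.1 : ℝ) + 1 / 2 ≤ e.1 + 1 at a2
        change (e.2 : ℝ) ≤ c.2 + 1 at a3
        change (c.2 : ℝ) + 1 ≤ e.2 + 1 at a4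
        have b1 : e.1 < c.1 + 1 := by
          have : (e.1 : ℝ) < c.1 + 1 := by linarith
          exact_mod_cast this
        have b2 : c.1 < e.1 + 1 := by
          have : (c.1 : ℝ) < e.1 + 1 := by linarith
          exact_mod_cast this
        have b3 : e.2 ≤ c.2 + 1 := by exact_mod_cast a3
        have b4 : c.2 ≤ e.2 := by
          have : (c.2 : ℝ) ≤ e.2 := by linarith
          exact_mod_cast this
        have b5 : e.2 = c.2 ∨ e.2 = c.2 + 1 := by omega
        rcases b5 with b5 | b5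
        · have : e = c := Prod.ext (by omega) b5
          rw [this]; exact hc
        · have : e = (c.1, c.2 + 1) := Prod.ext (by simp only; omega) b5
          rw [this]; exact hd
      exact ⟨⟨h1, h3⟩, h2, h3⟩
    · refine ⟨!₂[(c.1 : ℝ) + 1, (c.2 : ℝ) + 1 / 2], ?_⟩
      have h1 : (!₂[(c.1 : ℝ) + 1, (c.2 : ℝ) + 1 / 2] : Plane) ∈ square c := by
        change ((c.1 : ℝ) ≤ c.1 + 1 ∧ (c.1 : ℝ) + 1 ≤ c.1 + 1) ∧
          ((c.2 : ℝ) ≤ c.2 + 1 / 2 ∧ (c.2 : ℝ) + 1 / 2 ≤ c.2 + 1)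
        refine ⟨⟨?_, ?_⟩, ?_, ?_⟩ <;> linarith
      have h2 : (!₂[(c.1 : ℝ) + 1, (c.2 : ℝ) + 1 / 2] : Plane) ∈ square (c.1 + 1, c.2) := by
        change (((c.1 + 1 : ℤ) : ℝ) ≤ c.1 + 1 ∧ (c.1 : ℝ) + 1 ≤ ((c.1 + 1 : ℤ) : ℝ) + 1) ∧
          ((c.2 : ℝ) ≤ c.2 + 1 / 2 ∧ (c.2 : ℝ) + 1 / 2 ≤ c.2 + 1)
        push_cast
        refine ⟨⟨?_, ?_⟩, ?_, ?_⟩ <;> linarith
      have h3 : (!₂[(c.1 : ℝ) + 1, (c.2 : ℝ) + 1 / 2] : Plane) ∈ interior (region P) := by
        refine interior_of_cells fun e he => ?_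
        obtain ⟨⟨a1, a2⟩, a3, a4⟩ := he
        change (e.1 : ℝ) ≤ c.1 + 1 at a1
        change (c.1 : ℝ) + 1 ≤ e.1 + 1 at a2
        change (e.2 : ℝ) ≤ c.2 + 1 / 2 at a3
        change (c.2 : ℝ) + 1 / 2 ≤ e.2 + 1 at a4
        have b1 : e.2 < c.2 + 1 := by
          have : (e.2 : ℝ) < c.2 + 1 := by linarith
          exact_mod_cast this
        have b2 : c.2 < e.2 + 1 := by
          have : (c.2 : ℝ) < e.2 + 1 := by linarith
          exact_mod_cast this
        have b3 : e.1 ≤ c.1 + 1 := by exact_mod_cast a1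
        have b4 : c.1 ≤ e.1 := by
          have : (c.1 : ℝ) ≤ e.1 := by linarith
          exact_mod_cast this
        have b5 : e.1 = c.1 ∨ e.1 = c.1 + 1 := by omega
        rcases b5 with b5 | b5
        · have : e = c := Prod.ext b5 (by omega)
          rw [this]; exact hc
        · have : e = (c.1 + 1, c.2) := Prod.ext b5 (by simp only; omega)
          rw [this]; exact hd
      exact ⟨⟨h1, h3⟩, h2, h3⟩
  rcases h with h | h | h | h
  · rw [inter_comm]
    refine key d c hd hc (Or.inl ?_)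
    rw [h]; simp
  · exact key c d hc hd (Or.inl h)
  · exact key c d hc hd (Or.inr h)
  · rw [inter_comm]
    refine key d c hd hc (Or.inr ?_)
    rw [h]; simp

lemma interior_eq : interior (region P) = ⋃ c ∈ (P : Set (ℤ × ℤ)), pc P c := by
  apply Subset.antisymm
  · intro x hx
    have := interior_subset hx
    simp only [region, mem_iUnion] at this
    obtain ⟨c, hc, hxc⟩ := this
    exact mem_biUnion (show c ∈ (P : Set (ℤ × ℤ)) from hc) ⟨hxc, hx⟩
  · exact iUnion₂_subset fun c _ => inter_subset_right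

lemma interior_connected (hne : P.Nonempty)
    (h : ∀ c ∈ P, ∀ d ∈ P, Relation.ReflTransGen (Adj P) c d) :
    IsConnected (interior (region P)) := by
  constructor
  · obtain ⟨c, hc⟩ := hne
    exact (square_interior_nonempty c).mono (int_sub hc)
  · rw [interior_eq]
    refine IsPreconnected.biUnion_of_reflTransGen (fun c hc => pc_preconnected hc) ?_
    intro c hc d hd
    have hm : ∀ a b, Adj P a b → (fun i j => (pc P i ∩ pc P j).Nonempty ∧
        i ∈ (P : Set (ℤ × ℤ))) a b := by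
      rintro a b ⟨ha, hb, hab⟩
      exact ⟨pc_meet ha hb hab, ha⟩
    have hcd := h c hc d hd
    induction hcd with
    | refl => exact Relation.ReflTransGen.refl
    | tail h1 h2 ih => exact (ih h2.1).tail (hm _ _ h2)

theorem BdWalk.isPolygon (hw : BdWalk P n w) : IsPolygon (region P) := by
  have hn := hw.three
  refine ⟨n, fun i => toP (w i), hn, fun i => congrArg toP (hw.per i), ?_, ?_, region_isCompact P, ?_,
    hw.frontier_eq⟩
  · intro i h
    have h1 := toP_inj h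
    have h2 := hw.side i
    rw [← h1] at h2
    unfold Side at h2
    simp only [Prod.ext_iff] at h2
    omega
  · intro i j hij hj x hx hx'
    have hi1 : i + 1 < n := by omega
    have inj' : ∀ a b, a < n → b < n → w a = w b → a = b := fun a b ha hb h =>
      hw.inj a ha b hb h
    have wn : w n = w 0 := by have := hw.per 0; rwa [zero_add] at this
    have e1 : w i ≠ w j := fun h => by have := inj' _ _ (by omega) hj h; omega
    have e2 : w i = w (j + 1) → i = 0 ∧ j + 1 = n := by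
      intro h
      by_cases hjn : j + 1 = n
      · rw [hjn, wn] at h
        exact ⟨inj' _ _ (by omega) (by omega) h, hjn⟩
      · have := inj' _ _ (by omega) (by omega) h
        omega
    have e3 : w (i + 1) = w j → i + 1 = j := fun h => inj' _ _ hi1 hj h
    have e4 : w (i + 1) ≠ w (j + 1) := by
      intro h
      by_cases hjn : j + 1 = n
      · rw [hjn, wn] at h
        have := inj' _ _ hi1 (by omega) h
        omega
      · have := inj' _ _ hi1 (by omega) h
        omega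
    rcases seg_inter (hw.side i).norm (hw.side j).norm hx hx' with h | h | ⟨r, h1, h2, h3⟩
    · exact absurd h.1 e1
    · exfalso
      have a1 := e2 h.1
      have a2 := e3 h.2
      omega
    · rcases h1 with h1 | h1 <;> rcases h2 with h2 | h2
      · exact absurd (h1.symm.trans h2) e1
      · obtain ⟨a1, a2⟩ := e2 (h1.symm.trans h2)
        right
        refine ⟨a1, a2, ?_⟩
        rw [h3, h1, a1]
      · left
        refine ⟨(e3 (h1.symm.trans h2)).symm, ?_⟩
        rw [h3, h2]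
      · exact absurd (h1.symm.trans h2) e4
  · obtain ⟨c, hc, -⟩ := (hw.side 0).lc
    exact interior_connected ⟨c, hc⟩ hw.conn

end Pool.Agent.Helper697.Box
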