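import Mathlib
import Pool.Agent.Helper697.BoxCheck
import Pool.Agent.Helper697.BoxPoly3

/-!
A polygon that folds into four boxes.
-/

open Set

namespace Pool.Agent.Helper697.Box

open Pool.Agent.Helper697.Rep (square region ctr)

lemma cond_true {a b : Bool} (h : cond a b false = true) : a = true ∧ b = true := by
  cases a
  · simp at h
  · exact ⟨rfl, h⟩

lemma cond_true' {α : Type} {a b : α} : cond true a b = a := rfl

lemma cond_false' {α : Type} {a b : α} : cond false a b = b := rfl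

lemma cond_or {a b : Bool} (h : cond a true b = true) : a = true ∨ b = true := by
  cases a
  · right; exact h
  · left; rfl

lemma beq_false {a b : ℕ} (h : a ≠ b) : Nat.beq a b = false := by
  rw [← Bool.not_eq_true]
  exact fun h' => h (Nat.eq_of_beq_eq_true h')

lemma beq_true {a b : ℕ} (h : Nat.beq a b = true) : a = b := Nat.eq_of_beq_eq_true h

/-- the point with code `c` -/
def dec (c : ℕ) : ℤ × ℤ := (((c / 2048 : ℕ) : ℤ), ((c % 2048 : ℕ) : ℤ))

lemma dec_inj {c d : ℕ} (h : dec c = dec d) : c = d := by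
  unfold dec at h
  rw [Prod.mk.injEq] at h
  omega

lemma dec_add_x (c : ℕ) : dec (c + 2048) = ((dec c).1 + 1, (dec c).2) := by
  unfold dec
  simp only [Prod.mk.injEq]
  omega

lemma dec_sub_x {c : ℕ} (h : 2048 ≤ c) : dec (c - 2048) = ((dec c).1 - 1, (dec c).2) := by
  unfold dec
  simp only [Prod.mk.injEq]
  omega

lemma dec_add_y {c : ℕ} (h : c % 2048 ≤ 2046) : dec (c + 1) = ((dec c).1, (dec c).2 + 1) := by
  unfold dec
  simp only [Prod.mk.injEq]
  omega

lemma dec_sub_y {c : ℕ} (h : 1 ≤ c % 2048) : dec (c - 1) = ((dec c).1, (dec c).2 - 1) := by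
  unfold dec
  simp only [Prod.mk.injEq]
  omega

lemma dec_add_xy {c : ℕ} (h : c % 2048 ≤ 2046) :
    dec (c + 2049) = ((dec c).1 + 1, (dec c).2 + 1) := by
  unfold dec
  simp only [Prod.mk.injEq]
  omega

lemma dec_sub_xy {c : ℕ} (h : 1 ≤ c % 2048) (h' : 2048 ≤ c) :
    dec (c - 2049) = ((dec c).1 - 1, (dec c).2 - 1) := by
  unfold dec
  simp only [Prod.mk.injEq]
  omega

def keys : Finset ℕ := ((Finset.range 5346).erase 0).erase 297

lemma mem_keys {k : ℕ} : k ∈ keys ↔ k ≠ 297 ∧ k ≠ 0 ∧ k < 5346 := by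
  unfold keys
  rw [Finset.mem_erase, Finset.mem_erase, Finset.mem_range]

lemma card_keys : keys.card = 5344 := by
  unfold keys
  rw [Finset.card_erase_of_mem, Finset.card_erase_of_mem, Finset.card_range]
  · simp
  · simp

lemma notHole_spec {B C x y : ℕ} (h : notHole B C x y = true) : ¬ (x % B = 0 ∧ y % C = 0) := by
  rintro ⟨h1, h2⟩
  have h' : cond (Nat.beq (x % B) 0) (cond (Nat.beq (y % C) 0) false true) true = true := h
  rw [h1, h2] at h'
  simp at h'

lemma T_spec {k : ℕ} (hk : k ∈ keys) :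
    key (T k) = k ∧ 2048 ≤ T k ∧ 1 ≤ T k % 2048 ∧ T k % 2048 ≤ 2046 ∧
    (¬ ((T k / 2048) % 9 = 0 ∧ (T k % 2048) % 297 = 0)) ∧
    (¬ ((T k / 2048) % 27 = 0 ∧ (T k % 2048) % 99 = 0)) ∧
    (¬ ((T k / 2048) % 81 = 0 ∧ (T k % 2048) % 33 = 0)) ∧
    (¬ ((T k / 2048) % 243 = 0 ∧ (T k % 2048) % 11 = 0)) := by
  obtain ⟨h1, h2, h3⟩ := mem_keys.mp hk
  have h := chk_spec chkT_all (by norm_num) k h3
  unfold chkT at h
  rw [beq_false h2, beq_false h1] at h
  simp only [cond_false, force_eq] at h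
  obtain ⟨a1, h⟩ := cond_true h
  obtain ⟨a2, h⟩ := cond_true h
  obtain ⟨a3, h⟩ := cond_true h
  obtain ⟨a4, h⟩ := cond_true h
  obtain ⟨a5, h⟩ := cond_true h
  obtain ⟨a6, h⟩ := cond_true h
  obtain ⟨a7, a8⟩ := cond_true h
  exact ⟨beq_true a1, Nat.le_of_ble_eq_true a2, Nat.le_of_ble_eq_true a3,
    Nat.le_of_ble_eq_true a4, notHole_spec a5, notHole_spec a6, notHole_spec a7,
    notHole_spec a8⟩

/-- the cells of the polygon -/
def P : Finset (ℤ × ℤ) := keys.image fun k => dec (T k)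

lemma mem_P {e : ℤ × ℤ} : e ∈ P ↔ ∃ k ∈ keys, dec (T k) = e := by
  unfold P
  rw [Finset.mem_image]

lemma T_inj {k l : ℕ} (hk : k ∈ keys) (hl : l ∈ keys) (h : T k = T l) : k = l := by
  rw [← (T_spec hk).1, ← (T_spec hl).1, h]

lemma card_P : P.card = 5344 := by
  unfold P
  rw [Finset.card_image_of_injOn, card_keys]
  intro k hk l hl h
  exact T_inj hk hl (dec_inj h)

lemma key_lt (c : ℕ) : key c < 5346 := by
  have h : key c = (c / 2048 % 9) * 594 + (c % 2048) % 594 := rfl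
  have h1 := Nat.mod_lt (c / 2048) (by norm_num : 0 < 9)
  have h2 := Nat.mod_lt (c % 2048) (by norm_num : 0 < 594)
  omega

lemma T_zero : T 0 = 1 := by decide +kernel

lemma T_297 : T 297 = 1 := by decide +kernel

lemma dec_mem_P {c : ℕ} : dec c ∈ P ↔ memB c = true := by
  rw [mem_P]
  constructor
  · rintro ⟨k, hk, h⟩
    have h1 := dec_inj h
    subst h1
    unfold memB
    rw [(T_spec hk).1]
    exact Nat.beq_refl _
  · intro h
    have h1 : T (key c) = c := beq_true h
    refine ⟨key c, ?_, by rw [h1]⟩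
    rw [mem_keys]
    refine ⟨?_, ?_, key_lt c⟩
    · intro h2
      rw [h2, T_297] at h1
      rw [← h1] at h2
      exact absurd h2 (by decide)
    · intro h2
      rw [h2, T_zero] at h1
      rw [← h1] at h2
      exact absurd h2 (by decide)

lemma dec_not_mem_P {c : ℕ} : dec c ∉ P ↔ memB c = false := by
  rw [dec_mem_P, Bool.not_eq_true]

/-! ### the boundary walk -/

lemma cond_mid {a b : Bool} (h : cond a (cond b false true) false = true) :
    a = true ∧ b = false := by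
  cases a <;> cases b <;> simp_all

lemma sideB_spec {c c' : ℕ} (h2048 : 2048 ≤ c) (h1 : 1 ≤ c % 2048) (h2 : c % 2048 ≤ 2046)
    (h : sideB c c' = true) : Side P (dec c) (dec c') := by
  unfold sideB at h
  unfold Side
  by_cases e1 : c' = c + 2048
  · left
    have : Nat.beq c' (Nat.add c 2048) = true := by rw [e1]; exact Nat.beq_refl _
    rw [this, cond_true'] at h
    obtain ⟨g1, g2⟩ := cond_mid h
    refine ⟨?_, dec_mem_P.mpr g1, ?_⟩
    · rw [e1, dec_add_x]
    · rw [← dec_sub_y h1]; exact dec_not_mem_P.mpr g2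
  have : Nat.beq c' (Nat.add c 2048) = false := beq_false e1
  rw [this, cond_false'] at h
  by_cases e2 : c' + 2048 = c
  · right; left
    have : Nat.beq (Nat.add c' 2048) c = true := by rw [← e2]; exact Nat.beq_refl _
    rw [this, cond_true'] at h
    obtain ⟨g1, g2⟩ := cond_mid h
    have e3 : c' = c - 2048 := by omega
    refine ⟨?_, ?_, ?_⟩
    · rw [e3, dec_sub_x h2048]
    · rw [← dec_sub_xy h1 h2048]; exact dec_mem_P.mpr g1
    · rw [← dec_sub_x h2048]; exact dec_not_mem_P.mpr g2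
  have : Nat.beq (Nat.add c' 2048) c = false := beq_false e2
  rw [this, cond_false'] at h
  by_cases e3 : c' = c + 1
  · right; right; left
    have : Nat.beq c' (Nat.add c 1) = true := by rw [e3]; exact Nat.beq_refl _
    rw [this, cond_true'] at h
    obtain ⟨g1, g2⟩ := cond_mid h
    refine ⟨?_, ?_, dec_not_mem_P.mpr g2⟩
    · rw [e3, dec_add_y h2]
    · rw [← dec_sub_x h2048]; exact dec_mem_P.mpr g1
  have : Nat.beq c' (Nat.add c 1) = false := beq_false e3
  rw [this, cond_false'] at h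
  by_cases e4 : c' + 1 = c
  · right; right; right
    have : Nat.beq (Nat.add c' 1) c = true := by rw [← e4]; exact Nat.beq_refl _
    rw [this, cond_true'] at h
    obtain ⟨g1, g2⟩ := cond_mid h
    have e3 : c' = c - 1 := by omega
    refine ⟨?_, ?_, ?_⟩
    · rw [e3, dec_sub_y h1]
    · rw [← dec_sub_y h1]; exact dec_mem_P.mpr g1
    · rw [← dec_sub_xy h1 h2048]; exact dec_not_mem_P.mpr g2
  have : Nat.beq (Nat.add c' 1) c = false := beq_false e4
  rw [this, cond_false'] at h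
  exact absurd h (by simp)

lemma nxt_eq {j : ℕ} (hj : j < 6082) : nxt j = (j + 1) % 6082 := by
  unfold nxt
  by_cases h : j = 6081
  · rw [h]; rfl
  · rw [beq_false h, cond_false']
    change j + 1 = _
    omega

lemma V_spec {j : ℕ} (hj : j < 6082) :
    IV (hsh (V j)) = j ∧ Side P (dec (V j)) (dec (V (nxt j))) := by
  have h := chk_spec chkV_all (by norm_num) j hj
  unfold chkV at h
  simp only [force_eq] at h
  obtain ⟨a1, h⟩ := cond_true h
  obtain ⟨a2, h⟩ := cond_true h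
  obtain ⟨a3, h⟩ := cond_true h
  obtain ⟨a4, h⟩ := cond_true h
  exact ⟨beq_true a4, sideB_spec (Nat.le_of_ble_eq_true a1) (Nat.le_of_ble_eq_true a2)
    (Nat.le_of_ble_eq_true a3) h⟩

/-- the boundary walk -/
def w (i : ℕ) : ℤ × ℤ := dec (V (i % 6082))

lemma edgeB_spec {a b : ℕ} (h : edgeB a b = true) :
    ∃ i < 6082, w i = dec a ∧ w (i + 1) = dec b := by
  unfold edgeB at h
  rw [force_eq] at h
  by_cases h1 : 6082 ≤ IV (hsh a)
  · rw [Nat.ble_eq_true_of_le h1] at h
    exact absurd h (by simp)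
  · have h2 : Nat.ble 6082 (IV (hsh a)) = false := by
      rw [← Bool.not_eq_true, Nat.ble_eq]; exact h1
    rw [h2, cond_false'] at h
    obtain ⟨g1, g2⟩ := cond_true h
    have hj : IV (hsh a) < 6082 := by omega
    refine ⟨IV (hsh a), hj, ?_, ?_⟩
    · unfold w
      rw [Nat.mod_eq_of_lt hj, beq_true g1]
    · unfold w
      rw [← nxt_eq hj, beq_true g2]

lemma S_spec {k : ℕ} (hk : k ∈ keys) :
    ((memB (T k - 1) = true ∨ edgeB (T k) (T k + 2048) = true) ∧
    (memB (T k + 1) = true ∨ edgeB (T k + 2049) (T k + 1) = true)) ∧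
    (memB (T k + 2048) = true ∨ edgeB (T k + 2048) (T k + 2049) = true) ∧
    (memB (T k - 2048) = true ∨ edgeB (T k + 1) (T k) = true) := by
  obtain ⟨h1, h2, h3⟩ := mem_keys.mp hk
  have h := chk_spec chkS_all (by norm_num) k h3
  unfold chkS at h
  rw [beq_false h2, beq_false h1] at h
  simp only [cond_false, force_eq] at h
  obtain ⟨a1, h⟩ := cond_true h
  obtain ⟨a2, h⟩ := cond_true h
  obtain ⟨a3, a4⟩ := cond_true h
  exact ⟨⟨cond_or a1, cond_or a2⟩, cond_or a3, cond_or a4⟩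

theorem bdWalk : BdWalk P 6082 w := by
  refine ⟨by norm_num, ?_, ?_, ?_, ?_⟩
  · intro i
    unfold w
    rw [Nat.add_mod_right]
  · intro i hi j hj h
    unfold w at h
    rw [Nat.mod_eq_of_lt hi, Nat.mod_eq_of_lt hj] at h
    have h1 := dec_inj h
    rw [← (V_spec hi).1, ← (V_spec hj).1, h1]
  · intro i
    have hi : i % 6082 < 6082 := Nat.mod_lt _ (by norm_num)
    have h := (V_spec hi).2
    have h1 : nxt (i % 6082) = (i + 1) % 6082 := by
      rw [nxt_eq hi, Nat.mod_add_mod]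
    rw [h1] at h
    exact h
  · rintro p q h
    rcases h with ⟨h1, h2, h3⟩ | ⟨h1, h2, h3⟩ | ⟨h1, h2, h3⟩ | ⟨h1, h2, h3⟩
    · obtain ⟨k, hk, e⟩ := mem_P.mp h2
      obtain ⟨-, t1, t2, t3, -⟩ := T_spec hk
      have e1 : (p.1, p.2 - 1) = dec (T k - 1) := by rw [dec_sub_y t2, e]
      rw [e1, dec_not_mem_P] at h3
      obtain ⟨i, hi, g1, g2⟩ := edgeB_spec ((S_spec hk).1.1.resolve_left (by rw [h3]; simp))
      refine ⟨i, hi, by rw [g1, e], ?_⟩
      rw [g2, h1, dec_add_x, e]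
    · obtain ⟨k, hk, e⟩ := mem_P.mp h2
      obtain ⟨-, t1, t2, t3, -⟩ := T_spec hk
      have e1 : (p.1 - 1, p.2) = dec (T k + 1) := by
        rw [dec_add_y t3, e]; simp
      rw [e1, dec_not_mem_P] at h3
      obtain ⟨i, hi, g1, g2⟩ := edgeB_spec ((S_spec hk).1.2.resolve_left (by rw [h3]; simp))
      refine ⟨i, hi, ?_, ?_⟩
      · rw [g1, dec_add_xy t3, e]; simp
      · rw [g2, h1, e1]
    · obtain ⟨k, hk, e⟩ := mem_P.mp h2
      obtain ⟨-, t1, t2, t3, -⟩ := T_spec hk
      have e1 : p = dec (T k + 2048) := by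
        rw [dec_add_x, e]; simp
      rw [e1, dec_not_mem_P] at h3
      obtain ⟨i, hi, g1, g2⟩ := edgeB_spec ((S_spec hk).2.1.resolve_left (by rw [h3]; simp))
      refine ⟨i, hi, ?_, ?_⟩
      · rw [g1, ← e1]
      · rw [g2, h1, dec_add_xy t3, e]; simp
    · obtain ⟨k, hk, e⟩ := mem_P.mp h2
      obtain ⟨-, t1, t2, t3, -⟩ := T_spec hk
      have e1 : (p.1 - 1, p.2 - 1) = dec (T k - 2048) := by
        rw [dec_sub_x t1, e]
      rw [e1, dec_not_mem_P] at h3
      obtain ⟨i, hi, g1, g2⟩ := edgeB_spec ((S_spec hk).2.2.resolve_left (by rw [h3]; simp))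
      refine ⟨i, hi, ?_, ?_⟩
      · rw [g1, dec_add_y t3, e]; simp
      · rw [g2, h1, e]

/-! ### the four foldings -/

lemma I_spec {I : ℕ → ℕ} {B C : ℕ} (h : allR (chk 5346 (chkI I B C)) 13 0 = true) {k : ℕ}
    (hk : k ∈ keys) :
    I (codeF B C (cX B C (T k)) (cY B (T k)) (cZ C (T k))) = k := by
  obtain ⟨h1, h2, h3⟩ := mem_keys.mp hk
  have h := chk_spec h (by norm_num) k h3
  unfold chkI at h
  rw [beq_false h2, beq_false h1] at h
  simp only [cond_false, force_eq] at h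
  exact beq_true h

lemma ctr_eq (B C c : ℕ) : ctr (Fm B C) (dec c) =
    (((cX B C c : ℕ) : ℤ), ((cY B c : ℕ) : ℤ), ((cZ C c : ℕ) : ℤ)) := by
  have h1 : ((dec c).1 + 1, (dec c).2 + 1) =
      (((c / 2048 + 1 : ℕ) : ℤ), ((c % 2048 + 1 : ℕ) : ℤ)) := by
    unfold dec; push_cast; rfl
  unfold ctr
  rw [h1, Fm_apply]
  unfold dec
  rw [Fm_apply]
  have a1 : cX B C c = fx B C (c / 2048) (c % 2048) + fx B C (c / 2048 + 1) (c % 2048 + 1) := rfl
  have a2 : cY B c = zz B (c / 2048) + zz B (c / 2048 + 1) := rfl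
  have a3 : cZ C c = zz C (c % 2048) + zz C (c % 2048 + 1) := rfl
  rw [a1, a2, a3]
  push_cast
  rfl

theorem gridFold_of {I : ℕ → ℕ} {B C : ℕ} (h : allR (chk 5346 (chkI I B C)) 13 0 = true)
    (hB : 2 ≤ B) (hC : 2 ≤ C)
    (hole : ∀ k ∈ keys, ¬ ((T k / 2048) % B = 0 ∧ (T k % 2048) % C = 0))
    (area : 2 * ((B - 1) * (C - 1)) + (2 * (1 * (C - 1)) + 2 * (1 * (B - 1))) ≤ 5344) :
    GridFold P (((1 : ℕ) : ℤ), ((B - 1 : ℕ) : ℤ), ((C - 1 : ℕ) : ℤ)) (Fm B C) := by
  refine GridFold.of_inj (by norm_num) (by omega) (by omega) ?_ ?_ (by rw [card_P]; exact area)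
  · intro e he
    obtain ⟨k, hk, rfl⟩ := mem_P.mp he
    obtain ⟨-, t1, t2, t3, -⟩ := T_spec hk
    have := good_cell (x := T k / 2048) (y := T k % 2048) hB hC (by omega) t2 (hole k hk)
    rw [Nat.cast_sub (by omega), Nat.cast_sub (by omega)]
    exact this
  · intro e he d hd hh
    obtain ⟨k, hk, rfl⟩ := mem_P.mp he
    obtain ⟨l, hl, rfl⟩ := mem_P.mp hd
    rw [ctr_eq, ctr_eq, Prod.mk.injEq, Prod.mk.injEq] at hh
    obtain ⟨h1, h2, h3⟩ := hh
    rw [Nat.cast_inj] at h1 h2 h3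
    have hk' := I_spec h hk
    have hl' := I_spec h hl
    rw [h1, h2, h3, hl'] at hk'
    rw [hk']

/-- the four boxes -/
def boxes (i : Fin 4) : ℝ × ℝ × ℝ :=
  match i with
  | 0 => (1, 8, 296)
  | 1 => (1, 26, 98)
  | 2 => (1, 80, 32)
  | 3 => (1, 242, 10)

theorem folds_boxes (i : Fin 4) :
    FoldsIntoBox (region P) (boxes i).1 (boxes i).2.1 (boxes i).2.2 := by
  unfold FoldsIntoBox
  match i with
  | 0 =>
    have h := (gridFold_of chkA_all (by norm_num) (by norm_num)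
      (fun k hk => (T_spec hk).2.2.2.2.1) (by norm_num)).folds
    norm_num at h
    simpa [boxes] using h
  | 1 =>
    have h := (gridFold_of chkB_all (by norm_num) (by norm_num)
      (fun k hk => (T_spec hk).2.2.2.2.2.1) (by norm_num)).folds
    norm_num at h
    simpa [boxes] using h
  | 2 =>
    have h := (gridFold_of chkC_all (by norm_num) (by norm_num)
      (fun k hk => (T_spec hk).2.2.2.2.2.2.1) (by norm_num)).folds
    norm_num at h
    simpa [boxes] using h
  | 3 =>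
    have h := (gridFold_of chkD_all (by norm_num) (by norm_num)
      (fun k hk => (T_spec hk).2.2.2.2.2.2.2) (by norm_num)).folds
    norm_num at h
    simpa [boxes] using h

lemma boxes_pos (i : Fin 4) : 0 < (boxes i).1 ∧ 0 < (boxes i).2.1 ∧ 0 < (boxes i).2.2 := by
  match i with
  | 0 => simp [boxes]
  | 1 => simp [boxes]
  | 2 => simp [boxes]
  | 3 => simp [boxes]


lemma different_of_vol {B B' : ℝ × ℝ × ℝ} (h : B.1 * (B.2.1 * B.2.2) ≠ B'.1 * (B'.2.1 * B'.2.2)) :
    DifferentBoxes B B' := by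
  intro h'
  apply h
  have := congrArg Multiset.prod h'
  simpa using this

lemma boxes_diff (i j : Fin 4) (h : i ≠ j) : DifferentBoxes (boxes i) (boxes j) := by
  apply different_of_vol
  match i, j with
  | 0, 0 => exact absurd rfl h
  | 1, 1 => exact absurd rfl h
  | 2, 2 => exact absurd rfl h
  | 3, 3 => exact absurd rfl h
  | 0, 1 => norm_num [boxes]
  | 0, 2 => norm_num [boxes]
  | 0, 3 => norm_num [boxes]
  | 1, 0 => norm_num [boxes]
  | 1, 2 => norm_num [boxes]
  | 1, 3 => norm_num [boxes]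
  | 2, 0 => norm_num [boxes]
  | 2, 1 => norm_num [boxes]
  | 2, 3 => norm_num [boxes]
  | 3, 0 => norm_num [boxes]
  | 3, 1 => norm_num [boxes]
  | 3, 2 => norm_num [boxes]

end Pool.Agent.Helper697.Box
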