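import Mathlib

open scoped RealInnerProductSpace
open Set Filter Topology

namespace Pool.Agent.Helper697

variable {V : Type*} [NormedAddCommGroup V] [InnerProductSpace ℝ V]

/-- `F` preserves norms and does not decrease inner products. -/
def Expn (F : V → V) : Prop := (∀ x y, ⟪x, y⟫ ≤ ⟪F x, F y⟫) ∧ ∀ x, ‖F x‖ = ‖x‖

/-- `F` preserves inner products on `S`. -/
def IsoOn (F : V → V) (S : Set V) : Prop := ∀ x ∈ S, ∀ y ∈ S, ⟪F x, F y⟫ = ⟪x, y⟫

def FinCover (F : V → V) (K : Set V) : Prop :=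
  ∃ C : Set (Set V), C.Finite ∧ (∀ S ∈ C, IsoOn F S) ∧ K ⊆ ⋃₀ C

lemma Expn.lip {F : V → V} (hF : Expn F) (x y : V) : ‖F x - F y‖ ≤ ‖x - y‖ := by
  have h1 := hF.1 x y
  have h2 : ‖F x - F y‖ ^ 2 ≤ ‖x - y‖ ^ 2 := by
    rw [@norm_sub_sq_real, @norm_sub_sq_real, hF.2, hF.2]
    linarith
  exact (sq_le_sq₀ (norm_nonneg _) (norm_nonneg _)).mp h2

lemma Expn.continuous {F : V → V} (hF : Expn F) : Continuous F := by
  have : LipschitzWith 1 F := LipschitzWith.of_dist_le_mul fun x y => by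
    rw [dist_eq_norm, dist_eq_norm, NNReal.coe_one, one_mul]
    exact hF.lip x y
  exact this.continuous

lemma IsoOn.mono {F : V → V} {S T : Set V} (h : IsoOn F T) (hST : S ⊆ T) : IsoOn F S :=
  fun x hx y hy => h x (hST hx) y (hST hy)

/-- If `F` preserves inner products on `{x, y}` then it is linear on the cone they span. -/
lemma Expn.comb {F : V → V} (hF : Expn F) {x y : V} (h : ⟪F x, F y⟫ = ⟪x, y⟫) {a b : ℝ}
    (ha : 0 ≤ a) (hb : 0 ≤ b) : F (a • x + b • y) = a • F x + b • F y := by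
  rw [← sub_eq_zero, ← norm_eq_zero, ← sq_eq_zero_iff]
  apply le_antisymm _ (sq_nonneg _)
  rw [@norm_sub_sq_real, hF.2]
  have h1 := hF.1 (a • x + b • y) x
  have h2 := hF.1 (a • x + b • y) y
  have h3 : ‖a • F x + b • F y‖ ^ 2 = ‖a • x + b • y‖ ^ 2 := by
    rw [@norm_add_sq_real, @norm_add_sq_real]
    simp only [norm_smul, hF.2, real_inner_smul_left, real_inner_smul_right, h]
  have h4 : ‖a • x + b • y‖ ^ 2 = a * ⟪a • x + b • y, x⟫ + b * ⟪a • x + b • y, y⟫ := by
    rw [← real_inner_self_eq_norm_sq, inner_add_right, real_inner_smul_right,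
      real_inner_smul_right]
  have h5 : ⟪F (a • x + b • y), a • F x + b • F y⟫ =
      a * ⟪F (a • x + b • y), F x⟫ + b * ⟪F (a • x + b • y), F y⟫ := by
    rw [inner_add_right, real_inner_smul_right, real_inner_smul_right]
  rw [h3, h5]
  nlinarith [mul_le_mul_of_nonneg_left h1 ha, mul_le_mul_of_nonneg_left h2 hb]

lemma Expn.smul {F : V → V} (hF : Expn F) (x : V) {a : ℝ} (ha : 0 ≤ a) :
    F (a • x) = a • F x := by
  have h : ⟪F x, F x⟫ = ⟪x, x⟫ := by
    rw [real_inner_self_eq_norm_sq, real_inner_self_eq_norm_sq, hF.2]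
  have := hF.comb h ha le_rfl
  simpa using this

lemma Expn.self {F : V → V} (hF : Expn F) (x : V) : ⟪F x, F x⟫ = ⟪x, x⟫ := by
  rw [real_inner_self_eq_norm_sq, real_inner_self_eq_norm_sq, hF.2]

lemma IsoOn.closure' {F : V → V} (hF : Expn F) {S : Set V} (h : IsoOn F S) :
    IsoOn F (closure S) := by
  have hc := hF.continuous
  intro x hx y hy
  have h1 : ∀ x ∈ S, ∀ y ∈ closure S, ⟪F x, F y⟫ = ⟪x, y⟫ := by
    intro x hx y hy
    have hcl : IsClosed {y | ⟪F x, F y⟫ = ⟪x, y⟫} :=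
      isClosed_eq (by fun_prop) (by fun_prop)
    exact closure_minimal (fun y hy => h x hx y hy) hcl hy
  have hcl : IsClosed {x | ⟪F x, F y⟫ = ⟪x, y⟫} :=
    isClosed_eq (by fun_prop) (by fun_prop)
  exact closure_minimal (fun x hx => h1 x hx y hy) hcl hx

/-- A closed convex cone on which `F` preserves inner products. -/
structure IsoCone (F : V → V) (M : Set V) : Prop where
  iso : IsoOn F M
  closed : IsClosed M
  comb : ∀ x ∈ M, ∀ y ∈ M, ∀ a b : ℝ, 0 ≤ a → 0 ≤ b → a • x + b • y ∈ M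

lemma exists_isoCone {F : V → V} (hF : Expn F) {S : Set V} (h : IsoOn F S) :
    ∃ M, S ⊆ M ∧ IsoCone F M := by
  obtain ⟨M, hSM, hM⟩ := zorn_subset_nonempty {T : Set V | IsoOn F T} (by
    intro c hc hchain hne
    refine ⟨⋃₀ c, ?_, fun s hs => subset_sUnion_of_mem hs⟩
    intro x hx y hy
    obtain ⟨s, hs, hxs⟩ := hx
    obtain ⟨t, ht, hyt⟩ := hy
    rcases hchain.total hs ht with hst | hts
    · exact hc ht x (hst hxs) y hyt
    · exact hc hs x hxs y (hts hyt)) S h
  refine ⟨M, hSM, hM.prop, ?_, ?_⟩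
  · have h1 : IsoOn F (closure M) := IsoOn.closure' hF hM.prop
    have h2 : closure M ⊆ M := hM.le_of_ge h1 subset_closure
    exact isClosed_of_closure_subset h2
  · intro x hx y hy a b ha hb
    have hc := hF.comb (hM.prop x hx y hy) ha hb
    have h1 : IsoOn F (insert (a • x + b • y) M) := by
      have key : ∀ z ∈ M, ⟪F (a • x + b • y), F z⟫ = ⟪a • x + b • y, z⟫ := by
        intro z hz
        rw [hc, inner_add_left, inner_add_left, real_inner_smul_left, real_inner_smul_left,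
          real_inner_smul_left, real_inner_smul_left, hM.prop x hx z hz, hM.prop y hy z hz]
      intro p hp q hq
      rcases hp with rfl | hp
      · rcases hq with rfl | hq
        · exact hF.self _
        · exact key q hq
      · rcases hq with rfl | hq
        · rw [real_inner_comm, key p hp, real_inner_comm]
        · exact hM.prop p hp q hq
    exact hM.le_of_ge h1 (subset_insert _ _) (mem_insert _ _)

lemma FinCover.empty {F : V → V} : FinCover F ∅ :=
  ⟨∅, Set.finite_empty, by simp, by simp⟩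

lemma FinCover.mono {F : V → V} {K L : Set V} (h : FinCover F L) (hKL : K ⊆ L) :
    FinCover F K := by
  obtain ⟨C, h1, h2, h3⟩ := h
  exact ⟨C, h1, h2, hKL.trans h3⟩

lemma FinCover.union {F : V → V} {K L : Set V} (h : FinCover F K) (h' : FinCover F L) :
    FinCover F (K ∪ L) := by
  obtain ⟨C, h1, h2, h3⟩ := h
  obtain ⟨D, k1, k2, k3⟩ := h'
  refine ⟨C ∪ D, h1.union k1, ?_, ?_⟩
  · rintro S (hS | hS)
    · exact h2 S hS
    · exact k2 S hS
  · rintro x (hx | hx)
    · obtain ⟨S, hS, hxS⟩ := h3 hx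
      exact ⟨S, Or.inl hS, hxS⟩
    · obtain ⟨S, hS, hxS⟩ := k3 hx
      exact ⟨S, Or.inr hS, hxS⟩

lemma FinCover.of_iso {F : V → V} {K : Set V} (h : IsoOn F K) : FinCover F K :=
  ⟨{K}, Set.finite_singleton K, by simpa using h, by simp⟩

/-- cover by closed convex cones -/
lemma FinCover.cones {F : V → V} (hF : Expn F) {K : Set V} (h : FinCover F K) :
    ∃ C : Set (Set V), C.Finite ∧ (∀ S ∈ C, IsoCone F S) ∧ K ⊆ ⋃₀ C := by
  obtain ⟨C, h1, h2, h3⟩ := h
  choose! M hM using fun S (hS : S ∈ C) => exists_isoCone hF (h2 S hS)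
  refine ⟨M '' C, h1.image M, ?_, ?_⟩
  · rintro _ ⟨S, hS, rfl⟩
    exact (hM S hS).2
  · intro x hx
    obtain ⟨S, hS, hxS⟩ := h3 hx
    exact ⟨M S, mem_image_of_mem M hS, (hM S hS).1 hxS⟩

/-- cover of the cone over `K` -/
lemma FinCover.cone {F : V → V} (hF : Expn F) {K : Set V} (h : FinCover F K) :
    FinCover F {y | ∃ a : ℝ, 0 ≤ a ∧ ∃ x ∈ K, y = a • x} := by
  obtain ⟨C, h1, h2, h3⟩ := h.cones hF
  refine ⟨C, h1, fun S hS => (h2 S hS).iso, ?_⟩
  rintro y ⟨a, ha, x, hx, rfl⟩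
  obtain ⟨S, hS, hxS⟩ := h3 hx
  refine ⟨S, hS, ?_⟩
  have := (h2 S hS).comb x hxS x hxS a 0 ha le_rfl
  simpa using this

/-- Local straightness. -/
def LocStraight (F : V → V) : Prop :=
  ∀ x u : V, ‖x‖ = 1 → ‖u‖ = 1 → ⟪x, u⟫ = 0 → ∃ ε : ℝ, 0 < ε ∧ ⟪F x, F (x + ε • u)⟫ = 1

/-- The local step of the structure theorem. -/
lemma local_dir [FiniteDimensional ℝ V] {F : V → V} (hF : Expn F) (hs : LocStraight F)
    (U : Submodule ℝ V) (k : ℕ) (hU : Module.finrank ℝ U = k + 1)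
    (ih : ∀ W : Submodule ℝ V, Module.finrank ℝ W = k → FinCover F (W : Set V))
    (x u : V) (hxU : x ∈ U) (hx : ‖x‖ = 1) (huU : u ∈ U) (hu : ‖u‖ = 1) (hxu : ⟪x, u⟫ = 0) :
    ∃ N ∈ 𝓝 u, ∃ t0 : ℝ, 0 < t0 ∧
      FinCover F {y | ∃ v ∈ N, v ∈ U ∧ ⟪x, v⟫ = 0 ∧ ‖v‖ = 1 ∧ ∃ t : ℝ, 0 ≤ t ∧ t ≤ t0 ∧
        y = x + t • v} := by
  obtain ⟨ε, hε, hstr⟩ := hs x u hx hu hxu
  set r := ε / 2 with hr
  have hr0 : 0 < r := by positivity
  set q := x + ε • u with hq
  set p := x + r • u with hp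
  set n := u - r • x with hn
  have hxx : ⟪x, x⟫ = 1 := by rw [real_inner_self_eq_norm_sq, hx]; norm_num
  have huu : ⟪u, u⟫ = 1 := by rw [real_inner_self_eq_norm_sq, hu]; norm_num
  have hux : ⟪u, x⟫ = 0 := by rw [real_inner_comm]; exact hxu
  have hxq : ⟪F x, F q⟫ = ⟪x, q⟫ := by
    rw [hstr, hq, inner_add_right, real_inner_smul_right, hxx, hxu]; ring
  have hpq : p = (1 / 2 : ℝ) • x + (1 / 2 : ℝ) • q := by
    rw [hp, hq, hr]; module
  have hFp : F p = (1 / 2 : ℝ) • F x + (1 / 2 : ℝ) • F q := by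
    rw [hpq]; exact hF.comb hxq (by norm_num) (by norm_num)
  have hxn : ⟪x, n⟫ = -r := by
    rw [hn, inner_sub_right, real_inner_smul_right, hxx, hxu]; ring
  have hn0 : n ≠ 0 := by
    intro h
    rw [h, inner_zero_right] at hxn
    linarith
  have hnU : n ∈ U := U.sub_mem huU (U.smul_mem _ hxU)
  set H : Submodule ℝ V := (ℝ ∙ n)ᗮ ⊓ U with hH
  have hHk : Module.finrank ℝ H = k := by
    have h1 := Submodule.finrank_add_inf_finrank_orthogonal
      (K₁ := (ℝ ∙ n)) (K₂ := U) (by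
        rw [Submodule.span_singleton_le_iff_mem]; exact hnU)
    rw [finrank_span_singleton hn0, hU] at h1
    rw [hH]
    omega
  obtain ⟨C, hC1, hC2, hC3⟩ := (ih H hHk).cones hF
  -- the neighbourhood of `p` that avoids the cones not containing `p`
  have hO : IsClosed (⋃₀ {S ∈ C | p ∉ S}) := by
    rw [sUnion_eq_biUnion]
    apply Set.Finite.isClosed_biUnion (hC1.subset (sep_subset _ _))
    rintro S ⟨hS, -⟩
    exact (hC2 S hS).closed
  have hpO : p ∈ (⋃₀ {S ∈ C | p ∉ S})ᶜ := by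
    rintro ⟨S, ⟨hS, hpS⟩, hpS'⟩
    exact hpS hpS'
  have hcont : Continuous fun v : V => ⟪v, u⟫ • x + r • v := by fun_prop
  have hval : ⟪u, u⟫ • x + r • u = p := by rw [huu, one_smul]
  set N : Set V := (fun v : V => ⟪v, u⟫ • x + r • v) ⁻¹' (⋃₀ {S ∈ C | p ∉ S})ᶜ with hN
  have hNn : N ∈ 𝓝 u := by
    apply (hcont.continuousAt (x := u)).preimage_mem_nhds
    rw [hval]
    exact hO.isOpen_compl.mem_nhds hpO
  refine ⟨N, hNn, r, hr0, ?_⟩
  -- the cones containing `p`, together with `x`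
  have hins : ∀ S ∈ {S ∈ C | p ∈ S}, IsoOn F (insert x S) := by
    rintro S ⟨hS, hpS⟩
    have hSC := hC2 S hS
    have key : ∀ y ∈ S, ⟪F y, F x⟫ = ⟪y, x⟫ := by
      intro y hy
      have h1 := hSC.iso y hy p hpS
      rw [hFp, inner_add_right, real_inner_smul_right, real_inner_smul_right] at h1
      have h2 : ⟪y, p⟫ = (1 / 2 : ℝ) * ⟪y, x⟫ + (1 / 2 : ℝ) * ⟪y, q⟫ := by
        rw [hpq, inner_add_right, real_inner_smul_right, real_inner_smul_right]
      have h3 := hF.1 y x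
      have h4 := hF.1 y q
      linarith
    intro y hy z hz
    rcases hy with rfl | hy
    · rcases hz with rfl | hz
      · exact hF.self _
      · rw [real_inner_comm, key z hz, real_inner_comm]
    · rcases hz with rfl | hz
      · exact key y hy
      · exact hSC.iso y hy z hz
  choose! M hM using fun S (hS : S ∈ {S ∈ C | p ∈ S}) => exists_isoCone hF (hins S hS)
  refine ⟨M '' {S ∈ C | p ∈ S}, (hC1.subset (sep_subset _ _)).image M, ?_, ?_⟩
  · rintro _ ⟨S, hS, rfl⟩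
    exact (hM S hS).2.iso
  · rintro y ⟨v, hvN, hvU, hxv, hv, t, ht0, htr, rfl⟩
    set κ := ⟪v, u⟫ with hκ
    have hκ1 : κ ≤ 1 := by
      have := real_inner_le_norm v u
      rw [hv, hu] at this
      linarith
    set c' := κ • x + r • v with hc'
    have hc'H : c' ∈ H := by
      rw [hH, Submodule.mem_inf]
      refine ⟨?_, U.add_mem (U.smul_mem _ hxU) (U.smul_mem _ hvU)⟩
      rw [Submodule.mem_orthogonal_singleton_iff_inner_right]
      rw [hc', hn, inner_add_right, inner_sub_left, inner_sub_left]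
      simp only [real_inner_smul_left, real_inner_smul_right]
      rw [hxx, hux, hxv, real_inner_comm v u, ← hκ]
      ring
    obtain ⟨S, hS, hcS⟩ := hC3 hc'H
    have hpS : p ∈ S := by
      by_contra hpS
      exact hvN ⟨S, ⟨hS, hpS⟩, hcS⟩
    have hS' : S ∈ {S ∈ C | p ∈ S} := ⟨hS, hpS⟩
    refine ⟨M S, mem_image_of_mem M hS', ?_⟩
    have h1 : x ∈ M S := (hM S hS').1 (mem_insert _ _)
    have h2 : c' ∈ M S := (hM S hS').1 (mem_insert_of_mem _ hcS)
    have h3 : x + t • v = (1 - t * κ / r) • x + (t / r) • c' := by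
      rw [hc', smul_add, smul_smul, smul_smul, ← add_assoc, ← add_smul]
      have e1 : 1 - t * κ / r + t / r * κ = 1 := by ring
      have e2 : t / r * r = t := by field_simp
      rw [e1, e2, one_smul]
    rw [h3]
    apply (hM S hS').2.comb x h1 c' h2
    · rw [sub_nonneg, div_le_one hr0]
      rcases le_or_gt κ 0 with hκ0 | hκ0
      · nlinarith
      · nlinarith
    · positivity

lemma local_pt [FiniteDimensional ℝ V] {F : V → V} (hF : Expn F) (hs : LocStraight F)
    (U : Submodule ℝ V) (k : ℕ) (hU : Module.finrank ℝ U = k + 1)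
    (ih : ∀ W : Submodule ℝ V, Module.finrank ℝ W = k → FinCover F (W : Set V))
    (x : V) (hxU : x ∈ U) (hx : ‖x‖ = 1) :
    ∃ N ∈ 𝓝 x, FinCover F {y | y ∈ N ∧ y ∈ U} := by
  have hxx : ⟪x, x⟫ = 1 := by rw [real_inner_self_eq_norm_sq, hx]; norm_num
  set D : Set V := {u | u ∈ U ∧ ⟪x, u⟫ = 0 ∧ ‖u‖ = 1} with hD
  have hDc : IsCompact D := by
    have h1 : IsCompact (Metric.sphere (0 : V) 1) := isCompact_sphere 0 1
    have h2 : IsClosed {u : V | u ∈ U ∧ ⟪x, u⟫ = 0} := by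
      apply IsClosed.inter
      · exact U.closed_of_finiteDimensional
      · exact isClosed_eq (by fun_prop) (by fun_prop)
    have h3 : D = {u : V | u ∈ U ∧ ⟪x, u⟫ = 0} ∩ Metric.sphere (0 : V) 1 := by
      ext u
      simp [hD, and_assoc]
    rw [h3]
    exact h1.inter_left h2
  have key : ∃ t0 : ℝ, 0 < t0 ∧ FinCover F {y | ∃ v ∈ D, ∃ t : ℝ, 0 ≤ t ∧ t ≤ t0 ∧
        y = x + t • v} := by
    refine hDc.induction_on (p := fun A => ∃ t0 : ℝ, 0 < t0 ∧
      FinCover F {y | ∃ v ∈ A, ∃ t : ℝ, 0 ≤ t ∧ t ≤ t0 ∧ y = x + t • v}) ?_ ?_ ?_ ?_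
    · refine ⟨1, one_pos, FinCover.empty.mono ?_⟩
      rintro y ⟨v, hv, -⟩
      exact hv
    · rintro A B hAB ⟨t0, ht0, h⟩
      refine ⟨t0, ht0, h.mono ?_⟩
      rintro y ⟨v, hv, h⟩
      exact ⟨v, hAB hv, h⟩
    · rintro A B ⟨t0, ht0, h⟩ ⟨t1, ht1, h'⟩
      refine ⟨min t0 t1, lt_min ht0 ht1, (h.union h').mono ?_⟩
      rintro y ⟨v, hv | hv, t, ht, htt, rfl⟩
      · exact Or.inl ⟨v, hv, t, ht, htt.trans (min_le_left _ _), rfl⟩
      · exact Or.inr ⟨v, hv, t, ht, htt.trans (min_le_right _ _), rfl⟩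
    · rintro u ⟨huU, hxu, hu⟩
      obtain ⟨N, hN, t0, ht0, h⟩ := local_dir hF hs U k hU ih x u hxU hx huU hu hxu
      refine ⟨N ∩ D, inter_mem (mem_nhdsWithin_of_mem_nhds hN) self_mem_nhdsWithin,
        t0, ht0, h.mono ?_⟩
      rintro y ⟨v, ⟨hvN, hvU, hxv, hv⟩, t, ht, htt, rfl⟩
      exact ⟨v, hvN, hvU, hxv, hv, t, ht, htt, rfl⟩
  obtain ⟨t0, ht0, hcov⟩ := key
  set N : Set V := {y | 0 < ⟪x, y⟫ ∧ ‖y - ⟪x, y⟫ • x‖ < t0 * ⟪x, y⟫} with hN
  have hNo : IsOpen N := by
    have h1 : IsOpen {y : V | 0 < ⟪x, y⟫} := isOpen_lt continuous_const (by fun_prop)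
    have h2 : IsOpen {y : V | ‖y - ⟪x, y⟫ • x‖ < t0 * ⟪x, y⟫} :=
      isOpen_lt (by fun_prop) (by fun_prop)
    exact h1.inter h2
  have hxN : x ∈ N := by
    constructor
    · rw [hxx]; exact one_pos
    · rw [hxx, one_smul, sub_self, norm_zero]; simpa using ht0
  refine ⟨N, hNo.mem_nhds hxN, ?_⟩
  have h1 : FinCover F ({x} ∪ {y | ∃ v ∈ D, ∃ t : ℝ, 0 ≤ t ∧ t ≤ t0 ∧ y = x + t • v}) := by
    apply FinCover.union _ hcov
    apply FinCover.of_iso
    intro y hy z hz
    rw [mem_singleton_iff] at hy hz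
    subst hy; subst hz
    exact hF.self _
  refine (h1.cone hF).mono ?_
  rintro y ⟨⟨hy1, hy2⟩, hyU⟩
  set c := ⟪x, y⟫ with hc
  set w := y - c • x with hw
  refine ⟨c, hy1.le, ?_⟩
  by_cases hw0 : w = 0
  · refine ⟨x, Or.inl rfl, ?_⟩
    rw [hw, sub_eq_zero] at hw0
    exact hw0
  · have hwn : 0 < ‖w‖ := norm_pos_iff.mpr hw0
    refine ⟨x + (‖w‖ / c) • (‖w‖⁻¹ • w), Or.inr ⟨‖w‖⁻¹ • w, ⟨?_, ?_, ?_⟩, ‖w‖ / c,
      by positivity, ?_, rfl⟩, ?_⟩
    · exact U.smul_mem _ (U.sub_mem hyU (U.smul_mem _ hxU))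
    · rw [real_inner_smul_right, hw, inner_sub_right, real_inner_smul_right, hxx, ← hc]
      ring
    · rw [norm_smul, norm_inv, norm_norm, inv_mul_cancel₀ hwn.ne']
    · rw [div_le_iff₀ hy1]; exact hy2.le
    · rw [smul_smul, smul_add, smul_smul]
      have : c * (‖w‖ / c * ‖w‖⁻¹) = 1 := by field_simp
      rw [this, one_smul, hw]
      abel

/-- **Structure theorem**: a locally straight, inner-product expanding, norm preserving map is
piecewise isometric with finitely many pieces. -/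
theorem structure_thm [FiniteDimensional ℝ V] {F : V → V} (hF : Expn F) (hs : LocStraight F) :
    FinCover F univ := by
  have main : ∀ k : ℕ, ∀ U : Submodule ℝ V, Module.finrank ℝ U = k → FinCover F (U : Set V) := by
    intro k
    induction k with
    | zero =>
      intro U hU
      rw [Submodule.finrank_eq_zero] at hU
      subst hU
      apply FinCover.of_iso
      intro x hx y hy
      simp only [Submodule.bot_coe, mem_singleton_iff] at hx hy
      subst hx; subst hy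
      exact hF.self _
    | succ k ih =>
      intro U hU
      have hK : IsCompact {x : V | x ∈ U ∧ ‖x‖ = 1} := by
        have h1 : IsCompact (Metric.sphere (0 : V) 1) := isCompact_sphere 0 1
        have h2 : IsClosed (U : Set V) := U.closed_of_finiteDimensional
        have h3 : {x : V | x ∈ U ∧ ‖x‖ = 1} = (U : Set V) ∩ Metric.sphere (0 : V) 1 := by
          ext u
          simp
        rw [h3]
        exact h1.inter_left h2
      have hcov : FinCover F {x : V | x ∈ U ∧ ‖x‖ = 1} := by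
        refine hK.induction_on FinCover.empty (fun A B hAB h => h.mono hAB)
          (fun A B h h' => h.union h') ?_
        rintro x ⟨hxU, hx⟩
        obtain ⟨N, hN, h⟩ := local_pt hF hs U k hU ih x hxU hx
        refine ⟨N ∩ {x : V | x ∈ U ∧ ‖x‖ = 1},
          inter_mem (mem_nhdsWithin_of_mem_nhds hN) self_mem_nhdsWithin, h.mono ?_⟩
        rintro y ⟨hy1, hy2, -⟩
        exact ⟨hy1, hy2⟩
      have h0 : FinCover F ({0} : Set V) := by
        apply FinCover.of_iso
        intro x hx y hy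
        rw [mem_singleton_iff] at hx hy
        subst hx; subst hy
        exact hF.self _
      refine (h0.union (hcov.cone hF)).mono ?_
      intro y hy
      by_cases hy0 : y = 0
      · exact Or.inl hy0
      · refine Or.inr ⟨‖y‖, norm_nonneg _, ‖y‖⁻¹ • y, ⟨U.smul_mem _ hy, ?_⟩, ?_⟩
        · rw [norm_smul, norm_inv, norm_norm, inv_mul_cancel₀ (norm_ne_zero_iff.mpr hy0)]
        · rw [smul_smul, mul_inv_cancel₀ (norm_ne_zero_iff.mpr hy0), one_smul]
  have := main _ ⊤ rfl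
  simpa using this

end Pool.Agent.Helper697
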