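import Mathlib
import Pool.Agent.Helper697.Fold1

open scoped RealInnerProductSpace
open Set Filter Topology

namespace Pool.Agent.Helper697

variable {V : Type*} [NormedAddCommGroup V] [InnerProductSpace ℝ V]

/-- `s` is an admissible parameter at `x` for the pair `(a, b)`. -/
def Sol (F : V → V) (a b x : V) (s : ℝ) : Prop :=
  0 ≤ s ∧ ⟪x - s • a, a⟫ ≤ ⟪F (x - s • a), b⟫ ∧ (s = 0 ∨ ⟪x - s • a, a⟫ = ⟪F (x - s • a), b⟫)

def val (F : V → V) (a b x : V) (s : ℝ) : V := F (x - s • a) + s • b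

lemma Sol.compl {F : V → V} {a b x : V} {s : ℝ} (h : Sol F a b x s) :
    s * (⟪F (x - s • a), b⟫ - ⟪x - s • a, a⟫) = 0 := by
  rcases h.2.2 with h | h
  · rw [h, zero_mul]
  · rw [h, sub_self, mul_zero]

lemma Sol.inner_le {F : V → V} (hF : Expn F) {a b x x' : V} {s s' : ℝ} (ha : ‖a‖ = 1)
    (hb : ‖b‖ = 1) (h : Sol F a b x s) (h' : Sol F a b x' s') :
    ⟪x, x'⟫ ≤ ⟪val F a b x s, val F a b x' s'⟫ := by
  set y := x - s • a with hy
  set y' := x' - s' • a with hy'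
  have hx : x = y + s • a := by rw [hy]; abel
  have hx' : x' = y' + s' • a := by rw [hy']; abel
  have haa : ⟪a, a⟫ = 1 := by rw [real_inner_self_eq_norm_sq, ha]; norm_num
  have hbb : ⟪b, b⟫ = 1 := by rw [real_inner_self_eq_norm_sq, hb]; norm_num
  have e1 : ⟪x, x'⟫ = ⟪y, y'⟫ + s' * ⟪y, a⟫ + s * ⟪y', a⟫ + s * s' := by
    rw [hx, hx', inner_add_left, inner_add_right, inner_add_right, real_inner_smul_left,
      real_inner_smul_left, real_inner_smul_right, real_inner_smul_right, haa,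
      real_inner_comm y' a]
    ring
  have e2 : ⟪val F a b x s, val F a b x' s'⟫ =
      ⟪F y, F y'⟫ + s' * ⟪F y, b⟫ + s * ⟪F y', b⟫ + s * s' := by
    rw [val, val, ← hy, ← hy', inner_add_left, inner_add_right, inner_add_right,
      real_inner_smul_left, real_inner_smul_left, real_inner_smul_right,
      real_inner_smul_right, hbb, real_inner_comm (F y') b]
    ring
  rw [e1, e2]
  have h1 := hF.1 y y'
  have h2 := mul_le_mul_of_nonneg_left h.2.1 h'.1
  have h3 := mul_le_mul_of_nonneg_left h'.2.1 h.1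
  linarith

lemma Sol.norm_eq {F : V → V} (hF : Expn F) {a b x : V} {s : ℝ} (ha : ‖a‖ = 1)
    (hb : ‖b‖ = 1) (h : Sol F a b x s) : ‖val F a b x s‖ = ‖x‖ := by
  have hc := h.compl
  set y := x - s • a with hy
  have hx : x = y + s • a := by rw [hy]; abel
  rw [← sq_eq_sq₀ (norm_nonneg _) (norm_nonneg _), val, ← hy]
  rw [hx, @norm_add_sq_real, @norm_add_sq_real, hF.2, norm_smul, norm_smul, ha, hb,
    real_inner_smul_right, real_inner_smul_right]
  linarith

lemma Sol.unique {F : V → V} (hF : Expn F) {a b x : V} {s s' : ℝ} (ha : ‖a‖ = 1)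
    (hb : ‖b‖ = 1) (h : Sol F a b x s) (h' : Sol F a b x s') :
    val F a b x s = val F a b x s' := by
  rw [← sub_eq_zero, ← norm_eq_zero, ← sq_eq_zero_iff]
  apply le_antisymm _ (sq_nonneg _)
  rw [@norm_sub_sq_real, h.norm_eq hF ha hb, h'.norm_eq hF ha hb]
  have := h.inner_le hF ha hb h'
  rw [real_inner_self_eq_norm_sq] at this
  linarith

open Classical in
/-- Brehm's cone extension. -/
noncomputable def Bm (F : V → V) (a b x : V) : V :=
  if h : ∃ s, Sol F a b x s then val F a b x h.choose else 0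

lemma Bm_eq {F : V → V} (hF : Expn F) {a b x : V} {s : ℝ} (ha : ‖a‖ = 1)
    (hb : ‖b‖ = 1) (h : Sol F a b x s) : Bm F a b x = val F a b x s := by
  have hex : ∃ s, Sol F a b x s := ⟨s, h⟩
  rw [Bm, dif_pos hex]
  exact hex.choose_spec.unique hF ha hb h

lemma sol_bound {F : V → V} (hF : Expn F) {a b x : V} {s : ℝ} (ha : ‖a‖ = 1)
    (hb : ‖b‖ = 1) (hFa : F (-a) = -a) (hs : 0 ≤ s) :
    ⟪x - s • a, a⟫ - ⟪F (x - s • a), b⟫ ≤ 2 * ‖x‖ - s * (1 - ⟪a, b⟫) := by
  have haa : ⟪a, a⟫ = 1 := by rw [real_inner_self_eq_norm_sq, ha]; norm_num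
  have h1 : ⟪x - s • a, a⟫ = ⟪x, a⟫ - s := by
    rw [inner_sub_left, real_inner_smul_left, haa, mul_one]
  have h2 : F (s • (-a)) = s • (-a) := by rw [hF.smul _ hs, hFa]
  have h3 : ‖F (x - s • a) - F (s • (-a))‖ ≤ ‖x‖ := by
    have := hF.lip (x - s • a) (s • (-a))
    have e : x - s • a - s • (-a) = x := by rw [smul_neg]; abel
    rwa [e] at this
  have h4 : ⟪F (x - s • a) - F (s • (-a)), b⟫ ≥ -‖x‖ := by
    have := abs_real_inner_le_norm (F (x - s • a) - F (s • (-a))) b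
    rw [hb, mul_one] at this
    have := (abs_le.mp (this.trans h3)).1
    exact this
  rw [h2, inner_sub_left, real_inner_smul_left, inner_neg_left] at h4
  have h5 : ⟪x, a⟫ ≤ ‖x‖ := by
    have := real_inner_le_norm x a
    rwa [ha, mul_one] at this
  rw [h1]
  nlinarith

lemma inner_lt_one_of_ne {a b : V} (ha : ‖a‖ = 1) (hb : ‖b‖ = 1) (hab : b ≠ a) :
    ⟪a, b⟫ < 1 := by
  rw [inner_lt_one_iff_real_of_norm_eq_one ha hb]
  exact hab.symm

lemma exists_sol {F : V → V} (hF : Expn F) {a b : V} (x : V) (ha : ‖a‖ = 1)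
    (hb : ‖b‖ = 1) (hFa : F (-a) = -a) (hab : b ≠ a) :
    ∃ s, Sol F a b x s := by
  have h1 : 0 < 1 - ⟪a, b⟫ := by linarith [inner_lt_one_of_ne ha hb hab]
  set g : ℝ → ℝ := fun s => ⟪x - s • a, a⟫ - ⟪F (x - s • a), b⟫ with hg
  have hgc : Continuous g := by
    have := hF.continuous
    fun_prop
  by_cases h0 : g 0 ≤ 0
  · refine ⟨0, le_rfl, ?_, Or.inl rfl⟩
    simp only [hg] at h0
    linarith
  · push Not at h0
    set S := 2 * ‖x‖ / (1 - ⟪a, b⟫) with hS
    have hS0 : 0 ≤ S := by positivity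
    have hgS : g S ≤ 0 := by
      have := sol_bound hF ha hb hFa hS0 (x := x)
      have e : S * (1 - ⟪a, b⟫) = 2 * ‖x‖ := by rw [hS]; field_simp
      simp only [hg]
      linarith
    obtain ⟨s, hs, hs2⟩ := intermediate_value_Icc' hS0 hgc.continuousOn ⟨hgS, h0.le⟩
    have hs3 : ⟪x - s • a, a⟫ - ⟪F (x - s • a), b⟫ = 0 := hs2
    exact ⟨s, hs.1, by linarith, Or.inr (by linarith)⟩

lemma Sol.bound {F : V → V} (hF : Expn F) {a b x : V} {s : ℝ} (ha : ‖a‖ = 1)
    (hb : ‖b‖ = 1) (hFa : F (-a) = -a) (hab : b ≠ a) (h : Sol F a b x s) :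
    s ≤ 2 * ‖x‖ / (1 - ⟪a, b⟫) := by
  have h1 : 0 < 1 - ⟪a, b⟫ := by linarith [inner_lt_one_of_ne ha hb hab]
  rcases h.2.2 with h0 | h0
  · rw [h0]; positivity
  · have := sol_bound hF ha hb hFa h.1 (x := x)
    rw [le_div_iff₀ h1]
    linarith

lemma Bm_expn {F : V → V} (hF : Expn F) {a b : V} (ha : ‖a‖ = 1)
    (hb : ‖b‖ = 1) (hFa : F (-a) = -a) (hab : b ≠ a) : Expn (Bm F a b) := by
  constructor
  · intro x y
    obtain ⟨s, hs⟩ := exists_sol hF x ha hb hFa hab
    obtain ⟨t, ht⟩ := exists_sol hF y ha hb hFa hab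
    rw [Bm_eq hF ha hb hs, Bm_eq hF ha hb ht]
    exact hs.inner_le hF ha hb ht
  · intro x
    obtain ⟨s, hs⟩ := exists_sol hF x ha hb hFa hab
    rw [Bm_eq hF ha hb hs]
    exact hs.norm_eq hF ha hb

lemma Bm_cover {F : V → V} (hF : Expn F) (hcov : FinCover F univ) {a b : V} (ha : ‖a‖ = 1)
    (hb : ‖b‖ = 1) (hFa : F (-a) = -a) (hab : b ≠ a) : FinCover (Bm F a b) univ := by
  obtain ⟨C, hC1, hC2, hC3⟩ := hcov
  have haa : ⟪a, a⟫ = 1 := by rw [real_inner_self_eq_norm_sq, ha]; norm_num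
  have hbb : ⟪b, b⟫ = 1 := by rw [real_inner_self_eq_norm_sq, hb]; norm_num
  set f1 : Set V → Set V := fun S => {x | x ∈ S ∧ Sol F a b x 0} with hf1
  set f2 : Set V → Set V := fun S => {x | ∃ s : ℝ, 0 ≤ s ∧ x - s • a ∈ S ∧
    ⟪x - s • a, a⟫ = ⟪F (x - s • a), b⟫} with hf2
  refine ⟨f1 '' C ∪ f2 '' C, (hC1.image _).union (hC1.image _), ?_, ?_⟩
  · rintro _ (⟨S, hS, rfl⟩ | ⟨S, hS, rfl⟩)
    · rintro x ⟨hxS, hx⟩ y ⟨hyS, hy⟩
      rw [Bm_eq hF ha hb hx, Bm_eq hF ha hb hy, val, val]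
      simp only [zero_smul, sub_zero, add_zero]
      exact hC2 S hS x hxS y hyS
    · rintro x ⟨s, hs0, hxS, hxe⟩ x' ⟨s', hs'0, hxS', hxe'⟩
      have h1 : Sol F a b x s := ⟨hs0, hxe.le, Or.inr hxe⟩
      have h2 : Sol F a b x' s' := ⟨hs'0, hxe'.le, Or.inr hxe'⟩
      rw [Bm_eq hF ha hb h1, Bm_eq hF ha hb h2, val, val]
      set y := x - s • a with hy
      set y' := x' - s' • a with hy'
      have hx : x = y + s • a := by rw [hy]; abel
      have hx' : x' = y' + s' • a := by rw [hy']; abel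
      rw [hx, hx', inner_add_left, inner_add_right, inner_add_right, inner_add_left,
        inner_add_right, inner_add_right, real_inner_smul_left,
        real_inner_smul_left, real_inner_smul_right, real_inner_smul_right,
        real_inner_smul_left, real_inner_smul_left, real_inner_smul_right,
        real_inner_smul_right, haa, hbb, real_inner_comm (F y') b, real_inner_comm y' a,
        hC2 S hS y hxS y' hxS', hxe, hxe']
  · intro x _
    obtain ⟨s, hs⟩ := exists_sol hF x ha hb hFa hab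
    obtain ⟨S, hS, hxS⟩ := hC3 (mem_univ (x - s • a))
    by_cases h0 : s = 0
    · subst h0
      exact ⟨f1 S, Or.inl (mem_image_of_mem _ hS), by simpa using hxS, hs⟩
    · have := hs.2.2.resolve_left h0
      exact ⟨f2 S, Or.inr (mem_image_of_mem _ hS), s, hs.1, hxS, this⟩

/-- For `b = F a` the construction gives back `F`. -/
lemma Bm_self {F : V → V} (hF : Expn F) {a : V} (ha : ‖a‖ = 1) : Bm F a (F a) = F := by
  ext x
  have hb : ‖F a‖ = 1 := by rw [hF.2, ha]
  have h : Sol F a (F a) x 0 := by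
    refine ⟨le_rfl, ?_, Or.inl rfl⟩
    simp only [zero_smul, sub_zero]
    exact hF.1 x a
  rw [Bm_eq hF ha hb h, val]
  simp

end Pool.Agent.Helper697
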