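import Mathlib
import Pool.Agent.Helper697.Fold2

open scoped RealInnerProductSpace
open Set Filter Topology

namespace Pool.Agent.Helper697

variable {V : Type*} [NormedAddCommGroup V] [InnerProductSpace ℝ V]

/-- The simple fold onto the half space `⟪x, w⟫ ≥ 0`. -/
noncomputable def sfold (w x : V) : V := if 0 ≤ ⟪x, w⟫ then x else x - (2 * ⟪x, w⟫) • w

lemma sfold_expn {w : V} (hw : ‖w‖ = 1) : Expn (sfold w) := by
  have hww : ⟪w, w⟫ = 1 := by rw [real_inner_self_eq_norm_sq, hw]; norm_num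
  constructor
  · intro x y
    unfold sfold
    split_ifs with h1 h2 h2
    · exact le_rfl
    · rw [inner_sub_right, real_inner_smul_right]
      nlinarith
    · rw [inner_sub_left, real_inner_smul_left, real_inner_comm y w]
      nlinarith
    · rw [inner_sub_left, inner_sub_right, inner_sub_right, real_inner_smul_right,
        real_inner_smul_left, real_inner_smul_left, real_inner_smul_right, hww,
        real_inner_comm y w]
      nlinarith
  · intro x
    unfold sfold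
    split_ifs with h
    · rfl
    · rw [← sq_eq_sq₀ (norm_nonneg _) (norm_nonneg _), @norm_sub_sq_real, norm_smul, hw,
        real_inner_smul_right]
      have : ‖2 * ⟪x, w⟫‖ ^ 2 = (2 * ⟪x, w⟫) ^ 2 := by
        rw [Real.norm_eq_abs, sq_abs]
      rw [mul_one, this]
      ring

lemma sfold_cover {w : V} (hw : ‖w‖ = 1) : FinCover (sfold w) univ := by
  have hww : ⟪w, w⟫ = 1 := by rw [real_inner_self_eq_norm_sq, hw]; norm_num
  have h1 : IsoOn (sfold w) {x | 0 ≤ ⟪x, w⟫} := by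
    intro x hx y hy
    rw [mem_ofPred_eq] at hx hy
    rw [sfold, sfold, if_pos hx, if_pos hy]
  have h2 : IsoOn (sfold w) {x | ¬ 0 ≤ ⟪x, w⟫} := by
    intro x hx y hy
    rw [mem_ofPred_eq] at hx hy
    rw [sfold, sfold, if_neg hx, if_neg hy]
    rw [inner_sub_left, inner_sub_right, inner_sub_right, real_inner_smul_right,
        real_inner_smul_left, real_inner_smul_left, real_inner_smul_right, hww,
        real_inner_comm y w]
    ring
  refine ((FinCover.of_iso h1).union (FinCover.of_iso h2)).mono ?_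
  intro x _
  by_cases h : 0 ≤ ⟪x, w⟫
  · exact Or.inl h
  · exact Or.inr h

/-- The great circle arc starting at `a` in direction `w`. -/
noncomputable def arc (a w : V) (τ : ℝ) : V := Real.cos τ • a + Real.sin τ • w

lemma arc_norm {a w : V} (ha : ‖a‖ = 1) (hw : ‖w‖ = 1) (haw : ⟪a, w⟫ = 0) (τ : ℝ) :
    ‖arc a w τ‖ = 1 := by
  rw [← sq_eq_sq₀ (norm_nonneg _) zero_le_one, arc, @norm_add_sq_real, norm_smul, norm_smul,
    real_inner_smul_left, real_inner_smul_right, ha, hw, haw]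
  simp only [Real.norm_eq_abs, mul_one, sq_abs, mul_zero, add_zero, one_pow]
  exact Real.cos_sq_add_sin_sq τ

lemma arc_inner {a w : V} (ha : ‖a‖ = 1) (haw : ⟪a, w⟫ = 0) (τ : ℝ) :
    ⟪a, arc a w τ⟫ = Real.cos τ := by
  have haa : ⟪a, a⟫ = 1 := by rw [real_inner_self_eq_norm_sq, ha]; norm_num
  rw [arc, inner_add_right, real_inner_smul_right, real_inner_smul_right, haa, haw]
  ring

lemma arc_continuous (a w : V) : Continuous (arc a w) := by
  unfold arc
  fun_prop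

lemma arc_zero (a w : V) : arc a w 0 = a := by simp [arc]

lemma arc_ne {a w : V} (ha : ‖a‖ = 1) (haw : ⟪a, w⟫ = 0) {τ : ℝ} (h0 : 0 < τ)
    (hπ : τ ≤ Real.pi) : arc a w τ ≠ a := by
  intro h
  have h1 := arc_inner ha haw τ
  have haa : ⟪a, a⟫ = 1 := by rw [real_inner_self_eq_norm_sq, ha]; norm_num
  rw [h, haa] at h1
  have h2 : Real.cos τ < Real.cos 0 := Real.cos_lt_cos_of_nonneg_of_le_pi le_rfl hπ h0
  rw [Real.cos_zero] at h2
  linarith

lemma fix_far {F : V → V} (hF : Expn F) {a : V} {r : ℝ}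
    (hid : ∀ y, ‖y + a‖ < r → F y = y) {x : V} {s : ℝ} (hs : 0 < s) (hxs : ‖x‖ < r * s) :
    F (x - s • a) = x - s • a := by
  have h1 : x - s • a = s • (s⁻¹ • x - a) := by
    rw [smul_sub, smul_smul, mul_inv_cancel₀ hs.ne', one_smul]
  have h2 : F (s⁻¹ • x - a) = s⁻¹ • x - a := by
    apply hid
    rw [sub_add_cancel, norm_smul, norm_inv, Real.norm_eq_abs, abs_of_pos hs]
    rw [inv_mul_lt_iff₀ hs]
    linarith
  rw [h1, hF.smul _ hs.le, h2]

noncomputable def kap (τ : ℝ) : ℝ := Real.sin τ / (1 - Real.cos τ)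

lemma kap_atTop : Tendsto kap (𝓝[>] 0) atTop := by
  apply tendsto_atTop_mono' _ _ (tendsto_inv_nhdsGT_zero)
  have h1 : ∀ᶠ τ : ℝ in 𝓝[>] 0, τ ∈ Ioo (0:ℝ) 1 := Ioo_mem_nhdsGT one_pos
  filter_upwards [h1] with τ hτ
  have h2 := Real.sin_gt_sub_cube hτ.1
  have h3 := Real.one_sub_sq_div_two_le_cos (x := τ)
  have h4 : Real.cos τ < 1 := by
    have : Real.cos τ < Real.cos 0 := Real.cos_lt_cos_of_nonneg_of_le_pi le_rfl
      (by linarith [Real.pi_gt_three, hτ.2]) hτ.1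
    rwa [Real.cos_zero] at this
  rw [kap, le_div_iff₀ (by linarith), inv_mul_le_iff₀ hτ.1]
  have h5 : τ * (τ - τ ^ 3 / 6) < τ * Real.sin τ := mul_lt_mul_of_pos_left h2 hτ.1
  have h6 : τ ^ 2 ≤ 1 := by nlinarith [hτ.1, hτ.2]
  have h7 : τ ^ 4 ≤ τ ^ 2 := by nlinarith [sq_nonneg τ]
  nlinarith

lemma cos_lt_one' {τ : ℝ} (h0 : 0 < τ) (h1 : τ ≤ Real.pi) : Real.cos τ < 1 := by
  have : Real.cos τ < Real.cos 0 := Real.cos_lt_cos_of_nonneg_of_le_pi le_rfl h1 h0
  rwa [Real.cos_zero] at this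

lemma limit_neg {F : V → V} (hF : Expn F) {a w : V} (ha : ‖a‖ = 1) (hw : ‖w‖ = 1)
    (haw : ⟪a, w⟫ = 0) {r : ℝ} (hr : 0 < r) (hid : ∀ y, ‖y + a‖ < r → F y = y)
    {x : V} (hx : ⟪x, w⟫ < 0) :
    Tendsto (fun τ => Bm F a (arc a w τ) x) (𝓝[>] 0) (𝓝 (x - (2 * ⟪x, w⟫) • w)) := by
  have haa : ⟪a, a⟫ = 1 := by rw [real_inner_self_eq_norm_sq, ha]; norm_num
  set s : ℝ → ℝ := fun τ => ⟪x, a⟫ - kap τ * ⟪x, w⟫ with hs
  have hsT : Tendsto s (𝓝[>] 0) atTop := by
    have h1 : Tendsto (fun τ => kap τ * (-⟪x, w⟫)) (𝓝[>] 0) atTop :=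
      kap_atTop.atTop_mul_const (by linarith)
    have h2 := tendsto_atTop_add_const_left (𝓝[>] (0:ℝ)) ⟪x, a⟫ h1
    refine h2.congr fun τ => ?_
    simp only [hs]; ring
  have h1 : ∀ᶠ τ : ℝ in 𝓝[>] 0, τ ∈ Ioo (0:ℝ) 1 := Ioo_mem_nhdsGT one_pos
  have h2 : ∀ᶠ τ : ℝ in 𝓝[>] 0, max 1 ((‖x‖ + 1) / r) ≤ s τ := hsT.eventually_ge_atTop _
  have key : ∀ᶠ τ : ℝ in 𝓝[>] 0, x + ⟪x, a⟫ • (arc a w τ - a) + (⟪x, w⟫ * Real.sin τ) • a
      - (⟪x, w⟫ * (1 + Real.cos τ)) • w = Bm F a (arc a w τ) x := by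
    filter_upwards [h1, h2] with τ hτ hsτ
    have hs1 : 0 < s τ := lt_of_lt_of_le one_pos ((le_max_left _ _).trans hsτ)
    have hs2 : ‖x‖ < r * s τ := by
      have := (le_max_right _ _).trans hsτ
      rw [div_le_iff₀ hr] at this
      linarith
    have hfix := fix_far hF hid hs1 hs2
    have hc : Real.cos τ < 1 := cos_lt_one' hτ.1 (by linarith [Real.pi_gt_three, hτ.2])
    have hc' : 1 - Real.cos τ ≠ 0 := by linarith
    have hk : kap τ * (1 - Real.cos τ) = Real.sin τ := by rw [kap]; field_simp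
    have hk2 : kap τ * Real.sin τ = 1 + Real.cos τ := by
      have h3 : Real.sin τ ^ 2 = (1 - Real.cos τ) * (1 + Real.cos τ) := by
        rw [Real.sin_sq]; ring
      have h4 : kap τ * Real.sin τ = Real.sin τ ^ 2 / (1 - Real.cos τ) := by
        rw [kap]; ring
      rw [h4, h3]; field_simp
    have hsol : Sol F a (arc a w τ) x (s τ) := by
      have e : ⟪x - s τ • a, a⟫ = ⟪F (x - s τ • a), arc a w τ⟫ := by
        rw [hfix, arc, inner_add_right, real_inner_smul_right, real_inner_smul_right,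
          inner_sub_left, inner_sub_left, real_inner_smul_left, real_inner_smul_left,
          haa, haw]
        simp only [hs]
        linear_combination ⟪x, w⟫ * hk
      exact ⟨hs1.le, e.le, Or.inr e⟩
    rw [Bm_eq hF ha (arc_norm ha hw haw τ) hsol, val, hfix]
    have e1 : ⟪x, w⟫ * Real.sin τ = ⟪x, w⟫ * (kap τ * (1 - Real.cos τ)) := by rw [hk]
    have e2 : ⟪x, w⟫ * (1 + Real.cos τ) = ⟪x, w⟫ * (kap τ * Real.sin τ) := by rw [hk2]
    rw [e1, e2, arc]
    simp only [hs]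
    module
  refine Tendsto.congr' key ?_
  have hcont : Continuous fun τ : ℝ => x + ⟪x, a⟫ • (arc a w τ - a) +
      (⟪x, w⟫ * Real.sin τ) • a - (⟪x, w⟫ * (1 + Real.cos τ)) • w := by
    have := arc_continuous a w
    fun_prop
  have h3 := hcont.tendsto 0
  have h4 : x + ⟪x, a⟫ • (arc a w 0 - a) + (⟪x, w⟫ * Real.sin 0) • a
      - (⟪x, w⟫ * (1 + Real.cos 0)) • w = x - (2 * ⟪x, w⟫) • w := by
    rw [arc_zero, Real.sin_zero, Real.cos_zero]
    module
  rw [h4] at h3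
  exact h3.mono_left nhdsWithin_le_nhds

/-- points near `-a` on the positive side are eventually fixed -/
lemma limit_fix {F : V → V} (hF : Expn F) {a w : V} (ha : ‖a‖ = 1) (hw : ‖w‖ = 1)
    (haw : ⟪a, w⟫ = 0) {y : V} (hy : F y = y) (hyw : 0 < ⟪y, w⟫) :
    ∀ᶠ τ : ℝ in 𝓝[>] 0, Bm F a (arc a w τ) y = y := by
  have h1 : ∀ᶠ τ : ℝ in 𝓝[>] 0, τ ∈ Ioo (0:ℝ) 1 := Ioo_mem_nhdsGT one_pos
  have h2 : ∀ᶠ τ : ℝ in 𝓝[>] 0, ⟪y, a⟫ / ⟪y, w⟫ ≤ kap τ := kap_atTop.eventually_ge_atTop _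
  filter_upwards [h1, h2] with τ hτ hk
  have hc : Real.cos τ < 1 := cos_lt_one' hτ.1 (by linarith [Real.pi_gt_three, hτ.2])
  have hsol : Sol F a (arc a w τ) y 0 := by
    refine ⟨le_rfl, ?_, Or.inl rfl⟩
    rw [zero_smul, sub_zero, hy, arc, inner_add_right, real_inner_smul_right,
      real_inner_smul_right]
    rw [div_le_iff₀ hyw, kap, div_mul_eq_mul_div, le_div_iff₀ (by linarith)] at hk
    linarith
  rw [Bm_eq hF ha (arc_norm ha hw haw τ) hsol, val, zero_smul, sub_zero, hy, zero_smul,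
    add_zero]

lemma limit_all [FiniteDimensional ℝ V] {F : V → V} (hF : Expn F) {a w : V} (ha : ‖a‖ = 1)
    (hw : ‖w‖ = 1) (haw : ⟪a, w⟫ = 0) {r : ℝ} (hr : 0 < r) (hid : ∀ y, ‖y + a‖ < r → F y = y)
    (x : V) :
    Tendsto (fun τ => Bm F a (arc a w τ) x) (𝓝[>] 0) (𝓝 (sfold w x)) := by
  have hww : ⟪w, w⟫ = 1 := by rw [real_inner_self_eq_norm_sq, hw]; norm_num
  have hFa : F (-a) = -a := hid _ (by simpa using hr)
  have hexp : ∀ᶠ τ : ℝ in 𝓝[>] 0, Expn (Bm F a (arc a w τ)) := by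
    have h1 : ∀ᶠ τ : ℝ in 𝓝[>] 0, τ ∈ Ioo (0:ℝ) 1 := Ioo_mem_nhdsGT one_pos
    filter_upwards [h1] with τ hτ
    exact Bm_expn hF ha (arc_norm ha hw haw τ) hFa
      (arc_ne ha haw hτ.1 (by linarith [Real.pi_gt_three, hτ.2]))
  rcases lt_trichotomy ⟪x, w⟫ 0 with hx | hx | hx
  · rw [sfold, if_neg (not_le.mpr hx)]
    exact limit_neg hF ha hw haw hr hid hx
  · -- the boundary case
    rw [sfold, if_pos hx.ge]
    rw [Metric.tendsto_nhds]
    intro ε hε
    set δ := ε / 4 with hδ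
    have hδ0 : 0 < δ := by positivity
    have hxδ : ⟪x - δ • w, w⟫ = -δ := by
      rw [inner_sub_left, real_inner_smul_left, hx, hww]; ring
    have h1 := limit_neg hF ha hw haw hr hid (x := x - δ • w) (by rw [hxδ]; linarith)
    rw [Metric.tendsto_nhds] at h1
    filter_upwards [hexp, h1 δ hδ0] with τ hτ1 hτ2
    have h2 := hτ1.lip x (x - δ • w)
    have h3 : ‖x - (x - δ • w)‖ = δ := by
      rw [sub_sub_cancel, norm_smul, hw, Real.norm_eq_abs, abs_of_pos hδ0, mul_one]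
    rw [h3] at h2
    rw [dist_eq_norm] at hτ2 ⊢
    rw [hxδ] at hτ2
    have h4 : Bm F a (arc a w τ) x - x =
        (Bm F a (arc a w τ) x - Bm F a (arc a w τ) (x - δ • w)) +
        (Bm F a (arc a w τ) (x - δ • w) - (x - δ • w - (2 * -δ) • w)) + δ • w := by
      module
    rw [h4]
    have h5 : ‖δ • w‖ = δ := by
      rw [norm_smul, hw, Real.norm_eq_abs, abs_of_pos hδ0, mul_one]
    calc _ ≤ ‖(Bm F a (arc a w τ) x - Bm F a (arc a w τ) (x - δ • w)) +
        (Bm F a (arc a w τ) (x - δ • w) - (x - δ • w - (2 * -δ) • w))‖ + ‖δ • w‖ :=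
          norm_add_le _ _
      _ ≤ (‖Bm F a (arc a w τ) x - Bm F a (arc a w τ) (x - δ • w)‖ +
        ‖Bm F a (arc a w τ) (x - δ • w) - (x - δ • w - (2 * -δ) • w)‖) + ‖δ • w‖ := by
          gcongr; exact norm_add_le _ _
      _ < ε := by rw [h5]; linarith
  · rw [sfold, if_pos hx.le]
    rw [tendsto_iff_ultrafilter]
    intro 𝒰 h𝒰
    have hball : ∀ᶠ τ in (𝒰 : Filter ℝ), Bm F a (arc a w τ) x ∈ Metric.closedBall (0 : V) ‖x‖ := by
      filter_upwards [h𝒰 hexp] with τ hτ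
      rw [mem_closedBall_zero_iff, hτ.2]
    obtain ⟨z, -, hz⟩ := (isCompact_closedBall (0 : V) ‖x‖).ultrafilter_le_nhds'
      (𝒰.map fun τ => Bm F a (arc a w τ) x) hball
    have hzt : Tendsto (fun τ => Bm F a (arc a w τ) x) 𝒰 (𝓝 z) := hz
    have hnorm : ‖z‖ = ‖x‖ := by
      have h1 : Tendsto (fun τ => ‖Bm F a (arc a w τ) x‖) 𝒰 (𝓝 ‖z‖) := hzt.norm
      have h2 : Tendsto (fun τ => ‖Bm F a (arc a w τ) x‖) 𝒰 (𝓝 ‖x‖) := by
        refine Tendsto.congr' ?_ tendsto_const_nhds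
        filter_upwards [h𝒰 hexp] with τ hτ
        rw [hτ.2]
      exact tendsto_nhds_unique h1 h2
    set ρx := x - (2 * ⟪x, w⟫) • w with hρx
    have hin : ∀ y : V, 0 < ⟪y, w⟫ → 0 ≤ ⟪z - ρx, y⟫ := by
      intro y hy
      set y' := y - (2 * ⟪y, w⟫) • w with hy'
      have hy'w : ⟪y', w⟫ = -⟪y, w⟫ := by
        rw [hy', inner_sub_left, real_inner_smul_left, hww]; ring
      have h1 := limit_neg hF ha hw haw hr hid (x := y') (by rw [hy'w]; linarith)
      have h2 : y' - (2 * ⟪y', w⟫) • w = y := by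
        rw [hy'w, hy']; module
      rw [h2] at h1
      have h3 : Tendsto (fun τ => ⟪Bm F a (arc a w τ) x, Bm F a (arc a w τ) y'⟫) 𝒰
          (𝓝 ⟪z, y⟫) := hzt.inner (h1.mono_left h𝒰)
      have h4 : ⟪x, y'⟫ ≤ ⟪z, y⟫ := by
        refine ge_of_tendsto h3 ?_
        filter_upwards [h𝒰 hexp] with τ hτ
        exact hτ.1 x y'
      have h5 : ⟪x, y'⟫ = ⟪ρx, y⟫ := by
        rw [hy', hρx, inner_sub_right, inner_sub_left, real_inner_smul_right,
          real_inner_smul_left, real_inner_comm y w]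
        ring
      rw [inner_sub_left, ← h5]
      linarith
    set d := z - ρx with hd
    set d' := d - ⟪d, w⟫ • w with hd'
    have hd'w : ⟪d', w⟫ = 0 := by
      rw [hd', inner_sub_left, real_inner_smul_left, hww]; ring
    have hd'0 : d' = 0 := by
      by_contra hne
      have hpos : 0 < ‖d'‖ ^ 2 := by positivity
      have h1 := hin (w - ((⟪d, w⟫ + 1) / ‖d'‖ ^ 2) • d') (by
        rw [inner_sub_left, real_inner_smul_left, hd'w, hww]; norm_num)
      have h2 : ⟪d, d'⟫ = ‖d'‖ ^ 2 := by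
        have : d = d' + ⟪d, w⟫ • w := by rw [hd']; abel
        rw [this, inner_add_left, real_inner_smul_left, real_inner_self_eq_norm_sq,
          real_inner_comm d' w, hd'w, mul_zero, add_zero]
      rw [inner_sub_right, real_inner_smul_right, h2] at h1
      have h3 : (⟪d, w⟫ + 1) / ‖d'‖ ^ 2 * ‖d'‖ ^ 2 = ⟪d, w⟫ + 1 := by field_simp
      rw [h3] at h1
      linarith
    set l := ⟪d, w⟫ with hl
    have hzx : z = x + (l - 2 * ⟪x, w⟫) • w := by
      have h1 : d = l • w := by rwa [hd', sub_eq_zero] at hd'0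
      rw [hd, hρx, sub_eq_iff_eq_add] at h1
      rw [h1]; module
    have hl0 : 0 ≤ l - 2 * ⟪x, w⟫ := by
      set y := -a + (r / 2) • w with hy
      have hyF : F y = y := by
        apply hid
        rw [hy, add_comm, ← add_assoc, add_neg_cancel, zero_add, norm_smul, hw,
          Real.norm_eq_abs, abs_of_pos (by positivity)]
        linarith
      have hyw : ⟪y, w⟫ = r / 2 := by
        rw [hy, inner_add_left, inner_neg_left, haw, real_inner_smul_left, hww]; ring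
      have h1 := limit_fix hF ha hw haw hyF (by rw [hyw]; positivity)
      have h2 : Tendsto (fun τ => ⟪Bm F a (arc a w τ) x, y⟫) 𝒰 (𝓝 ⟪z, y⟫) :=
        hzt.inner tendsto_const_nhds
      have h3 : ⟪x, y⟫ ≤ ⟪z, y⟫ := by
        refine ge_of_tendsto h2 ?_
        filter_upwards [h𝒰 hexp, h𝒰 h1] with τ hτ hτ'
        have := hτ.1 x y
        rwa [hτ'] at this
      rw [hzx, inner_add_left, real_inner_smul_left, real_inner_comm y w, hyw] at h3
      by_contra hneg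
      push Not at hneg
      nlinarith
    have hnorm2 : (l - 2 * ⟪x, w⟫) * l = 0 := by
      have h1 : ‖z‖ ^ 2 = ‖x‖ ^ 2 := by rw [hnorm]
      rw [hzx, @norm_add_sq_real, norm_smul, hw, real_inner_smul_right, mul_one,
        Real.norm_eq_abs, sq_abs] at h1
      linarith
    have hfin : l - 2 * ⟪x, w⟫ = 0 := by
      rcases mul_eq_zero.mp hnorm2 with h | h
      · exact h
      · rw [h] at hl0; linarith
    rw [hfin, zero_smul, add_zero] at hzx
    rw [hzx] at hzt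
    exact hzt

/-- continuity in the parameter away from `0` -/
lemma cont_pos {F : V → V} (hF : Expn F) {a w : V} (ha : ‖a‖ = 1)
    (hw : ‖w‖ = 1) (haw : ⟪a, w⟫ = 0) (hFa : F (-a) = -a) (x : V) {τ₁ : ℝ} (h0 : 0 < τ₁) :
    Tendsto (fun τ => Bm F a (arc a w τ) x) (𝓝[Iic Real.pi] τ₁)
      (𝓝 (Bm F a (arc a w τ₁) x)) := by
  rw [tendsto_iff_ultrafilter]
  intro 𝒰 h𝒰
  have hev : ∀ᶠ τ in (𝒰 : Filter ℝ), τ ∈ Icc (τ₁ / 2) Real.pi := by
    apply h𝒰
    have h1 : ∀ᶠ τ in 𝓝[Iic Real.pi] τ₁, τ ∈ Ioi (τ₁ / 2) :=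
      mem_nhdsWithin_of_mem_nhds (Ioi_mem_nhds (by linarith))
    filter_upwards [h1, self_mem_nhdsWithin] with τ h1 h2
    exact ⟨le_of_lt h1, h2⟩
  have hτ₁ : Tendsto (fun τ : ℝ => τ) 𝒰 (𝓝 τ₁) :=
    tendsto_id.mono_left (h𝒰.trans nhdsWithin_le_nhds)
  set S := 2 * ‖x‖ / (1 - Real.cos (τ₁ / 2)) with hS
  have hsol : ∀ τ ∈ Icc (τ₁ / 2) Real.pi, ∃ s, Sol F a (arc a w τ) x s := fun τ hτ =>
    exists_sol hF x ha (arc_norm ha hw haw τ) hFa (arc_ne ha haw (by linarith [hτ.1]) hτ.2)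
  choose! s hs using hsol
  have hbd : ∀ᶠ τ in (𝒰 : Filter ℝ), s τ ∈ Icc 0 S := by
    filter_upwards [hev] with τ hτ
    refine ⟨(hs τ hτ).1, ?_⟩
    have h1 := (hs τ hτ).bound hF ha (arc_norm ha hw haw τ) hFa
      (arc_ne ha haw (by linarith [hτ.1]) hτ.2)
    rw [arc_inner ha haw] at h1
    refine h1.trans ?_
    have h2 : Real.cos τ ≤ Real.cos (τ₁ / 2) :=
      Real.cos_le_cos_of_nonneg_of_le_pi (by linarith) hτ.2 hτ.1
    have h3 : Real.cos (τ₁ / 2) < 1 := cos_lt_one' (by linarith) (hτ.1.trans hτ.2)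
    rw [hS]
    apply div_le_div_of_nonneg_left (by positivity) (by linarith) (by linarith)
  obtain ⟨s0, hs0, hs0t⟩ := (isCompact_Icc (a := (0:ℝ)) (b := S)).ultrafilter_le_nhds'
    (𝒰.map s) hbd
  have hst : Tendsto s 𝒰 (𝓝 s0) := hs0t
  have hFc := hF.continuous
  have harc : Tendsto (fun τ => arc a w τ) 𝒰 (𝓝 (arc a w τ₁)) :=
    ((arc_continuous a w).tendsto τ₁).comp hτ₁
  have hy : Tendsto (fun τ => x - s τ • a) 𝒰 (𝓝 (x - s0 • a)) :=
    tendsto_const_nhds.sub (hst.smul tendsto_const_nhds)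
  have hFy : Tendsto (fun τ => F (x - s τ • a)) 𝒰 (𝓝 (F (x - s0 • a))) :=
    (hFc.tendsto _).comp hy
  have hsol0 : Sol F a (arc a w τ₁) x s0 := by
    refine ⟨hs0.1, ?_, ?_⟩
    · refine le_of_tendsto_of_tendsto (hy.inner tendsto_const_nhds) (hFy.inner harc) ?_
      filter_upwards [hev] with τ hτ
      exact (hs τ hτ).2.1
    · have h1 : Tendsto (fun τ => s τ * (⟪F (x - s τ • a), arc a w τ⟫ - ⟪x - s τ • a, a⟫)) 𝒰
          (𝓝 (s0 * (⟪F (x - s0 • a), arc a w τ₁⟫ - ⟪x - s0 • a, a⟫))) :=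
        hst.mul ((hFy.inner harc).sub (hy.inner tendsto_const_nhds))
      have h2 : Tendsto (fun τ => s τ * (⟪F (x - s τ • a), arc a w τ⟫ - ⟪x - s τ • a, a⟫)) 𝒰
          (𝓝 0) := by
        refine Tendsto.congr' ?_ tendsto_const_nhds
        filter_upwards [hev] with τ hτ
        exact (hs τ hτ).compl.symm
      have h3 := tendsto_nhds_unique h1 h2
      rcases mul_eq_zero.mp h3 with h | h
      · exact Or.inl h
      · exact Or.inr (by linarith)
  rw [Bm_eq hF ha (arc_norm ha hw haw τ₁) hsol0]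
  have hval : Tendsto (fun τ => val F a (arc a w τ) x (s τ)) 𝒰
      (𝓝 (val F a (arc a w τ₁) x s0)) := hFy.add (hst.smul harc)
  refine Tendsto.congr' ?_ hval
  filter_upwards [hev] with τ hτ
  rw [Bm_eq hF ha (arc_norm ha hw haw τ) (hs τ hτ)]

end Pool.Agent.Helper697
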