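import Mathlib
import Pool.Agent.Helper697.Fold3

open scoped RealInnerProductSpace ENNReal NNReal
open Set Filter Topology

namespace Pool.Agent.Helper697

variable {V : Type*} [NormedAddCommGroup V] [InnerProductSpace ℝ V]

/-- `γ` runs on `[a, b]` along the great circle through `p` in direction `v` with speed `c`. -/
def GeoV (γ : ℝ → V) (a b : ℝ) (p v : V) (c : ℝ) : Prop :=
  ‖p‖ = 1 ∧ ‖v‖ = 1 ∧ ⟪p, v⟫ = 0 ∧ 0 ≤ c ∧
    ∀ t ∈ Icc a b, γ t = Real.cos (c * (t - a)) • p + Real.sin (c * (t - a)) • v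

lemma geo_inner {γ : ℝ → V} {a b : ℝ} {p v : V} {c : ℝ} (h : GeoV γ a b p v c) {s t : ℝ}
    (hs : s ∈ Icc a b) (ht : t ∈ Icc a b) : ⟪γ s, γ t⟫ = Real.cos (c * (t - s)) := by
  obtain ⟨hp, hv, hpv, -, h⟩ := h
  have hpp : ⟪p, p⟫ = 1 := by rw [real_inner_self_eq_norm_sq, hp]; norm_num
  have hvv : ⟪v, v⟫ = 1 := by rw [real_inner_self_eq_norm_sq, hv]; norm_num
  have hvp : ⟪v, p⟫ = 0 := by rw [real_inner_comm]; exact hpv
  rw [h s hs, h t ht, inner_add_left, inner_add_right, inner_add_right]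
  simp only [real_inner_smul_left, real_inner_smul_right, hpp, hvv, hpv, hvp]
  have : c * (t - s) = c * (t - a) - c * (s - a) := by ring
  rw [this, Real.cos_sub]
  ring

lemma geo_norm {γ : ℝ → V} {a b : ℝ} {p v : V} {c : ℝ} (h : GeoV γ a b p v c) {s : ℝ}
    (hs : s ∈ Icc a b) : ‖γ s‖ = 1 := by
  have := geo_inner h hs hs
  rw [sub_self, mul_zero, Real.cos_zero, real_inner_self_eq_norm_sq] at this
  rw [← sq_eq_sq₀ (norm_nonneg _) zero_le_one, this, one_pow]

lemma geo_dist {γ : ℝ → V} {a b : ℝ} {p v : V} {c : ℝ} (h : GeoV γ a b p v c) {s t : ℝ}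
    (hs : s ∈ Icc a b) (ht : t ∈ Icc a b) : ‖γ s - γ t‖ = 2 * |Real.sin (c * (t - s) / 2)| := by
  rw [← sq_eq_sq₀ (norm_nonneg _) (by positivity), @norm_sub_sq_real, geo_inner h hs ht,
    geo_norm h hs, geo_norm h ht, mul_pow, sq_abs, Real.sin_sq_eq_half_sub]
  have : 2 * (c * (t - s) / 2) = c * (t - s) := by ring
  rw [this]; ring

lemma geo_var_le {γ : ℝ → V} {a b : ℝ} {p v : V} {c : ℝ} (h : GeoV γ a b p v c)
    (hab : a ≤ b) : eVariationOn γ (Icc a b) ≤ ENNReal.ofReal (c * (b - a)) := by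
  have hc : 0 ≤ c := h.2.2.2.1
  have hL : LipschitzOnWith (Real.toNNReal c) γ (Icc a b) := by
    apply LipschitzOnWith.of_dist_le_mul
    intro s hs t ht
    rw [dist_eq_norm, geo_dist h hs ht, Real.coe_toNNReal c hc, Real.dist_eq]
    have h1 := Real.abs_sin_le_abs (x := c * (t - s) / 2)
    rw [abs_div, abs_mul, abs_of_nonneg hc, abs_two, abs_sub_comm] at h1
    linarith
  have h1 := hL.comp_eVariationOn_le (g := id) (mapsTo_id (Icc a b))
  have h2 : eVariationOn (id : ℝ → ℝ) (Icc a b) ≤ ENNReal.ofReal (b - a) := by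
    have := (monotoneOn_id (s := Icc a b)).eVariationOn_eq (left_mem_Icc.mpr hab)
      (right_mem_Icc.mpr hab)
    rw [inter_self] at this
    exact this.le
  rw [Function.comp_id] at h1
  refine h1.trans ?_
  rw [ENNReal.ofReal_mul hc]
  exact mul_le_mul' le_rfl h2

lemma geo_le_var {γ : ℝ → V} {a b : ℝ} {p v : V} {c : ℝ} (h : GeoV γ a b p v c)
    (hab : a ≤ b) : ENNReal.ofReal (c * (b - a)) ≤ eVariationOn γ (Icc a b) := by
  have hc : 0 ≤ c := h.2.2.2.1
  set x := c * (b - a) with hx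
  have hx0 : 0 ≤ x := mul_nonneg hc (by linarith)
  have key : ∀ n : ℕ, ENNReal.ofReal (x - x ^ 3 / 24 * ((n : ℝ) + 1)⁻¹) ≤
      eVariationOn γ (Icc a b) := by
    intro n
    set N : ℝ := (n : ℝ) + 1 with hN
    have hN0 : 0 < N := by positivity
    have hN1 : 1 ≤ N := by rw [hN]; linarith [Nat.cast_nonneg (α := ℝ) n]
    set u : ℕ → ℝ := fun i => a + (b - a) * (min i (n + 1) : ℕ) / N with hu
    have hmono : Monotone u := by
      intro i j hij
      simp only [hu]
      have : ((min i (n + 1) : ℕ) : ℝ) ≤ ((min j (n + 1) : ℕ) : ℝ) := by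
        exact_mod_cast min_le_min_right _ hij
      have h2 : 0 ≤ b - a := by linarith
      gcongr
    have hmem : ∀ i, u i ∈ Icc a b := by
      intro i
      have h2 : 0 ≤ b - a := by linarith
      have h3 : ((min i (n + 1) : ℕ) : ℝ) ≤ N := by
        rw [hN]; exact_mod_cast min_le_right _ _
      constructor
      · simp only [hu]
        have : 0 ≤ (b - a) * (min i (n + 1) : ℕ) / N := by positivity
        linarith
      · simp only [hu]
        have : (b - a) * (min i (n + 1) : ℕ) / N ≤ b - a := by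
          rw [div_le_iff₀ hN0]
          exact mul_le_mul_of_nonneg_left h3 h2
        linarith
    have h1 := eVariationOn.sum_le (f := γ) (s := Icc a b) (n := n + 1) hmono hmem
    refine le_trans ?_ h1
    have hterm : ∀ i ∈ Finset.range (n + 1), edist (γ (u (i + 1))) (γ (u i)) =
        ENNReal.ofReal (2 * |Real.sin (x / (2 * N))|) := by
      intro i hi
      rw [Finset.mem_range] at hi
      rw [edist_comm, edist_dist, dist_eq_norm, geo_dist h (hmem i) (hmem (i + 1))]
      congr 3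
      have e1 : (min i (n + 1) : ℕ) = i := min_eq_left (by omega)
      have e2 : (min (i + 1) (n + 1) : ℕ) = i + 1 := min_eq_left (by omega)
      simp only [hu]
      rw [e1, e2, hx]
      push_cast
      field_simp
      ring_nf
    rw [Finset.sum_congr rfl hterm, Finset.sum_const, Finset.card_range, nsmul_eq_mul,
      ← ENNReal.ofReal_natCast, ← ENNReal.ofReal_mul (by positivity)]
    apply ENNReal.ofReal_le_ofReal
    push_cast
    rw [← hN]
    rcases hx0.eq_or_lt with h0 | h0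
    · rw [← h0]; simp
    · have h2 := Real.sin_gt_sub_cube (x := x / (2 * N)) (by positivity)
      have h3 : x / (2 * N) - (x / (2 * N)) ^ 3 / 6 ≤ |Real.sin (x / (2 * N))| :=
        h2.le.trans (le_abs_self _)
      have h4 : N * (2 * (x / (2 * N) - (x / (2 * N)) ^ 3 / 6)) = x - x ^ 3 / 24 * (N ^ 2)⁻¹ := by
        field_simp
        ring
      have h5 : (N ^ 2)⁻¹ ≤ N⁻¹ := by
        apply inv_anti₀ hN0
        nlinarith
      have h6 : x ^ 3 / 24 * (N ^ 2)⁻¹ ≤ x ^ 3 / 24 * N⁻¹ :=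
        mul_le_mul_of_nonneg_left h5 (by positivity)
      have h7 : N * (2 * (x / (2 * N) - (x / (2 * N)) ^ 3 / 6)) ≤
          N * (2 * |Real.sin (x / (2 * N))|) := by gcongr
      linarith
  have hlim : Tendsto (fun n : ℕ => ENNReal.ofReal (x - x ^ 3 / 24 * ((n : ℝ) + 1)⁻¹)) atTop
      (𝓝 (ENNReal.ofReal x)) := by
    apply ENNReal.tendsto_ofReal
    have h1 : Tendsto (fun n : ℕ => ((n : ℝ) + 1)⁻¹) atTop (𝓝 0) := by
      have := tendsto_one_div_add_atTop_nhds_zero_nat (𝕜 := ℝ)
      simpa using this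
    have h2 := (h1.const_mul (x ^ 3 / 24)).const_sub x
    simpa using h2
  exact le_of_tendsto' hlim key

lemma geo_var {γ : ℝ → V} {a b : ℝ} {p v : V} {c : ℝ} (h : GeoV γ a b p v c)
    (hab : a ≤ b) : eVariationOn γ (Icc a b) = ENNReal.ofReal (c * (b - a)) :=
  le_antisymm (geo_var_le h hab) (geo_le_var h hab)

/-- the piecewise geodesic paths -/
def PGV (γ : ℝ → V) (a b : ℝ) : Prop :=
  ∃ (n : ℕ) (t : ℕ → ℝ), t 0 = a ∧ t n = b ∧ (∀ i < n, t i < t (i + 1)) ∧
    ∀ i < n, ∃ p v c, GeoV γ (t i) (t (i + 1)) p v c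

lemma geo_restrict {γ : ℝ → V} {a b : ℝ} {p v : V} {c : ℝ} (h : GeoV γ a b p v c)
    {a' b' : ℝ} (ha : a ≤ a') (hb : b' ≤ b) : ∃ p' v', GeoV γ a' b' p' v' c := by
  obtain ⟨hp, hv, hpv, hc, h⟩ := h
  have hpp : ⟪p, p⟫ = 1 := by rw [real_inner_self_eq_norm_sq, hp]; norm_num
  have hvv : ⟪v, v⟫ = 1 := by rw [real_inner_self_eq_norm_sq, hv]; norm_num
  have hvp : ⟪v, p⟫ = 0 := by rw [real_inner_comm]; exact hpv
  set θ := c * (a' - a) with hθ
  refine ⟨Real.cos θ • p + Real.sin θ • v, -Real.sin θ • p + Real.cos θ • v, ?_, ?_, ?_, hc, ?_⟩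
  · rw [← sq_eq_sq₀ (norm_nonneg _) zero_le_one, ← real_inner_self_eq_norm_sq,
      inner_add_left, inner_add_right, inner_add_right]
    simp only [real_inner_smul_left, real_inner_smul_right, hpp, hvv, hpv, hvp]
    nlinarith [Real.sin_sq_add_cos_sq θ]
  · rw [← sq_eq_sq₀ (norm_nonneg _) zero_le_one, ← real_inner_self_eq_norm_sq,
      inner_add_left, inner_add_right, inner_add_right]
    simp only [real_inner_smul_left, real_inner_smul_right, hpp, hvv, hpv, hvp]
    nlinarith [Real.sin_sq_add_cos_sq θ]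
  · rw [inner_add_left, inner_add_right, inner_add_right]
    simp only [real_inner_smul_left, real_inner_smul_right, hpp, hvv, hpv, hvp]
    ring
  · intro t ht
    rw [h t ⟨ha.trans ht.1, ht.2.trans hb⟩]
    have e : c * (t - a) = θ + c * (t - a') := by rw [hθ]; ring
    rw [e, Real.cos_add, Real.sin_add]
    module

lemma PGV.angle_le {γ : ℝ → V} {a b : ℝ} (h : PGV γ a b) :
    ENNReal.ofReal (InnerProductGeometry.angle (γ a) (γ b)) ≤ eVariationOn γ (Icc a b) ∨
      a = b := by
  obtain ⟨n, t, h0, hn, hlt, hgeo⟩ := h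
  by_cases hn0 : n = 0
  · subst hn0
    right
    rw [← h0, ← hn]
  left
  have key : ∀ k, k < n → ENNReal.ofReal (InnerProductGeometry.angle (γ (t 0)) (γ (t (k + 1)))) ≤
      eVariationOn γ (Icc (t 0) (t (k + 1))) ∧ t 0 ≤ t (k + 1) := by
    intro k
    induction k with
    | zero =>
      intro hk
      obtain ⟨p, v, c, hg⟩ := hgeo 0 hk
      have hle := (hlt 0 hk).le
      refine ⟨?_, hle⟩
      rw [geo_var hg hle]
      apply ENNReal.ofReal_le_ofReal
      rw [InnerProductGeometry.angle, geo_inner hg (left_mem_Icc.mpr hle) (right_mem_Icc.mpr hle),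
        geo_norm hg (left_mem_Icc.mpr hle), geo_norm hg (right_mem_Icc.mpr hle), mul_one, div_one]
      have hx : 0 ≤ c * (t (0 + 1) - t 0) := mul_nonneg hg.2.2.2.1 (by linarith)
      rcases le_total (c * (t (0 + 1) - t 0)) Real.pi with h | h
      · rw [Real.arccos_cos hx h]
      · exact (Real.arccos_le_pi _).trans h
    | succ k ih =>
      intro hk
      obtain ⟨ih1, ih2⟩ := ih (by omega)
      obtain ⟨p, v, c, hg⟩ := hgeo (k + 1) hk
      have hle := (hlt (k + 1) hk).le
      refine ⟨?_, ih2.trans hle⟩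
      have h1 := InnerProductGeometry.angle_le_angle_add_angle (γ (t 0)) (γ (t (k + 1)))
        (γ (t (k + 1 + 1)))
      have h2 := eVariationOn.Icc_add_Icc γ (s := univ) ih2 hle (mem_univ _)
      simp only [univ_inter] at h2
      rw [← h2]
      refine (ENNReal.ofReal_le_ofReal h1).trans ?_
      rw [ENNReal.ofReal_add (InnerProductGeometry.angle_nonneg _ _)
        (InnerProductGeometry.angle_nonneg _ _)]
      refine add_le_add ih1 ?_
      rw [geo_var hg hle]
      apply ENNReal.ofReal_le_ofReal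
      rw [InnerProductGeometry.angle, geo_inner hg (left_mem_Icc.mpr hle) (right_mem_Icc.mpr hle),
        geo_norm hg (left_mem_Icc.mpr hle), geo_norm hg (right_mem_Icc.mpr hle), mul_one, div_one]
      have hx : 0 ≤ c * (t (k + 1 + 1) - t (k + 1)) := mul_nonneg hg.2.2.2.1 (by linarith)
      rcases le_total (c * (t (k + 1 + 1) - t (k + 1))) Real.pi with h | h
      · rw [Real.arccos_cos hx h]
      · exact (Real.arccos_le_pi _).trans h
  have h1 := (key (n - 1) (by omega)).1
  rw [show n - 1 + 1 = n by omega, h0, hn] at h1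
  exact h1

end Pool.Agent.Helper697
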