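import Mathlib
import Pool.Agent.Helper697.Fold4

open scoped RealInnerProductSpace ENNReal NNReal
open Set Filter Topology

namespace Pool.Agent.Helper697

variable {V : Type*} [NormedAddCommGroup V] [InnerProductSpace ℝ V]

lemma exists_perp {p v : V} (hp : ‖p‖ = 1) (hv : ‖v‖ = 1) (hpv : ⟪p, v⟫ = 0) {x : V}
    (hx : ‖x‖ = 1) : ∃ u : V, ‖u‖ = 1 ∧ ⟪x, u⟫ = 0 := by
  have hxx : ⟪x, x⟫ = 1 := by rw [real_inner_self_eq_norm_sq, hx]; norm_num
  have key : ∀ q : V, q - ⟪x, q⟫ • x ≠ 0 → ∃ u : V, ‖u‖ = 1 ∧ ⟪x, u⟫ = 0 := by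
    intro q hq
    refine ⟨‖q - ⟪x, q⟫ • x‖⁻¹ • (q - ⟪x, q⟫ • x), ?_, ?_⟩
    · rw [norm_smul, norm_inv, norm_norm, inv_mul_cancel₀ (norm_ne_zero_iff.mpr hq)]
    · rw [real_inner_smul_right, inner_sub_right, real_inner_smul_right, hxx]; ring
  by_cases h1 : p - ⟪x, p⟫ • x = 0
  · by_cases h2 : v - ⟪x, v⟫ • x = 0
    · exfalso
      rw [sub_eq_zero] at h1 h2
      have e1 : |⟪x, p⟫| = 1 := by
        have := congrArg norm h1
        rw [hp, norm_smul, hx, mul_one, Real.norm_eq_abs] at this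
        exact this.symm
      have e2 : |⟪x, v⟫| = 1 := by
        have := congrArg norm h2
        rw [hv, norm_smul, hx, mul_one, Real.norm_eq_abs] at this
        exact this.symm
      rw [h1, h2, real_inner_smul_left, real_inner_smul_right, hxx, mul_one] at hpv
      have e3 : |⟪x, p⟫ * ⟪x, v⟫| = 1 := by rw [abs_mul, e1, e2, one_mul]
      rw [hpv, abs_zero] at e3
      exact zero_ne_one e3
    · exact key v h2
  · exact key p h1

/-- polar decomposition of a pair of unit vectors -/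
lemma polar {p v : V} (hp : ‖p‖ = 1) (hv : ‖v‖ = 1) (hpv : ⟪p, v⟫ = 0) {x y : V}
    (hx : ‖x‖ = 1) (hy : ‖y‖ = 1) :
    ∃ u : V, ‖u‖ = 1 ∧ ⟪x, u⟫ = 0 ∧ ∃ θ : ℝ, 0 ≤ θ ∧ θ ≤ Real.pi ∧
      y = Real.cos θ • x + Real.sin θ • u := by
  have hxx : ⟪x, x⟫ = 1 := by rw [real_inner_self_eq_norm_sq, hx]; norm_num
  have hyy : ⟪y, y⟫ = 1 := by rw [real_inner_self_eq_norm_sq, hy]; norm_num
  set θ := Real.arccos ⟪x, y⟫ with hθ
  have hb := abs_real_inner_le_norm x y
  rw [hx, hy, one_mul] at hb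
  have hcos : Real.cos θ = ⟪x, y⟫ := Real.cos_arccos (abs_le.mp hb).1 (abs_le.mp hb).2
  have hsin0 : 0 ≤ Real.sin θ :=
    Real.sin_nonneg_of_nonneg_of_le_pi (Real.arccos_nonneg _) (Real.arccos_le_pi _)
  set w := y - ⟪x, y⟫ • x with hw
  have hxw : ⟪x, w⟫ = 0 := by
    rw [hw, inner_sub_right, real_inner_smul_right, hxx]; ring
  have hnw : ‖w‖ = Real.sin θ := by
    rw [← sq_eq_sq₀ (norm_nonneg _) hsin0, Real.sin_sq, hcos, hw, @norm_sub_sq_real,
      real_inner_smul_right, norm_smul, hx, hy, Real.norm_eq_abs, mul_one, sq_abs,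
      real_inner_comm x y]
    ring
  by_cases hw0 : w = 0
  · obtain ⟨u, hu, hxu⟩ := exists_perp hp hv hpv hx
    refine ⟨u, hu, hxu, θ, Real.arccos_nonneg _, Real.arccos_le_pi _, ?_⟩
    rw [← hnw, hw0, norm_zero, zero_smul, add_zero, hcos]
    rw [hw, sub_eq_zero] at hw0
    exact hw0
  · have hwn : ‖w‖ ≠ 0 := norm_ne_zero_iff.mpr hw0
    refine ⟨‖w‖⁻¹ • w, ?_, ?_, θ, Real.arccos_nonneg _, Real.arccos_le_pi _, ?_⟩
    · rw [norm_smul, norm_inv, norm_norm, inv_mul_cancel₀ hwn]
    · rw [real_inner_smul_right, hxw, mul_zero]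
    · rw [← hnw, smul_smul, mul_inv_cancel₀ hwn, one_smul, hcos, hw]
      abel

lemma PGV.refl (γ : ℝ → V) (a : ℝ) : PGV γ a a :=
  ⟨0, fun _ => a, rfl, rfl, by simp, by simp⟩

lemma PGV.of_geo {γ : ℝ → V} {a b : ℝ} {p v : V} {c : ℝ} (h : GeoV γ a b p v c)
    (hab : a ≤ b) : PGV γ a b := by
  rcases hab.eq_or_lt with rfl | hlt
  · exact PGV.refl γ a
  · refine ⟨1, fun i => if i = 0 then a else b, by simp, by simp, ?_, ?_⟩
    · intro i hi
      obtain rfl : i = 0 := by omega
      simpa using hlt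
    · intro i hi
      obtain rfl : i = 0 := by omega
      simpa using ⟨p, v, c, h⟩

lemma PGV.trans {γ : ℝ → V} {a b c : ℝ} (h : PGV γ a b) (h' : PGV γ b c) : PGV γ a c := by
  obtain ⟨n, t, h0, hn, hlt, hg⟩ := h
  obtain ⟨m, t', h0', hm, hlt', hg'⟩ := h'
  refine ⟨n + m, fun i => if i < n then t i else t' (i - n), ?_, ?_, ?_, ?_⟩
  · by_cases hn0 : 0 < n
    · simp [hn0, h0]
    · have : n = 0 := by omega
      subst this
      simp [h0', ← hn, h0]
  · simp [hm]
  · intro i hi
    by_cases h1 : i + 1 < n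
    · have h2 : i < n := by omega
      simp only [h1, h2, if_true]
      exact hlt i h2
    · by_cases h2 : i < n
      · have h3 : i + 1 - n = 0 := by omega
        have h4 : i + 1 = n := by omega
        have e2 : (if i + 1 < n then t (i + 1) else t' (i + 1 - n)) = t (i + 1) := by
          rw [if_neg h1, h3, h0', ← hn, h4]
        change (if i < n then t i else t' (i - n)) <
          (if i + 1 < n then t (i + 1) else t' (i + 1 - n))
        rw [if_pos h2, e2]
        exact hlt i h2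
      · have h3 : i + 1 - n = (i - n) + 1 := by omega
        simp only [h1, h2, if_false, h3]
        exact hlt' _ (by omega)
  · intro i hi
    by_cases h1 : i + 1 < n
    · have h2 : i < n := by omega
      simp only [h1, h2, if_true]
      exact hg i h2
    · by_cases h2 : i < n
      · have h3 : i + 1 - n = 0 := by omega
        have h4 : i + 1 = n := by omega
        have e2 : (if i + 1 < n then t (i + 1) else t' (i + 1 - n)) = t (i + 1) := by
          rw [if_neg h1, h3, h0', ← hn, h4]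
        change ∃ p v c, GeoV γ (if i < n then t i else t' (i - n))
          (if i + 1 < n then t (i + 1) else t' (i + 1 - n)) p v c
        rw [if_pos h2, e2]
        exact hg i h2
      · have h3 : i + 1 - n = (i - n) + 1 := by omega
        simp only [h1, h2, if_false, h3]
        exact hg' _ (by omega)

/-- the image path is piecewise geodesic and has the same length -/
def Good (F : V → V) (γ : ℝ → V) (a b : ℝ) : Prop :=
  PGV (F ∘ γ) a b ∧ eVariationOn (F ∘ γ) (Icc a b) = eVariationOn γ (Icc a b)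

lemma Good.refl (F : V → V) (γ : ℝ → V) (a : ℝ) : Good F γ a a := by
  refine ⟨PGV.refl _ _, ?_⟩
  rw [eVariationOn.subsingleton _ (by simp), eVariationOn.subsingleton _ (by simp)]

lemma Good.trans {F : V → V} {γ : ℝ → V} {a b c : ℝ} (hab : a ≤ b) (hbc : b ≤ c)
    (h : Good F γ a b) (h' : Good F γ b c) : Good F γ a c := by
  refine ⟨h.1.trans h'.1, ?_⟩
  have h1 := eVariationOn.Icc_add_Icc (F ∘ γ) (s := univ) hab hbc (mem_univ _)
  have h2 := eVariationOn.Icc_add_Icc γ (s := univ) hab hbc (mem_univ _)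
  simp only [univ_inter] at h1 h2
  rw [← h1, ← h2, h.2, h'.2]

lemma Good.of_geo {F : V → V} {γ : ℝ → V} {a b : ℝ} {p v p' v' : V} {c : ℝ} (hab : a ≤ b)
    (h : GeoV γ a b p v c) (h' : GeoV (F ∘ γ) a b p' v' c) : Good F γ a b :=
  ⟨PGV.of_geo h' hab, by rw [geo_var h hab, geo_var h' hab]⟩

lemma good_single {F : V → V} (hF : Expn F) {γ : ℝ → V} {a b : ℝ} {p v : V} {c : ℝ}
    (hab : a ≤ b) (h : GeoV γ a b p v c) (hπ : c * (b - a) < Real.pi)
    (hiso : ⟪F (γ a), F (γ b)⟫ = ⟪γ a, γ b⟫) : Good F γ a b := by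
  have hc : 0 ≤ c := h.2.2.2.1
  have hna := geo_norm h (left_mem_Icc.mpr hab)
  have hnb := geo_norm h (right_mem_Icc.mpr hab)
  have hFa : ‖F (γ a)‖ = 1 := by rw [hF.2, hna]
  have hFb : ‖F (γ b)‖ = 1 := by rw [hF.2, hnb]
  have hFaa : ⟪F (γ a), F (γ a)⟫ = 1 := by rw [real_inner_self_eq_norm_sq, hFa]; norm_num
  set L := c * (b - a) with hL
  have hL0 : 0 ≤ L := mul_nonneg hc (by linarith)
  have hin : ⟪γ a, γ b⟫ = Real.cos L := geo_inner h (left_mem_Icc.mpr hab) (right_mem_Icc.mpr hab)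
  rcases hL0.eq_or_lt with h0 | h0
  · -- constant path
    obtain ⟨u, hu, hFu⟩ := exists_perp h.1 h.2.1 h.2.2.1 hFa
    refine Good.of_geo hab h (p' := F (γ a)) (v' := u) ⟨hFa, hu, hFu, hc, ?_⟩
    intro t ht
    have hct : c * (t - a) = 0 := by
      have h1 : 0 ≤ c * (t - a) := mul_nonneg hc (by linarith [ht.1])
      have h2 : c * (t - a) ≤ L := mul_le_mul_of_nonneg_left (by linarith [ht.2]) hc
      linarith
    have h1 : γ t = γ a := by
      rw [h.2.2.2.2 t ht, h.2.2.2.2 a (left_mem_Icc.mpr hab), hct, sub_self, mul_zero]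
    rw [Function.comp_apply, h1, hct]
    simp
  · have hs : 0 < Real.sin L := Real.sin_pos_of_pos_of_lt_pi h0 hπ
    set v' := (Real.sin L)⁻¹ • (F (γ b) - Real.cos L • F (γ a)) with hv'
    have hv'1 : ‖v'‖ = 1 := by
      rw [← sq_eq_sq₀ (norm_nonneg _) zero_le_one, hv', norm_smul, mul_pow, @norm_sub_sq_real,
        real_inner_smul_right, real_inner_comm, hiso, hin, norm_smul, hFa, hFb, norm_inv,
        Real.norm_eq_abs, Real.norm_eq_abs, mul_one, sq_abs, inv_pow, sq_abs,
        inv_mul_eq_iff_eq_mul₀ (by positivity), Real.sin_sq]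
      ring
    have hv'2 : ⟪F (γ a), v'⟫ = 0 := by
      rw [hv', real_inner_smul_right, inner_sub_right, real_inner_smul_right, hiso, hin, hFaa]
      ring
    refine Good.of_geo hab h (p' := F (γ a)) (v' := v') ⟨hFa, hv'1, hv'2, hc, ?_⟩
    intro t ht
    set θ := c * (t - a) with hθ
    have hθ0 : 0 ≤ θ := mul_nonneg hc (by linarith [ht.1])
    have hθL : θ ≤ L := mul_le_mul_of_nonneg_left (by linarith [ht.2]) hc
    have h1 : γ t = (Real.sin (L - θ) / Real.sin L) • γ a + (Real.sin θ / Real.sin L) • γ b := by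
      rw [h.2.2.2.2 t ht, h.2.2.2.2 a (left_mem_Icc.mpr hab),
        h.2.2.2.2 b (right_mem_Icc.mpr hab), sub_self, mul_zero, Real.cos_zero, Real.sin_zero,
        ← hθ, ← hL, Real.sin_sub]
      have e1 : Real.cos θ = (Real.sin L * Real.cos θ - Real.cos L * Real.sin θ) / Real.sin L +
          Real.sin θ / Real.sin L * Real.cos L := by field_simp; ring
      have e2 : Real.sin θ = Real.sin θ / Real.sin L * Real.sin L := by field_simp
      conv_lhs => rw [e1, e2]
      module
    have h2 : F (γ t) = (Real.sin (L - θ) / Real.sin L) • F (γ a) +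
        (Real.sin θ / Real.sin L) • F (γ b) := by
      rw [h1]
      apply hF.comb hiso
      · apply div_nonneg _ hs.le
        exact Real.sin_nonneg_of_nonneg_of_le_pi (by linarith) (by linarith)
      · apply div_nonneg _ hs.le
        exact Real.sin_nonneg_of_nonneg_of_le_pi (by linarith) (by linarith)
    rw [Function.comp_apply, h2, hv', Real.sin_sub]
    have e1 : (Real.sin L * Real.cos θ - Real.cos L * Real.sin θ) / Real.sin L =
        Real.cos θ - Real.sin θ * ((Real.sin L)⁻¹ * Real.cos L) := by field_simp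
    have e2 : Real.sin θ / Real.sin L = Real.sin θ * (Real.sin L)⁻¹ := rfl
    rw [e1, e2]
    module

lemma good_cover {F : V → V} (hF : Expn F) {γ : ℝ → V} {c : ℝ}
    (C : Set (Set V)) (hC : C.Finite) : (∀ S ∈ C, IsoCone F S) → ∀ a b : ℝ, a ≤ b →
    (∃ p v, GeoV γ a b p v c) → c * (b - a) < Real.pi →
    (∀ t ∈ Ioo a b, γ t ∈ ⋃₀ C) → Good F γ a b := by
  refine Set.Finite.induction_on (motive := fun C _ => (∀ S ∈ C, IsoCone F S) →
    ∀ a b : ℝ, a ≤ b → (∃ p v, GeoV γ a b p v c) → c * (b - a) < Real.pi →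
    (∀ t ∈ Ioo a b, γ t ∈ ⋃₀ C) → Good F γ a b) C hC ?_ ?_
  · intro _ a b hab _ _ hcov
    rcases hab.eq_or_lt with rfl | hlt
    · exact Good.refl F γ a
    · have := hcov ((a + b) / 2) ⟨by linarith, by linarith⟩
      simp at this
  · intro M C' _ _ ih hcone a b hab hgeo hπ hcov
    obtain ⟨p, v, hg⟩ := hgeo
    have hc : 0 ≤ c := hg.2.2.2.1
    have hcont : ContinuousOn γ (Icc a b) := by
      have h1 : Continuous fun t : ℝ =>
          Real.cos (c * (t - a)) • p + Real.sin (c * (t - a)) • v := by fun_prop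
      exact h1.continuousOn.congr hg.2.2.2.2
    set T := Icc a b ∩ γ ⁻¹' M with hT
    have hTc : IsCompact T :=
      isCompact_Icc.of_isClosed_subset
        (hcont.preimage_isClosed_of_isClosed isClosed_Icc (hcone M (mem_insert _ _)).closed)
        inter_subset_left
    have ih' := ih (fun S hS => hcone S (mem_insert_of_mem _ hS))
    by_cases hTe : T.Nonempty
    · obtain ⟨hs0, hs0M⟩ := hTc.sInf_mem hTe
      obtain ⟨hs1, hs1M⟩ := hTc.sSup_mem hTe
      set s0 := sInf T with hs0d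
      set s1 := sSup T with hs1d
      have hlb : ∀ t ∈ T, s0 ≤ t := fun t ht => csInf_le hTc.bddBelow ht
      have hub : ∀ t ∈ T, t ≤ s1 := fun t ht => le_csSup hTc.bddAbove ht
      have h01 : s0 ≤ s1 := hlb s1 ⟨hs1, hs1M⟩
      have g1 : Good F γ a s0 := by
        refine ih' a s0 hs0.1 (geo_restrict hg le_rfl hs0.2) ?_ ?_
        · refine lt_of_le_of_lt ?_ hπ
          exact mul_le_mul_of_nonneg_left (by linarith [hs0.2]) hc
        · intro t ht
          obtain ⟨S, hS, htS⟩ := hcov t ⟨ht.1, ht.2.trans_le hs0.2⟩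
          rcases hS with rfl | hS
          · exact absurd (hlb t ⟨⟨ht.1.le, ht.2.le.trans hs0.2⟩, htS⟩) (not_le.mpr ht.2)
          · exact ⟨S, hS, htS⟩
      have g2 : Good F γ s0 s1 := by
        obtain ⟨p', v', hg'⟩ := geo_restrict hg hs0.1 hs1.2
        refine good_single hF h01 hg' ?_ ?_
        · refine lt_of_le_of_lt ?_ hπ
          exact mul_le_mul_of_nonneg_left (by linarith [hs0.1, hs1.2]) hc
        · exact (hcone M (mem_insert _ _)).iso _ hs0M _ hs1M
      have g3 : Good F γ s1 b := by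
        refine ih' s1 b hs1.2 (geo_restrict hg hs1.1 le_rfl) ?_ ?_
        · refine lt_of_le_of_lt ?_ hπ
          exact mul_le_mul_of_nonneg_left (by linarith [hs1.1]) hc
        · intro t ht
          obtain ⟨S, hS, htS⟩ := hcov t ⟨hs1.1.trans_lt ht.1, ht.2⟩
          rcases hS with rfl | hS
          · exact absurd (hub t ⟨⟨hs1.1.trans ht.1.le, ht.2.le⟩, htS⟩) (not_le.mpr ht.1)
          · exact ⟨S, hS, htS⟩
      exact (g1.trans hs0.1 h01 g2).trans hs1.1 hs1.2 g3
    · refine ih' a b hab ⟨p, v, hg⟩ hπ ?_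
      intro t ht
      obtain ⟨S, hS, htS⟩ := hcov t ht
      rcases hS with rfl | hS
      · exact absurd ⟨t, ⟨ht.1.le, ht.2.le⟩, htS⟩ hTe
      · exact ⟨S, hS, htS⟩

lemma good_geo {F : V → V} (hF : Expn F) (hcov : FinCover F univ) {γ : ℝ → V} {c : ℝ}
    (N : ℕ) : ∀ a b : ℝ, a ≤ b → (∃ p v, GeoV γ a b p v c) →
    c * (b - a) < Real.pi / 2 * N → Good F γ a b := by
  obtain ⟨C, hC1, hC2, hC3⟩ := hcov.cones hF
  induction N with
  | zero =>
    intro a b hab ⟨p, v, hg⟩ h
    have : 0 ≤ c * (b - a) := mul_nonneg hg.2.2.2.1 (by linarith)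
    simp at h
    linarith
  | succ N ih =>
    intro a b hab ⟨p, v, hg⟩ h
    have hc : 0 ≤ c := hg.2.2.2.1
    rcases lt_or_ge (c * (b - a)) Real.pi with h1 | h1
    · exact good_cover hF C hC1 hC2 a b hab ⟨p, v, hg⟩ h1 (fun t _ => hC3 (mem_univ _))
    · have hpi := Real.pi_pos
      have hc0 : 0 < c := by
        rcases hc.eq_or_lt with h2 | h2
        · rw [← h2, zero_mul] at h1; linarith
        · exact h2
      set m := b - Real.pi / 2 / c with hm
      have e1 : c * (b - m) = Real.pi / 2 := by rw [hm]; field_simp; ring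
      have e2 : c * (m - a) = c * (b - a) - Real.pi / 2 := by
        rw [hm]; field_simp; ring
      have hmb : m ≤ b := by
        rw [hm]; have : 0 ≤ Real.pi / 2 / c := by positivity
        linarith
      have ham : a ≤ m := by
        have : 0 ≤ c * (m - a) := by rw [e2]; linarith
        nlinarith
      have g1 : Good F γ a m := by
        refine ih a m ham (geo_restrict hg le_rfl hmb) ?_
        rw [e2]; push_cast at h; linarith
      have g2 : Good F γ m b :=
        good_cover hF C hC1 hC2 m b hmb (geo_restrict hg ham le_rfl) (by rw [e1]; linarith)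
          (fun t _ => hC3 (mem_univ _))
      exact g1.trans ham hmb g2

lemma good_PG {F : V → V} (hF : Expn F) (hcov : FinCover F univ) {γ : ℝ → V} {a b : ℝ}
    (h : PGV γ a b) : Good F γ a b := by
  obtain ⟨n, t, h0, hn, hlt, hg⟩ := h
  have key : ∀ k ≤ n, Good F γ (t 0) (t k) ∧ t 0 ≤ t k := by
    intro k
    induction k with
    | zero => intro _; exact ⟨Good.refl F γ _, le_rfl⟩
    | succ k ih =>
      intro hk
      obtain ⟨ih1, ih2⟩ := ih (by omega)
      obtain ⟨p, v, c, hgk⟩ := hg k (by omega)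
      have hle := (hlt k (by omega)).le
      refine ⟨ih1.trans ih2 hle ?_, ih2.trans hle⟩
      obtain ⟨N, hN⟩ := exists_nat_gt (c * (t (k + 1) - t k) / (Real.pi / 2))
      refine good_geo hF hcov N _ _ hle ⟨p, v, hgk⟩ ?_
      rw [div_lt_iff₀ (by positivity)] at hN
      linarith
  have := (key n le_rfl).1
  rwa [h0, hn] at this

end Pool.Agent.Helper697
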