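import Mathlib
import Pool.Agent.Helper697.RepDefs

/-!
Two-piece dissections of a folded cube surface.
-/

namespace Pool.Agent.Helper697.Rep

/-- The region of `P` folds onto the surface of the cube of edge `l`: there is a continuous map
of the region onto that surface, piecewise isometric with finitely many convex pieces, which is
one-to-one apart from identifications of boundary points. -/
def FoldsOnto (l : ℝ) (P : Finset (ℤ × ℤ)) : Prop :=
  ∃ f : Plane → Space, ContinuousOn f (region P) ∧ f '' region P = cubeSurface l ∧
    (∀ x ∈ interior (region P), ∀ y ∈ region P, f x = f y → x = y) ∧ CreasedOn f (region P)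

/-- Some polyomino of area `6 c ^ 2` folds onto the surface of the cube of edge `c` and is
divided into two polyominoes (finite sets of unit squares `A`, `B` without a common square), of
which the first folds onto the surface of the cube of edge `a` and the second onto the surface
of the cube of edge `b`. -/
def TwoPiece (a b c : ℕ) : Prop :=
  ∃ P A B : Finset (ℤ × ℤ), IsPolyomino P ∧ P.card = 6 * c ^ 2 ∧ FoldsOnto c P ∧
    P = A ∪ B ∧ Disjoint A B ∧ IsPolyomino A ∧ FoldsOnto a A ∧ IsPolyomino B ∧ FoldsOnto b B

end Pool.Agent.Helper697.Rep
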