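import Mathlib
import Pool.Agent.Helper697.RepCrit4

open Set

namespace Pool.Agent.Helper697.Rep

/-! ### Translations -/

def sh (v : ℤ × ℤ) : ℤ × ℤ ↪ ℤ × ℤ := ⟨fun p => p + v, fun _ _ h => add_right_cancel h⟩

lemma sh_apply (v p : ℤ × ℤ) : sh v p = p + v := rfl

def shift (v : ℤ × ℤ) (P : Finset (ℤ × ℤ)) : Finset (ℤ × ℤ) := P.map (sh v)

lemma mem_shift {v p : ℤ × ℤ} {P : Finset (ℤ × ℤ)} : p ∈ shift v P ↔ p - v ∈ P := by
  simp only [shift, Finset.mem_map, sh_apply]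
  constructor
  · rintro ⟨a, ha, rfl⟩; simpa using ha
  · intro h; exact ⟨p - v, h, by simp⟩

/-- a piece: a polyomino with a folding along grid lines onto a cube -/
def Piece (P : Finset (ℤ × ℤ)) : Prop :=
  IsPolyomino P ∧ ∃ (l : ℤ) (F : ℤ × ℤ → ℤ × ℤ × ℤ), GridFold P l F

lemma Piece.fin {P : Finset (ℤ × ℤ)} (h : Piece P) : IsPolyomino P ∧ FoldsToCube P := by
  obtain ⟨h1, l, F, h2⟩ := h
  exact ⟨h1, h2.folds⟩

lemma IsPolyomino.shift {P : Finset (ℤ × ℤ)} (h : IsPolyomino P) (v : ℤ × ℤ) :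
    IsPolyomino (shift v P) := by
  refine ⟨?_, ?_⟩
  · obtain ⟨c, hc⟩ := h.1
    exact ⟨c + v, by rw [mem_shift]; simpa using hc⟩
  · intro c hc d hd
    rw [mem_shift] at hc hd
    have := h.2 _ hc _ hd
    have h2 := Relation.ReflTransGen.lift (fun p => p + v)
      (r := fun a b => a ∈ P ∧ b ∈ P ∧ EdgeAdj a b)
      (p := fun a b => a ∈ Rep.shift v P ∧ b ∈ Rep.shift v P ∧ EdgeAdj a b) (fun a b hab => by
        obtain ⟨ha, hb, hab⟩ := hab
        refine ⟨by rw [mem_shift]; simpa using ha, by rw [mem_shift]; simpa using hb, ?_⟩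
        unfold EdgeAdj at hab ⊢
        simp only [Prod.fst_add, Prod.snd_add]
        rwa [add_sub_add_right_eq_sub, add_sub_add_right_eq_sub]) _ _ this
    simp only [Function.onFun, sub_add_cancel] at h2
    exact h2

lemma GridFold.shift {P : Finset (ℤ × ℤ)} {l : ℤ} {F : ℤ × ℤ → ℤ × ℤ × ℤ} (h : GridFold P l F)
    (v : ℤ × ℤ) : GridFold (shift v P) l (fun p => F (p - v)) := by
  have key : ∀ c : ℤ × ℤ, ctr (fun p => F (p - v)) c = ctr F (c - v) := by
    intro c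
    simp only [ctr]
    congr 2
    ext <;> simp <;> ring
  refine ⟨h.pos, ?_, ?_, ?_⟩
  · intro c hc
    rw [mem_shift] at hc
    have := h.good _ hc
    have e1 : ((c.1 + 1, c.2) : ℤ × ℤ) - v = ((c - v).1 + 1, (c - v).2) := by
      ext <;> simp; ring
    have e2 : ((c.1, c.2 + 1) : ℤ × ℤ) - v = ((c - v).1, (c - v).2 + 1) := by
      ext <;> simp; ring
    have e3 : ((c.1 + 1, c.2 + 1) : ℤ × ℤ) - v = ((c - v).1 + 1, (c - v).2 + 1) := by
      ext <;> simp <;> ring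
    simp only [e1, e2, e3]
    exact this
  · intro c hc d hd hcd
    rw [mem_shift] at hc hd
    rw [key, key] at hcd
    have := h.inj _ hc _ hd hcd
    exact sub_left_injective this
  · intro m hm
    obtain ⟨c, hc, hcm⟩ := h.surj m hm
    refine ⟨c + v, by rw [mem_shift]; simpa using hc, ?_⟩
    rw [key]; simpa using hcm

lemma Piece.shift {P : Finset (ℤ × ℤ)} (h : Piece P) (v : ℤ × ℤ) : Piece (shift v P) := by
  obtain ⟨h1, l, F, h2⟩ := h
  exact ⟨h1.shift v, l, _, h2.shift v⟩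

/-! ### Partitions into pieces -/

def Part (k : ℕ) (P : Finset (ℤ × ℤ)) : Prop :=
  ∃ Q : Finset (Finset (ℤ × ℤ)), Q.card = k ∧ (∀ A ∈ Q, Piece A) ∧
    (∀ A ∈ Q, ∀ B ∈ Q, A ≠ B → Disjoint A B) ∧ Q.biUnion id = P

lemma Part.zero : Part 0 ∅ := ⟨∅, rfl, by simp, by simp, by simp⟩

lemma Part.single {P : Finset (ℤ × ℤ)} (h : Piece P) : Part 1 P :=
  ⟨{P}, by simp, by simpa using h, by simp, by simp⟩

lemma Part.union {a b : ℕ} {P P' : Finset (ℤ × ℤ)} (h : Part a P) (h' : Part b P')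
    (hd : Disjoint P P') : Part (a + b) (P ∪ P') := by
  obtain ⟨Q, q1, q2, q3, q4⟩ := h
  obtain ⟨Q', r1, r2, r3, r4⟩ := h'
  have hsub : ∀ A ∈ Q, A ⊆ P := by
    intro A hA; rw [← q4]; exact Finset.subset_biUnion_of_mem id hA
  have hsub' : ∀ A ∈ Q', A ⊆ P' := by
    intro A hA; rw [← r4]; exact Finset.subset_biUnion_of_mem id hA
  have hdis : ∀ A ∈ Q, ∀ B ∈ Q', Disjoint A B := fun A hA B hB =>
    hd.mono (hsub A hA) (hsub' B hB)
  have hdQ : Disjoint Q Q' := by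
    rw [Finset.disjoint_left]
    intro A hA hA'
    have h1 := hdis A hA A hA'
    rw [Finset.disjoint_self_iff_empty] at h1
    have h2 := (q2 A hA).1.1
    rw [h1] at h2
    exact absurd h2 (by simp)
  refine ⟨Q ∪ Q', ?_, ?_, ?_, ?_⟩
  · rw [Finset.card_union_of_disjoint hdQ, q1, r1]
  · intro A hA
    rcases Finset.mem_union.mp hA with h | h
    · exact q2 A h
    · exact r2 A h
  · intro A hA B hB hAB
    rcases Finset.mem_union.mp hA with h | h <;> rcases Finset.mem_union.mp hB with h' | h'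
    · exact q3 A h B h' hAB
    · exact hdis A h B h'
    · exact (hdis B h' A h).symm
    · exact r3 A h B h' hAB
  · rw [Finset.union_biUnion, q4, r4]

lemma Part.shift {a : ℕ} {P : Finset (ℤ × ℤ)} (h : Part a P) (v : ℤ × ℤ) :
    Part a (shift v P) := by
  obtain ⟨Q, q1, q2, q3, q4⟩ := h
  refine ⟨Q.image (Rep.shift v), ?_, ?_, ?_, ?_⟩
  · have hinj : Function.Injective (Rep.shift v) := Finset.map_injective (sh v)
    rw [Finset.card_image_of_injective _ hinj, q1]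
  · intro A hA
    obtain ⟨B, hB, rfl⟩ := Finset.mem_image.mp hA
    exact (q2 B hB).shift v
  · intro A hA B hB hAB
    obtain ⟨A', hA', rfl⟩ := Finset.mem_image.mp hA
    obtain ⟨B', hB', rfl⟩ := Finset.mem_image.mp hB
    have : A' ≠ B' := fun h => hAB (by rw [h])
    exact (Finset.disjoint_map _).mpr (q3 A' hA' B' hB' this)
  · rw [← q4]
    ext p
    simp only [Finset.mem_biUnion, Finset.mem_image, id, mem_shift]
    constructor
    · rintro ⟨_, ⟨B, hB, rfl⟩, hp⟩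
      rw [mem_shift] at hp
      exact ⟨B, hB, hp⟩
    · rintro ⟨B, hB, hp⟩
      exact ⟨_, ⟨B, hB, rfl⟩, by rwa [mem_shift]⟩

lemma Part.repCube {k : ℕ} {P : Finset (ℤ × ℤ)} (h : Part k P) (hP : Piece P) :
    IsRepCube k P := by
  obtain ⟨Q, q1, q2, q3, q4⟩ := h
  exact ⟨hP.fin.1, hP.fin.2, Q, q1, fun A hA => (q2 A hA).fin, q3, q4⟩

end Pool.Agent.Helper697.Rep
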