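import Mathlib
import Pool.Agent.Helper697.RepComb

open Set

namespace Pool.Agent.Helper697.Rep

/-! ### Checking finite data -/

def tbl (T : List ((ℤ × ℤ) × (ℤ × ℤ × ℤ))) (p : ℤ × ℤ) : ℤ × ℤ × ℤ :=
  ((T.find? (fun q => q.1 == p)).map Prod.snd).getD (0, 0, 0)

def surjB (n : ℕ) (L : List (ℤ × ℤ × ℤ)) : Bool :=
  (List.range (2 * n + 1)).all fun x => (List.range (2 * n + 1)).all fun y =>
    (List.range (2 * n + 1)).all fun z => (!decide (IsCtr n ((x : ℤ), (y : ℤ), (z : ℤ)))) ||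
      decide (((x : ℤ), (y : ℤ), (z : ℤ)) ∈ L)

lemma gridFold_of_list (L : List (ℤ × ℤ)) (n : ℕ) (F : ℤ × ℤ → ℤ × ℤ × ℤ) (h0 : 0 < n)
    (h1 : ∀ c ∈ L, GoodSq n (F c) (F (c.1 + 1, c.2)) (F (c.1, c.2 + 1)) (F (c.1 + 1, c.2 + 1)))
    (h2 : (L.map (ctr F)).Nodup)
    (h3 : surjB n (L.map (ctr F)) = true) :
    GridFold L.toFinset n F := by
  refine ⟨by exact_mod_cast h0, ?_, ?_, ?_⟩
  · intro c hc
    exact h1 c (by simpa using hc)
  · intro c hc d hd hcd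
    exact List.inj_on_of_nodup_map h2 (by simpa using hc) (by simpa using hd) hcd
  · rintro ⟨x, y, z⟩ hm
    obtain ⟨⟨r1, r2, r3, r4, r5, r6⟩, h⟩ := id hm
    simp only at r1 r2 r3 r4 r5 r6
    have hx : ((x.toNat : ℤ)) = x := Int.toNat_of_nonneg r1
    have hy : ((y.toNat : ℤ)) = y := Int.toNat_of_nonneg r3
    have hz : ((z.toNat : ℤ)) = z := Int.toNat_of_nonneg r5
    simp only [surjB, List.all_eq_true, List.mem_range, Bool.or_eq_true, Bool.not_eq_true',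
      decide_eq_false_iff_not, decide_eq_true_eq] at h3
    have h4 := h3 x.toNat (by omega) y.toNat (by omega) z.toNat (by omega)
    rw [hx, hy, hz] at h4
    have this := h4.resolve_left (fun hn => hn hm)
    obtain ⟨c, hc, hcm⟩ := List.mem_map.mp this
    exact ⟨c, by simpa using hc, hcm⟩

def adjB (a b : ℤ × ℤ) : Bool := decide (|a.1 - b.1| + |a.2 - b.2| = 1)

def connB : List (ℤ × ℤ) → Bool
  | [] => false
  | a :: l => l.isEmpty || (l.any (adjB a) && connB l)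

/-- the step relation inside a set of cells -/
def Step (P : Finset (ℤ × ℤ)) (a b : ℤ × ℤ) : Prop := a ∈ P ∧ b ∈ P ∧ EdgeAdj a b

def Conn (P : Finset (ℤ × ℤ)) : ℤ × ℤ → ℤ × ℤ → Prop := Relation.ReflTransGen (Step P)

lemma Step.symm {P : Finset (ℤ × ℤ)} {a b : ℤ × ℤ} (h : Step P a b) : Step P b a := by
  refine ⟨h.2.1, h.1, ?_⟩
  have := h.2.2
  unfold EdgeAdj at *
  rw [abs_sub_comm b.1, abs_sub_comm b.2]; exact this

lemma Conn.symm {P : Finset (ℤ × ℤ)} {a b : ℤ × ℤ} (h : Conn P a b) : Conn P b a := by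
  unfold Conn at *
  induction h with
  | refl => exact Relation.ReflTransGen.refl
  | tail _ hbc ih => exact Relation.ReflTransGen.head hbc.symm ih

lemma Conn.trans {P : Finset (ℤ × ℤ)} {a b c : ℤ × ℤ} (h : Conn P a b) (h' : Conn P b c) :
    Conn P a c := Relation.ReflTransGen.trans h h'

lemma Conn.single {P : Finset (ℤ × ℤ)} {a b : ℤ × ℤ} (h : Step P a b) : Conn P a b :=
  Relation.ReflTransGen.single h

lemma Conn.refl {P : Finset (ℤ × ℤ)} (a : ℤ × ℤ) : Conn P a a := Relation.ReflTransGen.refl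

lemma conn_of_list {P : Finset (ℤ × ℤ)} : ∀ (L : List (ℤ × ℤ)), connB L = true →
    (∀ c ∈ L, c ∈ P) → ∀ c ∈ L, ∀ d ∈ L, Conn P c d
  | [], h, _ => by simp [connB] at h
  | a :: l, h, hP => by
    simp only [connB, Bool.or_eq_true, Bool.and_eq_true, List.isEmpty_iff, List.any_eq_true]
      at h
    rcases h with rfl | ⟨⟨b, hb, hab⟩, h⟩
    · intro c hc d hd
      simp only [List.mem_singleton] at hc hd
      rw [hc, hd]; exact Conn.refl _
    · have ih := conn_of_list l h (fun c hc => hP c (List.mem_cons_of_mem _ hc))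
      have hstep : Step P a b := ⟨hP a List.mem_cons_self, hP b (List.mem_cons_of_mem _ hb), by
        unfold adjB at hab; unfold EdgeAdj; exact of_decide_eq_true hab⟩
      have key : ∀ c ∈ a :: l, Conn P c b := by
        intro c hc
        rcases List.mem_cons.mp hc with rfl | hc
        · exact Conn.single hstep
        · exact ih c hc b hb
      intro c hc d hd
      exact (key c hc).trans (key d hd).symm

lemma polyomino_of_list (L : List (ℤ × ℤ)) (h : connB L = true) : IsPolyomino L.toFinset := by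
  refine ⟨?_, ?_⟩
  · cases L with
    | nil => simp [connB] at h
    | cons a l => exact ⟨a, by simp⟩
  · intro c hc d hd
    exact conn_of_list L h (fun c hc => by simpa using hc) c (by simpa using hc) d
      (by simpa using hd)

lemma piece_of_list (L : List (ℤ × ℤ)) (n : ℕ) (F : ℤ × ℤ → ℤ × ℤ × ℤ) (h : connB L = true)
    (h0 : 0 < n)
    (h1 : ∀ c ∈ L, GoodSq n (F c) (F (c.1 + 1, c.2)) (F (c.1, c.2 + 1)) (F (c.1 + 1, c.2 + 1)))
    (h2 : (L.map (ctr F)).Nodup)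
    (h3 : surjB n (L.map (ctr F)) = true) : Piece L.toFinset :=
  ⟨polyomino_of_list L h, n, F, gridFold_of_list L n F h0 h1 h2 h3⟩

/-! ### The data -/

/-- cells of a net of the cube of edge 1 -/
def n0L : List (ℤ × ℤ) :=
  [(4, -1), (4, 1), (5, 0), (4, 0), (3, 0), (2, 0)]

/-- images of the lattice points -/
def n0T : List ((ℤ × ℤ) × (ℤ × ℤ × ℤ)) :=
  [((2, 0), (0, 0, 0)), ((2, 1), (0, 1, 0)), ((3, 0), (1, 0, 0)), ((3, 1), (1, 1, 0)), ((4,
  -1), (1, 0, 0)), ((4, 0), (1, 0, 1)), ((4, 1), (1, 1, 1)), ((4, 2), (1, 1, 0)), ((5, -1), (0,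
  0, 0)), ((5, 0), (0, 0, 1)), ((5, 1), (0, 1, 1)), ((5, 2), (0, 1, 0)), ((6, 0), (0, 0, 0)),
  ((6, 1), (0, 1, 0))]

/-- cells of a net of the cube of edge 1 -/
def n1L : List (ℤ × ℤ) :=
  [(1, 2), (2, 1), (0, 0), (1, 1), (0, 1), (-1, 1)]

/-- images of the lattice points -/
def n1T : List ((ℤ × ℤ) × (ℤ × ℤ × ℤ)) :=
  [((-1, 1), (0, 0, 0)), ((-1, 2), (0, 1, 0)), ((0, 0), (0, 0, 0)), ((0, 1), (1, 0, 0)), ((0,
  2), (1, 1, 0)), ((1, 0), (0, 0, 1)), ((1, 1), (1, 0, 1)), ((1, 2), (1, 1, 1)), ((1, 3), (1,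
  1, 0)), ((2, 1), (0, 0, 1)), ((2, 2), (0, 1, 1)), ((2, 3), (0, 1, 0)), ((3, 1), (0, 0, 0)),
  ((3, 2), (0, 1, 0))]

/-- cells of a net of the cube of edge 1 -/
def n2L : List (ℤ × ℤ) :=
  [(5, 3), (5, 2), (3, 1), (4, 2), (3, 2), (2, 2)]

/-- images of the lattice points -/
def n2T : List ((ℤ × ℤ) × (ℤ × ℤ × ℤ)) :=
  [((2, 2), (0, 0, 0)), ((2, 3), (0, 1, 0)), ((3, 1), (0, 0, 0)), ((3, 2), (1, 0, 0)), ((3, 3),
  (1, 1, 0)), ((4, 1), (0, 0, 1)), ((4, 2), (1, 0, 1)), ((4, 3), (1, 1, 1)), ((5, 2), (0, 0,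
  1)), ((5, 3), (0, 1, 1)), ((5, 4), (1, 1, 1)), ((6, 2), (0, 0, 0)), ((6, 3), (0, 1, 0)), ((6,
  4), (1, 1, 0))]

/-- cells of a net of the cube of edge 1 -/
def n3L : List (ℤ × ℤ) :=
  [(3, 3), (1, 4), (2, 3), (1, 3), (0, 3), (0, 2)]

/-- images of the lattice points -/
def n3T : List ((ℤ × ℤ) × (ℤ × ℤ × ℤ)) :=
  [((0, 2), (0, 0, 0)), ((0, 3), (0, 1, 0)), ((0, 4), (0, 1, 1)), ((1, 2), (1, 0, 0)), ((1, 3),
  (1, 1, 0)), ((1, 4), (1, 1, 1)), ((1, 5), (0, 1, 1)), ((2, 3), (1, 0, 0)), ((2, 4), (1, 0,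
  1)), ((2, 5), (0, 0, 1)), ((3, 3), (0, 0, 0)), ((3, 4), (0, 0, 1)), ((4, 3), (0, 1, 0)), ((4,
  4), (0, 1, 1))]

/-- cells of a net of the cube of edge 1 -/
def n4L : List (ℤ × ℤ) :=
  [(5, 5), (6, 4), (4, 3), (5, 4), (4, 4), (3, 4)]

/-- images of the lattice points -/
def n4T : List ((ℤ × ℤ) × (ℤ × ℤ × ℤ)) :=
  [((3, 4), (0, 0, 0)), ((3, 5), (0, 1, 0)), ((4, 3), (0, 0, 0)), ((4, 4), (1, 0, 0)), ((4, 5),
  (1, 1, 0)), ((5, 3), (0, 0, 1)), ((5, 4), (1, 0, 1)), ((5, 5), (1, 1, 1)), ((5, 6), (1, 1,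
  0)), ((6, 4), (0, 0, 1)), ((6, 5), (0, 1, 1)), ((6, 6), (0, 1, 0)), ((7, 4), (0, 0, 0)), ((7,
  5), (0, 1, 0))]

/-- cells of a net of the cube of edge 1 -/
def n5L : List (ℤ × ℤ) :=
  [(2, 4), (3, 5), (1, 6), (2, 5), (1, 5), (0, 5)]

/-- images of the lattice points -/
def n5T : List ((ℤ × ℤ) × (ℤ × ℤ × ℤ)) :=
  [((0, 5), (0, 0, 0)), ((0, 6), (0, 1, 0)), ((1, 5), (1, 0, 0)), ((1, 6), (1, 1, 0)), ((1, 7),
  (0, 1, 0)), ((2, 4), (1, 0, 0)), ((2, 5), (1, 0, 1)), ((2, 6), (1, 1, 1)), ((2, 7), (0, 1,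
  1)), ((3, 4), (0, 0, 0)), ((3, 5), (0, 0, 1)), ((3, 6), (0, 1, 1)), ((4, 5), (0, 0, 0)), ((4,
  6), (0, 1, 0))]

/-- cells of a net of the cube of edge 2 -/
def qL : List (ℤ × ℤ) :=
  [(4, -1), (5, 0), (2, 0), (4, 0), (5, 3), (3, 0), (4, 1), (5, 2), (3, 5), (3, 1), (4, 2), (0,
  5), (1, 6), (2, 5), (3, 2), (1, 5), (2, 2), (2, 4), (3, 3), (1, 4), (2, 3), (1, 3), (0, 3),
  (0, 2)]

/-- images of the lattice points -/
def qT : List ((ℤ × ℤ) × (ℤ × ℤ × ℤ)) :=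
  [((0, 2), (0, 1, 0)), ((0, 3), (1, 1, 0)), ((0, 4), (2, 1, 0)), ((0, 5), (1, 1, 0)), ((0, 6),
  (1, 2, 0)), ((1, 2), (0, 0, 0)), ((1, 3), (1, 0, 0)), ((1, 4), (2, 0, 0)), ((1, 5), (2, 1,
  0)), ((1, 6), (2, 2, 0)), ((1, 7), (1, 2, 0)), ((2, 0), (1, 0, 0)), ((2, 1), (1, 0, 1)), ((2,
  2), (0, 0, 1)), ((2, 3), (1, 0, 1)), ((2, 4), (2, 0, 1)), ((2, 5), (2, 1, 1)), ((2, 6), (2,
  2, 1)), ((2, 7), (1, 2, 1)), ((3, 0), (0, 0, 0)), ((3, 1), (0, 0, 1)), ((3, 2), (0, 0, 2)),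
  ((3, 3), (1, 0, 2)), ((3, 4), (2, 0, 2)), ((3, 5), (2, 1, 2)), ((3, 6), (2, 2, 2)), ((4, -1),
  (1, 1, 0)), ((4, 0), (0, 1, 0)), ((4, 1), (0, 1, 1)), ((4, 2), (0, 1, 2)), ((4, 3), (1, 1,
  2)), ((4, 4), (2, 1, 2)), ((4, 5), (1, 1, 2)), ((4, 6), (1, 2, 2)), ((5, -1), (1, 2, 0)),
  ((5, 0), (0, 2, 0)), ((5, 1), (0, 2, 1)), ((5, 2), (0, 2, 2)), ((5, 3), (1, 2, 2)), ((5, 4),
  (2, 2, 2)), ((6, 0), (1, 2, 0)), ((6, 1), (1, 2, 1)), ((6, 2), (0, 2, 1)), ((6, 3), (1, 2,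
  1)), ((6, 4), (2, 2, 1))]

/-- the block of 36 cells -/
def XL : List (ℤ × ℤ) :=
  [(5, 5), (6, 4), (5, 4), (3, 5), (4, 4), (5, 3), (0, 5), (1, 6), (2, 5), (3, 4), (4, -1), (5,
  0), (4, 3), (5, 2), (1, 5), (2, 4), (3, 3), (4, 0), (4, 2), (1, 4), (2, 3), (3, 0), (3, 2),
  (4, 1), (1, 3), (2, 0), (2, 2), (3, 1), (0, 3), (1, 2), (2, 1), (0, 0), (0, 2), (1, 1), (0,
  1), (-1, 1)]


lemma piece_n0 : Piece n0L.toFinset :=
  piece_of_list n0L 1 (tbl n0T) (by decide +kernel) (by norm_num) (by decide +kernel)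
    (by decide +kernel) (by decide +kernel)

lemma piece_n1 : Piece n1L.toFinset :=
  piece_of_list n1L 1 (tbl n1T) (by decide +kernel) (by norm_num) (by decide +kernel)
    (by decide +kernel) (by decide +kernel)

lemma piece_n2 : Piece n2L.toFinset :=
  piece_of_list n2L 1 (tbl n2T) (by decide +kernel) (by norm_num) (by decide +kernel)
    (by decide +kernel) (by decide +kernel)

lemma piece_n3 : Piece n3L.toFinset :=
  piece_of_list n3L 1 (tbl n3T) (by decide +kernel) (by norm_num) (by decide +kernel)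
    (by decide +kernel) (by decide +kernel)

lemma piece_n4 : Piece n4L.toFinset :=
  piece_of_list n4L 1 (tbl n4T) (by decide +kernel) (by norm_num) (by decide +kernel)
    (by decide +kernel) (by decide +kernel)

lemma piece_n5 : Piece n5L.toFinset :=
  piece_of_list n5L 1 (tbl n5T) (by decide +kernel) (by norm_num) (by decide +kernel)
    (by decide +kernel) (by decide +kernel)

lemma piece_q : Piece qL.toFinset :=
  piece_of_list qL 2 (tbl qT) (by decide +kernel) (by norm_num) (by decide +kernel)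
    (by decide +kernel) (by decide +kernel)

/-- the block of 36 cells as a set -/
def X : Finset (ℤ × ℤ) := XL.toFinset

lemma part_six : Part 6 X := by
  have h1 := ((((((Part.single piece_n0).union (Part.single piece_n1) (by decide +kernel)).union
    (Part.single piece_n2) (by decide +kernel)).union (Part.single piece_n3)
    (by decide +kernel)).union (Part.single piece_n4) (by decide +kernel)).union
    (Part.single piece_n5) (by decide +kernel))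
  have h2 : n0L.toFinset ∪ n1L.toFinset ∪ n2L.toFinset ∪ n3L.toFinset ∪ n4L.toFinset ∪
      n5L.toFinset = X := by decide +kernel
  rw [h2] at h1
  exact h1

lemma part_three : Part 3 X := by
  have h1 := ((Part.single piece_q).union (Part.single piece_n1) (by decide +kernel)).union
    (Part.single piece_n4) (by decide +kernel)
  have h2 : qL.toFinset ∪ n1L.toFinset ∪ n4L.toFinset = X := by decide +kernel
  rw [h2] at h1
  exact h1

end Pool.Agent.Helper697.Rep
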