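import Mathlib
import Pool.Agent.Helper697.RepData
import Pool.Agent.Helper697.PythDefs

open Set

namespace Pool.Agent.Helper697.Rep

theorem GridFold.foldsOnto {P : Finset (ℤ × ℤ)} {F : ℤ × ℤ → ℤ × ℤ × ℤ} {l : ℤ}
    (h : GridFold P l F) : FoldsOnto l P := by
  refine ⟨fmap P F, (fmap_continuous P F).continuousOn, ?_, ?_, ?_⟩
  · apply Set.Subset.antisymm
    · rintro _ ⟨x, hx, rfl⟩
      simp only [region, Set.mem_iUnion] at hx
      obtain ⟨c, hc, hxc⟩ := hx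
      exact mem_surface (ctr_isCtr h hc) (h.onSq hc hxc)
    · intro z hz
      obtain ⟨m, hm, hmz⟩ := exists_ctr h.pos hz
      obtain ⟨c, hc, rfl⟩ := h.surj m hm
      obtain ⟨x, hx, rfl⟩ := cell_onto h hc hmz
      exact ⟨x, Set.mem_biUnion hc hx, rfl⟩
  · intro x hx y hy hxy
    exact h.interior_inj hx hy hxy
  · refine ⟨square '' (P : Set (ℤ × ℤ)), P.finite_toSet.image _, ?_, ?_⟩
    · rw [Set.sUnion_image]; rfl
    · rintro _ ⟨c, hc, rfl⟩
      exact ⟨square_convex c, square_closed c, fun x hx y hy => h.dist_eq hc hx hy⟩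

/-! ### Scaling by a positive integer -/

/-- every unit square is replaced by `k * k` unit squares -/
def scl (k : ℕ) (P : Finset (ℤ × ℤ)) : Finset (ℤ × ℤ) :=
  (P ×ˢ (Finset.range k ×ˢ Finset.range k)).image
    (fun w => ((k : ℤ) * w.1.1 + w.2.1, (k : ℤ) * w.1.2 + w.2.2))

lemma mem_scl {k : ℕ} {P : Finset (ℤ × ℤ)} {p : ℤ × ℤ} : p ∈ scl k P ↔
    ∃ c ∈ P, ∃ i < k, ∃ j < k, p = ((k : ℤ) * c.1 + i, (k : ℤ) * c.2 + j) := by
  simp only [scl, Finset.mem_image, Finset.mem_product, Finset.mem_range]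
  constructor
  · rintro ⟨⟨c, i, j⟩, ⟨hc, hi, hj⟩, rfl⟩
    exact ⟨c, hc, i, hi, j, hj, rfl⟩
  · rintro ⟨c, hc, i, hi, j, hj, rfl⟩
    exact ⟨⟨c, i, j⟩, ⟨hc, hi, hj⟩, rfl⟩

lemma euclid_unique {k : ℕ} {a b : ℤ} {i j : ℕ} (hi : i < k) (hj : j < k)
    (h : (k : ℤ) * a + i = (k : ℤ) * b + j) : a = b ∧ i = j := by
  have hk : (0 : ℤ) < k := by omega
  have h1 : a = b := by
    have e1 : ((k : ℤ) * a + i) / k = a := by
      rw [add_comm, Int.add_mul_ediv_left _ _ hk.ne']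
      rw [Int.ediv_eq_zero_of_lt (by omega) (by omega)]; ring
    have e2 : ((k : ℤ) * b + j) / k = b := by
      rw [add_comm, Int.add_mul_ediv_left _ _ hk.ne']
      rw [Int.ediv_eq_zero_of_lt (by omega) (by omega)]; ring
    rw [← e1, ← e2, h]
  subst h1
  exact ⟨rfl, by omega⟩

lemma card_scl (k : ℕ) (P : Finset (ℤ × ℤ)) : (scl k P).card = k ^ 2 * P.card := by
  unfold scl
  rw [Finset.card_image_of_injOn]
  · simp only [Finset.card_product, Finset.card_range]; ring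
  · rintro ⟨⟨a, b⟩, i, j⟩ h ⟨⟨a', b'⟩, i', j'⟩ h' e
    simp only [Finset.coe_product, Finset.coe_range, Set.mem_prod, Set.mem_Iio] at h h'
    simp only [Prod.mk.injEq] at e
    obtain ⟨rfl, rfl⟩ := euclid_unique h.2.1 h'.2.1 e.1
    obtain ⟨rfl, rfl⟩ := euclid_unique h.2.2 h'.2.2 e.2
    rfl

lemma scl_union (k : ℕ) (P Q : Finset (ℤ × ℤ)) : scl k (P ∪ Q) = scl k P ∪ scl k Q := by
  ext p
  simp only [Finset.mem_union, mem_scl]
  constructor
  · rintro ⟨c, hc | hc, h⟩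
    · exact Or.inl ⟨c, hc, h⟩
    · exact Or.inr ⟨c, hc, h⟩
  · rintro (⟨c, hc, h⟩ | ⟨c, hc, h⟩)
    · exact ⟨c, Or.inl hc, h⟩
    · exact ⟨c, Or.inr hc, h⟩

lemma scl_disjoint {k : ℕ} {P Q : Finset (ℤ × ℤ)} (h : Disjoint P Q) :
    Disjoint (scl k P) (scl k Q) := by
  rw [Finset.disjoint_left]
  intro p hp hq
  obtain ⟨⟨a, b⟩, hc, i, hi, j, hj, rfl⟩ := mem_scl.mp hp
  obtain ⟨⟨a', b'⟩, hc', i', hi', j', hj', e⟩ := mem_scl.mp hq
  simp only [Prod.mk.injEq] at e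
  obtain ⟨rfl, rfl⟩ := euclid_unique hi hi' e.1
  obtain ⟨rfl, rfl⟩ := euclid_unique hj hj' e.2
  exact (Finset.disjoint_left.mp h) hc hc'

lemma conn_cell {k : ℕ} {P : Finset (ℤ × ℤ)} {c : ℤ × ℤ} (hc : c ∈ P) :
    ∀ (i j : ℕ), i < k → j < k → Conn (scl k P) ((k : ℤ) * c.1 + i, (k : ℤ) * c.2 + j)
      ((k : ℤ) * c.1, (k : ℤ) * c.2) := by
  intro i
  induction i with
  | zero =>
    intro j
    induction j with
    | zero =>
      intro _ _
      simp only [Nat.cast_zero, add_zero]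
      exact Conn.refl _
    | succ j ih =>
      intro hi hj
      refine (Conn.single ⟨?_, ?_, ?_⟩).trans (ih hi (by omega))
      · exact mem_scl.mpr ⟨c, hc, 0, hi, j + 1, hj, rfl⟩
      · exact mem_scl.mpr ⟨c, hc, 0, hi, j, by omega, rfl⟩
      · unfold EdgeAdj
        push_cast
        have e1 : (k : ℤ) * c.1 + 0 - (k * c.1 + 0) = 0 := by ring
        have e2 : (k : ℤ) * c.2 + (j + 1) - (k * c.2 + j) = 1 := by ring
        rw [e1, e2]; norm_num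
  | succ i ih =>
    intro j hi hj
    refine (Conn.single ⟨?_, ?_, ?_⟩).trans (ih j (by omega) hj)
    · exact mem_scl.mpr ⟨c, hc, i + 1, hi, j, hj, rfl⟩
    · exact mem_scl.mpr ⟨c, hc, i, by omega, j, hj, rfl⟩
    · unfold EdgeAdj
      push_cast
      have e1 : (k : ℤ) * c.1 + (i + 1) - (k * c.1 + i) = 1 := by ring
      have e2 : (k : ℤ) * c.2 + j - (k * c.2 + j) = 0 := by ring
      rw [e1, e2]; norm_num

lemma conn_next {k : ℕ} (hk : 0 < k) {P : Finset (ℤ × ℤ)} {a b a' b' : ℤ} (hc : (a, b) ∈ P)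
    (hd : (a', b') ∈ P) (h : (a' = a + 1 ∧ b' = b) ∨ (a' = a ∧ b' = b + 1)) :
    Conn (scl k P) ((k : ℤ) * a, (k : ℤ) * b) ((k : ℤ) * a', (k : ℤ) * b') := by
  have hk1 : ((k - 1 : ℕ) : ℤ) = (k : ℤ) - 1 := by omega
  rcases h with ⟨rfl, rfl⟩ | ⟨rfl, rfl⟩
  · have h1 := (conn_cell hc (k - 1) 0 (by omega) hk).symm
    refine h1.trans (Conn.single ⟨?_, ?_, ?_⟩)
    · exact mem_scl.mpr ⟨_, hc, k - 1, by omega, 0, hk, rfl⟩
    · exact mem_scl.mpr ⟨_, hd, 0, hk, 0, hk, by simp⟩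
    · unfold EdgeAdj
      simp only [hk1]
      have e1 : (k : ℤ) * a + (k - 1) - (k * (a + 1)) = -1 := by ring
      have e2 : (k : ℤ) * b' + ((0 : ℕ) : ℤ) - (k * b') = 0 := by push_cast; ring
      rw [e1, e2]; norm_num
  · have h1 := (conn_cell hc 0 (k - 1) hk (by omega)).symm
    refine h1.trans (Conn.single ⟨?_, ?_, ?_⟩)
    · exact mem_scl.mpr ⟨_, hc, 0, hk, k - 1, by omega, rfl⟩
    · exact mem_scl.mpr ⟨_, hd, 0, hk, 0, hk, by simp⟩
    · unfold EdgeAdj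
      simp only [hk1]
      have e1 : (k : ℤ) * a' + ((0 : ℕ) : ℤ) - (k * a') = 0 := by push_cast; ring
      have e2 : (k : ℤ) * b + (k - 1) - (k * (b + 1)) = -1 := by ring
      rw [e1, e2]; norm_num

lemma conn_adj {k : ℕ} (hk : 0 < k) {P : Finset (ℤ × ℤ)} {c d : ℤ × ℤ} (h : Step P c d) :
    Conn (scl k P) ((k : ℤ) * c.1, (k : ℤ) * c.2) ((k : ℤ) * d.1, (k : ℤ) * d.2) := by
  obtain ⟨a, b⟩ := c
  obtain ⟨a', b'⟩ := d
  obtain ⟨h1, h2, h3⟩ := h
  unfold EdgeAdj at h3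
  simp only at h3
  have hcase : ((a' = a + 1 ∧ b' = b) ∨ (a' = a ∧ b' = b + 1)) ∨
      ((a = a' + 1 ∧ b = b') ∨ (a = a' ∧ b = b' + 1)) := by
    rcases abs_cases (a - a') with ⟨e, _⟩ | ⟨e, _⟩ <;>
    rcases abs_cases (b - b') with ⟨e', _⟩ | ⟨e', _⟩ <;> omega
  rcases hcase with h | h
  · exact conn_next hk h1 h2 h
  · exact (conn_next hk h2 h1 h).symm

lemma IsPolyomino.scl {k : ℕ} (hk : 0 < k) {P : Finset (ℤ × ℤ)} (h : IsPolyomino P) :
    IsPolyomino (Rep.scl k P) := by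
  refine ⟨?_, ?_⟩
  · obtain ⟨c, hc⟩ := h.1
    exact ⟨_, mem_scl.mpr ⟨c, hc, 0, hk, 0, hk, rfl⟩⟩
  · intro p hp q hq
    obtain ⟨c, hc, i, hi, j, hj, rfl⟩ := mem_scl.mp hp
    obtain ⟨d, hd, i', hi', j', hj', rfl⟩ := mem_scl.mp hq
    have h1 := conn_cell hc i j hi hj
    have h2 := (conn_cell hd i' j' hi' hj').symm
    refine (h1.trans ?_).trans h2
    have h3 : Conn P c d := h.2 c hc d hd
    clear h1 h2 hp hq
    unfold Conn at h3
    induction h3 with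
    | refl => exact Conn.refl _
    | tail _ hbc ih => exact (ih hbc.1).trans (conn_adj hk hbc)

lemma mem_region_scl {k : ℕ} (hk : 0 < k) {P : Finset (ℤ × ℤ)} (p : Plane) :
    p ∈ region (scl k P) ↔ (k : ℝ)⁻¹ • p ∈ region P := by
  have hk' : (0 : ℝ) < k := by exact_mod_cast hk
  simp only [region, Set.mem_iUnion]
  constructor
  · rintro ⟨q, hq, ⟨h1, h2⟩, h3, h4⟩
    obtain ⟨c, hc, i, hi, j, hj, rfl⟩ := mem_scl.mp hq
    push_cast at h1 h2 h3 h4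
    have hi' : (i : ℝ) + 1 ≤ k := by exact_mod_cast hi
    have hj' : (j : ℝ) + 1 ≤ k := by exact_mod_cast hj
    have hi0 : (0 : ℝ) ≤ i := Nat.cast_nonneg _
    have hj0 : (0 : ℝ) ≤ j := Nat.cast_nonneg _
    refine ⟨c, hc, ⟨?_, ?_⟩, ?_, ?_⟩ <;> simp only [PiLp.smul_apply, smul_eq_mul]
    · rw [inv_mul_eq_div, le_div_iff₀ hk']; linarith
    · rw [inv_mul_eq_div, div_le_iff₀ hk']; nlinarith
    · rw [inv_mul_eq_div, le_div_iff₀ hk']; linarith
    · rw [inv_mul_eq_div, div_le_iff₀ hk']; nlinarith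
  · rintro ⟨c, hc, ⟨h1, h2⟩, h3, h4⟩
    simp only [PiLp.smul_apply, smul_eq_mul] at h1 h2 h3 h4
    rw [inv_mul_eq_div, le_div_iff₀ hk'] at h1 h3
    rw [inv_mul_eq_div, div_le_iff₀ hk'] at h2 h4
    have key : ∀ (a : ℤ) (t : ℝ), (a : ℝ) * k ≤ t → t ≤ ((a : ℝ) + 1) * k →
        ∃ i < k, (((k : ℤ) * a + i : ℤ) : ℝ) ≤ t ∧ t ≤ (((k : ℤ) * a + i : ℤ) : ℝ) + 1 := by
      intro a t ha hb
      have hf : (k : ℤ) * a ≤ ⌊t⌋ := by
        rw [Int.le_floor]; push_cast; linarith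
      have hl := Int.floor_le t
      have hu := Int.lt_floor_add_one t
      by_cases hc : ⌊t⌋ < (k : ℤ) * a + k
      · refine ⟨(⌊t⌋ - (k : ℤ) * a).toNat, by omega, ?_⟩
        have e : (k : ℤ) * a + ((⌊t⌋ - (k : ℤ) * a).toNat : ℤ) = ⌊t⌋ := by omega
        rw [e]
        exact ⟨hl, hu.le⟩
      · refine ⟨k - 1, by omega, ?_⟩
        have hc' : (((k : ℤ) * a + k : ℤ) : ℝ) ≤ ⌊t⌋ := by exact_mod_cast not_lt.mp hc
        have e : (((k : ℤ) * a + ((k - 1 : ℕ) : ℤ) : ℤ) : ℝ) = (k : ℝ) * a + k - 1 := by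
          have : ((k - 1 : ℕ) : ℤ) = (k : ℤ) - 1 := by omega
          rw [this]; push_cast; ring
        rw [e]
        push_cast at hc'
        constructor <;> nlinarith
    obtain ⟨i, hi, i1, i2⟩ := key _ _ h1 h2
    obtain ⟨j, hj, j1, j2⟩ := key _ _ h3 h4
    exact ⟨_, mem_scl.mpr ⟨c, hc, i, hi, j, hj, rfl⟩, ⟨i1, i2⟩, j1, j2⟩

lemma FoldsOnto.scl {k : ℕ} (hk : 0 < k) {l : ℝ} {P : Finset (ℤ × ℤ)} (h : FoldsOnto l P) :
    FoldsOnto (k * l) (Rep.scl k P) := by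
  have hk' : (0 : ℝ) < k := by exact_mod_cast hk
  obtain ⟨f, f1, f2, f3, C, C1, C2, C3⟩ := h
  have hreg : region (Rep.scl k P) = (fun p : Plane => (k : ℝ)⁻¹ • p) ⁻¹' region P := by
    ext p; exact mem_region_scl hk p
  have hcont : Continuous fun p : Plane => (k : ℝ)⁻¹ • p := by fun_prop
  have hopen : IsOpenMap fun p : Plane => (k : ℝ)⁻¹ • p :=
    (Homeomorph.smulOfNeZero (k : ℝ)⁻¹ (inv_ne_zero hk'.ne')).isOpenMap
  refine ⟨fun p => (k : ℝ) • f ((k : ℝ)⁻¹ • p), ?_, ?_, ?_, ?_⟩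
  · have : ContinuousOn (fun p : Plane => f ((k : ℝ)⁻¹ • p)) (region (Rep.scl k P)) := by
      rw [hreg]
      exact f1.comp hcont.continuousOn (Set.mapsTo_preimage _ _)
    exact this.const_smul (k : ℝ)
  · ext z
    constructor
    · rintro ⟨p, hp, rfl⟩
      rw [hreg] at hp
      have hz : f ((k : ℝ)⁻¹ • p) ∈ cubeSurface l := by
        rw [← f2]; exact ⟨_, hp, rfl⟩
      obtain ⟨hz1, i, hi⟩ := hz
      refine ⟨fun i => ?_, i, ?_⟩
      · simp only [PiLp.smul_apply, smul_eq_mul]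
        exact ⟨mul_nonneg hk'.le (hz1 i).1, mul_le_mul_of_nonneg_left (hz1 i).2 hk'.le⟩
      · simp only [PiLp.smul_apply, smul_eq_mul]
        rcases hi with hi | hi
        · left; rw [hi, mul_zero]
        · right; rw [hi]
    · rintro ⟨hz1, i, hi⟩
      have hz : (k : ℝ)⁻¹ • z ∈ cubeSurface l := by
        refine ⟨fun i => ?_, i, ?_⟩
        · simp only [PiLp.smul_apply, smul_eq_mul]
          refine ⟨mul_nonneg (inv_nonneg.mpr hk'.le) (hz1 i).1, ?_⟩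
          rw [inv_mul_eq_div, div_le_iff₀ hk', mul_comm]
          exact (hz1 i).2
        · simp only [PiLp.smul_apply, smul_eq_mul]
          rcases hi with hi | hi
          · left; rw [hi, mul_zero]
          · right; rw [hi, inv_mul_cancel_left₀ hk'.ne']
      rw [← f2] at hz
      obtain ⟨p, hp, hpz⟩ := hz
      refine ⟨(k : ℝ) • p, ?_, ?_⟩
      · rw [hreg, Set.mem_preimage, inv_smul_smul₀ hk'.ne']; exact hp
      · simp only
        rw [inv_smul_smul₀ hk'.ne', hpz, smul_inv_smul₀ hk'.ne']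
  · intro x hx y hy hxy
    rw [hreg, ← hopen.preimage_interior_eq_interior_preimage hcont] at hx
    rw [hreg] at hy
    have h1 : f ((k : ℝ)⁻¹ • x) = f ((k : ℝ)⁻¹ • y) := smul_right_injective _ hk'.ne' hxy
    have h2 := f3 _ hx _ hy h1
    exact smul_right_injective _ (inv_ne_zero hk'.ne') h2
  · refine ⟨(fun S => (fun p : Plane => (k : ℝ)⁻¹ • p) ⁻¹' S) '' C, C1.image _, ?_, ?_⟩
    · rw [hreg, ← C2, Set.sUnion_image, Set.sUnion_eq_biUnion, Set.preimage_iUnion₂]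
    · rintro _ ⟨S, hS, rfl⟩
      obtain ⟨S1, S2, S3⟩ := C3 S hS
      refine ⟨?_, S2.preimage hcont, ?_⟩
      · have := S1.linear_preimage ((k : ℝ)⁻¹ • (LinearMap.id : Plane →ₗ[ℝ] Plane))
        exact this
      · intro x hx y hy
        simp only
        rw [dist_smul₀, S3 _ hx _ hy, dist_smul₀, ← mul_assoc]
        simp only [norm_inv, Real.norm_natCast]
        rw [mul_inv_cancel₀ hk'.ne', one_mul]

theorem TwoPiece.scale {a b c : ℕ} (h : TwoPiece a b c) {k : ℕ} (hk : 0 < k) :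
    TwoPiece (k * a) (k * b) (k * c) := by
  obtain ⟨P, A, B, h1, h2, h3, rfl, h4, h5, h6, h7, h8⟩ := h
  refine ⟨_, _, _, h1.scl hk, ?_, ?_, scl_union k A B, scl_disjoint h4, h5.scl hk, ?_,
    h7.scl hk, ?_⟩
  · rw [card_scl, h2]; ring
  · have := h3.scl hk; push_cast; exact this
  · have := h6.scl hk; push_cast; exact this
  · have := h8.scl hk; push_cast; exact this

end Pool.Agent.Helper697.Rep
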