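import Mathlib
import Pool.Agent.Helper697.PythScale

namespace Pool.Agent.Helper697.Rep

/-- the cells of the net of the 3-cube -/
def pA : List (ℤ × ℤ) :=
  [(7, 0), (10, 9), (7, 1), (10, 8), (7, 2), (7, 10), (9, 8), (10, 7), (6, 10), (7, 3), (7, 9),
  (8, 8), (9, 7), (10, 6), (5, 10), (6, 3), (6, 9), (7, 4), (7, 8), (8, 7), (9, 6), (5, 3), (5,
  9), (6, 4), (6, 8), (7, 5), (7, 7), (8, 6), (5, 4), (5, 8), (6, 5), (6, 7), (7, 6), (2, 10),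
  (4, 8), (5, 5), (5, 7), (6, 6), (2, 9), (3, 8), (4, 7), (5, 6), (2, 8), (3, 7), (4, 6), (1,
  8), (2, 7), (3, 6), (0, 8), (1, 7), (2, 6), (0, 7), (1, 6), (0, 6)]

/-- the cells of the net of the 4-cube -/
def pB : List (ℤ × ℤ) :=
  [(22, 15), (24, 13), (21, 15), (22, 14), (23, 13), (24, 12), (20, 15), (21, 14), (22, 13),
  (23, 12), (20, 14), (21, 13), (22, 12), (19, 14), (20, 13), (21, 12), (19, 13), (20, 12),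
  (21, 11), (16, 15), (17, 14), (18, 13), (19, 12), (20, 11), (21, 10), (15, 15), (16, 14),
  (17, 13), (18, 12), (19, 11), (20, 10), (15, 14), (16, 13), (17, 8), (17, 12), (18, 9), (18,
  11), (19, 10), (15, 13), (16, 8), (16, 12), (17, 9), (17, 11), (18, 10), (12, 15), (14, 13),
  (15, 12), (16, 9), (16, 11), (17, 10), (9, 13), (11, 15), (12, 14), (13, 13), (14, 12), (15,
  11), (16, 10), (9, 12), (10, 13), (11, 14), (12, 13), (13, 12), (14, 11), (15, 10), (10, 12),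
  (11, 13), (12, 12), (13, 11), (14, 10), (10, 11), (11, 12), (12, 11), (13, 10), (14, 9), (10,
  10), (11, 11), (12, 10), (13, 9), (11, 10), (12, 9), (11, 9), (12, 8), (11, 8), (12, 7), (13,
  6), (11, 7), (12, 6), (11, 6), (11, 5), (10, 5), (11, 4), (9, 5), (10, 4), (8, 5), (9, 4),
  (8, 4)]

/-- all cells, in an order in which every cell has a neighbour later in the list -/
def pC : List (ℤ × ℤ) :=
  [(22, 15), (24, 13), (21, 15), (22, 14), (23, 13), (24, 12), (20, 15), (21, 14), (22, 13),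
  (23, 12), (20, 14), (21, 13), (22, 12), (19, 14), (20, 13), (21, 12), (19, 13), (20, 12),
  (21, 11), (16, 15), (17, 14), (18, 13), (19, 12), (20, 11), (21, 10), (15, 15), (16, 14),
  (17, 13), (18, 12), (19, 11), (20, 10), (15, 14), (16, 13), (17, 8), (17, 12), (18, 9), (18,
  11), (19, 10), (15, 13), (16, 8), (16, 12), (17, 9), (17, 11), (18, 10), (12, 15), (14, 13),
  (15, 12), (16, 9), (16, 11), (17, 10), (11, 15), (12, 14), (13, 13), (14, 12), (15, 11), (16,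
  10), (11, 14), (12, 13), (13, 12), (14, 11), (15, 10), (9, 13), (11, 13), (12, 12), (13, 11),
  (14, 10), (9, 12), (10, 13), (11, 12), (12, 11), (13, 10), (14, 9), (10, 12), (11, 11), (12,
  10), (13, 9), (10, 11), (11, 10), (12, 9), (10, 10), (11, 9), (12, 8), (7, 0), (10, 9), (11,
  4), (11, 8), (12, 7), (13, 6), (7, 1), (10, 4), (10, 8), (11, 5), (11, 7), (12, 6), (7, 2),
  (7, 10), (9, 4), (9, 8), (10, 5), (10, 7), (11, 6), (6, 10), (7, 3), (7, 9), (8, 4), (8, 8),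
  (9, 5), (9, 7), (10, 6), (5, 10), (6, 3), (6, 9), (7, 4), (7, 8), (8, 5), (8, 7), (9, 6), (5,
  3), (5, 9), (6, 4), (6, 8), (7, 5), (7, 7), (8, 6), (5, 4), (5, 8), (6, 5), (6, 7), (7, 6),
  (2, 10), (4, 8), (5, 5), (5, 7), (6, 6), (2, 9), (3, 8), (4, 7), (5, 6), (2, 8), (3, 7), (4,
  6), (1, 8), (2, 7), (3, 6), (0, 8), (1, 7), (2, 6), (0, 7), (1, 6), (0, 6)]

/-- images of the lattice points on the 3-cube -/
def tA : List ((ℤ × ℤ) × (ℤ × ℤ × ℤ)) :=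
  [((0, 6), (0, 2, 0)), ((0, 7), (1, 2, 0)), ((0, 8), (2, 2, 0)), ((0, 9), (3, 2, 0)), ((1, 6),
  (0, 1, 0)), ((1, 7), (1, 1, 0)), ((1, 8), (2, 1, 0)), ((1, 9), (3, 1, 0)), ((2, 6), (0, 0,
  0)), ((2, 7), (1, 0, 0)), ((2, 8), (2, 0, 0)), ((2, 9), (3, 0, 0)), ((2, 10), (3, 1, 0)),
  ((2, 11), (3, 2, 0)), ((3, 6), (0, 0, 1)), ((3, 7), (1, 0, 1)), ((3, 8), (2, 0, 1)), ((3, 9),
  (3, 0, 1)), ((3, 10), (3, 1, 1)), ((3, 11), (3, 2, 1)), ((4, 6), (0, 0, 2)), ((4, 7), (1, 0,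
  2)), ((4, 8), (2, 0, 2)), ((4, 9), (3, 0, 2)), ((5, 3), (0, 0, 0)), ((5, 4), (0, 0, 1)), ((5,
  5), (0, 0, 2)), ((5, 6), (0, 0, 3)), ((5, 7), (1, 0, 3)), ((5, 8), (2, 0, 3)), ((5, 9), (3,
  0, 3)), ((5, 10), (3, 0, 2)), ((5, 11), (3, 0, 1)), ((6, 3), (0, 1, 0)), ((6, 4), (0, 1, 1)),
  ((6, 5), (0, 1, 2)), ((6, 6), (0, 1, 3)), ((6, 7), (1, 1, 3)), ((6, 8), (2, 1, 3)), ((6, 9),
  (3, 1, 3)), ((6, 10), (3, 1, 2)), ((6, 11), (3, 1, 1)), ((7, 0), (3, 2, 0)), ((7, 1), (2, 2,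
  0)), ((7, 2), (1, 2, 0)), ((7, 3), (0, 2, 0)), ((7, 4), (0, 2, 1)), ((7, 5), (0, 2, 2)), ((7,
  6), (0, 2, 3)), ((7, 7), (1, 2, 3)), ((7, 8), (2, 2, 3)), ((7, 9), (3, 2, 3)), ((7, 10), (3,
  2, 2)), ((7, 11), (3, 2, 1)), ((8, 0), (3, 3, 0)), ((8, 1), (2, 3, 0)), ((8, 2), (1, 3, 0)),
  ((8, 3), (0, 3, 0)), ((8, 4), (0, 3, 1)), ((8, 5), (0, 3, 2)), ((8, 6), (0, 3, 3)), ((8, 7),
  (1, 3, 3)), ((8, 8), (2, 3, 3)), ((8, 9), (3, 3, 3)), ((8, 10), (3, 3, 2)), ((8, 11), (3, 3,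
  1)), ((9, 6), (0, 3, 2)), ((9, 7), (1, 3, 2)), ((9, 8), (2, 3, 2)), ((9, 9), (3, 3, 2)),
  ((10, 6), (0, 3, 1)), ((10, 7), (1, 3, 1)), ((10, 8), (2, 3, 1)), ((10, 9), (3, 3, 1)), ((10,
  10), (3, 2, 1)), ((11, 6), (0, 3, 0)), ((11, 7), (1, 3, 0)), ((11, 8), (2, 3, 0)), ((11, 9),
  (3, 3, 0)), ((11, 10), (3, 2, 0))]

/-- images of the lattice points on the 4-cube -/
def tB : List ((ℤ × ℤ) × (ℤ × ℤ × ℤ)) :=
  [((8, 4), (2, 1, 0)), ((8, 5), (1, 1, 0)), ((8, 6), (0, 1, 0)), ((9, 4), (2, 2, 0)), ((9, 5),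
  (1, 2, 0)), ((9, 6), (0, 2, 0)), ((9, 12), (2, 2, 0)), ((9, 13), (3, 2, 0)), ((9, 14), (4, 2,
  0)), ((10, 4), (2, 3, 0)), ((10, 5), (1, 3, 0)), ((10, 6), (0, 3, 0)), ((10, 10), (0, 1, 0)),
  ((10, 11), (1, 1, 0)), ((10, 12), (2, 1, 0)), ((10, 13), (3, 1, 0)), ((10, 14), (4, 1, 0)),
  ((11, 4), (2, 4, 0)), ((11, 5), (1, 4, 0)), ((11, 6), (0, 4, 0)), ((11, 7), (0, 3, 0)), ((11,
  8), (0, 2, 0)), ((11, 9), (0, 1, 0)), ((11, 10), (0, 0, 0)), ((11, 11), (1, 0, 0)), ((11,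
  12), (2, 0, 0)), ((11, 13), (3, 0, 0)), ((11, 14), (4, 0, 0)), ((11, 15), (4, 1, 0)), ((11,
  16), (4, 2, 0)), ((12, 4), (2, 4, 1)), ((12, 5), (1, 4, 1)), ((12, 6), (0, 4, 1)), ((12, 7),
  (0, 3, 1)), ((12, 8), (0, 2, 1)), ((12, 9), (0, 1, 1)), ((12, 10), (0, 0, 1)), ((12, 11), (1,
  0, 1)), ((12, 12), (2, 0, 1)), ((12, 13), (3, 0, 1)), ((12, 14), (4, 0, 1)), ((12, 15), (4,
  1, 1)), ((12, 16), (4, 2, 1)), ((13, 6), (0, 4, 2)), ((13, 7), (0, 3, 2)), ((13, 8), (0, 2,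
  2)), ((13, 9), (0, 1, 2)), ((13, 10), (0, 0, 2)), ((13, 11), (1, 0, 2)), ((13, 12), (2, 0,
  2)), ((13, 13), (3, 0, 2)), ((13, 14), (4, 0, 2)), ((13, 15), (4, 1, 2)), ((13, 16), (4, 2,
  2)), ((14, 6), (0, 4, 3)), ((14, 7), (0, 3, 3)), ((14, 9), (0, 1, 3)), ((14, 10), (0, 0, 3)),
  ((14, 11), (1, 0, 3)), ((14, 12), (2, 0, 3)), ((14, 13), (3, 0, 3)), ((14, 14), (4, 0, 3)),
  ((15, 9), (0, 1, 4)), ((15, 10), (0, 0, 4)), ((15, 11), (1, 0, 4)), ((15, 12), (2, 0, 4)),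
  ((15, 13), (3, 0, 4)), ((15, 14), (4, 0, 4)), ((15, 15), (4, 0, 3)), ((15, 16), (4, 0, 2)),
  ((16, 8), (0, 1, 2)), ((16, 9), (0, 1, 3)), ((16, 10), (0, 1, 4)), ((16, 11), (1, 1, 4)),
  ((16, 12), (2, 1, 4)), ((16, 13), (3, 1, 4)), ((16, 14), (4, 1, 4)), ((16, 15), (4, 1, 3)),
  ((16, 16), (4, 1, 2)), ((17, 8), (0, 2, 2)), ((17, 9), (0, 2, 3)), ((17, 10), (0, 2, 4)),
  ((17, 11), (1, 2, 4)), ((17, 12), (2, 2, 4)), ((17, 13), (3, 2, 4)), ((17, 14), (4, 2, 4)),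
  ((17, 15), (4, 2, 3)), ((17, 16), (4, 2, 2)), ((18, 8), (0, 3, 2)), ((18, 9), (0, 3, 3)),
  ((18, 10), (0, 3, 4)), ((18, 11), (1, 3, 4)), ((18, 12), (2, 3, 4)), ((18, 13), (3, 3, 4)),
  ((18, 14), (4, 3, 4)), ((18, 15), (4, 3, 3)), ((19, 9), (0, 4, 3)), ((19, 10), (0, 4, 4)),
  ((19, 11), (1, 4, 4)), ((19, 12), (2, 4, 4)), ((19, 13), (3, 4, 4)), ((19, 14), (4, 4, 4)),
  ((19, 15), (4, 3, 4)), ((20, 10), (0, 4, 3)), ((20, 11), (1, 4, 3)), ((20, 12), (2, 4, 3)),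
  ((20, 13), (3, 4, 3)), ((20, 14), (4, 4, 3)), ((20, 15), (4, 3, 3)), ((20, 16), (4, 2, 3)),
  ((21, 10), (0, 4, 2)), ((21, 11), (1, 4, 2)), ((21, 12), (2, 4, 2)), ((21, 13), (3, 4, 2)),
  ((21, 14), (4, 4, 2)), ((21, 15), (4, 3, 2)), ((21, 16), (4, 2, 2)), ((22, 10), (0, 4, 1)),
  ((22, 11), (1, 4, 1)), ((22, 12), (2, 4, 1)), ((22, 13), (3, 4, 1)), ((22, 14), (4, 4, 1)),
  ((22, 15), (4, 3, 1)), ((22, 16), (4, 2, 1)), ((23, 12), (2, 4, 0)), ((23, 13), (3, 4, 0)),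
  ((23, 14), (4, 4, 0)), ((23, 15), (4, 3, 0)), ((23, 16), (4, 2, 0)), ((24, 12), (2, 3, 0)),
  ((24, 13), (3, 3, 0)), ((24, 14), (4, 3, 0)), ((25, 12), (2, 2, 0)), ((25, 13), (3, 2, 0)),
  ((25, 14), (4, 2, 0))]

/-- images of the lattice points on the 5-cube -/
def tC : List ((ℤ × ℤ) × (ℤ × ℤ × ℤ)) :=
  [((0, 6), (2, 2, 0)), ((0, 7), (2, 3, 0)), ((0, 8), (2, 4, 0)), ((0, 9), (2, 5, 0)), ((1, 6),
  (3, 2, 0)), ((1, 7), (3, 3, 0)), ((1, 8), (3, 4, 0)), ((1, 9), (3, 5, 0)), ((2, 6), (4, 2,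
  0)), ((2, 7), (4, 3, 0)), ((2, 8), (4, 4, 0)), ((2, 9), (4, 5, 0)), ((2, 10), (4, 5, 1)),
  ((2, 11), (4, 5, 2)), ((3, 6), (5, 2, 0)), ((3, 7), (5, 3, 0)), ((3, 8), (5, 4, 0)), ((3, 9),
  (5, 5, 0)), ((3, 10), (5, 5, 1)), ((3, 11), (5, 5, 2)), ((4, 6), (5, 2, 1)), ((4, 7), (5, 3,
  1)), ((4, 8), (5, 4, 1)), ((4, 9), (5, 5, 1)), ((5, 3), (4, 0, 2)), ((5, 4), (5, 0, 2)), ((5,
  5), (5, 1, 2)), ((5, 6), (5, 2, 2)), ((5, 7), (5, 3, 2)), ((5, 8), (5, 4, 2)), ((5, 9), (5,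
  5, 2)), ((5, 10), (4, 5, 2)), ((5, 11), (3, 5, 2)), ((6, 3), (4, 0, 3)), ((6, 4), (5, 0, 3)),
  ((6, 5), (5, 1, 3)), ((6, 6), (5, 2, 3)), ((6, 7), (5, 3, 3)), ((6, 8), (5, 4, 3)), ((6, 9),
  (5, 5, 3)), ((6, 10), (4, 5, 3)), ((6, 11), (3, 5, 3)), ((7, 0), (1, 0, 4)), ((7, 1), (2, 0,
  4)), ((7, 2), (3, 0, 4)), ((7, 3), (4, 0, 4)), ((7, 4), (5, 0, 4)), ((7, 5), (5, 1, 4)), ((7,
  6), (5, 2, 4)), ((7, 7), (5, 3, 4)), ((7, 8), (5, 4, 4)), ((7, 9), (5, 5, 4)), ((7, 10), (4,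
  5, 4)), ((7, 11), (3, 5, 4)), ((8, 0), (1, 0, 5)), ((8, 1), (2, 0, 5)), ((8, 2), (3, 0, 5)),
  ((8, 3), (4, 0, 5)), ((8, 4), (5, 0, 5)), ((8, 5), (5, 1, 5)), ((8, 6), (5, 2, 5)), ((8, 7),
  (5, 3, 5)), ((8, 8), (5, 4, 5)), ((8, 9), (5, 5, 5)), ((8, 10), (4, 5, 5)), ((8, 11), (3, 5,
  5)), ((9, 4), (4, 0, 5)), ((9, 5), (4, 1, 5)), ((9, 6), (4, 2, 5)), ((9, 7), (4, 3, 5)), ((9,
  8), (4, 4, 5)), ((9, 9), (4, 5, 5)), ((9, 12), (4, 5, 2)), ((9, 13), (4, 5, 1)), ((9, 14),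
  (4, 5, 0)), ((10, 4), (3, 0, 5)), ((10, 5), (3, 1, 5)), ((10, 6), (3, 2, 5)), ((10, 7), (3,
  3, 5)), ((10, 8), (3, 4, 5)), ((10, 9), (3, 5, 5)), ((10, 10), (3, 5, 4)), ((10, 11), (3, 5,
  3)), ((10, 12), (3, 5, 2)), ((10, 13), (3, 5, 1)), ((10, 14), (3, 5, 0)), ((11, 4), (2, 0,
  5)), ((11, 5), (2, 1, 5)), ((11, 6), (2, 2, 5)), ((11, 7), (2, 3, 5)), ((11, 8), (2, 4, 5)),
  ((11, 9), (2, 5, 5)), ((11, 10), (2, 5, 4)), ((11, 11), (2, 5, 3)), ((11, 12), (2, 5, 2)),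
  ((11, 13), (2, 5, 1)), ((11, 14), (2, 5, 0)), ((11, 15), (2, 4, 0)), ((11, 16), (2, 3, 0)),
  ((12, 4), (1, 0, 5)), ((12, 5), (1, 1, 5)), ((12, 6), (1, 2, 5)), ((12, 7), (1, 3, 5)), ((12,
  8), (1, 4, 5)), ((12, 9), (1, 5, 5)), ((12, 10), (1, 5, 4)), ((12, 11), (1, 5, 3)), ((12,
  12), (1, 5, 2)), ((12, 13), (1, 5, 1)), ((12, 14), (1, 5, 0)), ((12, 15), (1, 4, 0)), ((12,
  16), (1, 3, 0)), ((13, 6), (0, 2, 5)), ((13, 7), (0, 3, 5)), ((13, 8), (0, 4, 5)), ((13, 9),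
  (0, 5, 5)), ((13, 10), (0, 5, 4)), ((13, 11), (0, 5, 3)), ((13, 12), (0, 5, 2)), ((13, 13),
  (0, 5, 1)), ((13, 14), (0, 5, 0)), ((13, 15), (0, 4, 0)), ((13, 16), (0, 3, 0)), ((14, 6),
  (0, 2, 4)), ((14, 7), (0, 3, 4)), ((14, 9), (0, 4, 5)), ((14, 10), (0, 4, 4)), ((14, 11), (0,
  4, 3)), ((14, 12), (0, 4, 2)), ((14, 13), (0, 4, 1)), ((14, 14), (0, 4, 0)), ((15, 9), (0, 3,
  5)), ((15, 10), (0, 3, 4)), ((15, 11), (0, 3, 3)), ((15, 12), (0, 3, 2)), ((15, 13), (0, 3,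
  1)), ((15, 14), (0, 3, 0)), ((15, 15), (1, 3, 0)), ((15, 16), (2, 3, 0)), ((16, 8), (1, 2,
  5)), ((16, 9), (0, 2, 5)), ((16, 10), (0, 2, 4)), ((16, 11), (0, 2, 3)), ((16, 12), (0, 2,
  2)), ((16, 13), (0, 2, 1)), ((16, 14), (0, 2, 0)), ((16, 15), (1, 2, 0)), ((16, 16), (2, 2,
  0)), ((17, 8), (1, 1, 5)), ((17, 9), (0, 1, 5)), ((17, 10), (0, 1, 4)), ((17, 11), (0, 1,
  3)), ((17, 12), (0, 1, 2)), ((17, 13), (0, 1, 1)), ((17, 14), (0, 1, 0)), ((17, 15), (1, 1,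
  0)), ((17, 16), (2, 1, 0)), ((18, 8), (1, 0, 5)), ((18, 9), (0, 0, 5)), ((18, 10), (0, 0,
  4)), ((18, 11), (0, 0, 3)), ((18, 12), (0, 0, 2)), ((18, 13), (0, 0, 1)), ((18, 14), (0, 0,
  0)), ((18, 15), (1, 0, 0)), ((19, 9), (1, 0, 5)), ((19, 10), (1, 0, 4)), ((19, 11), (1, 0,
  3)), ((19, 12), (1, 0, 2)), ((19, 13), (1, 0, 1)), ((19, 14), (1, 0, 0)), ((19, 15), (1, 1,
  0)), ((20, 10), (2, 0, 4)), ((20, 11), (2, 0, 3)), ((20, 12), (2, 0, 2)), ((20, 13), (2, 0,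
  1)), ((20, 14), (2, 0, 0)), ((20, 15), (2, 1, 0)), ((20, 16), (2, 2, 0)), ((21, 10), (3, 0,
  4)), ((21, 11), (3, 0, 3)), ((21, 12), (3, 0, 2)), ((21, 13), (3, 0, 1)), ((21, 14), (3, 0,
  0)), ((21, 15), (3, 1, 0)), ((21, 16), (3, 2, 0)), ((22, 10), (4, 0, 4)), ((22, 11), (4, 0,
  3)), ((22, 12), (4, 0, 2)), ((22, 13), (4, 0, 1)), ((22, 14), (4, 0, 0)), ((22, 15), (4, 1,
  0)), ((22, 16), (4, 2, 0)), ((23, 12), (5, 0, 2)), ((23, 13), (5, 0, 1)), ((23, 14), (5, 0,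
  0)), ((23, 15), (5, 1, 0)), ((23, 16), (5, 2, 0)), ((24, 12), (5, 1, 2)), ((24, 13), (5, 1,
  1)), ((24, 14), (5, 1, 0)), ((25, 12), (5, 2, 2)), ((25, 13), (5, 2, 1)), ((25, 14), (5, 2,
  0))]

lemma gridA : GridFold pA.toFinset 3 (tbl tA) :=
  gridFold_of_list pA 3 (tbl tA) (by norm_num) (by decide +kernel) (by decide +kernel)
    (by decide +kernel)

lemma gridB : GridFold pB.toFinset 4 (tbl tB) :=
  gridFold_of_list pB 4 (tbl tB) (by norm_num) (by decide +kernel) (by decide +kernel)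
    (by decide +kernel)

lemma gridC : GridFold pC.toFinset 5 (tbl tC) :=
  gridFold_of_list pC 5 (tbl tC) (by norm_num) (by decide +kernel) (by decide +kernel)
    (by decide +kernel)

theorem twoPiece_345 : TwoPiece 3 4 5 := by
  refine ⟨pC.toFinset, pA.toFinset, pB.toFinset, polyomino_of_list pC (by decide +kernel),
    by decide +kernel, ?_, by decide +kernel, by decide +kernel,
    polyomino_of_list pA (by decide +kernel), ?_, polyomino_of_list pB (by decide +kernel), ?_⟩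
  · have := gridC.foldsOnto; exact_mod_cast this
  · have := gridA.foldsOnto; exact_mod_cast this
  · have := gridB.foldsOnto; exact_mod_cast this

end Pool.Agent.Helper697.Rep
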