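import Mathlib
import Pool.Agent.Helper697.RepData

open Set

namespace Pool.Agent.Helper697.Rep

/-! ### Unions of blocks -/

/-- the block containing a cell -/
def blk (p : ℤ × ℤ) : ℤ × ℤ :=
  if p.1 % 6 = 1 ∧ p.2 % 6 = 0 then (p.1 / 6, p.2 / 6 - 1)
  else if p.1 % 6 = 4 ∧ p.2 % 6 = 5 then (p.1 / 6, p.2 / 6 + 1)
  else if p.1 % 6 = 0 ∧ p.2 % 6 = 4 then (p.1 / 6 - 1, p.2 / 6)
  else if p.1 % 6 = 5 ∧ p.2 % 6 = 1 then (p.1 / 6 + 1, p.2 / 6)
  else (p.1 / 6, p.2 / 6)

/-- six times a vector -/
def six (c : ℤ × ℤ) : ℤ × ℤ := (6 * c.1, 6 * c.2)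

lemma blk_sub (p c : ℤ × ℤ) : blk (p - six c) = blk p - c := by
  have e1 : (p.1 - 6 * c.1) % 6 = p.1 % 6 := by omega
  have e2 : (p.2 - 6 * c.2) % 6 = p.2 % 6 := by omega
  have e3 : (p.1 - 6 * c.1) / 6 = p.1 / 6 - c.1 := by omega
  have e4 : (p.2 - 6 * c.2) / 6 = p.2 / 6 - c.2 := by omega
  unfold blk six
  simp only [Prod.fst_sub, Prod.snd_sub, e1, e2, e3, e4]
  split_ifs <;> ext <;> simp <;> ring

def blkB : Bool :=
  (List.range 18).all fun x => (List.range 18).all fun y =>
    (!decide (blk ((x : ℤ) - 6, (y : ℤ) - 6) = (0, 0))) || decide (((x : ℤ) - 6, (y : ℤ) - 6) ∈ X)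

lemma mem_X (p : ℤ × ℤ) : p ∈ X ↔ blk p = (0, 0) := by
  constructor
  · have h : ∀ p ∈ X, blk p = (0, 0) := by decide +kernel
    exact h p
  · intro h
    have hb : blkB = true := by decide +kernel
    have h1 : -6 ≤ p.1 ∧ p.1 < 12 ∧ -6 ≤ p.2 ∧ p.2 < 12 := by
      unfold blk at h
      split_ifs at h <;> simp only [Prod.mk.injEq] at h <;> omega
    simp only [blkB, List.all_eq_true, List.mem_range, Bool.or_eq_true, Bool.not_eq_true',
      decide_eq_false_iff_not, decide_eq_true_eq] at hb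
    have h2 := hb (p.1 + 6).toNat (by omega) (p.2 + 6).toNat (by omega)
    have e1 : (((p.1 + 6).toNat : ℤ)) - 6 = p.1 := by omega
    have e2 : (((p.2 + 6).toNat : ℤ)) - 6 = p.2 := by omega
    rw [e1, e2] at h2
    exact h2.resolve_left (fun hn => hn h)

lemma mem_shift_X (c p : ℤ × ℤ) : p ∈ shift (six c) X ↔ blk p = c := by
  rw [mem_shift, mem_X, blk_sub]
  constructor
  · intro h; exact sub_eq_zero.mp h
  · intro h; rw [h, sub_self]; rfl

def blocks (S : Finset (ℤ × ℤ)) : Finset (ℤ × ℤ) := S.biUnion (fun c => shift (six c) X)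

lemma mem_blocks {S : Finset (ℤ × ℤ)} {p : ℤ × ℤ} : p ∈ blocks S ↔ blk p ∈ S := by
  simp only [blocks, Finset.mem_biUnion, mem_shift_X]
  constructor
  · rintro ⟨c, hc, rfl⟩; exact hc
  · intro h; exact ⟨_, h, rfl⟩

lemma card_blocks (S : Finset (ℤ × ℤ)) : (blocks S).card = 36 * S.card := by
  unfold blocks
  rw [Finset.card_biUnion]
  · have : ∀ c ∈ S, (shift (six c) X).card = 36 := by
      intro c _
      rw [shift, Finset.card_map]
      decide +kernel
    rw [Finset.sum_congr rfl this]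
    simp [mul_comm]
  · intro c _ d _ hcd
    change Disjoint (shift (six c) X) (shift (six d) X)
    rw [Finset.disjoint_left]
    intro p hp hp'
    rw [mem_shift_X] at hp hp'
    exact hcd (hp.symm.trans hp')

lemma blocks_insert (c : ℤ × ℤ) (S : Finset (ℤ × ℤ)) :
    blocks (insert c S) = shift (six c) X ∪ blocks S := by
  ext p
  simp only [Finset.mem_union, mem_blocks, mem_shift_X, Finset.mem_insert]

lemma blocks_union (S T : Finset (ℤ × ℤ)) : blocks (S ∪ T) = blocks S ∪ blocks T := by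
  ext p
  simp only [Finset.mem_union, mem_blocks]

lemma blocks_disjoint {S T : Finset (ℤ × ℤ)} (h : Disjoint S T) :
    Disjoint (blocks S) (blocks T) := by
  rw [Finset.disjoint_left] at *
  intro p hp hp'
  rw [mem_blocks] at hp hp'
  exact h hp hp'

lemma blocks_shift (v : ℤ × ℤ) (S : Finset (ℤ × ℤ)) :
    blocks (shift v S) = shift (six v) (blocks S) := by
  ext p
  rw [mem_blocks, mem_shift, mem_shift, mem_blocks, blk_sub]

lemma part_blocks (S : Finset (ℤ × ℤ)) :
    ∀ a ≤ S.card, Part (6 * S.card - 3 * a) (blocks S) := by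
  induction S using Finset.induction_on with
  | empty =>
    intro a ha
    have : blocks ∅ = ∅ := by simp [blocks]
    rw [this]
    simpa using Part.zero
  | insert c S hc ih =>
    intro a ha
    rw [Finset.card_insert_of_notMem hc] at ha ⊢
    rw [blocks_insert]
    have hd : Disjoint (shift (six c) X) (blocks S) := by
      rw [Finset.disjoint_left]
      intro p hp hp'
      rw [mem_shift_X] at hp
      rw [mem_blocks, hp] at hp'
      exact hc hp'
    by_cases h : a ≤ S.card
    · have := (part_six.shift (six c)).union (ih a h) hd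
      have e : 6 * (S.card + 1) - 3 * a = 6 + (6 * S.card - 3 * a) := by omega
      rw [e]; exact this
    · have := (part_three.shift (six c)).union (ih S.card le_rfl) hd
      have e : 6 * (S.card + 1) - 3 * a = 3 + (6 * S.card - 3 * S.card) := by omega
      rw [e]; exact this

end Pool.Agent.Helper697.Rep
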