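import Mathlib
import Pool.Agent.Helper697.RepBlock

open Set

namespace Pool.Agent.Helper697.Rep

/-! ### The folding of the scaled cross -/

def cl (l u : ℤ) : ℤ := max 0 (min u l)

def ovf (l u v : ℤ) : ℤ := max 0 (-u) + max 0 (u - l) + (max 0 (-v) + max 0 (v - l))

def s0 (l u v : ℤ) : ℤ × ℤ × ℤ := (cl l u, ovf l u v, cl l v)
def s1 (l u v : ℤ) : ℤ × ℤ × ℤ := (l - ovf l u v, cl l u, cl l v)
def s2 (l u v : ℤ) : ℤ × ℤ × ℤ := (l - cl l u, l - ovf l u v, cl l v)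
def s3 (l u v : ℤ) : ℤ × ℤ × ℤ := (ovf l u v, l - cl l u, cl l v)
def s4 (l u v : ℤ) : ℤ × ℤ × ℤ := (l - cl l v, cl l u, l - ovf l u v)
def s5 (l u v : ℤ) : ℤ × ℤ × ℤ := (cl l v, cl l u, ovf l u v)

def Fm (l x y : ℤ) : ℤ × ℤ × ℤ :=
  if 0 ≤ y ∧ y ≤ l then
    if x ≤ l then s0 l x y else if x ≤ 2 * l then s1 l (x - l) y
    else if x ≤ 3 * l then s2 l (x - 2 * l) y else s3 l (x - 3 * l) y
  else if l < y then
    if x ≤ l - 2 then s0 l x y else if x ≤ 2 * l ∨ l + 2 ≤ y then s4 l (x - l) (y - l)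
    else if x ≤ 3 * l then s2 l (x - 2 * l) y else s3 l (x - 3 * l) y
  else
    if y = -1 ∧ x ≤ l - 1 then s0 l x y
    else if y ≤ -2 ∨ x ≤ 2 * l + 1 then s5 l (x - l) (y + l)
    else if x ≤ 3 * l then s2 l (x - 2 * l) y else s3 l (x - 3 * l) y

section eval

variable {l x y : ℤ}

lemma trip {a b c a' b' c' : ℤ} (h1 : a = a') (h2 : b = b') (h3 : c = c') :
    (a, b, c) = (a', b', c') := by rw [h1, h2, h3]

lemma cl_mid {u : ℤ} (h0 : 0 ≤ u) (h1 : u ≤ l) : cl l u = u := by unfold cl; omega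
lemma cl_lo {u : ℤ} (h0 : u ≤ 0) (h1 : 0 ≤ l) : cl l u = 0 := by unfold cl; omega
lemma cl_hi {u : ℤ} (h0 : l ≤ u) (h1 : 0 ≤ l) : cl l u = l := by unfold cl; omega

lemma ov_mid {u v : ℤ} (h0 : 0 ≤ u) (h1 : u ≤ l) (h2 : 0 ≤ v) (h3 : v ≤ l) : ovf l u v = 0 := by
  unfold ovf; omega
lemma ov_one {u v : ℤ} (hl : 6 ≤ l) (h : (u = -1 ∨ u = l + 1) ∧ 0 ≤ v ∧ v ≤ l ∨
    (v = -1 ∨ v = l + 1) ∧ 0 ≤ u ∧ u ≤ l) : ovf l u v = 1 := by
  unfold ovf; omega

lemma E0 (hl : 6 ≤ l) (h1 : 0 ≤ x) (h2 : x ≤ l) (h3 : 0 ≤ y) (h4 : y ≤ l) :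
    Fm l x y = (x, 0, y) := by
  rw [Fm, if_pos ⟨h3, h4⟩, if_pos h2, s0, cl_mid h1 h2, cl_mid h3 h4, ov_mid h1 h2 h3 h4]

lemma E1 (hl : 6 ≤ l) (h1 : l ≤ x) (h2 : x ≤ 2 * l) (h3 : 0 ≤ y) (h4 : y ≤ l) :
    Fm l x y = (l, x - l, y) := by
  rcases h1.eq_or_lt with rfl | h1
  · rw [E0 hl (by omega) le_rfl h3 h4, sub_self]
  · rw [Fm, if_pos ⟨h3, h4⟩, if_neg (by omega), if_pos h2, s1, cl_mid (by omega) (by omega),
      cl_mid h3 h4, ov_mid (by omega) (by omega) h3 h4, sub_zero]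

lemma E2 (hl : 6 ≤ l) (h1 : 2 * l ≤ x) (h2 : x ≤ 3 * l) (h3 : 0 ≤ y) (h4 : y ≤ l) :
    Fm l x y = (3 * l - x, l, y) := by
  rcases h1.eq_or_lt with rfl | h1
  · rw [E1 hl (by omega) le_rfl h3 h4]; exact trip (by omega) (by omega) (by omega)
  · rw [Fm, if_pos ⟨h3, h4⟩, if_neg (by omega), if_neg (by omega), if_pos h2, s2,
      cl_mid (by omega) (by omega),
      cl_mid h3 h4, ov_mid (by omega) (by omega) h3 h4]; exact trip (by omega) (by omega) (by omega)

lemma E3 (hl : 6 ≤ l) (h1 : 3 * l ≤ x) (h2 : x ≤ 4 * l) (h3 : 0 ≤ y) (h4 : y ≤ l) :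
    Fm l x y = (0, 4 * l - x, y) := by
  rcases h1.eq_or_lt with rfl | h1
  · rw [E2 hl (by omega) le_rfl h3 h4]; exact trip (by omega) (by omega) (by omega)
  · rw [Fm, if_pos ⟨h3, h4⟩, if_neg (by omega), if_neg (by omega), if_neg (by omega), s3,
      cl_mid (by omega) (by omega),
      cl_mid h3 h4, ov_mid (by omega) (by omega) h3 h4]; exact trip (by omega) (by omega) (by omega)

lemma E4 (hl : 6 ≤ l) (h1 : l ≤ x) (h2 : x ≤ 2 * l) (h3 : l ≤ y) (h4 : y ≤ 2 * l) :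
    Fm l x y = (2 * l - y, x - l, l) := by
  rcases h3.eq_or_lt with rfl | h3
  · rw [E1 hl h1 h2 (by omega) le_rfl]; exact trip (by omega) (by omega) (by omega)
  · rw [Fm, if_neg (by omega), if_pos h3, if_neg (by omega), if_pos (by omega), s4,
      cl_mid (by omega) (by omega), cl_mid (by omega) (by omega),
      ov_mid (by omega) (by omega) (by omega) (by omega)]; exact trip (by omega) (by omega) (by omega)

lemma E5 (hl : 6 ≤ l) (h1 : l ≤ x) (h2 : x ≤ 2 * l) (h3 : -l ≤ y) (h4 : y ≤ 0) :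
    Fm l x y = (y + l, x - l, 0) := by
  rcases h4.eq_or_lt with rfl | h4
  · rw [E1 hl h1 h2 le_rfl (by omega)]; exact trip (by omega) (by omega) (by omega)
  · rw [Fm, if_neg (by omega), if_neg (by omega), if_neg (by omega), if_pos (by omega), s5,
      cl_mid (by omega) (by omega), cl_mid (by omega) (by omega),
      ov_mid (by omega) (by omega) (by omega) (by omega)]

lemma O0L (hl : 6 ≤ l) (h3 : 0 ≤ y) (h4 : y ≤ l) : Fm l (-1) y = (0, 1, y) := by
  rw [Fm, if_pos ⟨h3, h4⟩, if_pos (by omega), s0, cl_lo (by omega) (by omega), cl_mid h3 h4,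
    ov_one hl (by omega)]

lemma O0T (hl : 6 ≤ l) (h3 : 0 ≤ x) (h4 : x ≤ l - 2) : Fm l x (l + 1) = (x, 1, l) := by
  rw [Fm, if_neg (by omega), if_pos (by omega), if_pos h4, s0, cl_mid h3 (by omega),
    cl_hi (by omega) (by omega), ov_one hl (by omega)]

lemma O0B (hl : 6 ≤ l) (h3 : 0 ≤ x) (h4 : x ≤ l - 1) : Fm l x (-1) = (x, 1, 0) := by
  rw [Fm, if_neg (by omega), if_neg (by omega), if_pos (by omega), s0, cl_mid h3 (by omega),
    cl_lo (by omega) (by omega), ov_one hl (by omega)]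

lemma O2T (hl : 6 ≤ l) (h3 : 2 * l + 1 ≤ x) (h4 : x ≤ 3 * l) :
    Fm l x (l + 1) = (3 * l - x, l - 1, l) := by
  rw [Fm, if_neg (by omega), if_pos (by omega), if_neg (by omega), if_neg (by omega), if_pos h4,
    s2, cl_mid (by omega) (by omega), cl_hi (by omega) (by omega), ov_one hl (by omega)]
  exact trip (by omega) (by omega) (by omega)

lemma O2B (hl : 6 ≤ l) (h3 : 2 * l + 2 ≤ x) (h4 : x ≤ 3 * l) :
    Fm l x (-1) = (3 * l - x, l - 1, 0) := by
  rw [Fm, if_neg (by omega), if_neg (by omega), if_neg (by omega), if_neg (by omega), if_pos h4,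
    s2, cl_mid (by omega) (by omega), cl_lo (by omega) (by omega), ov_one hl (by omega)]
  exact trip (by omega) (by omega) (by omega)

lemma O3T (hl : 6 ≤ l) (h3 : 3 * l + 1 ≤ x) (h4 : x ≤ 4 * l) :
    Fm l x (l + 1) = (1, 4 * l - x, l) := by
  rw [Fm, if_neg (by omega), if_pos (by omega), if_neg (by omega), if_neg (by omega),
    if_neg (by omega), s3, cl_mid (by omega) (by omega), cl_hi (by omega) (by omega),
    ov_one hl (by omega)]
  exact trip (by omega) (by omega) (by omega)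

lemma O3B (hl : 6 ≤ l) (h3 : 3 * l + 1 ≤ x) (h4 : x ≤ 4 * l) :
    Fm l x (-1) = (1, 4 * l - x, 0) := by
  rw [Fm, if_neg (by omega), if_neg (by omega), if_neg (by omega), if_neg (by omega),
    if_neg (by omega), s3, cl_mid (by omega) (by omega), cl_lo (by omega) (by omega),
    ov_one hl (by omega)]
  exact trip (by omega) (by omega) (by omega)

lemma O3R (hl : 6 ≤ l) (h3 : 0 ≤ y) (h4 : y ≤ l) : Fm l (4 * l + 1) y = (1, 0, y) := by
  rw [Fm, if_pos ⟨h3, h4⟩, if_neg (by omega), if_neg (by omega), if_neg (by omega), s3,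
    cl_hi (by omega) (by omega), cl_mid h3 h4, ov_one hl (by omega), sub_self]

lemma O4L (hl : 6 ≤ l) (h3 : l + 1 ≤ y) (h4 : y ≤ 2 * l) :
    Fm l (l - 1) y = (2 * l - y, 0, l - 1) := by
  rw [Fm, if_neg (by omega), if_pos (by omega), if_neg (by omega), if_pos (by omega), s4,
    cl_mid (by omega) (by omega), cl_lo (by omega) (by omega), ov_one hl (by omega)]
  exact trip (by omega) (by omega) (by omega)

lemma O4R (hl : 6 ≤ l) (h3 : l + 2 ≤ y) (h4 : y ≤ 2 * l) :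
    Fm l (2 * l + 1) y = (2 * l - y, l, l - 1) := by
  rw [Fm, if_neg (by omega), if_pos (by omega), if_neg (by omega), if_pos (by omega), s4,
    cl_mid (by omega) (by omega), cl_hi (by omega) (by omega), ov_one hl (by omega)]
  exact trip (by omega) (by omega) (by omega)

lemma O4T (hl : 6 ≤ l) (h3 : l ≤ x) (h4 : x ≤ 2 * l) :
    Fm l x (2 * l + 1) = (0, x - l, l - 1) := by
  rw [Fm, if_neg (by omega), if_pos (by omega), if_neg (by omega), if_pos (by omega), s4,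
    cl_hi (by omega) (by omega), cl_mid (by omega) (by omega), ov_one hl (by omega)]
  exact trip (by omega) (by omega) (by omega)

lemma O5L (hl : 6 ≤ l) (h3 : -l ≤ y) (h4 : y ≤ -2) :
    Fm l (l - 1) y = (y + l, 0, 1) := by
  rw [Fm, if_neg (by omega), if_neg (by omega), if_neg (by omega), if_pos (by omega), s5,
    cl_mid (by omega) (by omega), cl_lo (by omega) (by omega), ov_one hl (by omega)]

lemma O5R (hl : 6 ≤ l) (h3 : -l ≤ y) (h4 : y ≤ -1) :
    Fm l (2 * l + 1) y = (y + l, l, 1) := by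
  rw [Fm, if_neg (by omega), if_neg (by omega), if_neg (by omega), if_pos (by omega), s5,
    cl_mid (by omega) (by omega), cl_hi (by omega) (by omega), ov_one hl (by omega)]

lemma O5B (hl : 6 ≤ l) (h3 : l ≤ x) (h4 : x ≤ 2 * l) :
    Fm l x (-l - 1) = (0, x - l, 1) := by
  rw [Fm, if_neg (by omega), if_neg (by omega), if_neg (by omega), if_pos (by omega), s5,
    cl_lo (by omega) (by omega), cl_mid (by omega) (by omega), ov_one hl (by omega)]

end eval

end Pool.Agent.Helper697.Rep
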