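import Mathlib
import Pool.Agent.Helper697.RepCube

open Set

namespace Pool.Agent.Helper697.Rep

/-- the cell `(x, y)` is mapped to the surface square with doubled centre `m` -/
def Cell (l x y : ℤ) (m : ℤ × ℤ × ℤ) : Prop :=
  GoodSq l (Fm l x y) (Fm l (x + 1) y) (Fm l x (y + 1)) (Fm l (x + 1) (y + 1)) ∧
    Fm l x y + Fm l (x + 1) (y + 1) = m

lemma cell_mk {l x y a b c m1 m2 m3 : ℤ} (u1 u2 u3 v1 v2 v3 : ℤ)
    (hA : Fm l x y = (a, b, c)) (hB : Fm l (x + 1) y = (a + u1, b + u2, c + u3))
    (hC : Fm l x (y + 1) = (a + v1, b + v2, c + v3))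
    (hD : Fm l (x + 1) (y + 1) = (a + u1 + v1, b + u2 + v2, c + u3 + v3))
    (h1 : u1 * u1 + u2 * u2 + u3 * u3 = 1) (h2 : v1 * v1 + v2 * v2 + v3 * v3 = 1)
    (h3 : u1 * v1 + u2 * v2 + u3 * v3 = 0)
    (r1 : 0 ≤ a ∧ a ≤ l ∧ 0 ≤ b ∧ b ≤ l ∧ 0 ≤ c ∧ c ≤ l)
    (r2 : 0 ≤ a + u1 ∧ a + u1 ≤ l ∧ 0 ≤ b + u2 ∧ b + u2 ≤ l ∧ 0 ≤ c + u3 ∧ c + u3 ≤ l)
    (r3 : 0 ≤ a + v1 ∧ a + v1 ≤ l ∧ 0 ≤ b + v2 ∧ b + v2 ≤ l ∧ 0 ≤ c + v3 ∧ c + v3 ≤ l)
    (r4 : 0 ≤ a + u1 + v1 ∧ a + u1 + v1 ≤ l ∧ 0 ≤ b + u2 + v2 ∧ b + u2 + v2 ≤ l ∧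
      0 ≤ c + u3 + v3 ∧ c + u3 + v3 ≤ l)
    (hf : (u1 = 0 ∧ v1 = 0 ∧ (a = 0 ∨ a = l)) ∨ (u2 = 0 ∧ v2 = 0 ∧ (b = 0 ∨ b = l)) ∨
      (u3 = 0 ∧ v3 = 0 ∧ (c = 0 ∨ c = l)))
    (k1 : 2 * a + u1 + v1 = m1) (k2 : 2 * b + u2 + v2 = m2) (k3 : 2 * c + u3 + v3 = m3) :
    Cell l x y (m1, m2, m3) := by
  unfold Cell
  rw [hA, hB, hC, hD]
  refine ⟨⟨by simp only; ring, by simp only; ring, by simp only; ring, by simp only; linarith,
    by simp only; linarith, by simp only; linarith, r1, r2, r3, r4, ?_⟩, ?_⟩
  · simp only; omega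
  · rw [Prod.mk_add_mk, Prod.mk_add_mk]
    exact trip (by omega) (by omega) (by omega)

section cells

variable {l x y : ℤ}

lemma cE0 (hl : 6 ≤ l) (h0 : 0 ≤ x) (h1 : x < l) (h2 : 0 ≤ y) (h3 : y < l) :
    Cell l x y (2 * (x) + (1), 2 * (0) + (0), 2 * (y) + (1)) :=
  cell_mk (a := x) (b := 0) (c := y) 1 0 0 0 0 1
    ((E0 hl (by omega) (by omega) (by omega) (by omega)).trans (trip (by omega) (by omega) (by omega)))
    ((E0 hl (by omega) (by omega) (by omega) (by omega)).trans (trip (by omega) (by omega) (by omega)))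
    ((E0 hl (by omega) (by omega) (by omega) (by omega)).trans (trip (by omega) (by omega) (by omega)))
    ((E0 hl (by omega) (by omega) (by omega) (by omega)).trans (trip (by omega) (by omega) (by omega)))
    (by norm_num) (by norm_num) (by norm_num) (by omega) (by omega) (by omega) (by omega)
    (Or.inr (Or.inl ⟨rfl, rfl, by omega⟩)) (by omega) (by omega) (by omega)

lemma cE1 (hl : 6 ≤ l) (h0 : l ≤ x) (h1 : x < 2 * l) (h2 : 0 ≤ y) (h3 : y < l) :
    Cell l x y (2 * (l) + (0), 2 * (x - l) + (1), 2 * (y) + (1)) :=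
  cell_mk (a := l) (b := x - l) (c := y) 0 1 0 0 0 1
    ((E1 hl (by omega) (by omega) (by omega) (by omega)).trans (trip (by omega) (by omega) (by omega)))
    ((E1 hl (by omega) (by omega) (by omega) (by omega)).trans (trip (by omega) (by omega) (by omega)))
    ((E1 hl (by omega) (by omega) (by omega) (by omega)).trans (trip (by omega) (by omega) (by omega)))
    ((E1 hl (by omega) (by omega) (by omega) (by omega)).trans (trip (by omega) (by omega) (by omega)))
    (by norm_num) (by norm_num) (by norm_num) (by omega) (by omega) (by omega) (by omega)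
    (Or.inl ⟨rfl, rfl, by omega⟩) (by omega) (by omega) (by omega)

lemma cE2 (hl : 6 ≤ l) (h0 : 2 * l ≤ x) (h1 : x < 3 * l) (h2 : 0 ≤ y) (h3 : y < l) :
    Cell l x y (2 * (3 * l - x) + (-1), 2 * (l) + (0), 2 * (y) + (1)) :=
  cell_mk (a := 3 * l - x) (b := l) (c := y) (-1) 0 0 0 0 1
    ((E2 hl (by omega) (by omega) (by omega) (by omega)).trans (trip (by omega) (by omega) (by omega)))
    ((E2 hl (by omega) (by omega) (by omega) (by omega)).trans (trip (by omega) (by omega) (by omega)))
    ((E2 hl (by omega) (by omega) (by omega) (by omega)).trans (trip (by omega) (by omega) (by omega)))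
    ((E2 hl (by omega) (by omega) (by omega) (by omega)).trans (trip (by omega) (by omega) (by omega)))
    (by norm_num) (by norm_num) (by norm_num) (by omega) (by omega) (by omega) (by omega)
    (Or.inr (Or.inl ⟨rfl, rfl, by omega⟩)) (by omega) (by omega) (by omega)

lemma cE3 (hl : 6 ≤ l) (h0 : 3 * l ≤ x) (h1 : x < 4 * l) (h2 : 0 ≤ y) (h3 : y < l) :
    Cell l x y (2 * (0) + (0), 2 * (4 * l - x) + (-1), 2 * (y) + (1)) :=
  cell_mk (a := 0) (b := 4 * l - x) (c := y) 0 (-1) 0 0 0 1
    ((E3 hl (by omega) (by omega) (by omega) (by omega)).trans (trip (by omega) (by omega) (by omega)))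
    ((E3 hl (by omega) (by omega) (by omega) (by omega)).trans (trip (by omega) (by omega) (by omega)))
    ((E3 hl (by omega) (by omega) (by omega) (by omega)).trans (trip (by omega) (by omega) (by omega)))
    ((E3 hl (by omega) (by omega) (by omega) (by omega)).trans (trip (by omega) (by omega) (by omega)))
    (by norm_num) (by norm_num) (by norm_num) (by omega) (by omega) (by omega) (by omega)
    (Or.inl ⟨rfl, rfl, by omega⟩) (by omega) (by omega) (by omega)

lemma cE4 (hl : 6 ≤ l) (h0 : l ≤ x) (h1 : x < 2 * l) (h2 : l ≤ y) (h3 : y < 2 * l) :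
    Cell l x y (2 * (2 * l - y) + (-1), 2 * (x - l) + (1), 2 * (l) + (0)) :=
  cell_mk (a := 2 * l - y) (b := x - l) (c := l) 0 1 0 (-1) 0 0
    ((E4 hl (by omega) (by omega) (by omega) (by omega)).trans (trip (by omega) (by omega) (by omega)))
    ((E4 hl (by omega) (by omega) (by omega) (by omega)).trans (trip (by omega) (by omega) (by omega)))
    ((E4 hl (by omega) (by omega) (by omega) (by omega)).trans (trip (by omega) (by omega) (by omega)))
    ((E4 hl (by omega) (by omega) (by omega) (by omega)).trans (trip (by omega) (by omega) (by omega)))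
    (by norm_num) (by norm_num) (by norm_num) (by omega) (by omega) (by omega) (by omega)
    (Or.inr (Or.inr ⟨rfl, rfl, by omega⟩)) (by omega) (by omega) (by omega)

lemma cE5 (hl : 6 ≤ l) (h0 : l ≤ x) (h1 : x < 2 * l) (h2 : -l ≤ y) (h3 : y < 0) :
    Cell l x y (2 * (y + l) + (1), 2 * (x - l) + (1), 2 * (0) + (0)) :=
  cell_mk (a := y + l) (b := x - l) (c := 0) 0 1 0 1 0 0
    ((E5 hl (by omega) (by omega) (by omega) (by omega)).trans (trip (by omega) (by omega) (by omega)))
    ((E5 hl (by omega) (by omega) (by omega) (by omega)).trans (trip (by omega) (by omega) (by omega)))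
    ((E5 hl (by omega) (by omega) (by omega) (by omega)).trans (trip (by omega) (by omega) (by omega)))
    ((E5 hl (by omega) (by omega) (by omega) (by omega)).trans (trip (by omega) (by omega) (by omega)))
    (by norm_num) (by norm_num) (by norm_num) (by omega) (by omega) (by omega) (by omega)
    (Or.inr (Or.inr ⟨rfl, rfl, by omega⟩)) (by omega) (by omega) (by omega)

lemma cO0L (hl : 6 ≤ l) (h0 : 0 ≤ y) (h1 : y < l) :
    Cell l (-1) y (2 * (0) + (0), 2 * (1) + (-1), 2 * (y) + (1)) :=
  cell_mk (a := 0) (b := 1) (c := y) 0 (-1) 0 0 0 1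
    ((O0L hl (by omega) (by omega)).trans (trip (by omega) (by omega) (by omega)))
    ((E0 hl (by omega) (by omega) (by omega) (by omega)).trans (trip (by omega) (by omega) (by omega)))
    ((O0L hl (by omega) (by omega)).trans (trip (by omega) (by omega) (by omega)))
    ((E0 hl (by omega) (by omega) (by omega) (by omega)).trans (trip (by omega) (by omega) (by omega)))
    (by norm_num) (by norm_num) (by norm_num) (by omega) (by omega) (by omega) (by omega)
    (Or.inl ⟨rfl, rfl, by omega⟩) (by omega) (by omega) (by omega)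

lemma cO0T (hl : 6 ≤ l) (h0 : 0 ≤ x) (h1 : x ≤ l - 3) :
    Cell l x l (2 * (x) + (1), 2 * (0) + (1), 2 * (l) + (0)) :=
  cell_mk (a := x) (b := 0) (c := l) 1 0 0 0 1 0
    ((E0 hl (by omega) (by omega) (by omega) (by omega)).trans (trip (by omega) (by omega) (by omega)))
    ((E0 hl (by omega) (by omega) (by omega) (by omega)).trans (trip (by omega) (by omega) (by omega)))
    ((O0T hl (by omega) (by omega)).trans (trip (by omega) (by omega) (by omega)))
    ((O0T hl (by omega) (by omega)).trans (trip (by omega) (by omega) (by omega)))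
    (by norm_num) (by norm_num) (by norm_num) (by omega) (by omega) (by omega) (by omega)
    (Or.inr (Or.inr ⟨rfl, rfl, by omega⟩)) (by omega) (by omega) (by omega)

lemma cO0B (hl : 6 ≤ l) (h0 : 0 ≤ x) (h1 : x ≤ l - 2) :
    Cell l x (-1) (2 * (x) + (1), 2 * (1) + (-1), 2 * (0) + (0)) :=
  cell_mk (a := x) (b := 1) (c := 0) 1 0 0 0 (-1) 0
    ((O0B hl (by omega) (by omega)).trans (trip (by omega) (by omega) (by omega)))
    ((O0B hl (by omega) (by omega)).trans (trip (by omega) (by omega) (by omega)))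
    ((E0 hl (by omega) (by omega) (by omega) (by omega)).trans (trip (by omega) (by omega) (by omega)))
    ((E0 hl (by omega) (by omega) (by omega) (by omega)).trans (trip (by omega) (by omega) (by omega)))
    (by norm_num) (by norm_num) (by norm_num) (by omega) (by omega) (by omega) (by omega)
    (Or.inr (Or.inr ⟨rfl, rfl, by omega⟩)) (by omega) (by omega) (by omega)

lemma cO2T (hl : 6 ≤ l) (h0 : 2 * l + 1 ≤ x) (h1 : x < 3 * l) :
    Cell l x l (2 * (3 * l - x) + (-1), 2 * (l) + (-1), 2 * (l) + (0)) :=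
  cell_mk (a := 3 * l - x) (b := l) (c := l) (-1) 0 0 0 (-1) 0
    ((E2 hl (by omega) (by omega) (by omega) (by omega)).trans (trip (by omega) (by omega) (by omega)))
    ((E2 hl (by omega) (by omega) (by omega) (by omega)).trans (trip (by omega) (by omega) (by omega)))
    ((O2T hl (by omega) (by omega)).trans (trip (by omega) (by omega) (by omega)))
    ((O2T hl (by omega) (by omega)).trans (trip (by omega) (by omega) (by omega)))
    (by norm_num) (by norm_num) (by norm_num) (by omega) (by omega) (by omega) (by omega)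
    (Or.inr (Or.inr ⟨rfl, rfl, by omega⟩)) (by omega) (by omega) (by omega)

lemma cO2B (hl : 6 ≤ l) (h0 : 2 * l + 2 ≤ x) (h1 : x < 3 * l) :
    Cell l x (-1) (2 * (3 * l - x) + (-1), 2 * (l - 1) + (1), 2 * (0) + (0)) :=
  cell_mk (a := 3 * l - x) (b := l - 1) (c := 0) (-1) 0 0 0 1 0
    ((O2B hl (by omega) (by omega)).trans (trip (by omega) (by omega) (by omega)))
    ((O2B hl (by omega) (by omega)).trans (trip (by omega) (by omega) (by omega)))
    ((E2 hl (by omega) (by omega) (by omega) (by omega)).trans (trip (by omega) (by omega) (by omega)))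
    ((E2 hl (by omega) (by omega) (by omega) (by omega)).trans (trip (by omega) (by omega) (by omega)))
    (by norm_num) (by norm_num) (by norm_num) (by omega) (by omega) (by omega) (by omega)
    (Or.inr (Or.inr ⟨rfl, rfl, by omega⟩)) (by omega) (by omega) (by omega)

lemma cO3T (hl : 6 ≤ l) (h0 : 3 * l + 1 ≤ x) (h1 : x < 4 * l) :
    Cell l x l (2 * (0) + (1), 2 * (4 * l - x) + (-1), 2 * (l) + (0)) :=
  cell_mk (a := 0) (b := 4 * l - x) (c := l) 0 (-1) 0 1 0 0
    ((E3 hl (by omega) (by omega) (by omega) (by omega)).trans (trip (by omega) (by omega) (by omega)))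
    ((E3 hl (by omega) (by omega) (by omega) (by omega)).trans (trip (by omega) (by omega) (by omega)))
    ((O3T hl (by omega) (by omega)).trans (trip (by omega) (by omega) (by omega)))
    ((O3T hl (by omega) (by omega)).trans (trip (by omega) (by omega) (by omega)))
    (by norm_num) (by norm_num) (by norm_num) (by omega) (by omega) (by omega) (by omega)
    (Or.inr (Or.inr ⟨rfl, rfl, by omega⟩)) (by omega) (by omega) (by omega)

lemma cO3B (hl : 6 ≤ l) (h0 : 3 * l + 1 ≤ x) (h1 : x < 4 * l) :
    Cell l x (-1) (2 * (1) + (-1), 2 * (4 * l - x) + (-1), 2 * (0) + (0)) :=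
  cell_mk (a := 1) (b := 4 * l - x) (c := 0) 0 (-1) 0 (-1) 0 0
    ((O3B hl (by omega) (by omega)).trans (trip (by omega) (by omega) (by omega)))
    ((O3B hl (by omega) (by omega)).trans (trip (by omega) (by omega) (by omega)))
    ((E3 hl (by omega) (by omega) (by omega) (by omega)).trans (trip (by omega) (by omega) (by omega)))
    ((E3 hl (by omega) (by omega) (by omega) (by omega)).trans (trip (by omega) (by omega) (by omega)))
    (by norm_num) (by norm_num) (by norm_num) (by omega) (by omega) (by omega) (by omega)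
    (Or.inr (Or.inr ⟨rfl, rfl, by omega⟩)) (by omega) (by omega) (by omega)

lemma cO3R (hl : 6 ≤ l) (h0 : 0 ≤ y) (h1 : y < l) :
    Cell l (4 * l) y (2 * (0) + (1), 2 * (0) + (0), 2 * (y) + (1)) :=
  cell_mk (a := 0) (b := 0) (c := y) 1 0 0 0 0 1
    ((E3 hl (by omega) (by omega) (by omega) (by omega)).trans (trip (by omega) (by omega) (by omega)))
    ((O3R hl (by omega) (by omega)).trans (trip (by omega) (by omega) (by omega)))
    ((E3 hl (by omega) (by omega) (by omega) (by omega)).trans (trip (by omega) (by omega) (by omega)))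
    ((O3R hl (by omega) (by omega)).trans (trip (by omega) (by omega) (by omega)))
    (by norm_num) (by norm_num) (by norm_num) (by omega) (by omega) (by omega) (by omega)
    (Or.inr (Or.inl ⟨rfl, rfl, by omega⟩)) (by omega) (by omega) (by omega)

lemma cO4L (hl : 6 ≤ l) (h0 : l + 1 ≤ y) (h1 : y < 2 * l) :
    Cell l (l - 1) y (2 * (2 * l - y) + (-1), 2 * (0) + (0), 2 * (l - 1) + (1)) :=
  cell_mk (a := 2 * l - y) (b := 0) (c := l - 1) 0 0 1 (-1) 0 0
    ((O4L hl (by omega) (by omega)).trans (trip (by omega) (by omega) (by omega)))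
    ((E4 hl (by omega) (by omega) (by omega) (by omega)).trans (trip (by omega) (by omega) (by omega)))
    ((O4L hl (by omega) (by omega)).trans (trip (by omega) (by omega) (by omega)))
    ((E4 hl (by omega) (by omega) (by omega) (by omega)).trans (trip (by omega) (by omega) (by omega)))
    (by norm_num) (by norm_num) (by norm_num) (by omega) (by omega) (by omega) (by omega)
    (Or.inr (Or.inl ⟨rfl, rfl, by omega⟩)) (by omega) (by omega) (by omega)

lemma cO4R (hl : 6 ≤ l) (h0 : l + 2 ≤ y) (h1 : y < 2 * l) :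
    Cell l (2 * l) y (2 * (2 * l - y) + (-1), 2 * (l) + (0), 2 * (l) + (-1)) :=
  cell_mk (a := 2 * l - y) (b := l) (c := l) 0 0 (-1) (-1) 0 0
    ((E4 hl (by omega) (by omega) (by omega) (by omega)).trans (trip (by omega) (by omega) (by omega)))
    ((O4R hl (by omega) (by omega)).trans (trip (by omega) (by omega) (by omega)))
    ((E4 hl (by omega) (by omega) (by omega) (by omega)).trans (trip (by omega) (by omega) (by omega)))
    ((O4R hl (by omega) (by omega)).trans (trip (by omega) (by omega) (by omega)))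
    (by norm_num) (by norm_num) (by norm_num) (by omega) (by omega) (by omega) (by omega)
    (Or.inr (Or.inl ⟨rfl, rfl, by omega⟩)) (by omega) (by omega) (by omega)

lemma cO4T (hl : 6 ≤ l) (h0 : l ≤ x) (h1 : x < 2 * l) :
    Cell l x (2 * l) (2 * (0) + (0), 2 * (x - l) + (1), 2 * (l) + (-1)) :=
  cell_mk (a := 0) (b := x - l) (c := l) 0 1 0 0 0 (-1)
    ((E4 hl (by omega) (by omega) (by omega) (by omega)).trans (trip (by omega) (by omega) (by omega)))
    ((E4 hl (by omega) (by omega) (by omega) (by omega)).trans (trip (by omega) (by omega) (by omega)))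
    ((O4T hl (by omega) (by omega)).trans (trip (by omega) (by omega) (by omega)))
    ((O4T hl (by omega) (by omega)).trans (trip (by omega) (by omega) (by omega)))
    (by norm_num) (by norm_num) (by norm_num) (by omega) (by omega) (by omega) (by omega)
    (Or.inl ⟨rfl, rfl, by omega⟩) (by omega) (by omega) (by omega)

lemma cO5L (hl : 6 ≤ l) (h0 : -l ≤ y) (h1 : y ≤ -3) :
    Cell l (l - 1) y (2 * (y + l) + (1), 2 * (0) + (0), 2 * (1) + (-1)) :=
  cell_mk (a := y + l) (b := 0) (c := 1) 0 0 (-1) 1 0 0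
    ((O5L hl (by omega) (by omega)).trans (trip (by omega) (by omega) (by omega)))
    ((E5 hl (by omega) (by omega) (by omega) (by omega)).trans (trip (by omega) (by omega) (by omega)))
    ((O5L hl (by omega) (by omega)).trans (trip (by omega) (by omega) (by omega)))
    ((E5 hl (by omega) (by omega) (by omega) (by omega)).trans (trip (by omega) (by omega) (by omega)))
    (by norm_num) (by norm_num) (by norm_num) (by omega) (by omega) (by omega) (by omega)
    (Or.inr (Or.inl ⟨rfl, rfl, by omega⟩)) (by omega) (by omega) (by omega)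

lemma cO5R (hl : 6 ≤ l) (h0 : -l ≤ y) (h1 : y ≤ -2) :
    Cell l (2 * l) y (2 * (y + l) + (1), 2 * (l) + (0), 2 * (0) + (1)) :=
  cell_mk (a := y + l) (b := l) (c := 0) 0 0 1 1 0 0
    ((E5 hl (by omega) (by omega) (by omega) (by omega)).trans (trip (by omega) (by omega) (by omega)))
    ((O5R hl (by omega) (by omega)).trans (trip (by omega) (by omega) (by omega)))
    ((E5 hl (by omega) (by omega) (by omega) (by omega)).trans (trip (by omega) (by omega) (by omega)))
    ((O5R hl (by omega) (by omega)).trans (trip (by omega) (by omega) (by omega)))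
    (by norm_num) (by norm_num) (by norm_num) (by omega) (by omega) (by omega) (by omega)
    (Or.inr (Or.inl ⟨rfl, rfl, by omega⟩)) (by omega) (by omega) (by omega)

lemma cO5B (hl : 6 ≤ l) (h0 : l ≤ x) (h1 : x < 2 * l) :
    Cell l x (-l - 1) (2 * (0) + (0), 2 * (x - l) + (1), 2 * (1) + (-1)) :=
  cell_mk (a := 0) (b := x - l) (c := 1) 0 1 0 0 0 (-1)
    ((O5B hl (by omega) (by omega)).trans (trip (by omega) (by omega) (by omega)))
    ((O5B hl (by omega) (by omega)).trans (trip (by omega) (by omega) (by omega)))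
    ((E5 hl (by omega) (by omega) (by omega) (by omega)).trans (trip (by omega) (by omega) (by omega)))
    ((E5 hl (by omega) (by omega) (by omega) (by omega)).trans (trip (by omega) (by omega) (by omega)))
    (by norm_num) (by norm_num) (by norm_num) (by omega) (by omega) (by omega) (by omega)
    (Or.inl ⟨rfl, rfl, by omega⟩) (by omega) (by omega) (by omega)

end cells

end Pool.Agent.Helper697.Rep
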