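import Mathlib
import Pool.Agent.Helper697.RepCell

open Set

namespace Pool.Agent.Helper697.Rep

/-! ### The scaled cross folds to a cube -/

/-- the cross made of six squares of side `t` -/
noncomputable def Ct (t : ℤ) : Finset (ℤ × ℤ) :=
  (Finset.Ico 0 (4 * t) ×ˢ Finset.Ico 0 t) ∪
    ((Finset.Ico t (2 * t) ×ˢ Finset.Ico (-t) 0) ∪ (Finset.Ico t (2 * t) ×ˢ Finset.Ico t (2 * t)))

lemma mem_Ct {t i j : ℤ} : (i, j) ∈ Ct t ↔
    (0 ≤ i ∧ i < 4 * t ∧ 0 ≤ j ∧ j < t) ∨ (t ≤ i ∧ i < 2 * t ∧ -t ≤ j ∧ j < 0) ∨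
      (t ≤ i ∧ i < 2 * t ∧ t ≤ j ∧ j < 2 * t) := by
  simp only [Ct, Finset.mem_union, Finset.mem_product, Finset.mem_Ico]
  constructor <;> intro h <;> omega

lemma card_Ct (n : ℕ) : (Ct n).card = 6 * n ^ 2 := by
  unfold Ct
  rw [Finset.card_union_of_disjoint, Finset.card_union_of_disjoint]
  · simp only [Finset.card_product, Int.card_Ico]
    have e1 : (4 * (n : ℤ) - 0).toNat = 4 * n := by omega
    have e2 : ((n : ℤ) - 0).toNat = n := by omega
    have e3 : (2 * (n : ℤ) - n).toNat = n := by omega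
    have e4 : (0 - -(n : ℤ)).toNat = n := by omega
    rw [e1, e2, e3, e4]; ring
  · rw [Finset.disjoint_left]
    rintro ⟨i, j⟩ h1 h2
    simp only [Finset.mem_product, Finset.mem_Ico] at h1 h2
    omega
  · rw [Finset.disjoint_left]
    rintro ⟨i, j⟩ h1 h2
    simp only [Finset.mem_union, Finset.mem_product, Finset.mem_Ico] at h1 h2
    omega

/-- the folding map of the cross -/
def FF (t : ℤ) (p : ℤ × ℤ) : ℤ × ℤ × ℤ := Fm (6 * t) p.1 p.2

lemma blk_pos {x y i j : ℤ} (h : blk (x, y) = (i, j)) :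
    (6 * i ≤ x ∧ x < 6 * i + 6 ∧ 6 * j ≤ y ∧ y < 6 * j + 6) ∨
    (x = 6 * i + 4 ∧ y = 6 * j - 1) ∨ (x = 6 * i + 1 ∧ y = 6 * j + 6) ∨
    (x = 6 * i - 1 ∧ y = 6 * j + 1) ∨ (x = 6 * i + 6 ∧ y = 6 * j + 4) := by
  unfold blk at h
  simp only at h
  split_ifs at h <;> simp only [Prod.mk.injEq] at h <;> omega

def Str (l x y : ℤ) : Prop :=
  (0 ≤ x ∧ x < 4 * l ∧ 0 ≤ y ∧ y < l) ∨ (l ≤ x ∧ x < 2 * l ∧ -l ≤ y ∧ y < 2 * l)

lemma cell_str {l x y : ℤ} (hl : 6 ≤ l) (h : Str l x y) : ∃ m, Cell l x y m := by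
  unfold Str at h
  by_cases hy : 0 ≤ y ∧ y < l
  · by_cases h1 : x < l
    · exact ⟨_, cE0 hl (by omega) h1 hy.1 hy.2⟩
    · by_cases h2 : x < 2 * l
      · exact ⟨_, cE1 hl (by omega) h2 hy.1 hy.2⟩
      · by_cases h3 : x < 3 * l
        · exact ⟨_, cE2 hl (by omega) h3 hy.1 hy.2⟩
        · exact ⟨_, cE3 hl (by omega) (by omega) hy.1 hy.2⟩
  · by_cases hy' : l ≤ y
    · exact ⟨_, cE4 hl (by omega) (by omega) hy' (by omega)⟩
    · exact ⟨_, cE5 hl (by omega) (by omega) (by omega) (by omega)⟩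

lemma cell_good {t x y : ℤ} (ht : 0 < t) (h : (x, y) ∈ blocks (Ct t)) :
    ∃ m, Cell (6 * t) x y m := by
  have hl : 6 ≤ 6 * t := by omega
  rw [mem_blocks] at h
  obtain ⟨⟨i, j⟩, hij⟩ : ∃ c, blk (x, y) = c := ⟨_, rfl⟩
  rw [hij, mem_Ct] at h
  by_cases hs : Str (6 * t) x y
  · exact cell_str hl hs
  · unfold Str at hs
    rcases blk_pos hij with hp | ⟨rfl, rfl⟩ | ⟨rfl, rfl⟩ | ⟨rfl, rfl⟩ | ⟨rfl, rfl⟩
    · exfalso; omega
    · have hc : (j = 0 ∧ 0 ≤ i ∧ i < t) ∨ (j = 0 ∧ 2 * t ≤ i ∧ i < 3 * t) ∨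
          (j = 0 ∧ 3 * t ≤ i ∧ i < 4 * t) ∨ (j = -t ∧ t ≤ i ∧ i < 2 * t) := by omega
      rcases hc with ⟨rfl, h1, h2⟩ | ⟨rfl, h1, h2⟩ | ⟨rfl, h1, h2⟩ | ⟨rfl, h1, h2⟩
      · have e : (6 * 0 - 1 : ℤ) = -1 := by norm_num
        rw [e]
        exact ⟨_, cO0B hl (by omega) (by omega)⟩
      · have e : (6 * 0 - 1 : ℤ) = -1 := by norm_num
        rw [e]
        exact ⟨_, cO2B hl (by omega) (by omega)⟩
      · have e : (6 * 0 - 1 : ℤ) = -1 := by norm_num
        rw [e]
        exact ⟨_, cO3B hl (by omega) (by omega)⟩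
      · have e : 6 * -t - 1 = -(6 * t) - 1 := by ring
        rw [e]
        exact ⟨_, cO5B hl (by omega) (by omega)⟩
    · have hc : (j = t - 1 ∧ 0 ≤ i ∧ i < t) ∨ (j = t - 1 ∧ 2 * t ≤ i ∧ i < 3 * t) ∨
          (j = t - 1 ∧ 3 * t ≤ i ∧ i < 4 * t) ∨ (j = 2 * t - 1 ∧ t ≤ i ∧ i < 2 * t) := by omega
      rcases hc with ⟨rfl, h1, h2⟩ | ⟨rfl, h1, h2⟩ | ⟨rfl, h1, h2⟩ | ⟨rfl, h1, h2⟩
      · have e : 6 * (t - 1) + 6 = 6 * t := by ring
        rw [e]
        exact ⟨_, cO0T hl (by omega) (by omega)⟩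
      · have e : 6 * (t - 1) + 6 = 6 * t := by ring
        rw [e]
        exact ⟨_, cO2T hl (by omega) (by omega)⟩
      · have e : 6 * (t - 1) + 6 = 6 * t := by ring
        rw [e]
        exact ⟨_, cO3T hl (by omega) (by omega)⟩
      · have e : 6 * (2 * t - 1) + 6 = 2 * (6 * t) := by ring
        rw [e]
        exact ⟨_, cO4T hl (by omega) (by omega)⟩
    · have hc : (i = 0 ∧ 0 ≤ j ∧ j < t) ∨ (i = t ∧ t ≤ j ∧ j < 2 * t) ∨
          (i = t ∧ -t ≤ j ∧ j < 0) := by omega
      rcases hc with ⟨rfl, h1, h2⟩ | ⟨rfl, h1, h2⟩ | ⟨rfl, h1, h2⟩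
      · have e : (6 * 0 - 1 : ℤ) = -1 := by norm_num
        rw [e]
        exact ⟨_, cO0L hl (by omega) (by omega)⟩
      · exact ⟨_, cO4L hl (by omega) (by omega)⟩
      · exact ⟨_, cO5L hl (by omega) (by omega)⟩
    · have hc : (i = 4 * t - 1 ∧ 0 ≤ j ∧ j < t) ∨ (i = 2 * t - 1 ∧ t ≤ j ∧ j < 2 * t) ∨
          (i = 2 * t - 1 ∧ -t ≤ j ∧ j < 0) := by omega
      rcases hc with ⟨rfl, h1, h2⟩ | ⟨rfl, h1, h2⟩ | ⟨rfl, h1, h2⟩
      · have e : 6 * (4 * t - 1) + 6 = 4 * (6 * t) := by ring
        rw [e]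
        exact ⟨_, cO3R hl (by omega) (by omega)⟩
      · have e : 6 * (2 * t - 1) + 6 = 2 * (6 * t) := by ring
        rw [e]
        exact ⟨_, cO4R hl (by omega) (by omega)⟩
      · have e : 6 * (2 * t - 1) + 6 = 2 * (6 * t) := by ring
        rw [e]
        exact ⟨_, cO5R hl (by omega) (by omega)⟩

/-- the regions in arithmetic form -/
def Reg (t i j : ℤ) : Prop :=
    (0 ≤ i ∧ i < 4 * t ∧ 0 ≤ j ∧ j < t) ∨ (t ≤ i ∧ i < 2 * t ∧ -t ≤ j ∧ j < 0) ∨
      (t ≤ i ∧ i < 2 * t ∧ t ≤ j ∧ j < 2 * t)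

lemma mem_bl {t x y : ℤ} (h1 : x % 6 = 1 ∧ y % 6 = 0 → Reg t (x / 6) (y / 6 - 1))
    (h2 : x % 6 = 4 ∧ y % 6 = 5 → Reg t (x / 6) (y / 6 + 1))
    (h3 : x % 6 = 0 ∧ y % 6 = 4 → Reg t (x / 6 - 1) (y / 6))
    (h4 : x % 6 = 5 ∧ y % 6 = 1 → Reg t (x / 6 + 1) (y / 6))
    (h5 : ¬ (x % 6 = 1 ∧ y % 6 = 0) → ¬ (x % 6 = 4 ∧ y % 6 = 5) → ¬ (x % 6 = 0 ∧ y % 6 = 4) →
      ¬ (x % 6 = 5 ∧ y % 6 = 1) → Reg t (x / 6) (y / 6)) : (x, y) ∈ blocks (Ct t) := by
  rw [mem_blocks, blk]
  simp only
  split_ifs with a1 a2 a3 a4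
  · exact mem_Ct.mpr (h1 a1)
  · exact mem_Ct.mpr (h2 a2)
  · exact mem_Ct.mpr (h3 a3)
  · exact mem_Ct.mpr (h4 a4)
  · exact mem_Ct.mpr (h5 a1 a2 a3 a4)

lemma exists_of_cell {t x y m1 m2 m3 n1 n2 n3 : ℤ} (h : Cell (6 * t) x y (m1, m2, m3))
    (hm : (x, y) ∈ blocks (Ct t)) (e1 : m1 = n1) (e2 : m2 = n2) (e3 : m3 = n3) :
    ∃ c ∈ blocks (Ct t), ctr (FF t) c = (n1, n2, n3) := by
  subst e1 e2 e3
  exact ⟨(x, y), hm, h.2⟩

set_option maxHeartbeats 4000000 in
lemma surj_aux {t : ℤ} (ht : 0 < t) (m : ℤ × ℤ × ℤ) (hm : IsCtr (6 * t) m) :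
    ∃ c ∈ blocks (Ct t), ctr (FF t) c = m := by
  have hl : 6 ≤ 6 * t := by omega
  obtain ⟨a, b, c⟩ := m
  obtain ⟨⟨r1, r2, r3, r4, r5, r6⟩, h⟩ := hm
  simp only at r1 r2 r3 r4 r5 r6 h
  rcases h with ⟨h, hp, hq⟩ | ⟨hp, h, hq⟩ | ⟨hp, hq, h⟩
  · obtain ⟨p, rfl⟩ : ∃ p, b = 2 * p + 1 := ⟨b / 2, by omega⟩
    obtain ⟨q, rfl⟩ : ∃ q, c = 2 * q + 1 := ⟨c / 2, by omega⟩
    rcases h with rfl | rfl
    · by_cases k1 : p = 0 ∧ q % 6 = 1
      · exact exists_of_cell (cO0L hl (y := q) (by omega) (by omega))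
          (mem_bl (by unfold Reg; omega) (by unfold Reg; omega) (by unfold Reg; omega)
            (by unfold Reg; omega) (by unfold Reg; omega)) (by omega) (by omega) (by omega)
      · by_cases k2 : q = 6 * t - 1 ∧ p % 6 = 1
        · exact exists_of_cell (cO4T hl (x := 6 * t + p) (by omega) (by omega))
            (mem_bl (by unfold Reg; omega) (by unfold Reg; omega) (by unfold Reg; omega)
              (by unfold Reg; omega) (by unfold Reg; omega)) (by omega) (by omega) (by omega)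
        · by_cases k3 : q = 0 ∧ p % 6 = 4
          · exact exists_of_cell (cO5B hl (x := 6 * t + p) (by omega) (by omega))
              (mem_bl (by unfold Reg; omega) (by unfold Reg; omega) (by unfold Reg; omega)
                (by unfold Reg; omega) (by unfold Reg; omega)) (by omega) (by omega) (by omega)
          · exact exists_of_cell (cE3 hl (x := 4 * (6 * t) - p - 1) (y := q) (by omega)
              (by omega) (by omega) (by omega))
              (mem_bl (by unfold Reg; omega) (by unfold Reg; omega) (by unfold Reg; omega)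
                (by unfold Reg; omega) (by unfold Reg; omega)) (by omega) (by omega) (by omega)
    · exact exists_of_cell (cE1 hl (x := 6 * t + p) (y := q) (by omega)
              (by omega) (by omega) (by omega))
              (mem_bl (by unfold Reg; omega) (by unfold Reg; omega) (by unfold Reg; omega)
                (by unfold Reg; omega) (by unfold Reg; omega)) (by omega) (by omega) (by omega)
  · obtain ⟨p, rfl⟩ : ∃ p, a = 2 * p + 1 := ⟨a / 2, by omega⟩
    obtain ⟨q, rfl⟩ : ∃ q, c = 2 * q + 1 := ⟨c / 2, by omega⟩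
    rcases h with rfl | rfl
    · by_cases k1 : p = 0 ∧ q % 6 = 4
      · exact exists_of_cell (cO3R hl (y := q) (by omega) (by omega))
          (mem_bl (by unfold Reg; omega) (by unfold Reg; omega) (by unfold Reg; omega)
            (by unfold Reg; omega) (by unfold Reg; omega)) (by omega) (by omega) (by omega)
      · by_cases k2 : q = 0 ∧ p % 6 = 1
        · exact exists_of_cell (cO5L hl (y := p - 6 * t) (by omega) (by omega))
            (mem_bl (by unfold Reg; omega) (by unfold Reg; omega) (by unfold Reg; omega)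
              (by unfold Reg; omega) (by unfold Reg; omega)) (by omega) (by omega) (by omega)
        · by_cases k3 : q = 6 * t - 1 ∧ p % 6 = 4
          · exact exists_of_cell (cO4L hl (y := 2 * (6 * t) - p - 1) (by omega) (by omega))
              (mem_bl (by unfold Reg; omega) (by unfold Reg; omega) (by unfold Reg; omega)
                (by unfold Reg; omega) (by unfold Reg; omega)) (by omega) (by omega) (by omega)
          · exact exists_of_cell (cE0 hl (x := p) (y := q) (by omega)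
              (by omega) (by omega) (by omega))
              (mem_bl (by unfold Reg; omega) (by unfold Reg; omega) (by unfold Reg; omega)
                (by unfold Reg; omega) (by unfold Reg; omega)) (by omega) (by omega) (by omega)
    · by_cases k2 : q = 6 * t - 1 ∧ p % 6 = 1
      · exact exists_of_cell (cO4R hl (y := 2 * (6 * t) - p - 1) (by omega) (by omega))
            (mem_bl (by unfold Reg; omega) (by unfold Reg; omega) (by unfold Reg; omega)
              (by unfold Reg; omega) (by unfold Reg; omega)) (by omega) (by omega) (by omega)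
      · by_cases k3 : q = 0 ∧ p % 6 = 4
        · exact exists_of_cell (cO5R hl (y := p - 6 * t) (by omega) (by omega))
              (mem_bl (by unfold Reg; omega) (by unfold Reg; omega) (by unfold Reg; omega)
                (by unfold Reg; omega) (by unfold Reg; omega)) (by omega) (by omega) (by omega)
        · exact exists_of_cell (cE2 hl (x := 3 * (6 * t) - p - 1) (y := q) (by omega)
              (by omega) (by omega) (by omega))
              (mem_bl (by unfold Reg; omega) (by unfold Reg; omega) (by unfold Reg; omega)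
                (by unfold Reg; omega) (by unfold Reg; omega)) (by omega) (by omega) (by omega)
  · obtain ⟨p, rfl⟩ : ∃ p, a = 2 * p + 1 := ⟨a / 2, by omega⟩
    obtain ⟨q, rfl⟩ : ∃ q, b = 2 * q + 1 := ⟨b / 2, by omega⟩
    rcases h with rfl | rfl
    · by_cases k1 : q = 0 ∧ p % 6 = 4
      · exact exists_of_cell (cO0B hl (x := p) (by omega) (by omega))
          (mem_bl (by unfold Reg; omega) (by unfold Reg; omega) (by unfold Reg; omega)
            (by unfold Reg; omega) (by unfold Reg; omega)) (by omega) (by omega) (by omega)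
      · by_cases k2 : q = 6 * t - 1 ∧ p % 6 = 1
        · exact exists_of_cell (cO2B hl (x := 3 * (6 * t) - p - 1) (by omega) (by omega))
            (mem_bl (by unfold Reg; omega) (by unfold Reg; omega) (by unfold Reg; omega)
              (by unfold Reg; omega) (by unfold Reg; omega)) (by omega) (by omega) (by omega)
        · by_cases k3 : p = 0 ∧ q % 6 = 1
          · exact exists_of_cell (cO3B hl (x := 4 * (6 * t) - q - 1) (by omega) (by omega))
              (mem_bl (by unfold Reg; omega) (by unfold Reg; omega) (by unfold Reg; omega)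
                (by unfold Reg; omega) (by unfold Reg; omega)) (by omega) (by omega) (by omega)
          · exact exists_of_cell (cE5 hl (x := 6 * t + q) (y := p - 6 * t) (by omega)
              (by omega) (by omega) (by omega))
              (mem_bl (by unfold Reg; omega) (by unfold Reg; omega) (by unfold Reg; omega)
                (by unfold Reg; omega) (by unfold Reg; omega)) (by omega) (by omega) (by omega)
    · by_cases k1 : q = 0 ∧ p % 6 = 1
      · exact exists_of_cell (cO0T hl (x := p) (by omega) (by omega))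
          (mem_bl (by unfold Reg; omega) (by unfold Reg; omega) (by unfold Reg; omega)
            (by unfold Reg; omega) (by unfold Reg; omega)) (by omega) (by omega) (by omega)
      · by_cases k2 : q = 6 * t - 1 ∧ p % 6 = 4
        · exact exists_of_cell (cO2T hl (x := 3 * (6 * t) - p - 1) (by omega) (by omega))
            (mem_bl (by unfold Reg; omega) (by unfold Reg; omega) (by unfold Reg; omega)
              (by unfold Reg; omega) (by unfold Reg; omega)) (by omega) (by omega) (by omega)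
        · by_cases k3 : p = 0 ∧ q % 6 = 4
          · exact exists_of_cell (cO3T hl (x := 4 * (6 * t) - q - 1) (by omega) (by omega))
              (mem_bl (by unfold Reg; omega) (by unfold Reg; omega) (by unfold Reg; omega)
                (by unfold Reg; omega) (by unfold Reg; omega)) (by omega) (by omega) (by omega)
          · exact exists_of_cell (cE4 hl (x := 6 * t + q) (y := 2 * (6 * t) - p - 1) (by omega)
              (by omega) (by omega) (by omega))
              (mem_bl (by unfold Reg; omega) (by unfold Reg; omega) (by unfold Reg; omega)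
                (by unfold Reg; omega) (by unfold Reg; omega)) (by omega) (by omega) (by omega)

end Pool.Agent.Helper697.Rep
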