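import Mathlib
import Pool.Agent.Helper697.RepGrid

open Set

namespace Pool.Agent.Helper697.Rep

/-! ### Injectivity by counting -/

/-- enumeration of the doubled centres -/
def cen (l : ℤ) (k p q : ℕ) : ℤ × ℤ × ℤ :=
  if k = 0 then (2 * (p : ℤ) + 1, 0, 2 * (q : ℤ) + 1)
  else if k = 1 then (2 * l, 2 * (p : ℤ) + 1, 2 * (q : ℤ) + 1)
  else if k = 2 then (2 * (p : ℤ) + 1, 2 * l, 2 * (q : ℤ) + 1)
  else if k = 3 then (0, 2 * (p : ℤ) + 1, 2 * (q : ℤ) + 1)
  else if k = 4 then (2 * (p : ℤ) + 1, 2 * (q : ℤ) + 1, 2 * l)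
  else (2 * (p : ℤ) + 1, 2 * (q : ℤ) + 1, 0)

def cenSet (n : ℕ) : Finset (ℤ × ℤ × ℤ) :=
  (Finset.range 6 ×ˢ (Finset.range n ×ˢ Finset.range n)).image
    (fun w => cen n w.1 w.2.1 w.2.2)

lemma cen_isCtr {n k p q : ℕ} (hp : p < n) (hq : q < n) : IsCtr n (cen n k p q) := by
  unfold cen
  split_ifs
  · exact ⟨by dsimp only; omega, Or.inr (Or.inl (by dsimp only; omega))⟩
  · exact ⟨by dsimp only; omega, Or.inl (by dsimp only; omega)⟩
  · exact ⟨by dsimp only; omega, Or.inr (Or.inl (by dsimp only; omega))⟩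
  · exact ⟨by dsimp only; omega, Or.inl (by dsimp only; omega)⟩
  · exact ⟨by dsimp only; omega, Or.inr (Or.inr (by dsimp only; omega))⟩
  · exact ⟨by dsimp only; omega, Or.inr (Or.inr (by dsimp only; omega))⟩

lemma cen_inj {n : ℕ} {k p q k' p' q' : ℕ} (h0 : 0 < n) (hk : k < 6) (hk' : k' < 6)
    (h : cen n k p q = cen n k' p' q') : k = k' ∧ p = p' ∧ q = q' := by
  unfold cen at h
  interval_cases k <;> interval_cases k' <;> simp at h <;> omega

lemma card_cenSet {n : ℕ} (h0 : 0 < n) : (cenSet n).card = 6 * n ^ 2 := by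
  unfold cenSet
  rw [Finset.card_image_of_injOn]
  · simp only [Finset.card_product, Finset.card_range]; ring
  · rintro ⟨k, p, q⟩ h ⟨k', p', q'⟩ h' e
    simp only [Finset.coe_product, Finset.coe_range, Set.mem_prod, Set.mem_Iio] at h h'
    obtain ⟨rfl, rfl, rfl⟩ := cen_inj h0 h.1 h'.1 e
    rfl

lemma grid_cube {n : ℕ} (h0 : 0 < n) : GridFold (blocks (Ct n)) (6 * n) (FF n) := by
  have ht : (0 : ℤ) < n := by exact_mod_cast h0
  refine ⟨by omega, ?_, ?_, ?_⟩
  · rintro ⟨x, y⟩ hc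
    obtain ⟨m, hm⟩ := cell_good ht hc
    exact hm.1
  · have hcard : (blocks (Ct n)).card ≤ ((blocks (Ct n)).image (ctr (FF n))).card := by
      have h1 : cenSet (6 * n) ⊆ (blocks (Ct n)).image (ctr (FF n)) := by
        intro m hm
        unfold cenSet at hm
        obtain ⟨⟨k, p, q⟩, hw, rfl⟩ := Finset.mem_image.mp hm
        simp only [Finset.mem_product, Finset.mem_range] at hw
        have h2 := cen_isCtr (k := k) hw.2.1 hw.2.2
        push_cast at h2
        obtain ⟨c, hc, hcm⟩ := surj_aux ht _ h2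
        rw [Finset.mem_image]
        refine ⟨c, hc, ?_⟩
        rw [hcm]; push_cast; rfl
      have h2 := Finset.card_le_card h1
      rw [card_cenSet (by omega)] at h2
      rw [card_blocks, card_Ct]
      have : 36 * (6 * n ^ 2) = 6 * (6 * n) ^ 2 := by ring
      rw [this]; exact h2
    have := Finset.card_image_iff.mp (le_antisymm Finset.card_image_le hcard)
    intro c hc d hd hcd
    exact this hc hd hcd
  · intro m hm
    exact surj_aux ht m hm

/-! ### Connectedness -/

lemma Conn.mono {P P' : Finset (ℤ × ℤ)} (h : P ⊆ P') {a b : ℤ × ℤ} (hab : Conn P a b) :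
    Conn P' a b := by
  unfold Conn at *
  exact Relation.ReflTransGen.mono (fun x y hxy => ⟨h hxy.1, h hxy.2.1, hxy.2.2⟩) _ _ hab

lemma X_poly : IsPolyomino X := polyomino_of_list XL (by decide +kernel)

def base (c : ℤ × ℤ) : ℤ × ℤ := six c + (2, 2)

lemma shift_sub_blocks {S : Finset (ℤ × ℤ)} {c : ℤ × ℤ} (hc : c ∈ S) :
    shift (six c) X ⊆ blocks S := Finset.subset_biUnion_of_mem (fun c => shift (six c) X) hc

lemma mem_X_off {c v : ℤ × ℤ} (hv : v ∈ X) : six c + v ∈ shift (six c) X := by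
  rw [mem_shift]; simpa using hv

lemma conn_base {S : Finset (ℤ × ℤ)} {c v : ℤ × ℤ} (hc : c ∈ S) (hv : v ∈ X) :
    Conn (blocks S) (six c + v) (base c) :=
  Conn.mono (shift_sub_blocks hc) ((X_poly.shift (six c)).2 _ (mem_X_off hv) _
    (mem_X_off (by decide +kernel)))

lemma conn_right {S : Finset (ℤ × ℤ)} {i j : ℤ} (hc : (i, j) ∈ S) (hd : (i + 1, j) ∈ S) :
    Conn (blocks S) (base (i, j)) (base (i + 1, j)) := by
  have h1 := (conn_base (v := (5, 2)) hc (by decide +kernel)).symm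
  have h2 := conn_base (v := (0, 2)) hd (by decide +kernel)
  refine (h1.trans (Conn.single ⟨?_, ?_, ?_⟩)).trans h2
  · exact shift_sub_blocks hc (mem_X_off (by decide +kernel))
  · exact shift_sub_blocks hd (mem_X_off (by decide +kernel))
  · unfold EdgeAdj six
    simp only [Prod.mk_add_mk]
    have e1 : 6 * i + 5 - (6 * (i + 1) + 0) = -1 := by ring
    have e2 : 6 * j + 2 - (6 * j + 2) = 0 := by ring
    rw [e1, e2]; norm_num

lemma conn_up {S : Finset (ℤ × ℤ)} {i j : ℤ} (hc : (i, j) ∈ S) (hd : (i, j + 1) ∈ S) :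
    Conn (blocks S) (base (i, j)) (base (i, j + 1)) := by
  have h1 := (conn_base (v := (2, 5)) hc (by decide +kernel)).symm
  have h2 := conn_base (v := (2, 0)) hd (by decide +kernel)
  refine (h1.trans (Conn.single ⟨?_, ?_, ?_⟩)).trans h2
  · exact shift_sub_blocks hc (mem_X_off (by decide +kernel))
  · exact shift_sub_blocks hd (mem_X_off (by decide +kernel))
  · unfold EdgeAdj six
    simp only [Prod.mk_add_mk]
    have e1 : 6 * i + 2 - (6 * i + 2) = 0 := by ring
    have e2 : 6 * j + 5 - (6 * (j + 1) + 0) = -1 := by ring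
    rw [e1, e2]; norm_num

lemma conn_Ct {t : ℤ} (ht : 0 < t) : ∀ (m : ℕ) (i j : ℤ), (i, j) ∈ Ct t →
    (i - t).natAbs + j.natAbs = m → Conn (blocks (Ct t)) (base (i, j)) (base (t, 0)) := by
  intro m
  induction m with
  | zero =>
    intro i j _ hm
    have e1 : i = t := by omega
    have e2 : j = 0 := by omega
    subst e1 e2
    exact Conn.refl _
  | succ m ih =>
    intro i j hij hm
    have hij' := mem_Ct.mp hij
    by_cases h1 : 0 < j
    · have hd : (i, j - 1) ∈ Ct t := by rw [mem_Ct]; omega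
      have h2 := ih i (j - 1) hd (by omega)
      have h3 := conn_up hd (by rw [sub_add_cancel]; exact hij)
      rw [sub_add_cancel] at h3
      exact h3.symm.trans h2
    · by_cases h2 : j < 0
      · have hd : (i, j + 1) ∈ Ct t := by rw [mem_Ct]; omega
        have h3 := ih i (j + 1) hd (by omega)
        exact (conn_up hij hd).trans h3
      · have e : j = 0 := by omega
        subst e
        by_cases h3 : t < i
        · have hd : (i - 1, 0) ∈ Ct t := by rw [mem_Ct]; omega
          have h4 := ih (i - 1) 0 hd (by omega)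
          have h5 := conn_right hd (by rw [sub_add_cancel]; exact hij)
          rw [sub_add_cancel] at h5
          exact h5.symm.trans h4
        · have hd : (i + 1, 0) ∈ Ct t := by rw [mem_Ct]; omega
          have h4 := ih (i + 1) 0 hd (by omega)
          exact (conn_right hij hd).trans h4

lemma poly_Ct {t : ℤ} (ht : 0 < t) : IsPolyomino (blocks (Ct t)) := by
  have key : ∀ p ∈ blocks (Ct t), Conn (blocks (Ct t)) p (base (t, 0)) := by
    intro p hp
    obtain ⟨⟨i, j⟩, hij⟩ : ∃ c, blk p = c := ⟨_, rfl⟩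
    rw [mem_blocks, hij] at hp
    have h1 : p ∈ shift (six (i, j)) X := by rw [mem_shift_X]; exact hij
    rw [mem_shift] at h1
    have h2 := conn_base hp h1
    rw [add_sub_cancel] at h2
    exact h2.trans (conn_Ct ht _ i j hp rfl)
  refine ⟨⟨base (t, 0), ?_⟩, ?_⟩
  · exact shift_sub_blocks (by rw [mem_Ct]; omega) (mem_X_off (by decide +kernel))
  · intro c hc d hd
    exact (key c hc).trans (key d hd).symm

lemma piece_cube {n : ℕ} (h0 : 0 < n) : Piece (blocks (Ct n)) :=
  ⟨poly_Ct (by exact_mod_cast h0), _, _, grid_cube h0⟩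

/-! ### Counting the pieces -/

lemma mem_K {a b i j : ℤ} : (i, j) ∈ shift (a, b) (Ct 1) ↔ (i - a, j - b) ∈ Ct 1 := by
  rw [mem_shift]; rfl

lemma card_K (v : ℤ × ℤ) : (shift v (Ct 1)).card = 6 := by
  rw [shift, Finset.card_map]
  have := card_Ct 1
  norm_num at this
  exact this

lemma part_K (v : ℤ × ℤ) : Part 1 (blocks (shift v (Ct 1))) := by
  rw [blocks_shift]
  have h := piece_cube (n := 1) one_pos
  rw [Nat.cast_one] at h
  exact (Part.single h).shift _

lemma exists_crosses {n : ℕ} (hn : 3 ≤ n) (b : ℕ) (hb : b ≤ 2) :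
    ∃ T ⊆ Ct n, T.card = 6 * b ∧ Part b (blocks T) := by
  have h1 : shift (0, 1) (Ct 1) ⊆ Ct n := by
    rintro ⟨i, j⟩ h
    rw [mem_K, mem_Ct] at h
    rw [mem_Ct]; omega
  have h2 : shift (4, 1) (Ct 1) ⊆ Ct n := by
    rintro ⟨i, j⟩ h
    rw [mem_K, mem_Ct] at h
    rw [mem_Ct]; omega
  have hd : Disjoint (shift (0, 1) (Ct 1)) (shift (4, 1) (Ct 1)) := by
    rw [Finset.disjoint_left]
    rintro ⟨i, j⟩ h h'
    rw [mem_K, mem_Ct] at h h'
    omega
  interval_cases b
  · refine ⟨∅, Finset.empty_subset _, rfl, ?_⟩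
    have : blocks ∅ = ∅ := by simp [blocks]
    rw [this]; exact Part.zero
  · exact ⟨_, h1, card_K _, part_K _⟩
  · refine ⟨_, Finset.union_subset h1 h2, ?_, ?_⟩
    · rw [Finset.card_union_of_disjoint hd, card_K, card_K]
    · rw [blocks_union]
      exact (part_K _).union (part_K _) (blocks_disjoint hd)

lemma rep_orders {n : ℕ} (hn : 3 ≤ n) {a b : ℕ} (hb : b ≤ 2) (ha : a ≤ 6 * n ^ 2 - 6 * b) :
    IsRepCube (6 * (6 * n ^ 2 - 6 * b) - 3 * a + b) (blocks (Ct n)) := by
  obtain ⟨T, hT, hcard, hpart⟩ := exists_crosses hn b hb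
  have hc : (Ct n \ T).card = 6 * n ^ 2 - 6 * b := by
    rw [Finset.card_sdiff_of_subset hT, card_Ct, hcard]
  have h1 := part_blocks (Ct n \ T) a (by rw [hc]; exact ha)
  rw [hc] at h1
  have h2 := h1.union hpart (blocks_disjoint Finset.sdiff_disjoint)
  rw [← blocks_union, Finset.sdiff_union_of_subset hT] at h2
  exact h2.repCube (piece_cube (by omega))

theorem rep_cubes (k : ℕ) (hk : 287 < k) : ∃ P, IsRepCube k P := by
  set n := Nat.sqrt (k / 18) with hn
  have h1 : n * n ≤ k / 18 := Nat.sqrt_le (k / 18)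
  have h2 : k / 18 < (n + 1) * (n + 1) := Nat.lt_succ_sqrt (k / 18)
  have h4 : 4 ≤ n := by
    rw [hn]
    exact Nat.le_sqrt.mpr (by omega)
  have h1' : 18 * n ^ 2 ≤ k := by
    have : n ^ 2 = n * n := by ring
    omega
  have h2' : k < 18 * n ^ 2 + 36 * n + 18 := by
    have : (n + 1) * (n + 1) = n ^ 2 + 2 * n + 1 := by ring
    omega
  have h5 : 4 * n ≤ n ^ 2 := by nlinarith
  have h6 : k ≤ 36 * n ^ 2 - 70 := by
    have : 16 ≤ n ^ 2 := by nlinarith
    omega
  have h7 : 16 ≤ n ^ 2 := by nlinarith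
  have := rep_orders (n := n) (by omega) (a := (36 * n ^ 2 - 35 * (k % 3) - k) / 3) (b := k % 3)
    (by omega) (by omega)
  have e : 6 * (6 * n ^ 2 - 6 * (k % 3)) - 3 * ((36 * n ^ 2 - 35 * (k % 3) - k) / 3) + k % 3 = k := by
    omega
  rw [e] at this
  exact ⟨_, this⟩

end Pool.Agent.Helper697.Rep
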